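import Pool.Agent.Work.MP_af7a01_gl.InterfaceB
import Pool.Agent.Work.MP_af7a01_h91.Growth

/-! Block ANP: the diagonal set is not in P. -/

open Classical Pool.IC

namespace Pool.GL

/-- first clear stack 0, then run `M` -/
theorem ANP_out (B : Set Str) (M : Cmd) (w z : Str) (N : ℕ) (o : Str)
    (h : out B M [] [] z N = some o) :
    out B (Cmd.seq (clr 0) M) w [] z (2 * w.length + 2 + N) = some o := by
  obtain ⟨m, hm, hex⟩ := clr_spec B 0 (init w [] z)
  have hlen : ((init w [] z) 0).length = w.length := rfl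
  rw [hlen] at hm
  have hupd : Function.update (init w [] z) 0 [] = init [] [] z := by
    funext i
    by_cases hi : i = 0
    · subst hi
      rw [Function.update_self]
      rfl
    · rw [Function.update_of_ne hi]
      unfold init
      rw [if_neg hi, if_neg hi]
  rw [hupd] at hex
  have h1 : (step B)^[m + 1] ([Cmd.seq (clr 0) M], init w [] z) = ([M], init [] [] z) := by
    rw [Function.iterate_succ_apply]
    exact hex [M]
  have h2 : (step B)^[N + (m + 1)] ([Cmd.seq (clr 0) M], init w [] z) =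
      (step B)^[N] ([M], init [] [] z) := by
    rw [Function.iterate_add_apply, h1]
  have h3 : out B (Cmd.seq (clr 0) M) w [] z (N + (m + 1)) = some o := by
    unfold out at h ⊢
    rw [h2]
    exact h
  exact out_mono h3 (by omega)

theorem p_ANP (hREC : Stmt_REC) (hIDX : Stmt_IDX) : Stmt_ANP := by
  intro U B J hJl hJu hP
  obtain ⟨q, M, hM⟩ := hP
  obtain ⟨i1, i2, _, i4, i5, _⟩ := hIDX
  have hj0 : jj J 0 = 0 := by
    have h := hJl (str 0)
    have h' : (str 0).length = 0 := rfl
    unfold jj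
    omega
  have hju : ∀ K, ∃ n, K ≤ jj J n := by
    intro K
    obtain ⟨z, hz⟩ := hJu K
    refine ⟨idx z, ?_⟩
    unfold jj
    rw [i2]
    exact hz
  obtain ⟨r1, r2, r3⟩ := hREC (jj J) hj0 hju
  obtain ⟨e, q', hsim⟩ := U.sim (Cmd.seq (clr 0) M)
  have hrun : ∀ w z : Str, U.run B (e ++ w) [] z (q'.eval (2 * w.length + 2 + q.eval z.length)) =
      some (chi (dA U B J) z) :=
    fun w z => hsim B w [] z _ _ (ANP_out B M w z _ _ (hM z))
  let P : Polynomial ℕ := q'.comp (Polynomial.C 2 * Polynomial.X + Polynomial.C 2 + q)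
  have hPe : ∀ n, P.eval n = q'.eval (2 * n + 2 + q.eval n) := by
    intro n
    simp [P, Polynomial.eval_comp]
  obtain ⟨L0, hL0⟩ := Filter.eventually_atTop.1 (poly_small P)
  obtain ⟨w, hw⟩ : ∃ w : Str, w = un (L0 + 2) := ⟨_, rfl⟩
  have hwl : w.length = L0 + 2 := by rw [hw]; simp
  obtain ⟨n, hn1, hn2⟩ := r2 (idx (e ++ w))
  obtain ⟨z, hz⟩ : ∃ z : Str, z = str n := ⟨_, rfl⟩
  have hzn : idx z = n := by rw [hz, i1]
  have hkn : idx (e ++ w) ≤ n := by
    have h := (r3 (jj J n) n).1
    rw [hn1, hn2] at h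
    exact h
  have hlen : (e ++ w).length ≤ z.length := i5 _ _ (by rw [hzn]; exact hkn)
  have hwz : w.length ≤ z.length := by
    rw [List.length_append] at hlen
    omega
  have hpow := i4 z
  rw [hzn] at hpow
  have htime : q'.eval (2 * w.length + 2 + q.eval z.length) ≤ n + 1 := by
    have h1 : q'.eval (2 * w.length + 2 + q.eval z.length) ≤ P.eval z.length := by
      rw [hPe]
      exact eval_mono q' (by omega)
    have h2 : P.eval z.length ≤ 2 ^ (z.length / 16) := hL0 z.length (by omega)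
    have h3 : 2 ^ (z.length / 16) ≤ 2 ^ z.length :=
      Nat.pow_le_pow_right (by norm_num) (Nat.div_le_self _ _)
    exact h1.trans (h2.trans (h3.trans hpow.1))
  have hfin := U.mono B (e ++ w) [] z _ (n + 1) _ htime (hrun w z)
  have hstr : str (idx (e ++ w)) = e ++ w := i2 _
  have hjz : (J z).length = jj J n := by rw [hz]; rfl
  have hN : n ≤ 2 ^ (z.length + 1) := by omega
  have hr := r1 (jj J n) n n (2 ^ (z.length + 1)) rfl le_rfl hN
  have hk1 : (rp (jj J) (J z).length (2 ^ (z.length + 1))).2.1 = idx (e ++ w) := by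
    rw [hjz, ← hr.1, hn1]
  have hk2 : (rp (jj J) (J z).length (2 ^ (z.length + 1))).2.2.1 = n := by
    rw [hjz, ← hr.2, hn2]
  have hmem : z ∈ dA U B J ↔ U.run B (e ++ w) [] z (n + 1) ≠ some [true] := by
    unfold dA
    rw [Set.mem_setOf_eq, hk1, hk2, hstr, ← hz]
  rw [hfin] at hmem
  unfold chi at hmem
  by_cases hzA : z ∈ dA U B J
  · have h := hmem.1 hzA
    rw [decide_eq_true hzA] at h
    exact h rfl
  · refine hzA (hmem.2 ?_)
    rw [decide_eq_false hzA]
    simp

end Pool.GL
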