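import Pool.Agent.Work.MP_af7a01_gl.InterfaceA

/-! Block BAS: identity, constants, adding a bit, tail, oracle questions are in `FP`. -/

open Classical Pool.IC

namespace Pool.GL

theorem BAS_fp {S : Set (Set Str)} {F : Set Str → Str → Str} (M : Cmd) (a b : ℕ)
    (h : ∀ B ∈ S, ∀ z : Str, ∃ s', ExecLe B M (init [] [] z) (a * z.length + b) s' ∧
      s' 3 = F B z) : FP S F := by
  refine ⟨M, Polynomial.C a * Polynomial.X + Polynomial.C b, fun B hB z => ?_⟩
  obtain ⟨s', ⟨m, hm, h1⟩, h2⟩ := h B hB z
  have h3 : (Polynomial.C a * Polynomial.X + Polynomial.C b : Polynomial ℕ).eval z.length =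
      a * z.length + b := by simp
  rw [h3, out_of_exec h1 hm, h2]

theorem BAS_two (z : Str) : (init [] [] z) 2 = z := rfl

theorem BAS_big (z : Str) {i : ℕ} (hi : 3 ≤ i) : (init [] [] z) i = [] := by
  rw [init_apply, if_neg (by omega), if_neg (by omega), if_neg (by omega)]

theorem BAS_mvo (B : Set Str) (z : Str) : ExecLe B (mvo 2 4 3) (init [] [] z)
    (10 * z.length + 3) (Function.update (Function.update (init [] [] z) 2 []) 3 z) := by
  have h := mvo_spec B (i := 2) (t := 4) (j := 3) (by omega) (by omega) (by omega)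
    (init [] [] z) (BAS_big z (by omega)) (BAS_big z (by omega))
  rw [BAS_two] at h
  exact h

/-- Push the bits of `w` on stack 3. -/
def BAS_psh : Str → Cmd
  | [] => Cmd.skip
  | b :: w => Cmd.seq (BAS_psh w) (Cmd.push 3 b)

theorem BAS_psh_spec (B : Set Str) (w : Str) (s : Store) (hs : s 3 = []) :
    ExecLe B (BAS_psh w) s (2 * w.length + 1) (Function.update s 3 w) := by
  induction w with
  | nil =>
    have : Function.update s 3 [] = s := by rw [← hs, Function.update_eq_self]
    rw [this]
    exact le_skip B s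
  | cons b w ih =>
    have h := push_spec B 3 b (Function.update s 3 w)
    rw [Function.update_idem, Function.update_self] at h
    exact (ih.seq h).mono (by simp only [List.length_cons]; omega)

theorem BAS_idn (S : Set (Set Str)) : FP S (fun _ x => x) :=
  BAS_fp (mvo 2 4 3) 10 3 fun B _ z => ⟨_, BAS_mvo B z, Function.update_self _ _ _⟩

theorem BAS_const (S : Set (Set Str)) (w : Str) : FP S (fun _ _ => w) :=
  BAS_fp (BAS_psh w) 0 (2 * w.length + 1) fun B _ z =>
    ⟨_, (BAS_psh_spec B w (init [] [] z) (BAS_big z le_rfl)).mono (by omega),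
      Function.update_self _ _ _⟩

theorem BAS_cons (S : Set (Set Str)) (b : Bool) : FP S (fun _ x => b :: x) := by
  refine BAS_fp (Cmd.seq (mvo 2 4 3) (Cmd.push 3 b)) 10 5 fun B _ z => ?_
  have h := push_spec B 3 b (Function.update (Function.update (init [] [] z) 2 []) 3 z)
  rw [Function.update_idem, Function.update_self] at h
  exact ⟨_, ((BAS_mvo B z).seq h).mono (by omega), Function.update_self _ _ _⟩

theorem BAS_tail (S : Set (Set Str)) : FP S (fun _ x => x.tail) := by
  refine BAS_fp (Cmd.seq (Cmd.pop 2) (mvo 2 4 3)) 10 5 fun B _ z => ?_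
  have h := pop_spec B 2 (init [] [] z)
  rw [BAS_two] at h
  have h4 : Function.update (init [] [] z) 2 z.tail = init [] [] z.tail := by
    funext i
    by_cases hi : i = 2
    · subst hi; rw [Function.update_self, BAS_two]
    · rw [Function.update_of_ne hi, init_apply, init_apply]
      by_cases h0 : i = 0
      · rw [if_pos h0, if_pos h0]
      · rw [if_neg h0, if_neg h0]
        by_cases h1 : i = 1
        · rw [if_pos h1, if_pos h1]
        · rw [if_neg h1, if_neg h1, if_neg hi, if_neg hi]
  rw [h4] at h
  have h5 : z.tail.length ≤ z.length := by rw [List.length_tail]; omega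
  exact ⟨_, (h.seq (BAS_mvo B z.tail)).mono (by omega), Function.update_self _ _ _⟩

theorem BAS_ask (S : Set (Set Str)) : FP S (fun B x => [decide (x ∈ B)]) := by
  refine BAS_fp (Cmd.ask 2 (Cmd.push 3 true) (Cmd.push 3 false)) 0 2 fun B _ z => ?_
  by_cases hz : z ∈ B
  · have h := push_spec B 3 true (init [] [] z)
    rw [BAS_big z le_rfl] at h
    refine ⟨_, (ExecLe.ask_yes (i := 2) hz h).mono (by omega), ?_⟩
    rw [Function.update_self, decide_eq_true hz]
  · have h := push_spec B 3 false (init [] [] z)
    rw [BAS_big z le_rfl] at h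
    refine ⟨_, (ExecLe.ask_no (i := 2) hz h).mono (by omega), ?_⟩
    rw [Function.update_self, decide_eq_false hz]

theorem p_BAS : Stmt_BAS := fun S =>
  ⟨BAS_idn S, BAS_const S, BAS_cons S, BAS_tail S, BAS_ask S⟩

end Pool.GL
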