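import Pool.Agent.Work.MP_af7a01_gl.InterfaceA

/-! # MP_af7a01_lc, GapLaw, block BND: growth of the configurations -/

open Classical Pool.IC

namespace Pool.GL

theorem BND_el_setL : ∀ (L : List Str) (i : ℕ) (v : Str), v.length ≤ (L.getD i []).length + 1 →
    (el (setL v i L)).length ≤ (el L).length + 2 * (i + 1) + 2
  | [], 0, v, h => by
      simp only [List.getD_nil, List.length_nil] at h
      rw [setL, length_el_cons]
      omega
  | a :: l, 0, v, h => by
      simp only [List.getD_cons_zero] at h
      rw [setL, length_el_cons, length_el_cons]
      omega
  | [], i + 1, v, h => by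
      have h1 := BND_el_setL [] i v (by simpa using h)
      rw [setL, length_el_cons]
      simp only [List.length_nil]
      omega
  | a :: l, i + 1, v, h => by
      have h1 := BND_el_setL l i v (by simpa using h)
      rw [setL, length_el_cons, length_el_cons]
      omega

theorem BND_el_setL' (L : List Str) (i : ℕ) (v : Str) (h : v.length ≤ (L.getD i []).length + 1)
    (b : ℕ) (hi : i ≤ b) : (el (setL v i L)).length ≤ (el L).length + 2 * b + 4 := by
  have := BND_el_setL L i v h
  omega

theorem BND_step (B : Set Str) (K L : List Str) (b : ℕ) (hb : ∀ c ∈ K, c.length ≤ b) :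
    (∀ c ∈ (stepL B (K, L)).1, c.length ≤ b) ∧
      (el (stepL B (K, L)).1).length + (el (stepL B (K, L)).2).length ≤
        (el K).length + (el L).length + (4 * b + 8) := by
  rcases K with _ | ⟨c, K⟩
  · exact ⟨hb, by simp only [stepL]; omega⟩
  have hK : ∀ c ∈ K, c.length ≤ b := fun d hd => hb d (List.mem_cons_of_mem _ hd)
  have hc : c.length ≤ b := hb c List.mem_cons_self
  have trivcase : (∀ c ∈ ((K, L) : List Str × List Str).1, c.length ≤ b) ∧
      (el ((K, L) : List Str × List Str).1).length + (el ((K, L) : List Str × List Str).2).length ≤
        (el (c :: K)).length + (el L).length + (4 * b + 8) := by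
    refine ⟨hK, ?_⟩
    rw [length_el_cons]
    show (el K).length + (el L).length ≤ _
    omega
  rcases c with _ | ⟨b1, _ | ⟨b2, _ | ⟨b3, r⟩⟩⟩
  · exact trivcase
  · cases b1 <;> exact trivcase
  · cases b1 <;> cases b2 <;> exact trivcase
  · have hr : r.length + 3 ≤ b := by
      simp only [List.length_cons] at hc
      omega
    have cons1 : ∀ y : Str, y.length ≤ b →
        (∀ c ∈ ((y :: K, L) : List Str × List Str).1, c.length ≤ b) ∧
        (el ((y :: K, L) : List Str × List Str).1).length +
          (el ((y :: K, L) : List Str × List Str).2).length ≤
          (el ((b1 :: b2 :: b3 :: r) :: K)).length + (el L).length + (4 * b + 8) := by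
      intro y hy
      refine ⟨?_, ?_⟩
      · intro d hd
        rcases List.mem_cons.1 hd with rfl | hd
        · exact hy
        · exact hK d hd
      · show (el (y :: K)).length + (el L).length ≤ _
        rw [length_el_cons, length_el_cons]
        omega
    have l1 := length_fs r
    have l2 := length_sn r
    have l3 := length_fs (sn r)
    have l4 := length_sn (sn r)
    have l5 := length_fs (sn (sn r))
    have l6 := length_sn (sn (sn r))
    cases b1 <;> cases b2 <;> cases b3
    · exact trivcase
    · simp only [stepL]
      refine ⟨hK, ?_⟩
      have := BND_el_setL' L (fs r).length (hdb (sn r) :: L.getD (fs r).length [])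
        (by simp) b (by omega)
      rw [length_el_cons]
      omega
    · simp only [stepL]
      refine ⟨hK, ?_⟩
      have := BND_el_setL' L r.length (L.getD r.length []).tail
        (by simp only [List.length_tail]; omega) b (by omega)
      rw [length_el_cons]
      omega
    · simp only [stepL]
      refine ⟨?_, ?_⟩
      · intro d hd
        simp only [List.mem_cons] at hd
        rcases hd with rfl | rfl | hd
        · omega
        · omega
        · exact hK d hd
      · rw [length_el_cons, length_el_cons, length_el_cons]
        omega
    · have hx : ∀ x : Str, (match x with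
        | [] => fs (sn r)
        | false :: _ => fs (sn (sn r))
        | true :: _ => sn (sn (sn r))).length ≤ b := by
        intro x
        rcases x with _ | ⟨_ | _, x⟩
        · show (fs (sn r)).length ≤ b
          omega
        · show (fs (sn (sn r))).length ≤ b
          omega
        · show (sn (sn (sn r))).length ≤ b
          omega
      exact cons1 _ (hx (L.getD (fs r).length []))
    · simp only [stepL]
      have hx1 : (if L.getD (fs r).length [] ∈ B then fs (sn r) else sn (sn r)).length ≤ b := by
        split_ifs <;> omega
      exact cons1 _ hx1
    · simp only [stepL]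
      split_ifs
      · exact trivcase
      · refine ⟨?_, ?_⟩
        · intro d hd
          simp only [List.mem_cons] at hd
          rcases hd with rfl | rfl | hd
          · omega
          · exact hc
          · exact hK d hd
        · show (el (sn r :: (true :: true :: false :: r) :: K)).length + (el L).length ≤ _
          rw [length_el_cons]
          omega
    · exact trivcase

theorem BND_mem : ∀ (K : List Str) (c : Str), c ∈ K → c.length ≤ (el K).length
  | [], c, h => absurd h List.not_mem_nil
  | a :: K, c, h => by
      rw [length_el_cons]
      rcases List.mem_cons.1 h with rfl | h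
      · omega
      · have := BND_mem K c h
        omega

theorem p_BND : Stmt_BND := by
  intro B K L n
  set W := (el K).length + (el L).length with hW
  have key : ∀ n : ℕ, (∀ c ∈ ((stepL B)^[n] (K, L)).1, c.length ≤ W) ∧
      (el ((stepL B)^[n] (K, L)).1).length + (el ((stepL B)^[n] (K, L)).2).length ≤
        W + n * (4 * W + 8) := by
    intro n
    induction n with
    | zero =>
      refine ⟨fun c hc => ?_, ?_⟩
      · have := BND_mem K c hc
        omega
      · simp only [Function.iterate_zero, id_eq, zero_mul, add_zero]
        omega
    | succ n ih =>
      rw [Function.iterate_succ_apply']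
      obtain ⟨h1, h2⟩ := ih
      have h3 := BND_step B ((stepL B)^[n] (K, L)).1 ((stepL B)^[n] (K, L)).2 W h1
      simp only [Prod.mk.eta] at h3
      refine ⟨h3.1, h3.2.trans ?_⟩
      have : (n + 1) * (4 * W + 8) = n * (4 * W + 8) + (4 * W + 8) := by ring
      rw [this]
      omega
  have h := (key n).2
  have h4 : (n + 1) * (4 * W + 8) = n * (4 * W + 8) + (4 * W + 8) := by ring
  rw [h4]
  omega

end Pool.GL
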