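import Pool.Agent.Work.MP_af7a01_gl.InterfaceB

/-! # MP_af7a01_lc, GapLaw, block BTD: the weakest form implies that there are no lower bounds -/

open Classical Pool.IC

namespace Pool.GL

theorem p_BTD (hSLW : Stmt_SLW) (hAEX : Stmt_AEX) (hDAD : Stmt_DAD) (hANP : Stmt_ANP)
    (hICU : Stmt_ICU) : Stmt_BTD := by
  intro U hU B ι D hD hW f hf
  by_contra hcon
  have hcon' : ∀ i : ι, {x | D i x < ((f x).length : ℕ∞)}.Finite := by
    intro i
    by_contra hi
    exact hcon ⟨i, hi⟩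
  obtain ⟨h, hh, hW'⟩ := hW
  obtain ⟨J, hJ, hJl, hJ2⟩ := hSLW B f h hf hh
  obtain ⟨a, ha⟩ := hDAD U B J hJl hJ.2
  obtain ⟨t, c, hic⟩ := hICU U B J a (dA U B J) hJ.1 ha
  obtain ⟨i, hi⟩ := hW' (dA U B J) (hAEX U hU B J hJ.1 hJl) (hANP U B J hJl hJ.2) t
  refine hi (((hcon' i).union (hD i (∑ k ∈ Finset.range (2 * c + 3), h k))).subset ?_)
  intro x hx
  rw [Set.mem_setOf_eq] at hx
  have h1 := hic x
  obtain ⟨k, hk⟩ := ENat.ne_top_iff_exists.1 (ne_top_of_le_ne_top (ENat.coe_ne_top _) h1)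
  have h2 := hx k hk.symm
  rw [← hk] at h1
  have h3 : k ≤ c + (J x).length + 1 := by exact_mod_cast h1
  by_cases hc : c + 1 ≤ (J x).length
  · left
    rw [Set.mem_setOf_eq]
    have h4 := hJ2 x k (by omega) (by omega)
    refine lt_of_le_of_lt h2 ?_
    have h5 : h k < (f x).length := by omega
    exact_mod_cast h5
  · right
    rw [Set.mem_setOf_eq]
    refine le_trans h2 ?_
    have h6 : h k ≤ ∑ k ∈ Finset.range (2 * c + 3), h k :=
      Finset.single_le_sum (fun _ _ => Nat.zero_le _) (Finset.mem_range.2 (by omega))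
    exact_mod_cast h6

end Pool.GL
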