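import Pool.Agent.Work.MP_af7a01_gl.InterfaceB

/-! # MP_af7a01_lc, GapLaw, block CAB: strongest form, Q1, weakest form -/

open Classical Pool.IC

namespace Pool.GL

theorem CAB_comp (B : Set Str) (h : ℕ → ℕ) (F : Set Str → Str → Str) (hF : FP Set.univ F)
    (hh : ∀ n, F B (un n) = un (h n)) : Computes B h := by
  obtain ⟨M, q, hq⟩ := hF
  refine ⟨M, fun n => ⟨q.eval (un n).length, ?_⟩⟩
  rw [hq B (Set.mem_univ B), hh]

theorem p_CAB (hLIB : Stmt_LIB) (hTLS : Stmt_TLS) : Stmt_CAB := by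
  intro U B ι D
  refine ⟨?_, ?_⟩
  · intro hS A hA hP t
    obtain ⟨i, hi⟩ := hS (fun n => n) (CAB_comp B _ (fun _ x => x) hLIB.idn fun n => rfl) A hA hP t
    refine ⟨i, 0, hi.mono ?_⟩
    rintro x ⟨k, hk1, hk2⟩
    rw [Set.mem_setOf_eq, hk1, Nat.cast_zero, add_zero]
    exact hk2
  · intro hfs hQ
    refine ⟨fun n => 2 * n, CAB_comp B _ (fun _ x => x ++ x)
      ((hTLS Set.univ).2.2 _ _ hLIB.idn hLIB.idn).2.2.2.1 (fun n => ?_), ?_⟩
    · rw [List.replicate_append_replicate, two_mul]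
    · rintro A ⟨c₀, M, hM⟩ hP t
      obtain ⟨i, c, hS⟩ := hQ A ⟨M, fun z => ⟨_, hM z⟩⟩ hP t
      refine ⟨i, (hS.diff (hfs i (2 * c))).mono ?_⟩
      rintro x ⟨hx1, hx2⟩ k hk
      rw [Set.mem_setOf_eq] at hx1 hx2
      rw [hk] at hx1
      have hx1' : D i x ≤ ((k + c : ℕ) : ℕ∞) := by
        rw [Nat.cast_add]
        exact hx1
      obtain ⟨m, hm⟩ := ENat.ne_top_iff_exists.1 (ne_top_of_le_ne_top (ENat.coe_ne_top _) hx1')
      rw [← hm] at hx1' hx2 ⊢
      have h1 : m ≤ k + c := by exact_mod_cast hx1'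
      have h2 : ¬ m ≤ 2 * c := by
        intro h
        exact hx2 (by exact_mod_cast h)
      have h3 : m ≤ 2 * k := by omega
      exact_mod_cast h3

end Pool.GL
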