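import Pool.Agent.Work.MP_af7a01_gl.InterfaceA

/-! Block CAS: case distinction is in `FP`. -/

open Classical Pool.IC

namespace Pool.GL

theorem CAS_big (p y z : Str) {i : ℕ} (hi : 3 ≤ i) : (init p y z) i = [] := by
  rw [init_apply, if_neg (by omega), if_neg (by omega), if_neg (by omega)]

theorem CAS_upd0 (p p' y z : Str) : Function.update (init p y z) 0 p' = init p' y z := by
  funext i
  by_cases hi : i = 0
  · subst hi; rw [Function.update_self]; rfl
  · rw [Function.update_of_ne hi, init_apply, init_apply, if_neg hi, if_neg hi]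

theorem CAS_upd2 (p y z z' : Str) : Function.update (init p y z) 2 z' = init p y z' := by
  funext i
  by_cases hi : i = 2
  · subst hi; rw [Function.update_self]; rfl
  · rw [Function.update_of_ne hi, init_apply, init_apply]
    by_cases h0 : i = 0
    · rw [if_pos h0, if_pos h0]
    · rw [if_neg h0, if_neg h0]
      by_cases h1 : i = 1
      · rw [if_pos h1, if_pos h1]
      · rw [if_neg h1, if_neg h1, if_neg hi, if_neg hi]

theorem CAS_upd3 (p y z : Str) : Function.update (init p y z) 3 [] = init p y z := by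
  rw [← CAS_big p y z (le_refl 3), Function.update_eq_self]

/-- The final part: restore `z` and run the clean program of `g`. -/
theorem CAS_fin {S : Set (Set Str)} {g : Set Str → Str → Str} {c : Cmd} {N : ℕ}
    {q : Polynomial ℕ}
    (hc : ∀ B ∈ S, ∀ s : Store, (∀ j, 2 + 1 ≤ j → j < 2 + N → s j = []) →
      ExecLe B c s (q.eval (s 2).length)
        (Function.update (Function.update s 2 []) (2 + 1) (g B (s 2))))
    (B : Set Str) (hB : B ∈ S) (z v : Str) :
    ∃ s', ExecLe B (Cmd.seq (clr 3) (Cmd.seq (mvo 0 3 2) c))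
      (Function.update (init z [] []) 3 v)
      (2 * v.length + 10 * z.length + q.eval z.length + 10) s' ∧ s' 3 = g B z := by
  have h1 := clr_spec B 3 (Function.update (init z [] []) 3 v)
  rw [Function.update_self, Function.update_idem, CAS_upd3] at h1
  have h2 := mvo_spec B (i := 0) (t := 3) (j := 2) (by omega) (by omega) (by omega)
    (init z [] []) (CAS_big z [] [] (le_refl 3)) rfl
  have h3 : (init z [] []) 0 = z := rfl
  rw [h3, CAS_upd0, CAS_upd2] at h2
  have h4 := hc B hB (init [] [] z) fun j hj _ => CAS_big [] [] z (by omega)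
  have h5 : (init [] [] z) 2 = z := rfl
  rw [h5] at h4
  refine ⟨_, (h1.seq (h2.seq h4)).mono (by omega), ?_⟩
  exact Function.update_self _ _ _

theorem p_CAS (hTOC : Stmt_TOC) : Stmt_CAS := by
  intro S f g₀ g₁ g₂ hf hg₀ hg₁ hg₂
  obtain ⟨r, hr⟩ := hf.length
  obtain ⟨Nf, qf, -, Hf⟩ := hTOC S f hf
  obtain ⟨N₀, q₀, -, H₀⟩ := hTOC S g₀ hg₀
  obtain ⟨N₁, q₁, -, H₁⟩ := hTOC S g₁ hg₁
  obtain ⟨N₂, q₂, -, H₂⟩ := hTOC S g₂ hg₂
  obtain ⟨cf, hcf⟩ := Hf 2
  obtain ⟨c₀, hc₀⟩ := H₀ 2
  obtain ⟨c₁, hc₁⟩ := H₁ 2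
  obtain ⟨c₂, hc₂⟩ := H₂ 2
  refine ⟨Cmd.seq (cpo 2 3 0) (Cmd.seq cf (Cmd.branch 3
      (Cmd.seq (clr 3) (Cmd.seq (mvo 0 3 2) c₀))
      (Cmd.seq (clr 3) (Cmd.seq (mvo 0 3 2) c₁))
      (Cmd.seq (clr 3) (Cmd.seq (mvo 0 3 2) c₂)))),
    Polynomial.C 22 * Polynomial.X + Polynomial.C 20 + qf + Polynomial.C 2 * r + q₀ + q₁ + q₂,
    fun B hB z => ?_⟩
  have e1 : (Polynomial.C 22 * Polynomial.X + Polynomial.C 20 + qf + Polynomial.C 2 * r + q₀ +
      q₁ + q₂ : Polynomial ℕ).eval z.length = 22 * z.length + 20 + qf.eval z.length +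
      2 * r.eval z.length + q₀.eval z.length + q₁.eval z.length + q₂.eval z.length := by simp
  have hz2 : (init [] [] z) 2 = z := rfl
  have h1 := cpo_spec B (i := 2) (t := 3) (j := 0) (by omega) (by omega) (by omega)
    (init [] [] z) (CAS_big [] [] z (le_refl 3)) rfl
  rw [hz2, CAS_upd0] at h1
  have h2 := hcf B hB (init z [] z) fun j hj _ => CAS_big z [] z (by omega)
  have h3 : (init z [] z) 2 = z := rfl
  rw [h3, CAS_upd2] at h2
  have hlen := hr B hB z
  set v := f B z with hv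
  have key : ∃ s', ExecLe B (Cmd.branch 3
      (Cmd.seq (clr 3) (Cmd.seq (mvo 0 3 2) c₀))
      (Cmd.seq (clr 3) (Cmd.seq (mvo 0 3 2) c₁))
      (Cmd.seq (clr 3) (Cmd.seq (mvo 0 3 2) c₂))) (Function.update (init z [] []) (2 + 1) v)
      (2 * v.length + 10 * z.length + (q₀.eval z.length + q₁.eval z.length + q₂.eval z.length)
        + 11) s' ∧ s' 3 = cas v (g₀ B z) (g₁ B z) (g₂ B z) := by
    have h3v : (Function.update (init z [] []) (2 + 1) v : Store) 3 = v :=
      Function.update_self _ _ _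
    cases hvv : v with
    | nil =>
      obtain ⟨s', h4, h5⟩ := CAS_fin hc₀ B hB z v
      refine ⟨s', ?_, h5⟩
      rw [hvv] at h3v h4
      exact (ExecLe.branch_nil h3v h4).mono (by omega)
    | cons b l =>
      cases b
      · obtain ⟨s', h4, h5⟩ := CAS_fin hc₁ B hB z v
        refine ⟨s', ?_, h5⟩
        rw [hvv] at h3v h4
        exact (ExecLe.branch_cons (b := false) (l := l) h3v h4).mono (by omega)
      · obtain ⟨s', h4, h5⟩ := CAS_fin hc₂ B hB z v
        refine ⟨s', ?_, h5⟩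
        rw [hvv] at h3v h4
        exact (ExecLe.branch_cons (b := true) (l := l) h3v h4).mono (by omega)
  obtain ⟨s', h4, h5⟩ := key
  obtain ⟨m, hm, h6⟩ := h1.seq (h2.seq h4)
  rw [e1, out_of_exec h6 (hm.trans (by omega)), h5]

end Pool.GL
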