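import Pool.Agent.Work.MP_af7a01_gl.InterfaceA

/-! # Block CMP: composition -/

open Classical Pool.IC

namespace Pool.GL

theorem p_CMP (hTOC : Stmt_TOC) : Stmt_CMP := by
  intro S F G hF hG
  obtain ⟨-, q₁, -, h₁⟩ := clean_area (hTOC S F hF)
  obtain ⟨-, q₂, -, h₂⟩ := clean_area (hTOC S G hG)
  obtain ⟨c₁, hc₁⟩ := h₁ 2
  obtain ⟨c₂, hc₂⟩ := h₂ 3
  obtain ⟨r₁, hr₁⟩ := hF.length
  obtain ⟨r₂, hr₂⟩ := hG.length
  refine ⟨Cmd.seq c₁ (Cmd.seq c₂ (mvo 4 5 3)),
    q₁ + (q₂.comp r₁ + (10 * r₂.comp r₁ + 3)) + 2, fun B hB z => ?_⟩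
  set s₀ : Store := init [] [] z with hs₀
  have e₀ : s₀ 2 = z := rfl
  have e₀' : ∀ j, 2 < j → s₀ j = [] := fun j hj => by
    rw [hs₀, init_apply, if_neg (by omega), if_neg (by omega), if_neg (by omega)]
  have x₁ := hc₁ B hB s₀ e₀'
  rw [e₀] at x₁
  set s₁ : Store := Function.update (Function.update s₀ 2 []) (2 + 1) (F B z) with hs₁
  have e₁ : s₁ 3 = F B z := by rw [hs₁]; exact Function.update_self _ _ _
  have e₁' : ∀ j, 3 < j → s₁ j = [] := fun j hj => by
    rw [hs₁, Function.update_of_ne (by omega), Function.update_of_ne (by omega)]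
    exact e₀' j (by omega)
  have x₂ := hc₂ B hB s₁ e₁'
  rw [e₁] at x₂
  set s₂ : Store := Function.update (Function.update s₁ 3 []) (3 + 1) (G B (F B z)) with hs₂
  have e₂ : s₂ 4 = G B (F B z) := by rw [hs₂]; exact Function.update_self _ _ _
  have e₂' : s₂ 3 = [] := by
    rw [hs₂, Function.update_of_ne (by omega), Function.update_self]
  have e₂'' : s₂ 5 = [] := by
    rw [hs₂, Function.update_of_ne (by omega), Function.update_of_ne (by omega)]
    exact e₁' 5 (by omega)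
  have x₃ := mvo_spec B (i := 4) (t := 5) (j := 3) (by omega) (by omega) (by omega) s₂ e₂'' e₂'
  rw [e₂] at x₃
  have x := x₁.seq (x₂.seq x₃)
  obtain ⟨m, hm, hx⟩ := x
  have hm' : m ≤ (q₁ + (q₂.comp r₁ + (10 * r₂.comp r₁ + 3)) + 2).eval z.length := by
    refine hm.trans ?_
    have a₁ := hr₁ B hB z
    have a₂ := hr₂ B hB (F B z)
    have a₃ := eval_mono r₂ a₁
    have a₄ := eval_mono q₂ a₁
    simp only [Polynomial.eval_add, Polynomial.eval_comp, Polynomial.eval_mul,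
      Polynomial.eval_ofNat]
    omega
  rw [out_of_exec hx hm', Function.update_self]

end Pool.GL
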