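import Pool.Agent.Work.MP_af7a01_gl.InterfaceB

/-! Block CNB (helper41): no unbounded polynomial time lower bounds for `coCD`. -/

open Classical Pool.IC

namespace Pool.GL

theorem CNB_hdb_rep (k : ℕ) : hdb (List.replicate k true) = true ↔ 0 < k := by
  cases k with
  | zero => simp [hdb]
  | succ k => simp [hdb, List.replicate_succ]

theorem CNB_hdb (a b i : ℕ) :
    hdb ((List.replicate a false ++ (un b).drop a).drop i) = true ↔ a ≤ i ∧ i < b := by
  rw [List.drop_append, List.drop_replicate, List.length_replicate, List.drop_replicate,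
    List.drop_replicate]
  by_cases h : a ≤ i
  · rw [show a - i = 0 by omega, List.replicate_zero, List.nil_append, CNB_hdb_rep]
    omega
  · obtain ⟨k, hk⟩ : ∃ k, a - i = k + 1 := ⟨a - i - 1, by omega⟩
    rw [hk, List.replicate_succ, List.cons_append]
    simp only [hdb]
    constructor
    · intro h1; exact absurd h1 (by decide)
    · intro h1; exact absurd h1.1 h

/-- the first part of the table -/
noncomputable def CNB_G (f : Str → Str) (x : Str) : Str :=
  if idx (fs x) < idx (sn x) then f (fs x) else []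

/-- the table -/
noncomputable def CNB_T (f : Str → Str) (x : Str) : Str :=
  List.replicate (CNB_G f x).length false ++ (un (f (sn x)).length).drop (CNB_G f x).length

theorem CNB_dec (p : Prop) (i j : Decidable p) : @decide p i = @decide p j := by
  by_cases h : p
  · rw [@decide_eq_true p i h, @decide_eq_true p j h]
  · rw [@decide_eq_false p i h, @decide_eq_false p j h]

theorem CNB_FP (hLIB : Stmt_LIB) (hTLS : Stmt_TLS) (hLTC : Stmt_LTC) {B : Set Str}
    {f : Str → Str} (hf : FP {B} (fun _ => f)) : FP {B} (fun _ => CNB_T f) := by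
  have L : Lib := hLIB
  obtain ⟨h1, h2, h3⟩ := hTLS {B}
  have hfst : FP {B} (fun _ x => fs x) := L.fst L.idn
  have hsnd : FP {B} (fun _ x => sn x) := L.snd L.idn
  have hc := hLTC {B} (fun _ x => fs x) (fun _ x => sn x) hfst hsnd
  have hff : FP {B} (fun _ x => f (fs x)) := L.comp hfst hf
  have hfs : FP {B} (fun _ x => f (sn x)) := L.comp hsnd hf
  have hG : FP {B} (fun _ x => CNB_G f x) := by
    have hc' : FP {B} (fun (_ : Set Str) x => [@decide (idx (fs x) < idx (sn x))
        (propDecidable (idx (fs x) < idx (sn x)))]) := by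
      have e : (fun (_ : Set Str) (x : Str) => [@decide (idx (fs x) < idx (sn x))
          (propDecidable (idx (fs x) < idx (sn x)))]) =
          (fun (_ : Set Str) (x : Str) => [decide (idx (fs x) < idx (sn x))]) := by
        funext _ x
        rw [CNB_dec (idx (fs x) < idx (sn x))]
      rw [e]
      exact hc
    have := h2 (fun _ x => idx (fs x) < idx (sn x)) (fun _ x => f (fs x)) (fun _ _ => []) hc' hff
      (L.const [])
    have e : (fun (_ : Set Str) (x : Str) => CNB_G f x) =
        (fun (_ : Set Str) (x : Str) => @ite Str (idx (fs x) < idx (sn x))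
          (propDecidable (idx (fs x) < idx (sn x))) (f (fs x)) []) := by
      funext _ x
      unfold CNB_G
      by_cases h : idx (fs x) < idx (sn x)
      · rw [if_pos h, if_pos h]
      · rw [if_neg h, if_neg h]
    rw [e]
    exact this
  have hU : FP {B} (fun _ x => un (f (sn x)).length) :=
    (h3 (fun _ x => f (sn x)) (fun _ x => f (sn x)) hfs hfs).2.2.2.2.2.2.1
  have hD : FP {B} (fun _ x => (un (f (sn x)).length).drop (CNB_G f x).length) :=
    (h3 (fun _ x => un (f (sn x)).length) (fun _ x => CNB_G f x) hU hG).2.2.1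
  exact (h3 (fun _ x => CNB_G f x)
    (fun _ x => (un (f (sn x)).length).drop (CNB_G f x).length) hG hD).2.2.2.2.2.2.2

theorem CNB_T_pr (f : Str → Str) (y z : Str) (i : ℕ) :
    hdb ((CNB_T f (pr y z)).drop i) = true ↔
      (idx y < idx z → (f y).length ≤ i) ∧ i < (f z).length := by
  unfold CNB_T
  rw [CNB_hdb, sn_pr]
  unfold CNB_G
  rw [fs_pr, sn_pr]
  by_cases h : idx y < idx z
  · rw [if_pos h]
    exact ⟨fun h1 => ⟨fun _ => h1.1, h1.2⟩, fun h1 => ⟨h1.1 h, h1.2⟩⟩
  · rw [if_neg h]
    exact ⟨fun h1 => ⟨fun h2 => absurd h2 h, h1.2⟩, fun h1 => ⟨by simp, h1.2⟩⟩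

theorem p_CNB (hLIB : Stmt_LIB) (hTLS : Stmt_TLS) (hIDX : Stmt_IDX) (hLTC : Stmt_LTC)
    (hCVP : Stmt_CVP) : Stmt_CNB := by
  intro U B f hf
  obtain ⟨hf1, hf2⟩ := hf
  obtain ⟨i1, i2, i3, i4, i5, i6⟩ := hIDX
  obtain ⟨N, r, hN⟩ := hCVP B (CNB_T f) (CNB_FP hLIB hTLS hLTC hf1)
  obtain ⟨e, q, hq⟩ := U.sim N
  set t' : Polynomial ℕ := q.comp r + Polynomial.X with ht'
  have hte : ∀ n : ℕ, t'.eval n = q.eval (r.eval n) + n := by
    intro n
    rw [ht', Polynomial.eval_add, Polynomial.eval_comp, Polynomial.eval_X]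
  have hrun : ∀ p y z : Str, U.run B (e ++ p) y z (t'.eval z.length) =
      some [hdb ((CNB_T f (pr (y.take (z.length + 1)) z)).drop (2 * p.length))] := by
    intro p y z
    refine U.mono B (e ++ p) y z (q.eval (r.eval z.length)) _ _ ?_ (hq B p y z _ _ (hN p y z))
    rw [hte]; omega
  refine ⟨t', ?_⟩
  have hex : ∀ l : ℕ, ∃ n, 2 * l < (f (str n)).length := by
    intro l
    obtain ⟨z, hz⟩ := hf2 (2 * l + 1)
    refine ⟨idx z, ?_⟩
    rw [i2]
    omega
  have key : ∀ l : ℕ, ∃ x : Str, 2 * l < (f x).length ∧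
      coCD U B (fun n => t'.eval n) x ≤ ((e.length + l : ℕ) : ℕ∞) := by
    intro l
    set n := Nat.find (hex l) with hn
    have hn1 : 2 * l < (f (str n)).length := Nat.find_spec (hex l)
    have hn2 : ∀ y : Str, idx y < n → (f y).length ≤ 2 * l := by
      intro y hy
      have := Nat.find_min (hex l) hy
      rw [i2] at this
      omega
    refine ⟨str n, hn1, ?_⟩
    have hlen : ((e ++ un l).length : ℕ∞) = ((e.length + l : ℕ) : ℕ∞) := by
      rw [List.length_append, List.length_replicate]
    rw [← hlen]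
    unfold coCD
    refine iInf₂_le (e ++ un l) ?_
    intro z
    have hr : ∀ w : Str, U.run B (e ++ un l) w z (t'.eval z.length) =
        some [hdb ((CNB_T f (pr (w.take (z.length + 1)) z)).drop (2 * l))] := by
      intro w
      have := hrun (un l) w z
      rwa [List.length_replicate] at this
    have hr' : ∀ w : Str, U.run B (e ++ un l) w z (t'.eval z.length) = some [true] ↔
        ((idx (w.take (z.length + 1)) < idx z → (f (w.take (z.length + 1))).length ≤ 2 * l) ∧
          2 * l < (f z).length) := by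
      intro w
      rw [hr, ← CNB_T_pr]
      simp
    refine ⟨fun w _ => ⟨_, hr w⟩, ?_, ?_⟩
    · intro hz w _
      refine (hr' w).2 ⟨fun h => hn2 _ ?_, ?_⟩
      · rwa [show idx z = n by rw [hz, i1]] at h
      · rw [hz]; exact hn1
    · intro hw
      have h0 := ((hr' []).1 (hw [] (by simp))).2
      have h1 : n ≤ idx z := by
        refine Nat.find_min' (hex l) ?_
        rw [i2]; exact h0
      by_contra hne
      have h2 : n ≠ idx z := by
        intro h3
        apply hne
        rw [h3, i2]
      have h3 : n < idx z := lt_of_le_of_ne h1 h2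
      have h4 : (str n).length ≤ z.length := i5 _ _ (by rw [i1]; exact h1)
      have h5 : (str n).take (z.length + 1) = str n := List.take_of_length_le (by omega)
      have h6 := ((hr' (str n)).1 (hw (str n) (by
        show (str n).length ≤ t'.eval z.length
        rw [hte]; omega))).1
      rw [h5, i1] at h6
      have h7 := h6 h3
      omega
  by_contra hfin
  rw [Set.not_infinite] at hfin
  obtain ⟨K, hK⟩ := (hfin.image (fun x => (f x).length)).bddAbove
  obtain ⟨x, hx1, hx2⟩ := key (e.length + K + 1)
  have hmem : x ∈ {x | coCD U B (fun n => t'.eval n) x < ((f x).length : ℕ∞)} := by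
    refine lt_of_le_of_lt hx2 ?_
    rw [Nat.cast_lt]
    omega
  have h8 := hK ⟨x, hmem, rfl⟩
  simp only at h8
  omega

end Pool.GL
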