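import Pool.Agent.Work.MP_af7a01_gl.InterfaceA

/-! # Block COD: every program has a code -/

open Classical Pool.IC

namespace Pool.GL

theorem p_COD : Stmt_COD := by
  intro M
  induction M with
  | skip => simp [code, dec]
  | push i b => simp [code, dec, fs_pr, sn_pr, hdb]
  | pop i => simp [code, dec]
  | seq c d hc hd => simp [code, dec, fs_pr, sn_pr, hc, hd]
  | branch i e f t he hf ht => simp [code, dec, fs_pr, sn_pr, he, hf, ht]
  | ask i y n hy hn => simp [code, dec, fs_pr, sn_pr, hy, hn]
  | loop i c hc => simp [code, dec, fs_pr, sn_pr, hc]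

end Pool.GL
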