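import Pool.Agent.Work.MP_af7a01_gl.InterfaceB

/-! # MP_af7a01_lc, GapLaw, block CVP: look up a bit of a table -/

open Classical Pool.IC

namespace Pool.GL

theorem CVP_pop3 (B : Set Str) (a b c d e f g : Str) :
    ExecLe B (Cmd.pop 3) (st a b c d e f g) 1 (st a b c d.tail e f g) :=
  ⟨1, le_rfl, by have := exec_pop B 3 (st a b c d e f g); rwa [upd3] at this⟩

/-- first loop: cut `y` -/
def CVP_L1 : Cmd := Cmd.loop 4 (Cmd.seq (Cmd.pop 4) (Cmd.branch 1 Cmd.skip
  (Cmd.seq (Cmd.pop 1) (Cmd.push 5 false)) (Cmd.seq (Cmd.pop 1) (Cmd.push 5 true))))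

theorem CVP_L1_spec (B : Set Str) (a c d g : Str) (e : Str) : ∀ (b f : Str),
    ExecLe B CVP_L1 (st a b c d e f g) (7 * e.length + 1)
      (st a (b.drop e.length) c d [] ((b.take e.length).reverse ++ f) g) := by
  unfold CVP_L1
  induction e with
  | nil =>
    intro b f
    exact ExecLe.loop_nil (i := 4) (s := st a b c d [] f g) rfl
  | cons x e ih =>
    intro b f
    rcases b with _ | ⟨y, b⟩
    · have h1 : ExecLe B (Cmd.seq (Cmd.pop 4) (Cmd.branch 1 Cmd.skip
          (Cmd.seq (Cmd.pop 1) (Cmd.push 5 false)) (Cmd.seq (Cmd.pop 1) (Cmd.push 5 true))))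
          (st a [] c d (x :: e) f g) 4 (st a [] c d e f g) :=
        ((pop4 B a [] c d (x :: e) f g).seq
          (ExecLe.branch_nil (i := 1) (s := st a [] c d e f g) rfl (le_skip B _))).mono (by omega)
      have h2 := ih [] f
      refine (ExecLe.loop_step (i := 4) (s := st a [] c d (x :: e) f g) (by simp [st]) h1
        (by simpa using h2)).mono ?_
      simp only [List.length_cons]
      omega
    · have h1 : ExecLe B (Cmd.seq (Cmd.pop 4) (Cmd.branch 1 Cmd.skip
          (Cmd.seq (Cmd.pop 1) (Cmd.push 5 false)) (Cmd.seq (Cmd.pop 1) (Cmd.push 5 true))))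
          (st a (y :: b) c d (x :: e) f g) 6 (st a b c d e (y :: f) g) := by
        refine ((pop4 B a (y :: b) c d (x :: e) f g).seq
          (ExecLe.branch_cons (i := 1) (s := st a (y :: b) c d e f g) (b := y) (l := b) rfl
            (n := 3) (s' := st a b c d e (y :: f) g) ?_)).mono (by omega)
        cases y
        · exact (pop1 B a (false :: b) c d e f g).seq (push5 B a b c d e f g false)
        · exact (pop1 B a (true :: b) c d e f g).seq (push5 B a b c d e f g true)
      have h2 := ih b (y :: f)
      refine (ExecLe.loop_step (i := 4) (s := st a (y :: b) c d (x :: e) f g) (by simp [st]) h1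
        (by simpa using h2)).mono ?_
      simp only [List.length_cons]
      omega

/-- second loop: marks -/
def CVP_L2 : Cmd := Cmd.loop 5 (Cmd.branch 5 Cmd.skip
  (Cmd.seq (Cmd.pop 5) (Cmd.seq (Cmd.push 2 false) (Cmd.push 2 true)))
  (Cmd.seq (Cmd.pop 5) (Cmd.seq (Cmd.push 2 true) (Cmd.push 2 true))))

theorem CVP_L2_spec (B : Set Str) (a b d e g : Str) (f : Str) : ∀ c : Str,
    ExecLe B CVP_L2 (st a b c d e f g) (7 * f.length + 1)
      (st a b (mark f.reverse ++ c) d e [] g) := by
  unfold CVP_L2
  induction f with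
  | nil =>
    intro c
    exact ExecLe.loop_nil (i := 5) (s := st a b c d e [] g) rfl
  | cons x f ih =>
    intro c
    have h1 : ExecLe B (Cmd.branch 5 Cmd.skip
        (Cmd.seq (Cmd.pop 5) (Cmd.seq (Cmd.push 2 false) (Cmd.push 2 true)))
        (Cmd.seq (Cmd.pop 5) (Cmd.seq (Cmd.push 2 true) (Cmd.push 2 true))))
        (st a b c d e (x :: f) g) 6 (st a b (true :: x :: c) d e f g) := by
      refine ExecLe.branch_cons (i := 5) (s := st a b c d e (x :: f) g) (b := x) (l := f) rfl
        (n := 5) (s' := st a b (true :: x :: c) d e f g) ?_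
      cases x
      · exact (pop5 B a b c d e (false :: f) g).seq
          ((push2 B a b c d e f g false).seq (push2 B a b (false :: c) d e f g true))
      · exact (pop5 B a b c d e (true :: f) g).seq
          ((push2 B a b c d e f g true).seq (push2 B a b (true :: c) d e f g true))
    have h2 := ih (true :: x :: c)
    have h3 : mark f.reverse ++ true :: x :: c = mark (x :: f).reverse ++ c := by
      rw [List.reverse_cons, mark_append, mark_cons]
      simp [mark]
    rw [h3] at h2
    refine (ExecLe.loop_step (i := 5) (s := st a b c d e (x :: f) g) (by simp [st]) h1 h2).mono ?_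
    simp only [List.length_cons]
    omega

/-- the record step -/
def CVP_E : Cmd := Cmd.branch 3 Cmd.skip (Cmd.seq (Cmd.push 4 false) (clr 3))
  (Cmd.seq (Cmd.push 4 true) (clr 3))

/-- third loop: look up -/
def CVP_L3 : Cmd := Cmd.loop 3 (Cmd.branch 0 CVP_E
  (Cmd.seq (Cmd.pop 0) (Cmd.seq (Cmd.pop 3) (Cmd.pop 3)))
  (Cmd.seq (Cmd.pop 0) (Cmd.seq (Cmd.pop 3) (Cmd.pop 3))))

theorem CVP_L3_spec (B : Set Str) (b c f g : Str) : ∀ (a d : Str), ∃ a' : Str,
    ExecLe B CVP_L3 (st a b c d [] f g) (8 * d.length + 8)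
      (st a' b c [] ((d.drop (2 * a.length)).take 1) f g) := by
  intro a
  induction a with
  | nil =>
    intro d
    rcases d with _ | ⟨x, d⟩
    · refine ⟨[], ?_⟩
      refine (ExecLe.loop_nil (i := 3) (s := st [] b c [] [] f g) rfl).mono (by simp)
    · refine ⟨[], ?_⟩
      have h1 : ExecLe B CVP_E (st [] b c (x :: d) [] f g) (2 * (x :: d).length + 4)
          (st [] b c [] [x] f g) := by
        refine (ExecLe.branch_cons (i := 3) (s := st [] b c (x :: d) [] f g) (b := x) (l := d) rfl
          (n := 2 * (x :: d).length + 3) (s' := st [] b c [] [x] f g) ?_)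
        have hc := clr_spec B 3 (st [] b c (x :: d) [x] f g)
        rw [upd3] at hc
        have hc' : ExecLe B (clr 3) (st [] b c (x :: d) [x] f g) (2 * (x :: d).length + 1)
          (st [] b c [] [x] f g) := hc
        cases x
        · exact ((push4 B [] b c (false :: d) [] f g false).seq hc').mono (by omega)
        · exact ((push4 B [] b c (true :: d) [] f g true).seq hc').mono (by omega)
      have h2 : ExecLe B (Cmd.branch 0 CVP_E
          (Cmd.seq (Cmd.pop 0) (Cmd.seq (Cmd.pop 3) (Cmd.pop 3)))
          (Cmd.seq (Cmd.pop 0) (Cmd.seq (Cmd.pop 3) (Cmd.pop 3))))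
          (st [] b c (x :: d) [] f g) (2 * (x :: d).length + 5) (st [] b c [] [x] f g) :=
        ExecLe.branch_nil (i := 0) (s := st [] b c (x :: d) [] f g) rfl h1
      refine (ExecLe.loop_step (i := 3) (s := st [] b c (x :: d) [] f g) (by simp [st]) h2
        (ExecLe.loop_nil (i := 3) (s := st [] b c [] [x] f g) rfl)).mono ?_
      simp only [List.length_cons]
      omega
  | cons y a ih =>
    intro d
    rcases d with _ | ⟨x, d⟩
    · refine ⟨y :: a, ?_⟩
      have h : (([] : Str).drop (2 * (y :: a).length)).take 1 = [] := by simp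
      rw [h]
      exact (ExecLe.loop_nil (i := 3) (s := st (y :: a) b c [] [] f g) rfl).mono (by simp)
    · obtain ⟨a', h2⟩ := ih d.tail
      refine ⟨a', ?_⟩
      have h1 : ExecLe B (Cmd.branch 0 CVP_E
          (Cmd.seq (Cmd.pop 0) (Cmd.seq (Cmd.pop 3) (Cmd.pop 3)))
          (Cmd.seq (Cmd.pop 0) (Cmd.seq (Cmd.pop 3) (Cmd.pop 3))))
          (st (y :: a) b c (x :: d) [] f g) 6 (st a b c d.tail [] f g) := by
        refine ExecLe.branch_cons (i := 0) (s := st (y :: a) b c (x :: d) [] f g) (b := y) (l := a)
          rfl (n := 5) (s' := st a b c d.tail [] f g) ?_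
        have h := (pop0 B (y :: a) b c (x :: d) [] f g).seq
          ((CVP_pop3 B a b c (x :: d) [] f g).seq (CVP_pop3 B a b c d [] f g))
        cases y
        · exact h
        · exact h
      have h3 : ((x :: d).drop (2 * (y :: a).length)).take 1 =
          (d.tail.drop (2 * a.length)).take 1 := by
        rw [List.length_cons, show 2 * (a.length + 1) = (2 * a.length + 1) + 1 by ring,
          List.drop_succ_cons]
        cases d with
        | nil => simp
        | cons z d => rw [List.drop_succ_cons, List.tail_cons]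
      rw [h3]
      refine (ExecLe.loop_step (i := 3) (s := st (y :: a) b c (x :: d) [] f g) (by simp [st]) h1
        h2).mono ?_
      have h4 : d.tail.length ≤ d.length := by simp
      simp only [List.length_cons]
      omega

theorem CVP_hdb_take (d : Str) : hdb (d.take 1) = hdb d := by
  cases d <;> rfl

theorem p_CVP (hTOC : Stmt_TOC) : Stmt_CVP := by
  intro B T hT
  obtain ⟨rT, hrT⟩ := hT.length
  obtain ⟨N₀, q, hN₀, hclean⟩ := clean_area (hTOC _ _ hT)
  obtain ⟨cT, hcT⟩ := hclean 2
  set P3 : Polynomial ℕ := 3 * Polynomial.X + 3 with hP3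
  refine ⟨Cmd.seq (cpo 2 3 4) (Cmd.seq (Cmd.push 4 true) (Cmd.seq CVP_L1 (Cmd.seq (Cmd.push 2 false)
    (Cmd.seq CVP_L2 (Cmd.seq cT (Cmd.seq CVP_L3
      (Cmd.branch 4 (Cmd.push 3 false) (Cmd.push 3 false) (Cmd.push 3 true)))))))),
    26 * Polynomial.X + 60 + q.comp P3 + 8 * rT.comp P3, ?_⟩
  intro p y z
  set u : Str := y.take (z.length + 1) with hu
  have hul : u.length ≤ z.length + 1 := by rw [hu]; simp
  -- (1)
  have s1 : ExecLe B (cpo 2 3 4) (st p y z [] [] [] []) (12 * z.length + 3)
      (st p y z [] z [] []) := by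
    have h := cpo_spec B (i := 2) (t := 3) (j := 4) (by decide) (by decide) (by decide)
      (st p y z [] [] [] []) rfl rfl
    rw [upd4] at h
    exact h
  have s2 : ExecLe B (Cmd.push 4 true) (st p y z [] z [] []) 1 (st p y z [] (true :: z) [] []) :=
    push4 B p y z [] z [] [] true
  have s3 : ExecLe B CVP_L1 (st p y z [] (true :: z) [] []) (7 * (z.length + 1) + 1)
      (st p (y.drop (z.length + 1)) z [] [] u.reverse []) := by
    have h := CVP_L1_spec B p z [] [] (true :: z) y []
    rw [List.length_cons, List.append_nil] at h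
    exact h
  -- (2)
  have s4 : ExecLe B (Cmd.push 2 false) (st p (y.drop (z.length + 1)) z [] [] u.reverse []) 1
      (st p (y.drop (z.length + 1)) (false :: z) [] [] u.reverse []) :=
    push2 B p (y.drop (z.length + 1)) z [] [] u.reverse [] false
  have s5 : ExecLe B CVP_L2 (st p (y.drop (z.length + 1)) (false :: z) [] [] u.reverse [])
      (7 * (z.length + 1) + 1) (st p (y.drop (z.length + 1)) (pr u z) [] [] [] []) := by
    have h := CVP_L2_spec B p (y.drop (z.length + 1)) [] [] [] u.reverse (false :: z)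
    rw [List.reverse_reverse, List.length_reverse] at h
    exact h.mono (by omega)
  -- (3)
  have hlen : (pr u z).length ≤ P3.eval z.length := by
    rw [length_pr, hP3]
    simp only [Polynomial.eval_add, Polynomial.eval_mul, Polynomial.eval_ofNat, Polynomial.eval_X]
    omega
  have hTl : (T (pr u z)).length ≤ rT.eval (P3.eval z.length) :=
    (hrT B rfl (pr u z)).trans (eval_mono rT hlen)
  have s6 : ExecLe B cT (st p (y.drop (z.length + 1)) (pr u z) [] [] [] [])
      (q.eval (P3.eval z.length))
      (st p (y.drop (z.length + 1)) [] (T (pr u z)) [] [] []) := by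
    have h := hcT B rfl (st p (y.drop (z.length + 1)) (pr u z) [] [] [] []) (by
      intro j hj
      rcases j with _ | _ | _ | _ | _ | _ | _ | j
      · omega
      · omega
      · omega
      all_goals rfl)
    rw [upd2, upd3] at h
    exact h.mono (eval_mono q hlen)
  -- (4)
  obtain ⟨p', s7⟩ := CVP_L3_spec B (y.drop (z.length + 1)) [] [] [] p (T (pr u z))
  set bt : Str := ((T (pr u z)).drop (2 * p.length)).take 1 with hbt
  have s8 : ExecLe B (Cmd.branch 4 (Cmd.push 3 false) (Cmd.push 3 false) (Cmd.push 3 true))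
      (st p' (y.drop (z.length + 1)) [] [] bt [] []) 2
      (st p' (y.drop (z.length + 1)) [] [hdb bt] bt [] []) := by
    rcases hb : bt with _ | ⟨x, l⟩
    · exact ExecLe.branch_nil (i := 4) (s := st p' (y.drop (z.length + 1)) [] [] [] [] []) rfl
        (push3 B p' (y.drop (z.length + 1)) [] [] [] [] [] false)
    · refine ExecLe.branch_cons (i := 4) (s := st p' (y.drop (z.length + 1)) [] [] (x :: l) [] [])
        (b := x) (l := l) rfl (n := 1) ?_
      cases x
      · exact push3 B p' (y.drop (z.length + 1)) [] [] (false :: l) [] [] false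
      · exact push3 B p' (y.drop (z.length + 1)) [] [] (true :: l) [] [] true
  obtain ⟨n, hn, hx⟩ := s1.seq (s2.seq (s3.seq (s4.seq (s5.seq (s6.seq (s7.seq s8))))))
  rw [← init_eq] at hx
  have hres : hdb bt = hdb ((T (pr u z)).drop (2 * p.length)) := CVP_hdb_take _
  have hout := out_of_exec hx (N := (26 * Polynomial.X + 60 + q.comp P3 + 8 * rT.comp P3 :
    Polynomial ℕ).eval z.length) (by
      refine hn.trans ?_
      simp only [Polynomial.eval_add, Polynomial.eval_mul, Polynomial.eval_ofNat,
        Polynomial.eval_X, Polynomial.eval_comp]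
      omega)
  rw [hout, ← hres]
  rfl

end Pool.GL
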