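import Pool.Agent.Work.MP_af7a01_gl.InterfaceB

set_option autoImplicit false

open Classical Pool.IC

namespace Pool.GL

/-- the encoded state -/
noncomputable def DGF_enc (J : Str → Str) (m : Str) (l : ℕ) : Str :=
  pr (str l) (pr (un l) (pr (J (str (rp (jj J) m.length l).2.2.1))
    (pr (str (rp (jj J) m.length l).2.1) (pr (str (rp (jj J) m.length l).2.2.1)
      (pr (un ((rp (jj J) m.length l).2.2.1 + 1)) (pr [(rp (jj J) m.length l).2.2.2] m))))))

/-- the step -/
noncomputable def DGF_step (J : Str → Str) (a : Str) : Str :=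
  if fs (sn (sn (sn (sn (sn (sn a)))))) = [true] then
    pr (inc (fs a)) (pr (true :: fs (sn a)) (sn (sn a)))
  else if (sn (sn (sn (sn (sn (sn (sn a))))))).length < (J (inc (fs a))).length then
    pr (inc (fs a)) (pr (true :: fs (sn a)) (pr (fs (sn (sn a))) (pr (fs (sn (sn (sn a))))
      (pr (fs (sn (sn (sn (sn a))))) (pr (fs (sn (sn (sn (sn (sn a))))))
        (pr [true] (sn (sn (sn (sn (sn (sn (sn a))))))))))))) 
  else if (fs (sn (sn a))).length < (J (inc (fs a))).length then
    pr (inc (fs a)) (pr (true :: fs (sn a)) (pr (J (inc (fs a))) (pr (inc (fs (sn (sn (sn a)))))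
      (pr (inc (fs a)) (pr (true :: true :: fs (sn a))
        (pr [false] (sn (sn (sn (sn (sn (sn (sn a)))))))))))))
  else pr (inc (fs a)) (pr (true :: fs (sn a)) (sn (sn a)))

theorem DGF_fst (j : ℕ → ℕ) (h0 : j 0 = 0) (m n : ℕ) : (rp j m n).1 = j (rp j m n).2.2.1 := by
  induction n with
  | zero => exact h0.symm
  | succ n ih =>
    rw [rp]
    split_ifs
    · exact ih
    · exact ih
    · rfl
    · exact ih

theorem DGF_bound (j : ℕ → ℕ) (m n : ℕ) : (rp j m n).2.1 ≤ n ∧ (rp j m n).2.2.1 ≤ n := by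
  induction n with
  | zero => exact ⟨le_rfl, le_rfl⟩
  | succ n ih =>
    rw [rp]
    split_ifs
    · exact ⟨by omega, by omega⟩
    · exact ⟨by show (rp j m n).2.1 ≤ n + 1; omega, by show (rp j m n).2.2.1 ≤ n + 1; omega⟩
    · exact ⟨by show (rp j m n).2.1 + 1 ≤ n + 1; omega, le_rfl⟩
    · exact ⟨by omega, by omega⟩

theorem DGF_step_enc (hI : Stmt_IDX) (J : Str → Str) (hJ : ∀ z, (J z).length ≤ z.length)
    (m : Str) (l : ℕ) : DGF_step J (DGF_enc J m l) = DGF_enc J m (l + 1) := by
  obtain ⟨-, -, hinc, -, -, -⟩ := hI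
  have h0 : jj J 0 = 0 := by
    have h1 := hJ (str 0)
    have h2 : (str 0).length = 0 := rfl
    unfold jj
    omega
  have hfst := DGF_fst (jj J) h0 m.length l
  have hun : ∀ k : ℕ, true :: un k = un (k + 1) := fun k => rfl
  have hjj : (J (str (l + 1))).length = jj J (l + 1) := rfl
  have hjv : (J (str (rp (jj J) m.length l).2.2.1)).length =
    jj J (rp (jj J) m.length l).2.2.1 := rfl
  unfold DGF_step DGF_enc
  simp only [fs_pr, sn_pr]
  rw [← hinc, hjj, hjv, ← hfst, hun, hun, ← hinc]
  by_cases hs : (rp (jj J) m.length l).2.2.2 = true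
  · have e : rp (jj J) m.length (l + 1) = rp (jj J) m.length l := by
      rw [rp, if_pos hs]
    rw [if_pos (by rw [hs]), e]
  · have hs' : (rp (jj J) m.length l).2.2.2 = false := by simpa using hs
    rw [if_neg (by rw [hs']; simp)]
    by_cases hm : m.length < jj J (l + 1)
    · have e : rp (jj J) m.length (l + 1) = ((rp (jj J) m.length l).1,
          (rp (jj J) m.length l).2.1, (rp (jj J) m.length l).2.2.1, true) := by
        rw [rp, if_neg hs, if_pos hm]
      rw [if_pos hm, e]
    · rw [if_neg hm]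
      by_cases hr : (rp (jj J) m.length l).1 < jj J (l + 1)
      · have e : rp (jj J) m.length (l + 1) = (jj J (l + 1),
            (rp (jj J) m.length l).2.1 + 1, l + 1, false) := by
          rw [rp, if_neg hs, if_neg hm, if_pos hr]
        rw [if_pos hr, e]
      · have e : rp (jj J) m.length (l + 1) = rp (jj J) m.length l := by
          rw [rp, if_neg hs, if_neg hm, if_neg hr]
        rw [if_neg hr, e]

theorem DGF_fold (hI : Stmt_IDX) (J : Str → Str) (hJ : ∀ z, (J z).length ≤ z.length)
    (m : Str) (w : Str) (l : ℕ) :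
    w.foldl (fun a _ => DGF_step J a) (DGF_enc J m l) = DGF_enc J m (l + w.length) := by
  induction w generalizing l with
  | nil => rfl
  | cons b w ih =>
    rw [List.foldl_cons, DGF_step_enc hI J hJ m l, ih, List.length_cons]
    congr 1
    omega

theorem p_DGF (hL : Stmt_LIB) (hT : Stmt_TLS) (hI : Stmt_IDX) (hInc : Stmt_INC) : Stmt_DGF := by
  intro U hU B J hJ hJl
  obtain ⟨R, hR, hRU⟩ := hU
  obtain ⟨hT1, hT2, hT3⟩ := hT {B}
  have hL' : Lib := hL
  have hR' : FP {B} R := hR.mono (Set.subset_univ _)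
  -- the step is polynomial time
  have id0 : FP {B} (fun _ x => x) := hL'.idn
  have s1 : FP {B} (fun _ x => sn x) := hL'.snd id0
  have s2 : FP {B} (fun _ x => sn (sn x)) := hL'.snd s1
  have s3 : FP {B} (fun _ x => sn (sn (sn x))) := hL'.snd s2
  have s4 : FP {B} (fun _ x => sn (sn (sn (sn x)))) := hL'.snd s3
  have s5 : FP {B} (fun _ x => sn (sn (sn (sn (sn x))))) := hL'.snd s4
  have s6 : FP {B} (fun _ x => sn (sn (sn (sn (sn (sn x)))))) := hL'.snd s5
  have s7 : FP {B} (fun _ x => sn (sn (sn (sn (sn (sn (sn x))))))) := hL'.snd s6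
  have f0 : FP {B} (fun _ x => fs x) := hL'.fst id0
  have f1 : FP {B} (fun _ x => fs (sn x)) := hL'.fst s1
  have f2 : FP {B} (fun _ x => fs (sn (sn x))) := hL'.fst s2
  have f3 : FP {B} (fun _ x => fs (sn (sn (sn x)))) := hL'.fst s3
  have f4 : FP {B} (fun _ x => fs (sn (sn (sn (sn x))))) := hL'.fst s4
  have f5 : FP {B} (fun _ x => fs (sn (sn (sn (sn (sn x)))))) := hL'.fst s5
  have f6 : FP {B} (fun _ x => fs (sn (sn (sn (sn (sn (sn x))))))) := hL'.fst s6
  have c1 : FP {B} (fun _ x => inc (fs x)) := hInc _ _ f0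
  have u1 : FP {B} (fun _ x => true :: fs (sn x)) := hL'.cons true f1
  have u2 : FP {B} (fun _ x => true :: true :: fs (sn x)) := hL'.cons true u1
  have jc : FP {B} (fun _ x => J (inc (fs x))) := hL'.comp c1 hJ
  have p1 : FP {B} (fun _ x => inc (fs (sn (sn (sn x))))) := hInc _ _ f3
  have keep : FP {B} (fun _ x => pr (inc (fs x)) (pr (true :: fs (sn x)) (sn (sn x)))) :=
    hL'.pair c1 (hL'.pair u1 s2)
  have T2 : ∀ (P : Set Str → Str → Prop) (F G : Set Str → Str → Str)
      [∀ B' x, Decidable (P B' x)], FP {B} (fun B' x => [decide (P B' x)]) → FP {B} F →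
      FP {B} G → FP {B} (fun B' x => if P B' x then F B' x else G B' x) := by
    intro P F G _ hP hF hG
    have h1 := hT2 P F G (hP.congr (fun _ _ _ => by congr)) hF hG
    exact h1.congr (fun _ _ _ => by congr)
  have hstep : FP {B} (fun _ x => DGF_step J x) := by
    unfold DGF_step
    refine T2 _ _ _ (hT3 _ _ f6 (hL'.const [true])).1 keep ?_
    refine T2 _ _ _ (hT3 _ _ s7 jc).2.1 ?_ ?_
    · exact hL'.pair c1 (hL'.pair u1 (hL'.pair f2 (hL'.pair f3 (hL'.pair f4 (hL'.pair f5
        (hL'.pair (hL'.const [true]) s7))))))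
    · refine T2 _ _ _ (hT3 _ _ f2 jc).2.1 ?_ keep
      exact hL'.pair c1 (hL'.pair u1 (hL'.pair jc (hL'.pair p1 (hL'.pair c1 (hL'.pair u2
        (hL'.pair (hL'.const [false]) s7))))))
  -- the start
  have hstart : FP {B} (fun _ x => DGF_enc J (J (sn x)) 0) := by
    have : FP {B} (fun _ x => pr [] (pr [] (pr (J []) (pr [] (pr [] (pr [true]
        (pr [false] (J (sn x))))))))) :=
      hL'.pair (hL'.const []) (hL'.pair (hL'.const []) (hL'.pair (hL'.const (J []))
        (hL'.pair (hL'.const []) (hL'.pair (hL'.const []) (hL'.pair (hL'.const [true])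
          (hL'.pair (hL'.const [false]) (hL'.comp s1 hJ)))))))
    exact this
  -- the fold
  have hfold : FP {B} (fun _ x => DGF_enc J (J (sn x)) (fs x).length) := by
    have h1 : FP {B} (fun _ x => (fs x).foldl (fun a _ => DGF_step J a)
        (DGF_enc J (J (sn x)) 0)) := by
      refine hL'.fold (g := fun _ _ a => DGF_step J a) f0 hstart (fun _ => hstep) ?_
      refine ⟨13 * Polynomial.X + 20, ?_⟩
      intro B' _ x l hl
      rw [DGF_fold hI J hJl, Nat.zero_add]
      have e1 : (13 * Polynomial.X + 20 : Polynomial ℕ).eval x.length = 13 * x.length + 20 := by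
        simp
      rw [e1]
      have hl1 : l.length ≤ x.length := (hl.length_le).trans (length_fs x)
      obtain ⟨-, -, -, -, -, hstr⟩ := hI
      obtain ⟨b1, b2⟩ := DGF_bound (jj J) (J (sn x)).length l.length
      unfold DGF_enc
      simp only [length_pr, List.length_replicate, List.length_cons, List.length_nil]
      have a1 := hstr l.length
      have a2 := hJl (str (rp (jj J) (J (sn x)).length l.length).2.2.1)
      have a3 := hstr (rp (jj J) (J (sn x)).length l.length).2.2.1
      have a4 := hstr (rp (jj J) (J (sn x)).length l.length).2.1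
      have a5 := hJl (sn x)
      have a6 := length_sn x
      omega
    refine h1.congr ?_
    intro B' _ x
    rw [DGF_fold hI J hJl, Nat.zero_add]
  -- the output
  have hout : FP {B} (fun B' a => [decide (¬ (R B' (pr (fs (sn (sn (sn (sn (sn a))))))
      (pr (fs (sn (sn (sn a)))) (pr [] (fs (sn (sn (sn (sn a)))))))) = [true, true]))]) := by
    have hr : FP {B} (fun B' a => R B' (pr (fs (sn (sn (sn (sn (sn a))))))
      (pr (fs (sn (sn (sn a)))) (pr [] (fs (sn (sn (sn (sn a))))))))) :=
      hL'.comp (hL'.pair f5 (hL'.pair f3 (hL'.pair (hL'.const []) f4))) hR'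
    have he : FP {B} (fun B' a => [@decide (R B' (pr (fs (sn (sn (sn (sn (sn a))))))
      (pr (fs (sn (sn (sn a)))) (pr [] (fs (sn (sn (sn (sn a)))))))) = [true, true])
        (propDecidable _)]) :=
      (hT3 _ _ hr (hL'.const [true, true])).1.congr (fun _ _ _ => by congr)
    exact (hT1 _ _ he he).2.2.congr (fun _ _ _ => by congr)
  have hfin := hL'.comp hfold hout
  refine hfin.congr ?_
  intro B' hB' x
  have hB : B' = B := hB'
  subst hB
  unfold DGF_enc
  simp only [fs_pr, sn_pr]
  rw [hRU, List.length_replicate]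
  have hopt : ∀ o : Option Str, opt o = [true, true] ↔ o = some [true] := by
    intro o
    cases o with
    | none => simp [opt]
    | some v => simp [opt]
  congr 1
  rw [decide_eq_decide, hopt]

end Pool.GL
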