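import Pool.Agent.Work.MP_af7a01_gl.InterfaceB

/-! # MP_af7a01_lc, GapLaw, block DTC: no lower bounds implies the strongest form -/

open Classical Pool.IC

namespace Pool.GL

theorem p_DTC (hGFN : Stmt_GFN) (hGLE : Stmt_GLE) (hGUB : Stmt_GUB) (hSLW : Stmt_SLW) :
    Stmt_DTC := by
  intro U hU B ι D hN h hh A hA hP t
  obtain ⟨M, hM⟩ := hA
  have hf : UnbFP B (fun z => str (gg U B M t z)) := by
    refine ⟨?_, hGUB U hU B M t A hM hP⟩
    refine ((hGFN U hU M t).mono (Set.subset_univ {B})).congr ?_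
    intro B' hB' x
    rw [Set.mem_singleton_iff] at hB'
    rw [hB']
  obtain ⟨J, hJ, -, hJ2⟩ := hSLW B _ h hf hh
  obtain ⟨i, hi⟩ := hN J hJ
  refine ⟨i, hi.mono ?_⟩
  intro x hx
  rw [Set.mem_setOf_eq] at hx
  obtain ⟨k, hk⟩ := ENat.ne_top_iff_exists.1 (ne_top_of_lt hx)
  rw [← hk] at hx
  have h1 : k < (J x).length := by exact_mod_cast hx
  have h2 := hJ2 x k (by omega) (by omega)
  refine ⟨k, hk.symm, ?_⟩
  refine le_trans ?_ (hGLE U B M t A hM x)
  have h3 : h k ≤ (str (gg U B M t x)).length := by omega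
  exact_mod_cast h3

end Pool.GL
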