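import Pool.Agent.Work.MP_af7a01_gl.InterfaceA

/-! Block EXP (helper41): exponential time. -/

open Classical Pool.IC

namespace Pool.GL

/-- doubling of stack 4 -/
def EXP_D : Cmd := Cmd.seq (mvv 4 5 6) (Cmd.seq (mv 5 4) (mv 6 4))

theorem EXP_D_spec (B : Set Str) (a b c d : Str) (k : ℕ) :
    ExecLe B EXP_D (st a b c d (un k) [] []) (17 * k + 5) (st a b c d (un (2 * k)) [] []) := by
  unfold EXP_D
  have h1 := mvv_spec B (i := 4) (j := 5) (k := 6) (by decide) (by decide) (by decide)
    (st a b c d (un k) [] [])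
  rw [upd4, upd5, upd6] at h1
  simp only [st, List.append_nil, List.reverse_replicate, List.length_replicate] at h1
  have h2 := mv_spec B (i := 5) (j := 4) (by decide) (st a b c d [] (un k) (un k))
  rw [upd5, upd4] at h2
  simp only [st, List.append_nil, List.reverse_replicate, List.length_replicate] at h2
  have h3 := mv_spec B (i := 6) (j := 4) (by decide) (st a b c d (un k) [] (un k))
  rw [upd6, upd4] at h3
  simp only [st, List.reverse_replicate, List.length_replicate,
    List.replicate_append_replicate] at h3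
  have h4 := h1.seq (h2.seq h3)
  rw [show k + k = 2 * k by ring] at h4
  exact h4.mono (by omega)

/-- the loop of part (2) -/
def EXP_L : Cmd := Cmd.loop 0 (Cmd.branch 0 Cmd.skip
  (Cmd.seq (Cmd.pop 0) (Cmd.seq (Cmd.push 1 false) EXP_D))
  (Cmd.seq (Cmd.pop 0) (Cmd.seq (Cmd.push 1 true) EXP_D)))

theorem EXP_push1 (B : Set Str) (a b c d e f g : Str) (x : Bool) :
    ExecLe B (Cmd.push 1 x) (st a b c d e f g) 1 (st a (x :: b) c d e f g) :=
  ⟨1, le_rfl, by have := exec_push B 1 x (st a b c d e f g); rwa [upd1] at this⟩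

theorem EXP_L_spec (B : Set Str) (l b : Str) (k : ℕ) (hk : 1 ≤ k) :
    ExecLe B EXP_L (st l b [] [] (un k) [] []) (28 * ((l.length + 1) * k * 2 ^ l.length))
      (st [] (l.reverse ++ b) [] [] (un (2 ^ l.length * k)) [] []) := by
  induction l generalizing b k with
  | nil =>
    unfold EXP_L
    simp only [List.length_nil, pow_zero, List.reverse_nil, List.nil_append, one_mul, zero_add,
      mul_one]
    exact (ExecLe.loop_nil rfl).mono (by omega)
  | cons x l ih =>
    have h1 : ExecLe B (Cmd.branch 0 Cmd.skip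
        (Cmd.seq (Cmd.pop 0) (Cmd.seq (Cmd.push 1 false) EXP_D))
        (Cmd.seq (Cmd.pop 0) (Cmd.seq (Cmd.push 1 true) EXP_D)))
        (st (x :: l) b [] [] (un k) [] []) (17 * k + 10)
        (st l (x :: b) [] [] (un (2 * k)) [] []) := by
      refine (ExecLe.branch_cons (b := x) (l := l) (n := 17 * k + 9) rfl ?_).mono (by omega)
      cases x
      · exact ((pop0 B (false :: l) b [] [] (un k) [] []).seq
          ((EXP_push1 B l b [] [] (un k) [] [] false).seq
            (EXP_D_spec B l (false :: b) [] [] k))).mono (by omega)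
      · exact ((pop0 B (true :: l) b [] [] (un k) [] []).seq
          ((EXP_push1 B l b [] [] (un k) [] [] true).seq
            (EXP_D_spec B l (true :: b) [] [] k))).mono (by omega)
    have h2 := ih (x :: b) (2 * k) (by omega)
    have h3 := ExecLe.loop_step (i := 0) (c := Cmd.branch 0 Cmd.skip
        (Cmd.seq (Cmd.pop 0) (Cmd.seq (Cmd.push 1 false) EXP_D))
        (Cmd.seq (Cmd.pop 0) (Cmd.seq (Cmd.push 1 true) EXP_D))) (by simp [st]) h1 h2
    have h4 : (x :: l).reverse ++ b = l.reverse ++ x :: b := by simp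
    have h5 : 2 ^ (x :: l).length * k = 2 ^ l.length * (2 * k) := by
      rw [List.length_cons, pow_succ]; ring
    rw [h4, h5]
    refine h3.mono ?_
    have h6 : 1 ≤ 2 ^ l.length := Nat.one_le_two_pow
    have h7 : k ≤ k * 2 ^ l.length := Nat.le_mul_of_pos_right _ h6
    have h8 : ((x :: l).length + 1) * k * 2 ^ (x :: l).length =
        (l.length + 1) * (2 * k) * 2 ^ l.length + 2 * (k * 2 ^ l.length) := by
      rw [List.length_cons, pow_succ]; ring
    rw [h8]
    omega

/-- the loop of part (3) -/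
def EXP_M : Cmd := Cmd.loop 4 (Cmd.seq (Cmd.pop 4) (Cmd.seq (Cmd.push 2 true) (Cmd.push 2 true)))

theorem EXP_M_spec (B : Set Str) (c : Str) (k : ℕ) :
    ExecLe B EXP_M (st [] [] c [] (un k) [] []) (6 * k + 1)
      (st [] [] (un (2 * k) ++ c) [] [] [] []) := by
  induction k generalizing c with
  | zero =>
    unfold EXP_M
    exact (ExecLe.loop_nil rfl).mono (by omega)
  | succ k ih =>
    have h1 : ExecLe B (Cmd.seq (Cmd.pop 4) (Cmd.seq (Cmd.push 2 true) (Cmd.push 2 true)))
        (st [] [] c [] (un (k + 1)) [] []) 5 (st [] [] (true :: true :: c) [] (un k) [] []) := by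
      have := (pop4 B [] [] c [] (un (k + 1)) [] []).seq
        ((push2 B [] [] c [] (un (k + 1)).tail [] [] true).seq
          (push2 B [] [] (true :: c) [] (un (k + 1)).tail [] [] true))
      exact this
    have h3 := ExecLe.loop_step (i := 4)
      (c := Cmd.seq (Cmd.pop 4) (Cmd.seq (Cmd.push 2 true) (Cmd.push 2 true)))
      (by simp [st, List.replicate_succ]) h1 (ih (true :: true :: c))
    have h4 : un (2 * (k + 1)) ++ c = un (2 * k) ++ true :: true :: c := by
      rw [show 2 * (k + 1) = 2 * k + 2 by ring]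
      unfold un
      rw [List.replicate_add]
      simp [List.replicate_succ]
    rw [h4]
    exact h3.mono (by omega)

theorem EXP_mark_un (k : ℕ) : mark (un k) = un (2 * k) := by
  induction k with
  | zero => rfl
  | succ k ih =>
    rw [show un (k + 1) = true :: un k from List.replicate_succ, mark_cons, ih,
      show 2 * (k + 1) = 2 * k + 1 + 1 by ring]
    rfl

/-- the program which builds the input -/
def EXP_P : Cmd :=
  Cmd.seq (mv 2 0) (Cmd.seq (Cmd.push 4 true) (Cmd.seq (Cmd.push 4 true) (Cmd.seq EXP_L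
    (Cmd.seq (mvo 1 5 2) (Cmd.seq (Cmd.push 2 false) EXP_M)))))

theorem EXP_P_spec (B : Set Str) (z : Str) :
    ExecLe B EXP_P (st [] [] z [] [] [] [])
      (15 * z.length + 28 * ((z.length + 1) * 2 * 2 ^ z.length) + 6 * 2 ^ (z.length + 1) + 20)
      (st [] [] (pr (un (2 ^ (z.length + 1))) z) [] [] [] []) := by
  unfold EXP_P
  have h1 := mv_spec B (i := 2) (j := 0) (by decide) (st [] [] z [] [] [] [])
  rw [upd2, upd0] at h1
  simp only [st, List.append_nil] at h1
  have h2 := push4 B z.reverse [] [] [] [] [] [] true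
  have h3 := push4 B z.reverse [] [] [] [true] [] [] true
  have h4 := EXP_L_spec B z.reverse [] 2 (by omega)
  simp only [List.length_reverse, List.reverse_reverse, List.append_nil] at h4
  have h5 := mvo_spec B (i := 1) (t := 5) (j := 2) (by decide) (by decide) (by decide)
    (st [] z [] [] (un (2 ^ z.length * 2)) [] []) rfl rfl
  rw [upd1, upd2] at h5
  simp only [st] at h5
  have h6 := push2 B [] [] z [] (un (2 ^ z.length * 2)) [] [] false
  have h7 := EXP_M_spec B (false :: z) (2 ^ z.length * 2)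
  have h8 := h1.seq (h2.seq (h3.seq (h4.seq (h5.seq (h6.seq h7)))))
  have h9 : un (2 * (2 ^ z.length * 2)) ++ false :: z = pr (un (2 ^ (z.length + 1))) z := by
    rw [pr, EXP_mark_un, pow_succ]
  rw [h9] at h8
  refine h8.mono ?_
  rw [pow_succ]
  omega

theorem EXP_poly (q : Polynomial ℕ) : ∃ C k : ℕ, ∀ m : ℕ, 1 ≤ m → q.eval m ≤ C * m ^ k := by
  refine ⟨q.eval 1, q.natDegree, fun m hm => ?_⟩
  rw [Polynomial.eval_eq_sum_range, Polynomial.eval_eq_sum_range, Finset.sum_mul]
  refine Finset.sum_le_sum fun i hi => ?_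
  rw [one_pow, mul_one]
  refine Nat.mul_le_mul_left _ (Nat.pow_le_pow_right hm ?_)
  have := Finset.mem_range.1 hi
  omega

theorem EXP_bound (q : Polynomial ℕ) : ∃ c : ℕ, ∀ n : ℕ,
    15 * n + 28 * ((n + 1) * 2 * 2 ^ n) + 6 * 2 ^ (n + 1) + 20 +
      q.eval (2 * 2 ^ (n + 1) + n + 1) + 1 ≤ 2 ^ (c * n + c) := by
  obtain ⟨C, k, hC⟩ := EXP_poly q
  refine ⟨200 + C + 4 * (k + 2), fun n => ?_⟩
  have h1 : n < 2 ^ n := Nat.lt_two_pow_self
  set A := 2 ^ n with hA
  have h2 : 2 ^ (n + 1) = 2 * A := by rw [pow_succ, hA]; ring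
  have h3 : 2 ^ (n + 4) = 16 * A := by rw [pow_add, hA]; ring
  have hA1 : 1 ≤ A := by omega
  have h4 : q.eval (2 * 2 ^ (n + 1) + n + 1) ≤ C * (16 * A) ^ k := by
    refine (eval_mono q (n := 16 * A) ?_).trans (hC (16 * A) (by omega))
    rw [h2]; omega
  have h5 : (16 * A) ^ k ≤ (16 * A) ^ (k + 2) := Nat.pow_le_pow_right (by omega) (by omega)
  have h6 : (16 * A) ^ 2 ≤ (16 * A) ^ (k + 2) := Nat.pow_le_pow_right (by omega) (by omega)
  have h7 : 15 * n + 28 * ((n + 1) * 2 * A) + 6 * 2 ^ (n + 1) + 21 ≤ 200 * (16 * A) ^ 2 := by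
    rw [h2]
    nlinarith
  have h8 : 200 * (16 * A) ^ (k + 2) + C * (16 * A) ^ (k + 2) ≤
      2 ^ (200 + C) * (16 * A) ^ (k + 2) := by
    rw [← Nat.add_mul]
    exact Nat.mul_le_mul_right _ (Nat.lt_two_pow_self).le
  have h9 : 2 ^ (200 + C) * (16 * A) ^ (k + 2) ≤
      2 ^ ((200 + C + 4 * (k + 2)) * n + (200 + C + 4 * (k + 2))) := by
    rw [← h3, ← pow_mul, ← pow_add]
    refine Nat.pow_le_pow_right (by omega) ?_
    nlinarith [Nat.zero_le (k * n), Nat.zero_le (C * n)]
  have h10 : C * (16 * A) ^ k ≤ C * (16 * A) ^ (k + 2) := Nat.mul_le_mul_left _ h5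
  have h11 : 200 * (16 * A) ^ 2 ≤ 200 * (16 * A) ^ (k + 2) := Nat.mul_le_mul_left _ h6
  omega

theorem p_EXP (hTOC : Stmt_TOC) : Stmt_EXP := by
  intro B R A hR hA
  obtain ⟨N₀, q, -, h2⟩ := clean_area (hTOC _ _ hR)
  obtain ⟨c, hc⟩ := h2 2
  obtain ⟨C, hC⟩ := EXP_bound q
  refine ⟨C, Cmd.seq EXP_P c, fun z => ?_⟩
  have h3 := EXP_P_spec B z
  have h4 := hc B rfl (st [] [] (pr (un (2 ^ (z.length + 1))) z) [] [] [] []) (fun j hj => by
    match j, hj with
    | 3, _ => rfl
    | 4, _ => rfl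
    | 5, _ => rfl
    | 6, _ => rfl
    | (j + 7), _ => rfl)
  obtain ⟨m, hm, h5⟩ := h3.seq h4
  rw [← init_eq] at h5
  have h6 : (st [] [] (pr (un (2 ^ (z.length + 1))) z) [] [] [] []) 2 =
    pr (un (2 ^ (z.length + 1))) z := rfl
  rw [h6] at hm h5
  rw [out_of_exec h5 (N := 2 ^ (C * z.length + C)) ?_, Function.update_self, hA]
  refine hm.trans (le_trans (le_of_eq ?_) (hC z.length))
  rw [length_pr, List.length_replicate]

end Pool.GL
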