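import Pool.Agent.Work.MP_af7a01_gl.InterfaceA

/-! Block FIN of MP_af7a01_lc (GapLaw), helper56. -/

set_option autoImplicit false

open Classical Pool.IC

namespace Pool.GL

theorem FIN_dec {S : Set (Set Str)} {F : Set Str → Str → Prop}
    {inst : ∀ B x, Decidable (F B x)} (h : FP S (fun B x => [@decide (F B x) (inst B x)])) :
    FP S (fun B x => [@decide (F B x) (propDecidable (F B x))]) := by
  refine h.congr ?_
  intro B _ x
  congr

theorem FIN_ind (hL : Lib) (hT : Stmt_TLS) (B : Set Str) (g : Str → Str) (s : Finset Str) :
    ∀ f : Str → Str, FP {B} (fun _ => f) → (∀ x, f x ≠ g x → x ∈ s) → FP {B} (fun _ => g) := by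
  induction s using Finset.induction_on with
  | empty =>
    intro f hf h
    have h1 : f = g := by
      funext x
      by_contra hne
      exact absurd (h x hne) (Finset.notMem_empty x)
    rw [← h1]
    exact hf
  | insert w s _ ih =>
    intro f hf h
    refine ih (fun x => if x = w then g w else f x) ?_ ?_
    · have h1 := ((hT {B}).2.2 (fun _ x => x) (fun _ _ => w) hL.idn (hL.const w)).1
      have h2 := (hT {B}).2.1 (fun _ x => x = w) (fun _ _ => g w) (fun _ => f)
        (FIN_dec (F := fun _ x => x = w) (inst := fun _ x => instDecidableEqList x w) h1)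
        (hL.const (g w)) hf
      refine h2.congr ?_
      intro B' _ x
      by_cases hx : x = w
      · simp [hx]
      · simp [hx]
    · intro x hx
      by_cases hxw : x = w
      · subst hxw
        simp at hx
      · simp only [hxw, if_false] at hx
        have h3 := h x hx
        rw [Finset.mem_insert] at h3
        rcases h3 with h3 | h3
        · exact absurd h3 hxw
        · exact h3

theorem p_FIN (hL : Stmt_LIB) (hT : Stmt_TLS) : Stmt_FIN := by
  intro B f g hf hfin
  refine FIN_ind hL hT B g hfin.toFinset f hf ?_
  intro x hx
  rw [Set.Finite.mem_toFinset]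
  exact hx

end Pool.GL
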