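import Pool.Agent.Work.MP_af7a01_gl.InterfaceA

/-! Block FLD: bounded recursion. -/

open Classical Pool.IC

namespace Pool.GL

/-- The loop over the bits of stack 1 with accumulator on stack 3. -/
theorem FLD_loop (B : Set Str) (G : Bool → Cmd) (g : Bool → Str → Str) (T : ℕ) (l : Str) :
    ∀ a : Str, (∀ (l1 : Str) (b : Bool) (l2 : Str), l = l1 ++ b :: l2 →
      ExecLe B (G b) (st [] l2 [] (l1.foldl (fun a b => g b a) a) [] [] []) T
        (st [] l2 [] ((l1 ++ [b]).foldl (fun a b => g b a) a) [] [] [])) →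
    ExecLe B (Cmd.loop 1 (Cmd.branch 1 Cmd.skip (Cmd.seq (Cmd.pop 1) (G false))
        (Cmd.seq (Cmd.pop 1) (G true)))) (st [] l [] a [] [] []) (l.length * (T + 4) + 1)
      (st [] [] [] (l.foldl (fun a b => g b a) a) [] [] []) := by
  induction l with
  | nil =>
    intro a _
    have h := ExecLe.loop_nil (B := B) (i := 1) (c := Cmd.branch 1 Cmd.skip
      (Cmd.seq (Cmd.pop 1) (G false)) (Cmd.seq (Cmd.pop 1) (G true)))
      (s := st [] [] [] a [] [] []) rfl
    exact h.mono (by omega)
  | cons b l ih =>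
    intro a hr
    have h0 := hr [] b l rfl
    simp only [List.foldl_nil, List.nil_append, List.foldl_cons] at h0
    have h1 : ExecLe B (Cmd.branch 1 Cmd.skip (Cmd.seq (Cmd.pop 1) (G false))
        (Cmd.seq (Cmd.pop 1) (G true))) (st [] (b :: l) [] a [] [] []) (T + 3)
        (st [] l [] (g b a) [] [] []) := by
      refine ExecLe.mono (m := 1 + T + 1 + 1) (ExecLe.branch_cons (b := b) (l := l) rfl ?_)
        (by omega)
      cases b
      · exact (pop1 B [] (false :: l) [] a [] [] []).seq h0
      · exact (pop1 B [] (true :: l) [] a [] [] []).seq h0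
    have h2 := ih (g b a) (fun l1 b' l2 hl => by
      have := hr (b :: l1) b' l2 (by rw [hl]; rfl)
      simpa only [List.foldl_cons, List.cons_append] using this)
    have h3 := (ExecLe.loop_step (i := 1) (by simp [st]) h1 h2).mono
      (n := (b :: l).length * (T + 4) + 1) (by
        simp only [List.length_cons, Nat.add_mul]
        omega)
    simpa only [List.foldl_cons] using h3

theorem p_FLD (hTOC : Stmt_TOC) : Stmt_FLD := by
  intro S f h g hf hh hg hr
  obtain ⟨r, hr⟩ := hr
  obtain ⟨rf, hrf⟩ := hf.length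
  obtain ⟨Nf, qf, _, hcf⟩ := clean_area (hTOC S f hf)
  obtain ⟨Nh, qh, _, hch⟩ := clean_area (hTOC S h hh)
  obtain ⟨N0, q0, _, hc0⟩ := clean_area (hTOC S (g false) (hg false))
  obtain ⟨N1, q1, _, hc1⟩ := clean_area (hTOC S (g true) (hg true))
  obtain ⟨cf, hcf⟩ := hcf 2
  obtain ⟨ch, hch⟩ := hch 2
  obtain ⟨c0, hc0⟩ := hc0 3
  obtain ⟨c1, hc1⟩ := hc1 3
  let Gb : Bool → Cmd := fun b => Cmd.seq (bif b then c1 else c0) (mvo 4 5 3)
  let T : Polynomial ℕ := q0.comp r + q1.comp r + Polynomial.C 10 * r + Polynomial.C 10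
  let Q : Polynomial ℕ := Polynomial.C 12 * Polynomial.X + qf + Polynomial.C 10 * rf +
    Polynomial.C 10 * Polynomial.X + qh + rf * (T + Polynomial.C 4) + Polynomial.C 30
  refine ⟨Cmd.seq (cpo 2 3 0) (Cmd.seq cf (Cmd.seq (mvo 3 4 1) (Cmd.seq (mvo 0 3 2)
    (Cmd.seq ch (Cmd.loop 1 (Cmd.branch 1 Cmd.skip (Cmd.seq (Cmd.pop 1) (Gb false))
        (Cmd.seq (Cmd.pop 1) (Gb true)))))))), Q, fun B hB x => ?_⟩
  have e1 := cpo_spec B (i := 2) (t := 3) (j := 0) (by decide) (by decide) (by decide)
    (st [] [] x [] [] [] []) rfl rfl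
  have e1' : Function.update (st [] [] x [] [] [] []) 0 ((st [] [] x [] [] [] []) 2) =
      st x [] x [] [] [] [] := upd0 _ _ _ _ _ _ _ _
  rw [e1'] at e1
  have hemp : ∀ (a b c : Str) (j : ℕ), 2 < j → st a b c [] [] [] [] j = [] := by
    intro a b c j hj
    obtain ⟨i, rfl⟩ := Nat.exists_eq_add_of_lt hj
    rcases i with _ | _ | _ | _ | i <;> simp [st, Nat.add_comm, Nat.add_left_comm]
  have hemp3 : ∀ (a b c d : Str) (j : ℕ), 3 < j → st a b c d [] [] [] j = [] := by
    intro a b c d j hj
    obtain ⟨i, rfl⟩ := Nat.exists_eq_add_of_lt hj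
    rcases i with _ | _ | _ | i <;> simp [st, Nat.add_comm, Nat.add_left_comm]
  have e2 := hcf B hB (st x [] x [] [] [] []) (hemp x [] x)
  have e2' : Function.update (Function.update (st x [] x [] [] [] []) 2 []) (2 + 1)
      (f B ((st x [] x [] [] [] []) 2)) = st x [] [] (f B x) [] [] [] := by
    rw [upd2]
    exact upd3 _ _ _ _ _ _ _ _
  rw [e2'] at e2
  have e3 := mvo_spec B (i := 3) (t := 4) (j := 1) (by decide) (by decide) (by decide)
    (st x [] [] (f B x) [] [] []) rfl rfl
  have e3' : Function.update (Function.update (st x [] [] (f B x) [] [] []) 3 []) 1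
      ((st x [] [] (f B x) [] [] []) 3) = st x (f B x) [] [] [] [] [] := by
    rw [upd3]
    exact upd1 _ _ _ _ _ _ _ _
  rw [e3'] at e3
  have e4 := mvo_spec B (i := 0) (t := 3) (j := 2) (by decide) (by decide) (by decide)
    (st x (f B x) [] [] [] [] []) rfl rfl
  have e4' : Function.update (Function.update (st x (f B x) [] [] [] [] []) 0 []) 2
      ((st x (f B x) [] [] [] [] []) 0) = st [] (f B x) x [] [] [] [] := by
    rw [upd0]
    exact upd2 _ _ _ _ _ _ _ _
  rw [e4'] at e4
  have e5 := hch B hB (st [] (f B x) x [] [] [] []) (hemp [] (f B x) x)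
  have e5' : Function.update (Function.update (st [] (f B x) x [] [] [] []) 2 []) (2 + 1)
      (h B ((st [] (f B x) x [] [] [] []) 2)) = st [] (f B x) [] (h B x) [] [] [] := by
    rw [upd2]
    exact upd3 _ _ _ _ _ _ _ _
  rw [e5'] at e5
  have e6 := FLD_loop B Gb (fun b a => g b B a) (T.eval x.length) (f B x) (h B x) (by
    intro l1 b l2 hl
    have hp1 : l1 <+: f B x := ⟨b :: l2, hl.symm⟩
    have hp2 : l1 ++ [b] <+: f B x := ⟨l2, by rw [hl]; simp⟩
    have hb1 := hr B hB x l1 hp1
    have hb2 := hr B hB x (l1 ++ [b]) hp2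
    set a : Str := l1.foldl (fun a b => g b B a) (h B x) with ha
    have ha2 : (l1 ++ [b]).foldl (fun a b => g b B a) (h B x) = g b B a := by
      rw [List.foldl_append]
      rfl
    rw [ha2] at hb2
    rw [ha2]
    have hTe : T.eval x.length = q0.eval (r.eval x.length) + q1.eval (r.eval x.length) +
        10 * r.eval x.length + 10 := by
      simp [T, Polynomial.eval_add, Polynomial.eval_comp]
    have key : ∀ (c : Cmd) (q : Polynomial ℕ), (∀ s : Store, (∀ j, 3 < j → s j = []) →
        ExecLe B c s (q.eval (s 3).length)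
          (Function.update (Function.update s 3 []) (3 + 1) (g b B (s 3)))) →
        ExecLe B (Cmd.seq c (mvo 4 5 3)) (st [] l2 [] a [] [] [])
          (q.eval (r.eval x.length) + 10 * r.eval x.length + 10)
          (st [] l2 [] (g b B a) [] [] []) := by
      intro c q hc
      have f1 := hc (st [] l2 [] a [] [] []) (hemp3 [] l2 [] a)
      have f1' : Function.update (Function.update (st [] l2 [] a [] [] []) 3 []) (3 + 1)
          (g b B ((st [] l2 [] a [] [] []) 3)) = st [] l2 [] [] (g b B a) [] [] := by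
        rw [upd3]
        exact upd4 _ _ _ _ _ _ _ _
      rw [f1'] at f1
      have f2 := mvo_spec B (i := 4) (t := 5) (j := 3) (by decide) (by decide) (by decide)
        (st [] l2 [] [] (g b B a) [] []) rfl rfl
      have f2' : Function.update (Function.update (st [] l2 [] [] (g b B a) [] []) 4 []) 3
          ((st [] l2 [] [] (g b B a) [] []) 4) = st [] l2 [] (g b B a) [] [] [] := by
        rw [upd4]
        exact upd3 _ _ _ _ _ _ _ _
      rw [f2'] at f2
      refine (f1.seq f2).mono ?_
      have h1 : q.eval ((st [] l2 [] a [] [] []) 3).length ≤ q.eval (r.eval x.length) :=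
        eval_mono q hb1
      have h2 : ((st [] l2 [] [] (g b B a) [] []) 4).length ≤ r.eval x.length := hb2
      omega
    cases b
    · exact (key c0 q0 (fun s hs => hc0 B hB s hs)).mono (by rw [hTe]; omega)
    · exact (key c1 q1 (fun s hs => hc1 B hB s hs)).mono (by rw [hTe]; omega))
  have e := e1.seq (e2.seq (e3.seq (e4.seq (e5.seq e6))))
  obtain ⟨m, hm, hex⟩ := e
  rw [← init_eq] at hex
  have hQ : Q.eval x.length = 12 * x.length + qf.eval x.length + 10 * rf.eval x.length +
      10 * x.length + qh.eval x.length + rf.eval x.length * (T.eval x.length + 4) + 30 := by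
    simp [Q, Polynomial.eval_add]
  have hfl := hrf B hB x
  have hm' : m ≤ Q.eval x.length := by
    have i1 : ((st [] [] x [] [] [] []) 2).length = x.length := rfl
    have i2 : ((st x [] x [] [] [] []) 2).length = x.length := rfl
    have i3 : ((st x [] [] (f B x) [] [] []) 3).length = (f B x).length := rfl
    have i4 : ((st x (f B x) [] [] [] [] []) 0).length = x.length := rfl
    have i5 : ((st [] (f B x) x [] [] [] []) 2).length = x.length := rfl
    rw [i1, i2, i3, i4, i5] at hm
    have h7 : (f B x).length * (T.eval x.length + 4) ≤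
        rf.eval x.length * (T.eval x.length + 4) := Nat.mul_le_mul_right _ hfl
    rw [hQ]
    omega
  rw [out_of_exec hex hm']
  rfl

end Pool.GL
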