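import Pool.Agent.Work.MP_af7a01_gl.InterfaceB

open Classical Pool.IC

namespace Pool.GL

theorem FSC_gen (P : Str → Set Str) (huniq : ∀ p x x', p ∈ P x → p ∈ P x' → x = x') (K : ℕ) :
    {x : Str | (⨅ p ∈ P x, (p.length : ℕ∞)) ≤ (K : ℕ∞)}.Finite := by
  have key : ∀ x ∈ {x : Str | (⨅ p ∈ P x, (p.length : ℕ∞)) ≤ (K : ℕ∞)},
      ∃ p ∈ P x, p.length ≤ K := by
    intro x hx
    by_contra hcon
    push Not at hcon
    have h1 : ((K + 1 : ℕ) : ℕ∞) ≤ ⨅ p ∈ P x, (p.length : ℕ∞) :=
      le_iInf₂ fun p hp => by exact_mod_cast hcon p hp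
    have h2 : ((K + 1 : ℕ) : ℕ∞) ≤ (K : ℕ∞) := h1.trans hx
    have h3 : K + 1 ≤ K := by exact_mod_cast h2
    omega
  choose! g hg hgK using key
  refine Set.Finite.of_finite_image (f := g) ?_ ?_
  · refine (short (K + 1)).finite_toSet.subset ?_
    rintro _ ⟨x, hx, rfl⟩
    rw [Finset.mem_coe, mem_short]
    exact Nat.lt_succ_of_le (hgK x hx)
  · intro x hx x' hx' he
    exact huniq (g x) x x' (hg x hx) (by rw [he]; exact hg x' hx')

theorem FSC_run {U : Interpreter} {B : Set Str} {p y z : Str} {n n' : ℕ} {o o' : Str}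
    (h : U.run B p y z n = some o) (h' : U.run B p y z n' = some o') : o = o' := by
  have h1 := U.mono B p y z n (max n n') o (le_max_left _ _) h
  have h2 := U.mono B p y z n' (max n n') o' (le_max_right _ _) h'
  rw [h1] at h2
  exact Option.some.inj h2

theorem p_FSC : Stmt_FSC := by
  intro U B
  refine ⟨fun t K => ?_, fun t K => ?_, fun t K => ?_⟩
  · refine FSC_gen (fun x => {p : Str | ∀ z : Str,
      U.run B p [] z (t.eval z.length) = some (chi {x} z)}) ?_ K
    intro p x x' h h'
    have h1 := h x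
    have h2 := h' x
    rw [h1] at h2
    have h3 := Option.some.inj h2
    unfold chi at h3
    simp only [Set.mem_singleton_iff, decide_true, List.cons.injEq, and_true] at h3
    simpa using h3.symm
  · refine FSC_gen (fun x => {p : Str | U.run B p [] [] (t.eval x.length) = some x}) ?_ K
    intro p x x' h h'
    exact FSC_run h h'
  · refine FSC_gen (fun x => {p : Str | ∀ z : Str,
      (∀ w : Str, w.length ≤ t.eval z.length →
        ∃ o, U.run B p w z (t.eval z.length) = some o) ∧
      (z = x ↔ ∀ w : Str, w.length ≤ t.eval z.length →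
        U.run B p w z (t.eval z.length) = some [true])}) ?_ K
    intro p x x' h h'
    exact (h' x).2.2 ((h x).2.1 rfl)

end Pool.GL
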