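import Pool.Agent.Work.MP_af7a01_gl.InterfaceA

/-! # MP_af7a01_lc, GapLaw, block FST: the first component -/

open Classical Pool.IC

namespace Pool.GL

/-- the loop body -/
def FST_body : Cmd :=
  Cmd.branch 2 Cmd.skip (clr 2)
    (Cmd.seq (Cmd.pop 2) (Cmd.branch 2 Cmd.skip
      (Cmd.seq (Cmd.pop 2) (Cmd.push 4 false)) (Cmd.seq (Cmd.pop 2) (Cmd.push 4 true))))

theorem FST_loop (B : Set Str) : ∀ (l a : Str),
    ExecLe B (Cmd.loop 2 FST_body) (st [] [] l [] a [] []) (10 * l.length + 10)
      (st [] [] [] [] ((fs l).reverse ++ a) [] [])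
  | [], a => (ExecLe.loop_nil rfl).mono (by simp)
  | false :: l, a => by
    have h1 := clr_spec B 2 (st [] [] (false :: l) [] a [] [])
    rw [upd2] at h1
    have h2 : ExecLe B FST_body (st [] [] (false :: l) [] a [] []) _ (st [] [] [] [] a [] []) :=
      ExecLe.branch_cons (b := false) (l := l) rfl h1
    have h3 : ExecLe B (Cmd.loop 2 FST_body) (st [] [] [] [] a [] []) 1 (st [] [] [] [] a [] []) :=
      ExecLe.loop_nil rfl
    have h4 := ExecLe.loop_step (i := 2) (s := st [] [] (false :: l) [] a [] [])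
      (by simp [st]) h2 h3
    have e : (fs (false :: l)).reverse ++ a = a := by simp [fs]
    rw [e]
    refine h4.mono ?_
    have e2 : (st [] [] (false :: l) [] a [] [] 2).length = l.length + 1 := rfl
    rw [e2]
    simp only [List.length_cons]
    omega
  | true :: [], a => by
    have h1 := pop2 B [] [] [true] [] a [] []
    have h2 : ExecLe B (Cmd.branch 2 Cmd.skip
      (Cmd.seq (Cmd.pop 2) (Cmd.push 4 false)) (Cmd.seq (Cmd.pop 2) (Cmd.push 4 true)))
      (st [] [] [] [] a [] []) 2 (st [] [] [] [] a [] []) :=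
      ExecLe.branch_nil rfl (le_skip B _)
    have h3 : ExecLe B FST_body (st [] [] [true] [] a [] []) (1 + 2 + 1 + 1)
        (st [] [] [] [] a [] []) :=
      ExecLe.branch_cons (b := true) (l := []) rfl (h1.seq h2)
    have h5 : ExecLe B (Cmd.loop 2 FST_body) (st [] [] [] [] a [] []) 1 (st [] [] [] [] a [] []) :=
      ExecLe.loop_nil rfl
    have h4 := ExecLe.loop_step (i := 2) (s := st [] [] [true] [] a [] [])
      (by simp [st]) h3 h5
    have e : (fs [true]).reverse ++ a = a := by simp [fs]
    rw [e]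
    exact h4.mono (by simp)
  | true :: x :: l, a => by
    have h1 := pop2 B [] [] (true :: x :: l) [] a [] []
    have h2 : ExecLe B (Cmd.branch 2 Cmd.skip
      (Cmd.seq (Cmd.pop 2) (Cmd.push 4 false)) (Cmd.seq (Cmd.pop 2) (Cmd.push 4 true)))
      (st [] [] (x :: l) [] a [] []) (1 + 1 + 1 + 1) (st [] [] l [] (x :: a) [] []) := by
      refine ExecLe.branch_cons (b := x) (l := l) rfl ?_
      cases x
      · exact (pop2 B [] [] (false :: l) [] a [] []).seq (push4 B [] [] l [] a [] [] false)
      · exact (pop2 B [] [] (true :: l) [] a [] []).seq (push4 B [] [] l [] a [] [] true)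
    have h3 : ExecLe B FST_body (st [] [] (true :: x :: l) [] a [] [])
        (1 + (1 + 1 + 1 + 1) + 1 + 1) (st [] [] l [] (x :: a) [] []) :=
      ExecLe.branch_cons (b := true) (l := x :: l) rfl (h1.seq h2)
    have h5 := FST_loop B l (x :: a)
    have h4 := ExecLe.loop_step (i := 2) (s := st [] [] (true :: x :: l) [] a [] [])
      (by simp [st]) h3 h5
    have e : (fs (true :: x :: l)).reverse ++ a = (fs l).reverse ++ x :: a := by simp [fs]
    rw [e]
    refine h4.mono ?_
    simp only [List.length_cons]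
    omega

theorem p_FST : Stmt_FST := by
  intro S
  refine ⟨Cmd.seq (Cmd.loop 2 FST_body) (mv 4 3), Polynomial.C 20 * Polynomial.X +
    Polynomial.C 20, fun B _ z => ?_⟩
  have h1 := FST_loop B z []
  rw [List.append_nil] at h1
  have h2 := mv_spec B (i := 4) (j := 3) (by decide) (st [] [] [] [] (fs z).reverse [] [])
  rw [upd4, upd3] at h2
  have e1 : (st [] [] [] [] (fs z).reverse [] [] 4) = (fs z).reverse := rfl
  have e2 : (st [] [] [] [] (fs z).reverse [] [] 3) = [] := rfl
  rw [e1, e2, List.append_nil, List.reverse_reverse] at h2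
  obtain ⟨m, hm, h3⟩ := h1.seq h2
  rw [← init_eq] at h3
  have h4 : (fs z).length ≤ z.length := length_fs z
  have h5 := out_of_exec (N := (Polynomial.C 20 * Polynomial.X + Polynomial.C 20).eval z.length)
    h3 (by
      simp only [Polynomial.eval_add, Polynomial.eval_mul, Polynomial.eval_C, Polynomial.eval_X]
      rw [List.length_reverse] at hm
      omega)
  rw [h5]
  rfl

end Pool.GL
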