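import Pool.Agent.Work.MP_af7a01_gl.InterfaceB

/-! # MP_af7a01_lc, GapLaw, block GAP: the equivalence -/

open Classical Pool.IC

namespace Pool.GL

theorem p_GAP (hBTD : Stmt_BTD) (hDTC : Stmt_DTC) (hCAB : Stmt_CAB) : Stmt_GAP := by
  intro U hU B ι D hD
  tfae_have 1 → 2 := (hCAB U B ι D).2 hD
  tfae_have 2 → 4 := hBTD U hU B ι D hD
  tfae_have 4 → 3 := hDTC U hU B ι D
  tfae_have 3 → 1 := (hCAB U B ι D).1
  tfae_finish

end Pool.GL
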