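import Pool.Agent.Work.MP_af7a01_gl.InterfaceB

/-! Block GFN of MP_af7a01_lc (GapLaw), helper56. -/

set_option autoImplicit false

open Classical Pool.IC

namespace Pool.GL

theorem GFN_dec {S : Set (Set Str)} {F : Set Str → Str → Prop}
    {inst : ∀ B x, Decidable (F B x)} (h : FP S (fun B x => [@decide (F B x) (inst B x)])) :
    FP S (fun B x => [@decide (F B x) (propDecidable (F B x))]) := by
  refine h.congr ?_
  intro B _ x
  congr

/-- the condition to go on -/
def GFN_C (U : Interpreter) (RU : Set Str → Str → Str) (M : Cmd) (t : Polynomial ℕ) (B : Set Str)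
    (p z : Str) : Prop :=
  Ref U B M t z.length (idx p) ∨ RU B (pr (un (t.eval z.length)) (pr p (pr [] z))) = [true]

/-- one step -/
noncomputable def GFN_g (U : Interpreter) (RU : Set Str → Str → Str) (M : Cmd) (t : Polynomial ℕ)
    (B : Set Str) (s : Str) : Str :=
  if fs s = [true] then s
  else if GFN_C U RU M t B (fs (sn s)) (sn (sn s)) then
    pr [false] (pr (inc (fs (sn s))) (sn (sn s)))
  else pr [true] (pr (fs (sn s)) (sn (sn s)))

theorem GFN_gFP (hL : Lib) (hT : Stmt_TLS) (hU : Stmt_UNA) (hN : Stmt_INC) (hRef : Stmt_REF)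
    (U : Interpreter) (hE : Effective U) (RU : Set Str → Str → Str) (hR : FP Set.univ RU) (M : Cmd)
    (t : Polynomial ℕ) : FP Set.univ (GFN_g U RU M t) := by
  have hd : FP Set.univ (fun _ s => fs s) := hL.fst hL.idn
  have hs1 : FP Set.univ (fun _ s => sn s) := hL.snd hL.idn
  have hp : FP Set.univ (fun _ s => fs (sn s)) := hL.fst hs1
  have hz : FP Set.univ (fun _ s => sn (sn s)) := hL.snd hs1
  have h1 := GFN_dec ((hT Set.univ).2.2 _ _ hd (hL.const [true])).1
  have h2 := hL.comp (hL.pair hz hp) (hRef U hE M t)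
  have h2' : FP Set.univ (fun B s => [decide (Ref U B M t (sn (sn s)).length
      (idx (fs (sn s))))]) := by
    refine h2.congr ?_
    intro B _ s
    rw [fs_pr, sn_pr]
  have hb : FP Set.univ (fun B s => RU B (pr (un (t.eval (sn (sn s)).length))
      (pr (fs (sn s)) (pr [] (sn (sn s)))))) :=
    hL.comp (hL.pair (hU Set.univ t _ hz) (hL.pair hp (hL.pair (hL.const []) hz))) hR
  have h3 := GFN_dec ((hT Set.univ).2.2 _ _ hb (hL.const [true])).1
  have h4 := ((hT Set.univ).1 _ _ (GFN_dec h2') h3).2.1
  have h5 := (hT Set.univ).2.1 _ _ _ (GFN_dec h4)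
    (hL.pair (hL.const [false]) (hL.pair (hN Set.univ _ hp) hz))
    (hL.pair (hL.const [true]) (hL.pair hp hz))
  have h6 := (hT Set.univ).2.1 _ _ _ h1 (hL.idn (S := Set.univ)) h5
  refine h6.congr ?_
  intro B _ s
  unfold GFN_g GFN_C
  by_cases c1 : fs s = [true]
  · rw [if_pos c1, if_pos c1]
  · rw [if_neg c1, if_neg c1]

theorem GFN_fold (hI : Stmt_IDX) (U : Interpreter) (RU : Set Str → Str → Str)
    (hRU : ∀ (B : Set Str) (p y z w : Str),
      RU B (pr w (pr p (pr y z))) = opt (U.run B p y z w.length)) (M : Cmd) (t : Polynomial ℕ)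
    (B : Set Str) (z : Str) (k : ℕ) (hk : k ≤ z.length) :
    (GFN_g U RU M t B)^[k] (pr [false] (pr [] z)) =
      if gg U B M t z < k then pr [true] (pr (str (gg U B M t z)) z)
      else pr [false] (pr (str k) z) := by
  have hC : ∀ i : ℕ, GFN_C U RU M t B (str i) z ↔
      ¬ (¬ Ref U B M t z.length i ∧ U.run B (str i) [] z (t.eval z.length) ≠ some []) := by
    intro i
    unfold GFN_C
    rw [hRU, List.length_replicate, hI.1]
    have h1 : opt (U.run B (str i) [] z (t.eval z.length)) = [true] ↔
        U.run B (str i) [] z (t.eval z.length) = some [] := by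
      cases U.run B (str i) [] z (t.eval z.length) with
      | none => simp [opt]
      | some o => simp [opt]
    rw [h1]
    tauto
  induction k with
  | zero =>
    rw [if_neg (by omega)]
    rfl
  | succ k ih =>
    rw [Function.iterate_succ_apply', ih (by omega)]
    by_cases h1 : gg U B M t z < k
    · rw [if_pos h1, if_pos (by omega)]
      unfold GFN_g
      rw [fs_pr, if_pos rfl]
    · rw [if_neg h1]
      unfold GFN_g
      rw [fs_pr, sn_pr, fs_pr, sn_pr, if_neg (by simp)]
      by_cases h2 : gg U B M t z = k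
      · have h3 := Nat.find_spec (⟨z.length, Or.inl rfl⟩ : ∃ i, i = z.length ∨
          (¬ Ref U B M t z.length i ∧ U.run B (str i) [] z (t.eval z.length) ≠ some []))
        change gg U B M t z = z.length ∨ (¬ Ref U B M t z.length (gg U B M t z) ∧
          U.run B (str (gg U B M t z)) [] z (t.eval z.length) ≠ some []) at h3
        rw [h2] at h3
        rcases h3 with h3 | h3
        · omega
        · have h4 : ¬ GFN_C U RU M t B (str k) z := by
            rw [hC k]
            exact not_not.mpr h3
          rw [if_neg h4, if_pos (by omega), h2]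
      · have h3 : k < gg U B M t z := by omega
        have h4 := Nat.find_min (⟨z.length, Or.inl rfl⟩ : ∃ i, i = z.length ∨
          (¬ Ref U B M t z.length i ∧ U.run B (str i) [] z (t.eval z.length) ≠ some [])) h3
        have h5 : GFN_C U RU M t B (str k) z := by
          rw [hC k]
          intro h6
          exact h4 (Or.inr h6)
        rw [if_pos h5, if_neg (by omega), hI.2.2.1 k]

theorem GFN_le (U : Interpreter) (B : Set Str) (M : Cmd) (t : Polynomial ℕ) (z : Str) :
    gg U B M t z ≤ z.length := Nat.find_min' _ (Or.inl rfl)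

theorem p_GFN (hL : Stmt_LIB) (hT : Stmt_TLS) (hU : Stmt_UNA) (hI : Stmt_IDX) (hN : Stmt_INC)
    (hRef : Stmt_REF) : Stmt_GFN := by
  intro U hE M t
  have hL : Lib := hL
  obtain ⟨RU, hR, hRU⟩ := hE
  have hg := GFN_gFP hL hT hU hN hRef U ⟨RU, hR, hRU⟩ RU hR M t
  have hfold := hL.fold (f := fun _ x => x)
    (h := fun _ x => pr [false] (pr [] x))
    (g := fun _ => GFN_g U RU M t) (hL.idn (S := Set.univ))
    (hL.pair (hL.const [false]) (hL.pair (hL.const []) hL.idn)) (fun _ => hg)
    ⟨6 * Polynomial.X + 6, fun B _ x l hl => by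
      have h1 := hl.length_le
      rw [List.foldl_const, GFN_fold hI U RU hRU M t B x l.length h1]
      rw [Polynomial.eval_add, Polynomial.eval_mul, Polynomial.eval_ofNat,
        Polynomial.eval_X]
      have h2 := hI.2.2.2.2.2 l.length
      have h3 := hI.2.2.2.2.2 (gg U B M t x)
      have h4 := GFN_le U B M t x
      split_ifs with h5
      · rw [length_pr, length_pr]
        simp only [List.length_cons, List.length_nil]
        omega
      · rw [length_pr, length_pr]
        simp only [List.length_cons, List.length_nil]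
        omega⟩
  refine (hL.fst (hL.snd hfold)).congr ?_
  intro B _ x
  show fs (sn _) = _
  rw [List.foldl_const, GFN_fold hI U RU hRU M t B x x.length (le_refl _)]
  have h4 := GFN_le U B M t x
  split_ifs with h5
  · rw [sn_pr, fs_pr]
  · rw [sn_pr, fs_pr]
    congr 1
    omega

end Pool.GL
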