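import Pool.Agent.Work.MP_af7a01_gl.InterfaceB

/-! # MP_af7a01_lc, GapLaw, block GLE: lower bound of the instance complexity -/

open Classical Pool.IC

namespace Pool.GL

theorem p_GLE (hIDX : Stmt_IDX) : Stmt_GLE := by
  obtain ⟨hi1, hi2, -, -, hi5, -⟩ := hIDX
  intro U B M t A hM z
  unfold ic
  refine le_iInf₂ ?_
  rintro p ⟨hcons, hz⟩
  have hle : gg U B M t z ≤ idx p := by
    unfold gg
    refine Nat.find_min' _ (Or.inr ⟨?_, ?_⟩)
    · rintro ⟨l, -, o, ho, h1, h2⟩
      rw [hi2] at h1 h2
      obtain ⟨n, hn⟩ := hM (str l)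
      have h3 := out_det ho hn
      rcases hcons (str l) with h4 | h4
      · exact h1 (by rw [h3]; exact h4)
      · exact h2 h4
    · rw [hi2]
      intro h
      have h5 : U.run B p [] z (t.eval z.length) = some (chi A z) := hz
      rw [h5] at h
      unfold chi at h
      simp at h
  have h6 : (str (gg U B M t z)).length ≤ p.length :=
    hi5 _ _ (by rw [hi1]; exact hle)
  exact_mod_cast h6

end Pool.GL
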