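import Pool.Agent.Work.MP_af7a01_gl.InterfaceB

/-! Block GUB of MP_af7a01_lc (GapLaw), helper56. -/

set_option autoImplicit false

open Classical Pool.IC

namespace Pool.GL

theorem GUB_bad (hI : Stmt_IDX) (U : Interpreter) (B : Set Str) (M : Cmd) (t : Polynomial ℕ)
    (A : Set Str) (hM : ∀ z, ∃ n, out B M [] [] z n = some (chi A z)) (i : ℕ) :
    ∃ m : ℕ, (∃ z, U.run B (str i) [] z (t.eval z.length) ≠ some (chi A z) ∧
      U.run B (str i) [] z (t.eval z.length) ≠ some []) → ∀ n, m ≤ n → Ref U B M t n i := by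
  by_cases h : ∃ z, U.run B (str i) [] z (t.eval z.length) ≠ some (chi A z) ∧
      U.run B (str i) [] z (t.eval z.length) ≠ some []
  · obtain ⟨z, h1, h2⟩ := h
    obtain ⟨n₀, hn₀⟩ := hM z
    refine ⟨idx z + 1 + n₀, fun _ n hn => ?_⟩
    have hz : str (idx z) = z := hI.2.1 z
    refine ⟨idx z, by omega, chi A z, ?_, ?_, ?_⟩
    · rw [hz]
      exact out_mono hn₀ (by omega)
    · rw [hz]
      exact h1
    · rw [hz]
      exact h2
  · exact ⟨0, fun h' => absurd h' h⟩

theorem GUB_run (hI : Stmt_IDX) (U : Interpreter) (B : Set Str) (M : Cmd) (t : Polynomial ℕ)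
    (A : Set Str) (hM : ∀ z, ∃ n, out B M [] [] z n = some (chi A z)) (K : ℕ)
    (hK : ∀ z, (str (gg U B M t z)).length < K) :
    ∃ N : ℕ, ∀ z : Str, N ≤ z.length →
      U.run B (str (gg U B M t z)) [] z (t.eval z.length) = some (chi A z) := by
  choose m hm using GUB_bad hI U B M t A hM
  refine ⟨(Finset.range (2 ^ K)).sup m + 2 ^ K + 1, ?_⟩
  intro z hz
  have h1 : gg U B M t z < 2 ^ K := by
    have h2 := (hI.2.2.2.1 (str (gg U B M t z))).2
    rw [hI.1] at h2
    have h3 : 2 ^ ((str (gg U B M t z)).length + 1) ≤ 2 ^ K :=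
      Nat.pow_le_pow_right (by norm_num) (hK z)
    omega
  have h2 : m (gg U B M t z) ≤ (Finset.range (2 ^ K)).sup m :=
    Finset.le_sup (Finset.mem_range.mpr h1)
  have h3 := Nat.find_spec (⟨z.length, Or.inl rfl⟩ : ∃ i, i = z.length ∨
    (¬ Ref U B M t z.length i ∧ U.run B (str i) [] z (t.eval z.length) ≠ some []))
  change gg U B M t z = z.length ∨ (¬ Ref U B M t z.length (gg U B M t z) ∧
    U.run B (str (gg U B M t z)) [] z (t.eval z.length) ≠ some []) at h3
  rcases h3 with h3 | ⟨h3, h4⟩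
  · omega
  · by_contra h5
    exact h3 (hm (gg U B M t z) ⟨z, h5, h4⟩ z.length (by omega))

theorem p_GUB (hL : Stmt_LIB) (_hT : Stmt_TLS) (hU : Stmt_UNA) (hI : Stmt_IDX) (hG : Stmt_GFN)
    (hF : Stmt_FIN) : Stmt_GUB := by
  intro U hE B M t A hM hA K
  by_contra hcon
  have hK : ∀ z, (str (gg U B M t z)).length < K := by
    intro z
    by_contra h
    exact hcon ⟨z, by omega⟩
  obtain ⟨N, hN⟩ := GUB_run hI U B M t A hM K hK
  have hL : Lib := hL
  have hGG := hG U hE M t
  obtain ⟨RU, hR, hRU⟩ := hE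
  apply hA
  have h1 : FP Set.univ (fun B z => (RU B (pr (un (t.eval z.length))
      (pr (str (gg U B M t z)) (pr [] z)))).tail) :=
    hL.tail (hL.comp (hL.pair (hU Set.univ t _ hL.idn)
      (hL.pair hGG (hL.pair (hL.const []) hL.idn))) hR)
  have h2 : FP {B} (fun _ z => (RU B (pr (un (t.eval z.length))
      (pr (str (gg U B M t z)) (pr [] z)))).tail) := by
    refine (h1.mono (Set.subset_univ {B})).congr ?_
    intro B' hB' z
    rw [Set.mem_singleton_iff] at hB'
    rw [hB']
  have h3 : FP {B} (fun _ => chi A) := by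
    refine hF B _ (chi A) h2 ?_
    refine Set.Finite.subset (short N).finite_toSet ?_
    intro z hz
    rw [Finset.mem_coe, mem_short]
    by_contra h4
    apply hz
    show (RU B (pr (un (t.eval z.length)) (pr (str (gg U B M t z)) (pr [] z)))).tail = chi A z
    rw [hRU, List.length_replicate, hN z (by omega)]
    rfl
  obtain ⟨M', q, h4⟩ := h3
  exact ⟨q, M', fun z => h4 B rfl z⟩

end Pool.GL
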