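import Pool.Agent.Work.MP_af7a01_gl.InterfaceB

/-! # MP_af7a01_lc, GapLaw, block ICU: upper bound of the instance complexity -/

open Classical Pool.IC

namespace Pool.GL

theorem ICU_bit (a : ℕ → Bool) (K m : ℕ) :
    ((((List.range (K + 1)).map a).drop m).take 1) = if m ≤ K then [a m] else [] := by
  by_cases h : m ≤ K
  · rw [if_pos h]
    have hlen : m < ((List.range (K + 1)).map a).length := by
      rw [List.length_map, List.length_range]
      omega
    rw [List.drop_eq_getElem_cons hlen]
    simp
  · rw [if_neg h]
    have hlen : ((List.range (K + 1)).map a).length ≤ m := by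
      rw [List.length_map, List.length_range]
      omega
    rw [List.drop_eq_nil_of_le hlen]
    rfl

theorem p_ICU (hNPR : Stmt_NPR) : Stmt_ICU := by
  intro U B J a A hJ hA
  obtain ⟨N, r, hN⟩ := hNPR B J hJ
  obtain ⟨e, q, hq⟩ := U.sim N
  refine ⟨q.comp r, e.length, ?_⟩
  intro z
  set w : Str := (List.range ((J z).length + 1)).map a with hw
  have hrun : ∀ z' : Str, U.run B (e ++ w) [] z' ((q.comp r).eval z'.length) =
      some (if (J z').length ≤ (J z).length then [a (J z').length] else []) := by
    intro z'
    rw [Polynomial.eval_comp, hq B w [] z' _ _ (hN w [] z'), hw, ICU_bit]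
  have hchi : ∀ z' : Str, chi A z' = [a (J z').length] := by
    intro z'
    unfold chi
    by_cases h : a (J z').length = true
    · rw [h, decide_eq_true ((hA z').2 h)]
    · rw [decide_eq_false (fun h' => h ((hA z').1 h'))]
      rw [Bool.not_eq_true] at h
      rw [h]
  unfold ic
  refine iInf₂_le_of_le (e ++ w) ⟨?_, ?_⟩ ?_
  · intro z'
    have h1 := hrun z'
    by_cases h : (J z').length ≤ (J z).length
    · left
      rw [if_pos h] at h1
      rw [hchi]
      exact h1
    · right
      rw [if_neg h] at h1
      exact h1
  · have h1 := hrun z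
    rw [if_pos (le_refl _)] at h1
    rw [hchi]
    exact h1
  · have h2 : (e ++ w).length = e.length + (J z).length + 1 := by
      rw [List.length_append, hw, List.length_map, List.length_range]
      omega
    rw [h2]

end Pool.GL
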