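import Pool.Agent.Work.MP_af7a01_gl.InterfaceA

/-! # MP_af7a01_lc, GapLaw, block IDX: the enumeration of strings -/

open Classical Pool.IC

namespace Pool.GL

theorem IDX_inc : ∀ x : Str, idx (inc x) = idx x + 1
  | [] => rfl
  | false :: l => by simp only [inc, idx]
  | true :: l => by simp only [inc, idx, IDX_inc l]; omega

theorem IDX_inj : ∀ x y : Str, idx x = idx y → x = y
  | [], [], _ => rfl
  | [], false :: l, h => by simp only [idx] at h; omega
  | [], true :: l, h => by simp only [idx] at h; omega
  | false :: l, [], h => by simp only [idx] at h; omega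
  | true :: l, [], h => by simp only [idx] at h; omega
  | false :: l, false :: m, h => by
    simp only [idx] at h
    rw [IDX_inj l m (by omega)]
  | true :: l, true :: m, h => by
    simp only [idx] at h
    rw [IDX_inj l m (by omega)]
  | false :: l, true :: m, h => by simp only [idx] at h; omega
  | true :: l, false :: m, h => by simp only [idx] at h; omega

theorem IDX_pow : ∀ x : Str, 2 ^ x.length ≤ idx x + 1 ∧ idx x + 1 < 2 ^ (x.length + 1)
  | [] => by simp [idx]
  | false :: l => by
    have h := IDX_pow l
    simp only [idx, List.length_cons]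
    rw [pow_succ] at h
    rw [pow_succ (n := l.length + 1), pow_succ]
    omega
  | true :: l => by
    have h := IDX_pow l
    simp only [idx, List.length_cons]
    rw [pow_succ] at h
    rw [pow_succ (n := l.length + 1), pow_succ]
    omega

theorem IDX_succ (n : ℕ) : str (n + 1) = inc (str n) := by
  unfold str
  rw [Function.iterate_succ_apply']

theorem IDX_str (n : ℕ) : idx (str n) = n := by
  induction n with
  | zero => rfl
  | succ n ih => rw [IDX_succ, IDX_inc, ih]

theorem p_IDX : Stmt_IDX := by
  refine ⟨IDX_str, fun x => IDX_inj _ _ (IDX_str _), IDX_succ, IDX_pow, ?_, ?_⟩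
  · intro x y hxy
    by_contra hc
    have h1 := (IDX_pow x).1
    have h2 := (IDX_pow y).2
    have h3 : 2 ^ (y.length + 1) ≤ 2 ^ x.length := Nat.pow_le_pow_right (by norm_num) (by omega)
    omega
  · intro n
    have h1 := (IDX_pow (str n)).1
    rw [IDX_str] at h1
    have h2 : (str n).length < 2 ^ (str n).length := Nat.lt_two_pow_self
    omega

end Pool.GL
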