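import Pool.Agent.Work.MP_af7a01_gl.InterfaceA

/-! Block INC of MP_af7a01_lc (GapLaw), helper56. -/

set_option autoImplicit false

open Classical Pool.IC

namespace Pool.GL

/-- one step of the addition -/
def INC_g (b : Bool) (_B : Set Str) (s : Str) : Str :=
  cas s [] (false :: b :: s.tail)
    (cas [b] [] (false :: true :: s.tail) (true :: false :: s.tail))

/-- the final step -/
def INC_fin (s : Str) : Str := cas s [] s.tail.reverse (false :: s.tail).reverse

theorem INC_fold (B : Set Str) (l : Str) : ∀ acc : Str,
    INC_fin (l.foldl (fun a b => INC_g b B a) (true :: acc)) = acc.reverse ++ inc l ∧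
    INC_fin (l.foldl (fun a b => INC_g b B a) (false :: acc)) = acc.reverse ++ l := by
  induction l with
  | nil =>
    intro acc
    constructor
    · simp [INC_fin, cas, inc]
    · simp [INC_fin, cas]
  | cons x l ih =>
    intro acc
    rw [List.foldl_cons, List.foldl_cons]
    constructor
    · cases x with
      | false =>
        have h1 : INC_g false B (true :: acc) = false :: true :: acc := rfl
        rw [h1, (ih (true :: acc)).2]
        simp [inc]
      | true =>
        have h1 : INC_g true B (true :: acc) = true :: false :: acc := rfl
        rw [h1, (ih (false :: acc)).1]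
        simp [inc]
    · have h1 : INC_g x B (false :: acc) = false :: x :: acc := rfl
      rw [h1, (ih (x :: acc)).2]
      simp

theorem INC_len (B : Set Str) (b : Bool) (s : Str) : (INC_g b B s).length ≤ s.length + 1 := by
  match s, b with
  | [], _ => simp [INC_g, cas]
  | false :: l, _ => simp [INC_g, cas]
  | true :: l, false => simp [INC_g, cas]
  | true :: l, true => simp [INC_g, cas]

theorem INC_len2 (B : Set Str) (l : Str) : ∀ s : Str,
    (l.foldl (fun a b => INC_g b B a) s).length ≤ s.length + l.length := by
  induction l with
  | nil => intro s; simp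
  | cons x l ih =>
    intro s
    rw [List.foldl_cons]
    have h1 := ih (INC_g x B s)
    have h2 := INC_len B x s
    rw [List.length_cons]
    omega

theorem p_INC (hL : Stmt_LIB) (hT : Stmt_TLS) : Stmt_INC := by
  intro S F hF
  have hL : Lib := hL
  have hg : ∀ b, FP S (INC_g b) := by
    intro b
    refine hL.cas hL.idn (hL.const []) (hL.cons false (hL.cons b (hL.tail hL.idn)))
      (hL.cas (hL.const [b]) (hL.const []) (hL.cons false (hL.cons true (hL.tail hL.idn)))
        (hL.cons true (hL.cons false (hL.tail hL.idn))))
  have hrev : ∀ G : Set Str → Str → Str, FP S G → FP S (fun B x => (G B x).reverse) :=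
    fun G hG => ((hT S).2.2 G G hG hG).2.2.2.2.1
  have hfin : FP S (fun _ s => INC_fin s) := by
    refine hL.cas hL.idn (hL.const []) (hrev _ (hL.tail hL.idn))
      (hrev _ (hL.cons false (hL.tail hL.idn)))
  obtain ⟨r, hr⟩ := hF.length
  have hfold := hL.fold (f := F) (h := fun _ _ => [true]) (g := INC_g) hF (hL.const [true]) hg
    ⟨1 + r, fun B hB x l hl => by
      have h1 := INC_len2 B l [true]
      have h2 := hl.length_le
      have h3 := hr B hB x
      rw [Polynomial.eval_add, Polynomial.eval_one]
      have h4 : ([true] : Str).length = 1 := rfl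
      omega⟩
  refine (hL.comp hfold hfin).congr ?_
  intro B _ x
  have h5 := (INC_fold B (F B x) []).1
  rw [List.reverse_nil, List.nil_append] at h5
  exact h5

end Pool.GL
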