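import Pool.Agent.Work.MP_af7a01_gl.InterfaceA

set_option autoImplicit false

/-! # GapLaw, block INT (helper54): effective interpreters -/

open Classical Pool.IC

namespace Pool.GL

/-- the interpreter: the program is a code of a program of the model and its program input -/
noncomputable def INT_U (hCOD : Stmt_COD) : Interpreter where
  run B x y z n := out B (dec (fs x)) (sn x) y z n
  mono _ _ _ _ _ _ _ hN h := out_mono h hN
  asks B p y z n := ⟨queries B (dec (fs p)) (sn p) y z n, card_queries _ _ _ _ _ _,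
    fun s hs => by
      have h1 := length_queries hs
      have h2 := length_sn p
      omega,
    fun _ h => out_congr le_rfl h⟩
  sim M := ⟨mark (code M) ++ [false], Polynomial.X, fun B p y z n o h => by
    have h1 : mark (code M) ++ [false] ++ p = pr (code M) p := by
      rw [List.append_assoc]
      rfl
    rw [h1, fs_pr, sn_pr, hCOD, Polynomial.eval_X]
    exact h⟩

/-- the programs of the model -/
theorem INT_prog (hLIB : Stmt_LIB) (hCOD : Stmt_COD) (hRUN : Stmt_RUN) (M : Cmd) :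
    ∃ R : Set Str → Str → Str, FP Set.univ R ∧ ∀ (B : Set Str) (p y z w : Str),
      R B (pr w (pr p (pr y z))) = opt (out B M p y z w.length) := by
  obtain ⟨R, hR, hR2⟩ := hRUN
  have hL : Lib := hLIB
  have h1 : FP Set.univ (fun _ x => pr (fs x) (pr (code M) (sn x))) :=
    hL.pair (hL.fst hL.idn) (hL.pair (hL.const (code M)) (hL.snd hL.idn))
  refine ⟨fun B x => R B (pr (fs x) (pr (code M) (sn x))), hL.comp h1 hR, ?_⟩
  intro B p y z w
  show R B (pr (fs (pr w (pr p (pr y z)))) (pr (code M) (sn (pr w (pr p (pr y z)))))) = _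
  rw [fs_pr, sn_pr, hR2, hCOD]

theorem p_INT (hLIB : Stmt_LIB) (hCOD : Stmt_COD) (hRUN : Stmt_RUN) : Stmt_INT := by
  refine ⟨⟨INT_U hCOD, ?_⟩, fun C hC => INT_prog hLIB hCOD hRUN C,
    fun M => INT_prog hLIB hCOD hRUN M⟩
  obtain ⟨R, hR, hR2⟩ := hRUN
  have hL : Lib := hLIB
  have hp : FP Set.univ (fun _ x => fs (sn x)) := hL.fst (hL.snd hL.idn)
  have h1 : FP Set.univ (fun _ x => pr (fs x) (pr (fs (fs (sn x))) (pr (sn (fs (sn x)))
      (pr (fs (sn (sn x))) (sn (sn (sn x))))))) :=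
    hL.pair (hL.fst hL.idn) (hL.pair (hL.fst hp) (hL.pair (hL.snd hp)
      (hL.pair (hL.fst (hL.snd (hL.snd hL.idn))) (hL.snd (hL.snd (hL.snd hL.idn))))))
  refine ⟨fun B x => R B (pr (fs x) (pr (fs (fs (sn x))) (pr (sn (fs (sn x)))
      (pr (fs (sn (sn x))) (sn (sn (sn x))))))), hL.comp h1 hR, ?_⟩
  intro B p y z w
  obtain ⟨x, hx⟩ : ∃ x, x = pr w (pr p (pr y z)) := ⟨_, rfl⟩
  have e1 : fs x = w := by rw [hx, fs_pr]
  have e2 : sn x = pr p (pr y z) := by rw [hx, sn_pr]
  rw [← hx]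
  show R B (pr (fs x) (pr (fs (fs (sn x))) (pr (sn (fs (sn x)))
      (pr (fs (sn (sn x))) (sn (sn (sn x))))))) = opt (out B (dec (fs p)) (sn p) y z w.length)
  rw [e1, e2, fs_pr, sn_pr, fs_pr, sn_pr, hR2]

end Pool.GL
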