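import Pool.Agent.Work.MP_af7a01_gl.InterfaceA

/-! # MP_af7a01_lc, GapLaw, block LIB: assembly of the closure properties -/

open Classical Pool.IC

namespace Pool.GL

theorem p_LIB (hCMP : Stmt_CMP) (hPAI : Stmt_PAI) (hFST : Stmt_FST) (hSND : Stmt_SND)
    (hBAS : Stmt_BAS) (hCAS : Stmt_CAS) (hFLD : Stmt_FLD) : Stmt_LIB :=
  { comp := fun {S F G} hF hG => hCMP S F G hF hG
    pair := fun {S F G} hF hG => hPAI S F G hF hG
    fst := fun {S F} hF => hCMP S F _ hF (hFST S)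
    snd := fun {S F} hF => hCMP S F _ hF (hSND S)
    idn := fun {S} => (hBAS S).1
    const := fun {S} w => (hBAS S).2.1 w
    cons := fun {S F} b hF => hCMP S F _ hF ((hBAS S).2.2.1 b)
    tail := fun {S F} hF => hCMP S F _ hF (hBAS S).2.2.2.1
    ask := fun {S F} hF => hCMP S F _ hF (hBAS S).2.2.2.2
    cas := fun {S f g₀ g₁ g₂} hf h0 h1 h2 => hCAS S f g₀ g₁ g₂ hf h0 h1 h2
    fold := fun {S f h g} hf hh hg hr => hFLD S f h g hf hh hg hr }

end Pool.GL
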