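import Pool.Agent.Work.MP_af7a01_gl.InterfaceA

open Classical Pool.IC

namespace Pool.GL

theorem LST_fssn : ∀ a : Str, 2 * (fs a).length + (sn a).length ≤ a.length
  | [] => by simp [fs, sn]
  | false :: l => by simp [fs, sn]
  | true :: [] => by simp [fs, sn]
  | true :: x :: l => by
      simp only [fs, sn, List.length_cons]
      have := LST_fssn l
      omega

theorem LST_ht (y : Str) : 2 * (hdl y).length + (tll y).length ≤ y.length := by
  have h1 := LST_fssn y.tail
  have h2 : y.tail.length ≤ y.length := by simp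
  unfold hdl tll
  omega

/-- Step of phase 1. -/
def LST_g1 (a : Str) : Str := pr (true :: pr (hdl (sn a)) (fs a)) (tll (sn a))

/-- Step of phase 2. -/
def LST_g2 (a : Str) : Str := pr (tll (fs a)) (true :: pr (hdl (fs a)) (sn a))

/-- Phase 1 on lists. -/
def LST_p1 : ℕ → List Str → List Str → List Str × List Str
  | 0, R, L => (R, L)
  | n + 1, R, L => LST_p1 n (L.headD [] :: R) L.tail

/-- Phase 2 on lists. -/
def LST_p2 : ℕ → List Str → List Str → List Str
  | 0, _, A => A
  | n + 1, R, A => LST_p2 n R.tail (R.headD [] :: A)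

theorem LST_p2_succ (n : ℕ) : ∀ X A : List Str,
    LST_p2 (n + 1) X A = X.getD n [] :: LST_p2 n X A := by
  induction n with
  | zero =>
    intro X A
    cases X <;> simp [LST_p2]
  | succ n ih =>
    intro X A
    rw [LST_p2, ih]
    cases X with
    | nil => simp [LST_p2]
    | cons a X => simp [LST_p2]

theorem LST_p1_getD (n : ℕ) : ∀ (k : ℕ) (R L : List Str),
    (LST_p1 n R L).1.getD (n + k) [] = R.getD k [] := by
  induction n with
  | zero => intro k R L; simp [LST_p1]
  | succ n ih =>
    intro k R L
    rw [LST_p1, show n + 1 + k = n + (k + 1) by omega, ih]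
    simp

theorem LST_p12 (v : Str) (n : ℕ) : ∀ R L : List Str,
    LST_p2 n (LST_p1 n R L).1 (v :: (LST_p1 n R L).2.tail) = setL v n L := by
  induction n with
  | zero =>
    intro R L
    cases L <;> simp [LST_p1, LST_p2, setL]
  | succ n ih =>
    intro R L
    rw [LST_p2_succ, LST_p1, ih]
    have h := LST_p1_getD n 0 (L.headD [] :: R) L.tail
    rw [Nat.add_zero] at h
    rw [h]
    cases L <;> simp [setL]

theorem LST_f1 (w : Str) : ∀ R L : List Str,
    w.foldl (fun a _ => LST_g1 a) (pr (el R) (el L)) =
      pr (el (LST_p1 w.length R L).1) (el (LST_p1 w.length R L).2) := by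
  induction w with
  | nil => intro R L; rfl
  | cons b w ih =>
    intro R L
    rw [List.foldl_cons, List.length_cons, LST_p1, ← ih]
    congr 1
    unfold LST_g1
    rw [fs_pr, sn_pr, hdl_el, tll_el]
    rfl

theorem LST_f2 (w : Str) : ∀ R A : List Str,
    sn (w.foldl (fun a _ => LST_g2 a) (pr (el R) (el A))) = el (LST_p2 w.length R A) := by
  induction w with
  | nil => intro R A; exact sn_pr _ _
  | cons b w ih =>
    intro R A
    rw [List.foldl_cons, List.length_cons, LST_p2, ← ih]
    congr 2
    unfold LST_g2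
    rw [fs_pr, sn_pr, hdl_el, tll_el]
    rfl

theorem LST_b1 (l : Str) : ∀ u v : Str, ∃ u' v' : Str,
    l.foldl (fun a _ => LST_g1 a) (pr u v) = pr u' v' ∧
      u'.length + v'.length ≤ u.length + v.length + 2 * l.length := by
  induction l with
  | nil => intro u v; exact ⟨u, v, rfl, by simp⟩
  | cons b l ih =>
    intro u v
    have e : LST_g1 (pr u v) = pr (true :: pr (hdl v) u) (tll v) := by
      unfold LST_g1
      rw [fs_pr, sn_pr]
    obtain ⟨u', v', h1, h2⟩ := ih (true :: pr (hdl v) u) (tll v)
    refine ⟨u', v', ?_, ?_⟩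
    · rw [List.foldl_cons, e, h1]
    · have h3 := LST_ht v
      rw [List.length_cons, length_pr] at h2
      rw [List.length_cons]
      omega

theorem LST_b2 (l : Str) : ∀ u v : Str, ∃ u' v' : Str,
    l.foldl (fun a _ => LST_g2 a) (pr u v) = pr u' v' ∧
      u'.length + v'.length ≤ u.length + v.length + 2 * l.length := by
  induction l with
  | nil => intro u v; exact ⟨u, v, rfl, by simp⟩
  | cons b l ih =>
    intro u v
    have e : LST_g2 (pr u v) = pr (tll u) (true :: pr (hdl u) v) := by
      unfold LST_g2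
      rw [fs_pr, sn_pr]
    obtain ⟨u', v', h1, h2⟩ := ih (tll u) (true :: pr (hdl u) v)
    refine ⟨u', v', ?_, ?_⟩
    · rw [List.foldl_cons, e, h1]
    · have h3 := LST_ht u
      rw [List.length_cons, length_pr] at h2
      rw [List.length_cons]
      omega

/-- Phase 1. -/
def LST_P1 (x : Str) : Str := (fs x).foldl (fun a _ => LST_g1 a) (pr [] (sn (sn x)))

/-- Phase 2. -/
def LST_P2 (x : Str) : Str := (fs x).foldl (fun a _ => LST_g2 a)
  (pr (fs (LST_P1 x)) (true :: pr (fs (sn x)) (tll (sn (LST_P1 x)))))

theorem LST_get (w : Str) : ∀ L : List Str,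
    w.foldl (fun a _ => tll a) (el L) = el (L.drop w.length) := by
  induction w with
  | nil => intro L; rfl
  | cons b w ih =>
    intro L
    rw [List.foldl_cons, tll_el, ih, List.length_cons]
    cases L <;> simp

theorem LST_getlen (l : Str) : ∀ y : Str, (l.foldl (fun a _ => tll a) y).length ≤ y.length := by
  induction l with
  | nil => intro y; exact le_rfl
  | cons b l ih =>
    intro y
    rw [List.foldl_cons]
    have h := LST_ht y
    have h' := ih (tll y)
    omega

theorem LST_fpP1 (L : Lib) : FP Set.univ (fun _ x => LST_P1 x) := by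
  refine L.fold (f := fun _ x => fs x) (h := fun _ x => pr [] (sn (sn x)))
    (g := fun _ _ a => LST_g1 a) (L.fst L.idn) (L.pair (L.const []) (L.snd (L.snd L.idn)))
    (fun b => ?_) ⟨Polynomial.C 6 * Polynomial.X + Polynomial.C 1, ?_⟩
  · exact L.pair (L.cons true (L.pair (L.fst (L.tail (L.snd L.idn))) (L.fst L.idn)))
      (L.snd (L.tail (L.snd L.idn)))
  · intro B _ x l hl
    obtain ⟨u', v', h1, h2⟩ := LST_b1 l [] (sn (sn x))
    have h3 := length_sn (sn x)
    have h4 := length_sn x
    have h5 := length_fs x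
    have h6 : l.length ≤ (fs x).length := hl.length_le
    simp only [Polynomial.eval_add, Polynomial.eval_mul, Polynomial.eval_C, Polynomial.eval_X]
    rw [h1, length_pr]
    simp only [List.length_nil] at h2
    omega

theorem LST_fpP2 (L : Lib) : FP Set.univ (fun _ x => LST_P2 x) := by
  refine L.fold (f := fun _ x => fs x)
    (h := fun _ x => pr (fs (LST_P1 x)) (true :: pr (fs (sn x)) (tll (sn (LST_P1 x)))))
    (g := fun _ _ a => LST_g2 a) (L.fst L.idn)
    (L.pair (L.fst (LST_fpP1 L)) (L.cons true (L.pair (L.fst (L.snd L.idn))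
      (L.snd (L.tail (L.snd (LST_fpP1 L)))))))
    (fun b => ?_) ⟨Polynomial.C 14 * Polynomial.X + Polynomial.C 5, ?_⟩
  · exact L.pair (L.snd (L.tail (L.fst L.idn))) (L.cons true (L.pair (L.fst (L.tail (L.fst L.idn)))
      (L.snd L.idn)))
  · intro B _ x l hl
    obtain ⟨u, v, h1, h2⟩ := LST_b1 (fs x) [] (sn (sn x))
    have e : LST_P1 x = pr u v := h1
    simp only [e, fs_pr, sn_pr]
    obtain ⟨u', v', h1', h2'⟩ := LST_b2 l u (true :: pr (fs (sn x)) (tll v))
    have h3 := length_sn (sn x)
    have h4 := length_sn x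
    have h5 := length_fs x
    have h6 : l.length ≤ (fs x).length := hl.length_le
    have h7 := LST_ht v
    have h8 := length_fs (sn x)
    simp only [Polynomial.eval_add, Polynomial.eval_mul, Polynomial.eval_C, Polynomial.eval_X]
    rw [h1', length_pr]
    simp only [List.length_nil, List.length_cons, length_pr] at h2 h2'
    omega

theorem p_LST (hLIB : Stmt_LIB) (_hTLS : Stmt_TLS) : Stmt_LST := by
  have L : Lib := hLIB
  refine ⟨⟨fun _ x => hdl ((fs x).foldl (fun a _ => tll a) (sn x)), ?_, ?_⟩,
    ⟨fun _ x => sn (LST_P2 x), L.snd (LST_fpP2 L), ?_⟩⟩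
  · refine L.fst (L.tail (L.fold (f := fun _ x => fs x) (h := fun _ x => sn x)
      (g := fun _ _ a => tll a) (L.fst L.idn) (L.snd L.idn)
      (fun b => L.snd (L.tail L.idn)) ⟨Polynomial.X, ?_⟩))
    intro B _ x l _
    rw [Polynomial.eval_X]
    exact (LST_getlen l (sn x)).trans (length_sn x)
  · intro B w L'
    simp only
    rw [fs_pr, sn_pr, LST_get, hdl_el]
    generalize w.length = n
    induction n generalizing L' with
    | zero => cases L' <;> simp
    | succ n ih => cases L' with
      | nil => simp
      | cons a L' => simp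
  · intro B w v L'
    simp only
    unfold LST_P2 LST_P1
    rw [sn_pr, sn_pr, fs_pr, fs_pr]
    have h := LST_f1 w [] L'
    rw [show el [] = [] from rfl] at h
    rw [h, fs_pr, sn_pr, tll_el]
    have h2 := LST_f2 w (LST_p1 w.length [] L').1 (v :: (LST_p1 w.length [] L').2.tail)
    rw [show el (v :: (LST_p1 w.length [] L').2.tail) =
      true :: pr v (el (LST_p1 w.length [] L').2.tail) from rfl] at h2
    rw [h2, LST_p12]

end Pool.GL
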