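import Pool.Agent.Work.MP_af7a01_gl.InterfaceA

/-! Block LTC of MP_af7a01_lc (GapLaw), helper56. -/

set_option autoImplicit false

open Classical Pool.IC

namespace Pool.GL

theorem LTC_dec {S : Set (Set Str)} {F : Set Str → Str → Prop}
    {inst : ∀ B x, Decidable (F B x)} (h : FP S (fun B x => [@decide (F B x) (inst B x)])) :
    FP S (fun B x => [@decide (F B x) (propDecidable (F B x))]) := by
  refine h.congr ?_
  intro B _ x
  congr

/-- one step of the comparison: state `pr rest res` -/
def LTC_g (b : Bool) (_B : Set Str) (s : Str) : Str :=
  cas (fs s) (pr [] (sn s))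
    (pr (fs s).tail (cas [b] [] (sn s) [false]))
    (pr (fs s).tail (cas [b] [] [true] (sn s)))

theorem LTC_step (b : Bool) (B : Set Str) (rest res : Str) :
    LTC_g b B (pr rest res) = cas rest (pr [] res) (pr rest.tail (cas [b] [] res [false]))
      (pr rest.tail (cas [b] [] [true] res)) := by
  unfold LTC_g
  rw [fs_pr, sn_pr]

theorem LTC_len (B : Set Str) (l : Str) : ∀ rest res : Str, res.length ≤ 1 →
    ∃ rest' res' : Str, l.foldl (fun a b => LTC_g b B a) (pr rest res) = pr rest' res' ∧
      rest'.length ≤ rest.length ∧ res'.length ≤ 1 := by
  induction l with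
  | nil => intro rest res h; exact ⟨rest, res, rfl, le_refl _, h⟩
  | cons x l ih =>
    intro rest res h
    rw [List.foldl_cons, LTC_step]
    match rest, x with
    | [], _ =>
      obtain ⟨a, b, h1, h2, h3⟩ := ih [] res h
      exact ⟨a, b, h1, h2, h3⟩
    | false :: rest, false =>
      obtain ⟨a, b, h1, h2, h3⟩ := ih rest res h
      exact ⟨a, b, h1, by rw [List.length_cons]; omega, h3⟩
    | false :: rest, true =>
      obtain ⟨a, b, h1, h2, h3⟩ := ih rest [false] (le_refl _)
      exact ⟨a, b, h1, by rw [List.length_cons]; omega, h3⟩
    | true :: rest, false =>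
      obtain ⟨a, b, h1, h2, h3⟩ := ih rest [true] (le_refl _)
      exact ⟨a, b, h1, by rw [List.length_cons]; omega, h3⟩
    | true :: rest, true =>
      obtain ⟨a, b, h1, h2, h3⟩ := ih rest res h
      exact ⟨a, b, h1, by rw [List.length_cons]; omega, h3⟩

theorem LTC_val (hI : Stmt_IDX) (B : Set Str) (l : Str) : ∀ rest res : Str,
    rest.length = l.length →
    sn (l.foldl (fun a b => LTC_g b B a) (pr rest res)) =
      if l = rest then res else [decide (idx l < idx rest)] := by
  have hinj : ∀ x y : Str, idx x = idx y → x = y := by
    intro x y h
    rw [← hI.2.1 x, ← hI.2.1 y, h]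
  have he0 : ∀ m : Str, idx (false :: m) = 2 * idx m + 1 := fun _ => rfl
  have he1 : ∀ m : Str, idx (true :: m) = 2 * idx m + 2 := fun _ => rfl
  induction l with
  | nil =>
    intro rest res h
    have h1 : rest = [] := List.eq_nil_of_length_eq_zero h
    subst h1
    simp [sn_pr]
  | cons x l ih =>
    intro rest res h
    rw [List.foldl_cons, LTC_step]
    match rest, x with
    | [], _ => simp at h
    | false :: rest, false =>
      rw [List.length_cons, List.length_cons] at h
      have h1 := ih rest res (by omega)
      show sn (l.foldl (fun a b => LTC_g b B a) (pr rest res)) = _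
      rw [h1]
      by_cases h2 : l = rest
      · rw [if_pos h2, if_pos (by rw [h2])]
      · rw [if_neg h2, if_neg (by intro h3; exact h2 (List.cons.inj h3).2)]
        congr 1
        rw [decide_eq_decide]
        have e1 := he0 l
        have e2 := he0 rest
        have e3 := he1 l
        have e4 := he1 rest
        omega
    | false :: rest, true =>
      rw [List.length_cons, List.length_cons] at h
      have h1 := ih rest [false] (by omega)
      show sn (l.foldl (fun a b => LTC_g b B a) (pr rest [false])) = _
      rw [h1]
      rw [if_neg (show ¬ (true :: l = false :: rest) by simp)]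
      by_cases h2 : l = rest
      · rw [if_pos h2]
        subst h2
        congr 1
        symm
        rw [decide_eq_false_iff_not]
        have e1 := he0 l
        have e3 := he1 l
        omega
      · rw [if_neg h2]
        have h3 : idx l ≠ idx rest := fun h3 => h2 (hinj _ _ h3)
        congr 1
        rw [decide_eq_decide]
        have e1 := he0 l
        have e2 := he0 rest
        have e3 := he1 l
        have e4 := he1 rest
        omega
    | true :: rest, false =>
      rw [List.length_cons, List.length_cons] at h
      have h1 := ih rest [true] (by omega)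
      show sn (l.foldl (fun a b => LTC_g b B a) (pr rest [true])) = _
      rw [h1]
      rw [if_neg (show ¬ (false :: l = true :: rest) by simp)]
      by_cases h2 : l = rest
      · rw [if_pos h2]
        subst h2
        congr 1
        symm
        rw [decide_eq_true_iff]
        have e1 := he0 l
        have e3 := he1 l
        omega
      · rw [if_neg h2]
        have h3 : idx l ≠ idx rest := fun h3 => h2 (hinj _ _ h3)
        congr 1
        rw [decide_eq_decide]
        have e1 := he0 l
        have e2 := he0 rest
        have e3 := he1 l
        have e4 := he1 rest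
        omega
    | true :: rest, true =>
      rw [List.length_cons, List.length_cons] at h
      have h1 := ih rest res (by omega)
      show sn (l.foldl (fun a b => LTC_g b B a) (pr rest res)) = _
      rw [h1]
      by_cases h2 : l = rest
      · rw [if_pos h2, if_pos (by rw [h2])]
      · rw [if_neg h2, if_neg (by intro h3; exact h2 (List.cons.inj h3).2)]
        congr 1
        rw [decide_eq_decide]
        have e1 := he0 l
        have e2 := he0 rest
        have e3 := he1 l
        have e4 := he1 rest
        omega

theorem LTC_lt (hI : Stmt_IDX) (a b : Str) (h : a.length < b.length) : idx a < idx b := by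
  have h1 := (hI.2.2.2.1 a).2
  have h2 := (hI.2.2.2.1 b).1
  have h3 : 2 ^ (a.length + 1) ≤ 2 ^ b.length := Nat.pow_le_pow_right (by norm_num) h
  omega

theorem p_LTC (hL : Stmt_LIB) (hT : Stmt_TLS) (hI : Stmt_IDX) : Stmt_LTC := by
  intro S F G hF hG
  have hL : Lib := hL
  have hg : ∀ b, FP S (LTC_g b) := by
    intro b
    refine hL.cas (hL.fst hL.idn) (hL.pair (hL.const []) (hL.snd hL.idn))
      (hL.pair (hL.tail (hL.fst hL.idn))
        (hL.cas (hL.const [b]) (hL.const []) (hL.snd hL.idn) (hL.const [false])))
      (hL.pair (hL.tail (hL.fst hL.idn))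
        (hL.cas (hL.const [b]) (hL.const []) (hL.const [true]) (hL.snd hL.idn)))
  obtain ⟨r, hr⟩ := hG.length
  have hfold := hL.fold (f := F) (h := fun B x => pr (G B x) [false]) (g := LTC_g) hF
    (hL.pair hG (hL.const [false])) hg
    ⟨2 * r + 2, fun B hB x l hl => by
      obtain ⟨a, b, h1, h2, h3⟩ := LTC_len B l (G B x) [false] (le_refl _)
      have h4 := hr B hB x
      rw [h1, length_pr, Polynomial.eval_add, Polynomial.eval_mul, Polynomial.eval_ofNat]
      omega⟩
  have hE := ((hT S).2.2 _ _ (hL.snd hfold) (hL.const [true])).1
  have hA := ((hT S).2.2 F G hF hG).2.1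
  have hB := ((hT S).2.2 G F hG hF).2.1
  have hE' := LTC_dec hE
  have hA' := LTC_dec hA
  have hB' := LTC_dec hB
  have hBn := ((hT S).1 _ _ hB' hB').2.2
  have hBn' := LTC_dec (F := fun B x => ¬ (G B x).length < (F B x).length) hBn
  have hand := ((hT S).1 _ _ hBn' hE').1
  have hand := LTC_dec (F := fun B x => ¬ (G B x).length < (F B x).length ∧
    sn (List.foldl (fun a b => LTC_g b B a) (pr (G B x) [false]) (F B x)) = [true]) hand
  have hor := ((hT S).1 _ _ hA' hand).2.1
  refine hor.congr ?_
  intro B _ x
  congr 1
  rw [decide_eq_decide]
  constructor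
  · rintro (h | ⟨h1, h2⟩)
    · exact LTC_lt hI _ _ h
    · by_cases h3 : (F B x).length < (G B x).length
      · exact LTC_lt hI _ _ h3
      · have h4 : (G B x).length = (F B x).length := by omega
        rw [LTC_val hI B (F B x) (G B x) [false] h4] at h2
        by_cases h5 : F B x = G B x
        · rw [if_pos h5] at h2
          simp at h2
        · rw [if_neg h5] at h2
          simpa using h2
  · intro h
    by_cases h3 : (F B x).length < (G B x).length
    · exact Or.inl h3
    · right
      have h6 : ¬ (G B x).length < (F B x).length := by
        intro h6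
        have := LTC_lt hI _ _ h6
        omega
      refine ⟨h6, ?_⟩
      have h4 : (G B x).length = (F B x).length := by omega
      rw [LTC_val hI B (F B x) (G B x) [false] h4]
      have h5 : F B x ≠ G B x := by
        intro h5
        rw [h5] at h
        omega
      rw [if_neg h5]
      simpa using h

end Pool.GL
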