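import Pool.Agent.Work.MP_af7a01_gl.InterfaceB

open Classical Pool.IC

namespace Pool.GL

theorem NPR_loop (B : Set Str) (s : Store) :
    ExecLe B (Cmd.loop 3 (Cmd.seq (Cmd.pop 3) (Cmd.pop 0))) s (4 * (s 3).length + 1)
      (Function.update (Function.update s 3 []) 0 ((s 0).drop (s 3).length)) := by
  generalize hl : s 3 = l
  induction l generalizing s with
  | nil =>
    have : Function.update (Function.update s 3 []) 0 ((s 0).drop ([] : Str).length) = s := by
      funext m
      by_cases hm : m = 0
      · subst hm; simp
      · by_cases hm' : m = 3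
        · subst hm'; simp [hl]
        · simp [Function.update_of_ne hm, Function.update_of_ne hm']
    rw [this]
    exact ExecLe.loop_nil hl
  | cons b l ih =>
    have h1 := pop_spec B 3 s
    rw [hl, List.tail_cons] at h1
    set s1 : Store := Function.update s 3 l with hs1
    have h2 := pop_spec B 0 s1
    have h10 : s1 0 = s 0 := by rw [hs1, Function.update_of_ne (by decide)]
    rw [h10] at h2
    set s2 : Store := Function.update s1 0 (s 0).tail with hs2
    have h23 : s2 3 = l := by
      rw [hs2, Function.update_of_ne (by decide), hs1, Function.update_self]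
    have h20 : s2 0 = (s 0).tail := by rw [hs2, Function.update_self]
    have h3 := ih s2 h23
    rw [h20] at h3
    have h4 := (ExecLe.loop_step (by rw [hl]; simp) (h1.seq h2) h3).mono
      (n := 4 * (b :: l).length + 1) (by simp only [List.length_cons]; omega)
    have h5 : Function.update (Function.update s2 3 []) 0 ((s 0).tail.drop l.length) =
        Function.update (Function.update s 3 []) 0 ((s 0).drop (b :: l).length) := by
      funext m
      by_cases hm : m = 0
      · subst hm; simp
      · by_cases hm' : m = 3
        · subst hm'; simp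
        · simp [hs2, hs1, Function.update_of_ne hm, Function.update_of_ne hm']
    rw [h5] at h4
    exact h4

theorem p_NPR (hTOC : Stmt_TOC) : Stmt_NPR := by
  intro B J hJ
  obtain ⟨N₀, q, -, hc⟩ := clean_area (hTOC {B} _ hJ)
  obtain ⟨r0, hr0⟩ := hJ.length
  obtain ⟨c, hc⟩ := hc 2
  refine ⟨Cmd.seq c (Cmd.seq (Cmd.loop 3 (Cmd.seq (Cmd.pop 3) (Cmd.pop 0)))
    (Cmd.branch 0 Cmd.skip (Cmd.push 3 false) (Cmd.push 3 true))),
    q + 4 * r0 + 10, fun w y z => ?_⟩
  have h1 := hc B rfl (init w y z) (fun j hj => by
    unfold init
    rw [if_neg (by omega), if_neg (by omega), if_neg (by omega)])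
  have hz : init w y z 2 = z := rfl
  rw [hz] at h1
  set s1 : Store := Function.update (Function.update (init w y z) 2 []) (2 + 1) (J z) with hs1
  have h2 := NPR_loop B s1
  have h13 : s1 3 = J z := by rw [hs1]; exact Function.update_self _ _ _
  have h10 : s1 0 = w := by
    rw [hs1, Function.update_of_ne (by decide), Function.update_of_ne (by decide)]
    rfl
  rw [h13, h10] at h2
  set s2 : Store := Function.update (Function.update s1 3 []) 0 (w.drop (J z).length) with hs2
  have h20 : s2 0 = w.drop (J z).length := by rw [hs2, Function.update_self]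
  have h23 : s2 3 = [] := by
    rw [hs2, Function.update_of_ne (by decide), Function.update_self]
  have hlen : (J z).length ≤ r0.eval z.length := hr0 B rfl z
  have key : ∃ s3, ExecLe B (Cmd.branch 0 Cmd.skip (Cmd.push 3 false) (Cmd.push 3 true)) s2 2 s3 ∧
      s3 3 = (w.drop (J z).length).take 1 := by
    rcases hd : w.drop (J z).length with _ | ⟨b, l⟩
    · refine ⟨s2, ?_, by rw [h23]; rfl⟩
      exact ExecLe.branch_nil (by rw [h20, hd]) (le_skip B s2)
    · refine ⟨Function.update s2 3 (b :: s2 3), ?_, by rw [Function.update_self, h23]; rfl⟩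
      refine ExecLe.branch_cons (b := b) (l := l) (by rw [h20, hd]) ?_
      cases b
      · exact push_spec B 3 false s2
      · exact push_spec B 3 true s2
  obtain ⟨s3, h3, h33⟩ := key
  obtain ⟨m, hm, h4⟩ := h1.seq (h2.seq h3)
  rw [← h33]
  refine out_of_exec h4 (hm.trans ?_)
  simp only [Polynomial.eval_add, Polynomial.eval_mul, Polynomial.eval_ofNat]
  omega

end Pool.GL
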