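import Pool.Agent.Work.MP_af7a01_gl.InterfaceA

open Classical Pool.IC

namespace Pool.GL

/-- The loop which marks. -/
def PAI_loop : Cmd :=
  Cmd.loop 1 (Cmd.branch 1 Cmd.skip
    (Cmd.seq (Cmd.pop 1) (Cmd.seq (Cmd.push 3 false) (Cmd.push 3 true)))
    (Cmd.seq (Cmd.pop 1) (Cmd.seq (Cmd.push 3 true) (Cmd.push 3 true))))

theorem PAI_loop_spec (B : Set Str) (l : Str) : ∀ d : Str,
    ExecLe B PAI_loop (st [] l [] d [] [] []) (7 * l.length + 1)
      (st [] [] [] (mark l.reverse ++ d) [] [] []) := by
  unfold PAI_loop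
  induction l with
  | nil =>
    intro d
    exact ExecLe.loop_nil (i := 1) (s := st [] [] [] d [] [] []) rfl
  | cons b l ih =>
    intro d
    have h1 : ExecLe B (Cmd.branch 1 Cmd.skip
        (Cmd.seq (Cmd.pop 1) (Cmd.seq (Cmd.push 3 false) (Cmd.push 3 true)))
        (Cmd.seq (Cmd.pop 1) (Cmd.seq (Cmd.push 3 true) (Cmd.push 3 true))))
        (st [] (b :: l) [] d [] [] []) 6 (st [] l [] (true :: b :: d) [] [] []) := by
      refine ExecLe.branch_cons (i := 1) (b := b) (l := l) rfl ?_
      cases b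
      · exact (pop1 B [] (false :: l) [] d [] [] []).seq
          ((push3 B [] l [] d [] [] [] false).seq (push3 B [] l [] (false :: d) [] [] [] true))
      · exact (pop1 B [] (true :: l) [] d [] [] []).seq
          ((push3 B [] l [] d [] [] [] true).seq (push3 B [] l [] (true :: d) [] [] [] true))
    have h2 := ih (true :: b :: d)
    have h3 : mark (b :: l).reverse ++ d = mark l.reverse ++ true :: b :: d := by
      simp [mark]
    rw [h3]
    refine (ExecLe.loop_step (i := 1) (s := st [] (b :: l) [] d [] [] []) ?_ h1 h2).mono ?_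
    · exact List.cons_ne_nil _ _
    · simp only [List.length_cons]
      omega


theorem p_PAI (hTOC : Stmt_TOC) : Stmt_PAI := by
  intro S F G hF hG
  obtain ⟨r0, hr0⟩ := hF.length
  obtain ⟨N1, q1, hN1, h1⟩ := hTOC S F hF
  obtain ⟨N2, q2, hN2, h2⟩ := hTOC S G hG
  obtain ⟨c1, hc1⟩ := h1 2
  obtain ⟨c2, hc2⟩ := h2 2
  refine ⟨Cmd.seq (cpo 2 3 0) (Cmd.seq c1 (Cmd.seq (mv 3 1) (Cmd.seq (mvo 0 3 2) (Cmd.seq c2
    (Cmd.seq (Cmd.push 3 false) PAI_loop))))), Polynomial.C 30 * Polynomial.X + q1 +
      q2 + Polynomial.C 12 * r0 + Polynomial.C 30, ?_⟩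
  intro B hB z
  have e1 : ExecLe B (cpo 2 3 0) (st [] [] z [] [] [] []) (12 * z.length + 3)
      (st z [] z [] [] [] []) := by
    have h := cpo_spec B (i := 2) (t := 3) (j := 0) (by omega) (by omega) (by omega)
      (st [] [] z [] [] [] []) rfl rfl
    rw [upd0] at h
    exact h
  have hst : ∀ (a b c : Str) (j : ℕ), 2 + 1 ≤ j → st a b c [] [] [] [] j = [] := by
    intro a b c j hj
    rcases j with _ | _ | _ | _ | _ | _ | _ | j
    · omega
    · omega
    · omega
    all_goals rfl
  have e2 : ExecLe B c1 (st z [] z [] [] [] []) (q1.eval z.length)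
      (st z [] [] (F B z) [] [] []) := by
    have h := hc1 B hB (st z [] z [] [] [] []) (fun j hj _ => hst _ _ _ j hj)
    rw [upd2, upd3] at h
    exact h
  have e3 : ExecLe B (mv 3 1) (st z [] [] (F B z) [] [] []) (5 * (F B z).length + 1)
      (st z (F B z).reverse [] [] [] [] []) := by
    have h := mv_spec B (i := 3) (j := 1) (by omega) (st z [] [] (F B z) [] [] [])
    rw [upd3, upd1] at h
    have h' : (st z [] [] (F B z) [] [] [] 3).reverse ++ st z [] [] (F B z) [] [] [] 1 =
        (F B z).reverse := List.append_nil _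
    rw [h'] at h
    exact h
  have e4 : ExecLe B (mvo 0 3 2) (st z (F B z).reverse [] [] [] [] []) (10 * z.length + 3)
      (st [] (F B z).reverse z [] [] [] []) := by
    have h := mvo_spec B (i := 0) (t := 3) (j := 2) (by omega) (by omega) (by omega)
      (st z (F B z).reverse [] [] [] [] []) rfl rfl
    rw [upd0, upd2] at h
    exact h
  have e5 : ExecLe B c2 (st [] (F B z).reverse z [] [] [] []) (q2.eval z.length)
      (st [] (F B z).reverse [] (G B z) [] [] []) := by
    have h := hc2 B hB (st [] (F B z).reverse z [] [] [] []) (fun j hj _ => hst _ _ _ j hj)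
    rw [upd2, upd3] at h
    exact h
  have e6 := push3 B [] (F B z).reverse [] (G B z) [] [] [] false
  have e7 := PAI_loop_spec B (F B z).reverse (false :: G B z)
  rw [List.reverse_reverse, List.length_reverse] at e7
  have e := e1.seq (e2.seq (e3.seq (e4.seq (e5.seq (e6.seq e7)))))
  obtain ⟨m, hm, hE⟩ := e
  rw [← init_eq] at hE
  have hlen := hr0 B hB z
  have hm' : m ≤ (Polynomial.C 30 * Polynomial.X + q1 +
      q2 + Polynomial.C 12 * r0 + Polynomial.C 30).eval z.length := by
    simp only [Polynomial.eval_add, Polynomial.eval_mul, Polynomial.eval_C, Polynomial.eval_X]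
    omega
  rw [out_of_exec hE hm']
  rfl

end Pool.GL
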