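import Pool.Agent.Work.MP_af7a01_gl.InterfaceB

/-! Block REC: the record process. -/

open Classical Pool.IC

namespace Pool.GL

theorem REC_succ (j : ℕ → ℕ) (m n : ℕ) : rp j m (n + 1) =
    if (rp j m n).2.2.2 = true then rp j m n
    else if m < j (n + 1) then ((rp j m n).1, (rp j m n).2.1, (rp j m n).2.2.1, true)
    else if (rp j m n).1 < j (n + 1) then (j (n + 1), (rp j m n).2.1 + 1, n + 1, false)
    else rp j m n := rfl

/-- while the process is not stopped, the first component is the maximum -/
theorem REC_max (j : ℕ → ℕ) (h0 : j 0 = 0) (m N : ℕ) (h : (rp j m N).2.2.2 = false) :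
    ∀ i ≤ N, j i ≤ (rp j m N).1 := by
  induction N with
  | zero =>
    intro i hi
    have : i = 0 := by omega
    subst this
    rw [h0]
    exact Nat.zero_le _
  | succ N ih =>
    rw [REC_succ] at h ⊢
    by_cases h1 : (rp j m N).2.2.2 = true
    · rw [if_pos h1] at h
      rw [h] at h1
      exact absurd h1 (by simp)
    · rw [if_neg h1] at h ⊢
      have h1' : (rp j m N).2.2.2 = false := by simpa using h1
      have h4 := ih h1'
      by_cases h2 : m < j (N + 1)
      · rw [if_pos h2] at h
        exact absurd h (by simp)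
      · rw [if_neg h2] at h ⊢
        by_cases h3 : (rp j m N).1 < j (N + 1)
        · rw [if_pos h3]
          intro i hi
          rcases Nat.lt_or_ge i (N + 1) with h5 | h5
          · exact ((h4 i (by omega)).trans h3.le)
          · have : i = N + 1 := by omega
            rw [this]
        · rw [if_neg h3]
          intro i hi
          rcases Nat.lt_or_ge i (N + 1) with h5 | h5
          · exact h4 i (by omega)
          · have : i = N + 1 := by omega
            rw [this]
            omega

theorem REC_const (j : ℕ → ℕ) (h0 : j 0 = 0) (m n : ℕ) (hn : j n = m) (N : ℕ) (hN : n ≤ N) :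
    (rp j m N).2.1 = (rp j m n).2.1 ∧ (rp j m N).2.2.1 = (rp j m n).2.2.1 := by
  induction N, hN using Nat.le_induction with
  | base => exact ⟨rfl, rfl⟩
  | succ N hN ih =>
    rw [REC_succ]
    by_cases h1 : (rp j m N).2.2.2 = true
    · rw [if_pos h1]
      exact ih
    · rw [if_neg h1]
      by_cases h2 : m < j (N + 1)
      · rw [if_pos h2]
        exact ih
      · rw [if_neg h2]
        have h1' : (rp j m N).2.2.2 = false := by simpa using h1
        have h4 := REC_max j h0 m N h1' n hN
        have h3 : ¬ (rp j m N).1 < j (N + 1) := by omega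
        rw [if_neg h3]
        exact ih

theorem REC_agree (j : ℕ → ℕ) (m m' N : ℕ) (h : ∀ i ≤ N, j i ≤ m) (h' : ∀ i ≤ N, j i ≤ m') :
    rp j m N = rp j m' N := by
  induction N with
  | zero => rfl
  | succ N ih =>
    have ih' := ih (fun i hi => h i (by omega)) (fun i hi => h' i (by omega))
    rw [REC_succ, REC_succ, ih', if_neg (show ¬ m < j (N + 1) from not_lt.mpr (h _ le_rfl)),
      if_neg (show ¬ m' < j (N + 1) from not_lt.mpr (h' _ le_rfl))]

theorem REC_exists (j : ℕ → ℕ) (h0 : j 0 = 0) (hu : ∀ K, ∃ n, K ≤ j n) (k : ℕ) :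
    ∃ n, rp j (j n) n = (j n, k, n, false) ∧ ∀ i ≤ n, j i ≤ j n := by
  induction k with
  | zero =>
    refine ⟨0, ?_, fun i hi => ?_⟩
    · rw [h0]; rfl
    · have : i = 0 := by omega
      rw [this]
  | succ k ih =>
    obtain ⟨n, hn, hmax⟩ := ih
    have hex : ∃ x, j n < j x := by
      obtain ⟨x, hx⟩ := hu (j n + 1)
      exact ⟨x, by omega⟩
    obtain ⟨x, hx⟩ : ∃ x, x = Nat.find hex := ⟨_, rfl⟩
    have hx1 : j n < j x := by rw [hx]; exact Nat.find_spec hex
    have hx2 : ∀ i < x, j i ≤ j n := by
      intro i hi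
      rw [hx] at hi
      exact not_lt.mp (Nat.find_min hex hi)
    have hnx : n < x := by
      by_contra hc
      exact absurd (hmax x (by omega)) (by omega)
    have key : ∀ i, n ≤ i → i < x → rp j (j x) i = (j n, k, n, false) := by
      intro i hi
      induction i, hi using Nat.le_induction with
      | base =>
        intro _
        rw [REC_agree j (j x) (j n) n (fun i hi => (hmax i hi).trans hx1.le) hmax, hn]
      | succ i hi ih2 =>
        intro hix
        have h1 := ih2 (by omega)
        rw [REC_succ, h1]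
        have h2 := hx2 (i + 1) hix
        simp only
        rw [if_neg (by simp), if_neg (by omega), if_neg (by omega)]
    obtain ⟨y, rfl⟩ : ∃ y, x = y + 1 := ⟨x - 1, by omega⟩
    refine ⟨y + 1, ?_, fun i hi => ?_⟩
    · have h1 := key y (by omega) (by omega)
      rw [REC_succ, h1]
      simp only
      rw [if_neg (by simp), if_neg (by omega), if_pos hx1]
    · rcases Nat.lt_or_ge i (y + 1) with h5 | h5
      · exact (hx2 i h5).trans hx1.le
      · have : i = y + 1 := by omega
        rw [this]

theorem REC_le (j : ℕ → ℕ) (m N : ℕ) :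
    (rp j m N).2.1 ≤ (rp j m N).2.2.1 ∧ (rp j m N).2.2.1 ≤ N := by
  induction N with
  | zero => exact ⟨le_rfl, le_rfl⟩
  | succ N ih =>
    rw [REC_succ]
    split_ifs with h1 h2 h3
    · exact ⟨ih.1, ih.2.trans (Nat.le_succ N)⟩
    · exact ⟨ih.1, ih.2.trans (Nat.le_succ N)⟩
    · exact ⟨by simp only; have := ih.1; have := ih.2; omega, le_rfl⟩
    · exact ⟨ih.1, ih.2.trans (Nat.le_succ N)⟩

theorem p_REC : Stmt_REC := by
  intro j h0 hu
  refine ⟨fun m n N N' hn hN hN' => ?_, fun k => ?_, REC_le j⟩
  · have h1 := REC_const j h0 m n hn N hN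
    have h2 := REC_const j h0 m n hn N' hN'
    exact ⟨h1.1.trans h2.1.symm, h1.2.trans h2.2.symm⟩
  · obtain ⟨n, hn, _⟩ := REC_exists j h0 hu k
    exact ⟨n, by rw [hn], by rw [hn]⟩

end Pool.GL
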