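import Pool.Agent.Work.MP_af7a01_gl.InterfaceB

/-! Block REF of MP_af7a01_lc (GapLaw), helper56. -/

set_option autoImplicit false

open Classical Pool.IC

namespace Pool.GL

theorem REF_opt_inj {a b : Option Str} (h : opt a = opt b) : a = b := by
  cases a with
  | none => cases b with
    | none => rfl
    | some b => simp [opt] at h
  | some a => cases b with
    | none => simp [opt] at h
    | some b => simp only [opt, List.cons.injEq, true_and] at h; rw [h]

theorem REF_dec {S : Set (Set Str)} {F : Set Str → Str → Prop}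
    {inst : ∀ B x, Decidable (F B x)} (h : FP S (fun B x => [@decide (F B x) (inst B x)])) :
    FP S (fun B x => [@decide (F B x) (propDecidable (F B x))]) := by
  refine h.congr ?_
  intro B _ x
  congr

/-- the test -/
def REF_T (RM RU : Set Str → Str → Str) (t : Polynomial ℕ) (B : Set Str) (w p c : Str) : Prop :=
  RM B (pr w (pr [] (pr [] c))) ≠ [] ∧
  RU B (pr (un (t.eval c.length)) (pr p (pr [] c))) ≠ RM B (pr w (pr [] (pr [] c))) ∧
  RU B (pr (un (t.eval c.length)) (pr p (pr [] c))) ≠ [true]

/-- one step -/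
noncomputable def REF_g (RM RU : Set Str → Str → Str) (t : Polynomial ℕ) (B : Set Str) (s : Str) :
    Str :=
  pr (inc (fs s)) (pr [decide (fs (sn s) = [true] ∨
    REF_T RM RU t B (fs (sn (sn s))) (sn (sn (sn s))) (fs s))]
      (pr (fs (sn (sn s))) (sn (sn (sn s)))))

theorem REF_fold (RM RU : Set Str → Str → Str) (t : Polynomial ℕ) (B : Set Str) (w p : Str)
    (k : ℕ) : (REF_g RM RU t B)^[k] (pr (str 0) (pr [false] (pr w p))) =
      pr (str k) (pr [decide (∃ l < k, REF_T RM RU t B w p (str l))] (pr w p)) := by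
  induction k with
  | zero => simp
  | succ k ih =>
    rw [Function.iterate_succ_apply', ih]
    unfold REF_g
    rw [fs_pr, sn_pr, fs_pr, sn_pr, fs_pr, sn_pr]
    have h1 : inc (str k) = str (k + 1) := by
      unfold str
      rw [Function.iterate_succ_apply']
    rw [h1]
    congr 2
    congr 1
    rw [decide_eq_decide]
    constructor
    · rintro (h | h)
      · simp only [List.cons.injEq, decide_eq_true_eq, and_true] at h
        obtain ⟨l, hl, hh⟩ := h
        exact ⟨l, by omega, hh⟩
      · exact ⟨k, by omega, h⟩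
    · rintro ⟨l, hl, hh⟩
      by_cases h2 : l = k
      · subst h2
        exact Or.inr hh
      · left
        simp only [List.cons.injEq, decide_eq_true_eq, and_true]
        exact ⟨l, by omega, hh⟩

theorem REF_gFP (hL : Lib) (hT : Stmt_TLS) (hU : Stmt_UNA) (hN : Stmt_INC)
    (RM RU : Set Str → Str → Str) (hM : FP Set.univ RM) (hR : FP Set.univ RU)
    (t : Polynomial ℕ) : FP Set.univ (REF_g RM RU t) := by
  have hcur : FP Set.univ (fun _ s => fs s) := hL.fst hL.idn
  have hs1 : FP Set.univ (fun _ s => sn s) := hL.snd hL.idn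
  have hfl : FP Set.univ (fun _ s => fs (sn s)) := hL.fst hs1
  have hs2 : FP Set.univ (fun _ s => sn (sn s)) := hL.snd hs1
  have hw : FP Set.univ (fun _ s => fs (sn (sn s))) := hL.fst hs2
  have hp : FP Set.univ (fun _ s => sn (sn (sn s))) := hL.snd hs2
  have hpc : FP Set.univ (fun _ s => pr [] (fs s)) := hL.pair (hL.const []) hcur
  have ha : FP Set.univ (fun B s => RM B (pr (fs (sn (sn s))) (pr [] (pr [] (fs s))))) :=
    hL.comp (hL.pair hw (hL.pair (hL.const []) hpc)) hM
  have hb : FP Set.univ (fun B s => RU B (pr (un (t.eval (fs s).length))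
      (pr (sn (sn (sn s))) (pr [] (fs s))))) :=
    hL.comp (hL.pair (hU Set.univ t _ hcur) (hL.pair hp hpc)) hR
  have h1 := REF_dec ((hT Set.univ).2.2 _ _ ha (hL.const [])).1
  have h1' := ((hT Set.univ).1 _ _ h1 h1).2.2
  have h2 := REF_dec ((hT Set.univ).2.2 _ _ hb ha).1
  have h2' := ((hT Set.univ).1 _ _ h2 h2).2.2
  have h3 := REF_dec ((hT Set.univ).2.2 _ _ hb (hL.const [true])).1
  have h3' := ((hT Set.univ).1 _ _ h3 h3).2.2
  have h4 := ((hT Set.univ).1 _ _ (REF_dec h2') (REF_dec h3')).1
  have h5 := ((hT Set.univ).1 _ _ (REF_dec h1') (REF_dec h4)).1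
  have h6 := REF_dec ((hT Set.univ).2.2 _ _ hfl (hL.const [true])).1
  have h7 := ((hT Set.univ).1 _ _ h6 (REF_dec h5)).2.1
  have h8 := hL.pair (hN Set.univ _ hcur) (hL.pair h7 (hL.pair hw hp))
  refine h8.congr ?_
  intro B _ s
  unfold REF_g REF_T
  congr

theorem p_REF (hL : Stmt_LIB) (hT : Stmt_TLS) (hU : Stmt_UNA) (hI : Stmt_IDX) (hN : Stmt_INC)
    (hJ : Stmt_INT) : Stmt_REF := by
  intro U hE M t
  have hL : Lib := hL
  obtain ⟨RU, hR, hRU⟩ := hE
  obtain ⟨RM, hM, hRM⟩ := hJ.2.2 M
  have hg := REF_gFP hL hT hU hN RM RU hM hR t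
  have hs0 : str 0 = [] := rfl
  have hfold := hL.fold (f := fun _ x => fs x)
    (h := fun _ x => pr (str 0) (pr [false] (pr (fs x) (sn x))))
    (g := fun _ => REF_g RM RU t) (hL.fst (hL.idn (S := Set.univ)))
    (hL.pair (hL.const (str 0)) (hL.pair (hL.const [false])
      (hL.pair (hL.fst hL.idn) (hL.snd hL.idn)))) (fun _ => hg)
    ⟨6 * Polynomial.X + 6, fun B _ x l hl => by
      rw [List.foldl_const, REF_fold, length_pr, length_pr, length_pr]
      have h1 := hl.length_le
      have h2 := hI.2.2.2.2.2 l.length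
      have h3 := length_fs x
      have h4 := length_sn x
      rw [Polynomial.eval_add, Polynomial.eval_mul, Polynomial.eval_ofNat,
        Polynomial.eval_X]
      simp only [List.length_cons, List.length_nil]
      omega⟩
  refine (hL.fst (hL.snd hfold)).congr ?_
  intro B _ x
  show fs (sn _) = _
  rw [List.foldl_const, REF_fold, sn_pr, fs_pr]
  congr 1
  rw [decide_eq_decide]
  unfold Ref REF_T
  have key : ∀ l : ℕ, (RM B (pr (fs x) (pr [] (pr [] (str l)))) ≠ [] ∧
      RU B (pr (un (t.eval (str l).length)) (pr (sn x) (pr [] (str l)))) ≠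
        RM B (pr (fs x) (pr [] (pr [] (str l)))) ∧
      RU B (pr (un (t.eval (str l).length)) (pr (sn x) (pr [] (str l)))) ≠ [true]) ↔
      ∃ o, out B M [] [] (str l) (fs x).length = some o ∧
        U.run B (str (idx (sn x))) [] (str l) (t.eval (str l).length) ≠ some o ∧
        U.run B (str (idx (sn x))) [] (str l) (t.eval (str l).length) ≠ some [] := by
    intro l
    rw [hRU, hRM, List.length_replicate, hI.2.1]
    have e1 : ([true] : Str) = opt (some []) := rfl
    have e2 : ([] : Str) = opt none := rfl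
    constructor
    · rintro ⟨a1, a2, a3⟩
      cases h0 : out B M [] [] (str l) (fs x).length with
      | none =>
        rw [h0] at a1
        exact absurd rfl a1
      | some o =>
        rw [h0] at a2
        refine ⟨o, rfl, ?_, ?_⟩
        · intro h1
          rw [h1] at a2
          exact a2 rfl
        · intro h1
          rw [h1] at a3
          exact a3 rfl
    · rintro ⟨o, a1, a2, a3⟩
      rw [a1]
      refine ⟨?_, ?_, ?_⟩
      · simp [opt]
      · intro h1
        exact a2 (REF_opt_inj h1)
      · rw [e1]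
        intro h1
        exact a3 (REF_opt_inj h1)
  constructor
  · rintro ⟨l, hl, h⟩
    exact ⟨l, hl, (key l).mp h⟩
  · rintro ⟨l, hl, h⟩
    exact ⟨l, hl, (key l).mpr h⟩

end Pool.GL
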