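import Pool.Agent.Work.MP_af7a01_gl.InterfaceA

/-!
# Block SHF: shifting and locality
-/

open Classical Pool.IC

namespace Pool.GL

/-- the stores `s` and `S` correspond to each other, `S` is `S0` outside of the area -/
def SHF_Rel (N d : ℕ) (S0 s S : Store) : Prop :=
  (∀ i < N, S (i + d) = s i) ∧ ∀ j, ¬ (d ≤ j ∧ j < d + N) → S j = S0 j

theorem SHF_upd {N d : ℕ} {S0 s S : Store} (h : SHF_Rel N d S0 s S) {i : ℕ} (hi : i < N)
    (v : Str) : SHF_Rel N d S0 (Function.update s i v) (Function.update S (i + d) v) := by
  constructor
  · intro j hj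
    by_cases hji : j = i
    · subst hji; rw [Function.update_self, Function.update_self]
    · rw [Function.update_of_ne hji, Function.update_of_ne (by omega)]
      exact h.1 j hj
  · intro j hj
    rw [Function.update_of_ne (by omega)]
    exact h.2 j hj

/-- one step of the simulation -/
theorem SHF_step {B : Set Str} {N d : ℕ} {S0 : Store} {K : List Cmd} {s S : Store} (hK : K ≠ [])
    (hU : ∀ c ∈ K, Uses N c) (h : SHF_Rel N d S0 s S) (k : List Cmd) :
    (∀ c ∈ (step B (K, s)).1, Uses N c) ∧
    ∃ S1, step B (K.map (sh d) ++ k, S) = ((step B (K, s)).1.map (sh d) ++ k, S1) ∧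
      SHF_Rel N d S0 (step B (K, s)).2 S1 := by
  cases K with
  | nil => exact absurd rfl hK
  | cons c K =>
    have hc : Uses N c := hU c (List.mem_cons_self)
    have hU' : ∀ c ∈ K, Uses N c := fun c hc => hU c (List.mem_cons_of_mem _ hc)
    cases c with
    | skip => exact ⟨hU', S, rfl, h⟩
    | push i b =>
      refine ⟨hU', Function.update S (i + d) (b :: S (i + d)), rfl, ?_⟩
      rw [h.1 i hc]
      exact SHF_upd h hc _
    | pop i =>
      refine ⟨hU', Function.update S (i + d) (S (i + d)).tail, rfl, ?_⟩
      rw [h.1 i hc]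
      exact SHF_upd h hc _
    | seq c e =>
      refine ⟨?_, S, rfl, h⟩
      intro x hx
      have hx' : x ∈ c :: e :: K := hx
      rw [List.mem_cons, List.mem_cons] at hx'
      rcases hx' with rfl | rfl | hx'
      · exact hc.1
      · exact hc.2
      · exact hU' x hx'
    | branch i e f t =>
      obtain ⟨hi, he, hf, ht⟩ := hc
      have hS := h.1 i hi
      rcases hsi : s i with _ | ⟨b, l⟩
      · have e1 : step B (Cmd.branch i e f t :: K, s) = (e :: K, s) := by simp [step, hsi]
        rw [e1]
        refine ⟨?_, S, ?_, h⟩
        · intro x hx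
          rcases List.mem_cons.mp hx with rfl | hx
          · exact he
          · exact hU' x hx
        · simp [step, sh, hS, hsi]
      · cases b
        · have e1 : step B (Cmd.branch i e f t :: K, s) = (f :: K, s) := by simp [step, hsi]
          rw [e1]
          refine ⟨?_, S, ?_, h⟩
          · intro x hx
            rcases List.mem_cons.mp hx with rfl | hx
            · exact hf
            · exact hU' x hx
          · simp [step, sh, hS, hsi]
        · have e1 : step B (Cmd.branch i e f t :: K, s) = (t :: K, s) := by simp [step, hsi]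
          rw [e1]
          refine ⟨?_, S, ?_, h⟩
          · intro x hx
            rcases List.mem_cons.mp hx with rfl | hx
            · exact ht
            · exact hU' x hx
          · simp [step, sh, hS, hsi]
    | ask i y n =>
      obtain ⟨hi, hy, hn⟩ := hc
      have hS := h.1 i hi
      by_cases hb : s i ∈ B
      · have e1 : step B (Cmd.ask i y n :: K, s) = (y :: K, s) := by simp [step, hb]
        rw [e1]
        refine ⟨?_, S, ?_, h⟩
        · intro x hx
          rcases List.mem_cons.mp hx with rfl | hx
          · exact hy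
          · exact hU' x hx
        · simp [step, sh, hS, hb]
      · have e1 : step B (Cmd.ask i y n :: K, s) = (n :: K, s) := by simp [step, hb]
        rw [e1]
        refine ⟨?_, S, ?_, h⟩
        · intro x hx
          rcases List.mem_cons.mp hx with rfl | hx
          · exact hn
          · exact hU' x hx
        · simp [step, sh, hS, hb]
    | loop i c =>
      have hS := h.1 i hc.1
      by_cases hb : s i = []
      · have e1 : step B (Cmd.loop i c :: K, s) = (K, s) := by simp [step, hb]
        rw [e1]
        refine ⟨hU', S, ?_, h⟩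
        simp [step, sh, hS, hb]
      · have e1 : step B (Cmd.loop i c :: K, s) = (c :: Cmd.loop i c :: K, s) := by
          simp [step, hb]
        rw [e1]
        refine ⟨?_, S, ?_, h⟩
        · intro x hx
          rcases List.mem_cons.mp hx with rfl | hx
          · exact hc.2
          · rcases List.mem_cons.mp hx with rfl | hx
            · exact hc
            · exact hU' x hx
        · simp [step, sh, hS, hb]

theorem SHF_sim {B : Set Str} {N d : ℕ} {S0 : Store} (k : List Cmd) (n : ℕ) :
    ∀ (K : List Cmd) (s S : Store), (∀ c ∈ K, Uses N c) → SHF_Rel N d S0 s S →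
      (∀ i < n, ((step B)^[i] (K, s)).1 ≠ []) →
      ∃ S1, (step B)^[n] (K.map (sh d) ++ k, S) = (((step B)^[n] (K, s)).1.map (sh d) ++ k, S1) ∧
        SHF_Rel N d S0 ((step B)^[n] (K, s)).2 S1 := by
  induction n with
  | zero => intro K s S _ h _; exact ⟨S, rfl, h⟩
  | succ n ih =>
    intro K s S hU h hne
    have hK : K ≠ [] := hne 0 (Nat.succ_pos n)
    obtain ⟨h1, S1, h2, h3⟩ := SHF_step (B := B) hK hU h k
    obtain ⟨S2, h4, h5⟩ := ih (step B (K, s)).1 (step B (K, s)).2 S1 h1 h3
      (fun i hi => by
        have := hne (i + 1) (by omega)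
        rwa [Function.iterate_succ_apply] at this)
    refine ⟨S2, ?_, ?_⟩
    · rw [Function.iterate_succ_apply, Function.iterate_succ_apply, h2, h4]
    · rw [Function.iterate_succ_apply]; exact h5

theorem SHF_fstep {B : Set Str} {K : List Cmd} {s : Store} (hK : K ≠ []) (k : List Cmd) :
    step B (K ++ k, s) = ((step B (K, s)).1 ++ k, (step B (K, s)).2) := by
  cases K with
  | nil => exact absurd rfl hK
  | cons c K =>
    cases c with
    | skip => rfl
    | push i b => rfl
    | pop i => rfl
    | seq c e => rfl
    | branch i e f t => rfl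
    | ask i y n => rfl
    | loop i c =>
      by_cases hb : s i = [] <;> simp [step, hb]

theorem SHF_frame {B : Set Str} (k : List Cmd) (n : ℕ) :
    ∀ (K : List Cmd) (s : Store), (∀ i < n, ((step B)^[i] (K, s)).1 ≠ []) →
      (step B)^[n] (K ++ k, s) = (((step B)^[n] (K, s)).1 ++ k, ((step B)^[n] (K, s)).2) := by
  induction n with
  | zero => intro K s _; rfl
  | succ n ih =>
    intro K s hne
    have hK : K ≠ [] := hne 0 (Nat.succ_pos n)
    rw [Function.iterate_succ_apply, Function.iterate_succ_apply, SHF_fstep hK k]
    exact ih _ _ (fun i hi => by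
        have := hne (i + 1) (by omega)
        rwa [Function.iterate_succ_apply] at this)

theorem p_SHF : Stmt_SHF := by
  intro B c N d n s S s' hU hS h
  have hne : ∀ i < n, ((step B)^[i] ([c], s)).1 ≠ [] := by
    by_contra hcon
    push Not at hcon
    obtain ⟨i0, hi0, hi0'⟩ := hcon
    have hex : ∃ i, ((step B)^[i] ([c], s)).1 = [] := ⟨i0, hi0'⟩
    have hle : Nat.find hex ≤ i0 := Nat.find_min' hex hi0'
    have hf := SHF_frame (B := B) [Cmd.skip] (Nat.find hex) [c] s
      (fun i hi => Nat.find_min hex hi)
    rw [Nat.find_spec hex] at hf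
    have h2 : ((step B)^[Nat.find hex + 1] ([c] ++ [Cmd.skip], s)).1 = [] := by
      rw [Function.iterate_succ_apply', hf]
      rfl
    have h3 := halted_mono h2 (show Nat.find hex + 1 ≤ n by omega)
    have h4 := h [Cmd.skip]
    rw [show c :: [Cmd.skip] = [c] ++ [Cmd.skip] from rfl, h3] at h4
    rw [h4] at h2
    exact absurd h2 (by simp)
  intro k
  obtain ⟨S1, h1, h2, h3⟩ := SHF_sim (B := B) (N := N) (d := d) (S0 := S) k n [c] s S
    (fun x hx => by rw [List.mem_singleton] at hx; rw [hx]; exact hU) ⟨hS, fun _ _ => rfl⟩ hne
  have h0 := h []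
  rw [h0] at h1 h2
  have h5 : (step B)^[n] (sh d c :: k, S) = (k, S1) := by simpa using h1
  rw [h5]
  refine Prod.ext rfl ?_
  funext j
  by_cases hj : d ≤ j ∧ j < d + N
  · simp only [hj, and_self, if_true]
    have := h2 (j - d) (by omega)
    rwa [Nat.sub_add_cancel hj.1] at this
  · simp only [hj, if_false]
    exact h3 j hj

end Pool.GL
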