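import Pool.Agent.Work.MP_af7a01_gl.InterfaceB

set_option autoImplicit false

/-! # GapLaw, block SLW (helper4): slow inverse -/

open Classical Pool.IC

namespace Pool.GL

/-- the test -/
def SLW_T (R : Set Str → Str → Str) (f : Str → Str) (B : Set Str) (x : Str) : Prop :=
  ¬ R B (pr (sn x) (pr [] (pr [] (fs x)))) = [] ∧
    (R B (pr (sn x) (pr [] (pr [] (fs x))))).tail.length < (f (sn x)).length

/-- one round -/
noncomputable def SLW_G (R : Set Str → Str → Str) (f : Str → Str) (B : Set Str) (x : Str) : Str :=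
  if SLW_T R f B x then pr (true :: fs x) (sn x) else x

theorem SLW_G_pr (R : Set Str → Str → Str) (f : Str → Str) (B : Set Str) (k : ℕ) (z : Str) :
    SLW_G R f B (pr (un k) z) =
      if SLW_T R f B (pr (un k) z) then pr (un (k + 1)) z else pr (un k) z := by
  unfold SLW_G
  rw [fs_pr, sn_pr]
  rfl

theorem SLW_fold (R : Set Str → Str → Str) (f : Str → Str) (B : Set Str) (z : Str) (l : Str) :
    ∀ k : ℕ, ∃ j, l.foldl (fun a _ => SLW_G R f B a) (pr (un k) z) = pr (un (k + j)) z ∧
      j ≤ l.length ∧ (∀ i < j, SLW_T R f B (pr (un (k + i)) z)) ∧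
      (j < l.length → ¬ SLW_T R f B (pr (un (k + j)) z)) := by
  induction l with
  | nil =>
    intro k
    exact ⟨0, rfl, le_rfl, fun i hi => absurd hi (Nat.not_lt_zero i),
      fun h => absurd h (Nat.lt_irrefl 0)⟩
  | cons b l ih =>
    intro k
    by_cases hT : SLW_T R f B (pr (un k) z)
    · obtain ⟨j, h1, h2, h3, h4⟩ := ih (k + 1)
      refine ⟨j + 1, ?_, ?_, ?_, ?_⟩
      · rw [List.foldl_cons, SLW_G_pr, if_pos hT, h1]
        rw [show k + 1 + j = k + (j + 1) by omega]
      · rw [List.length_cons]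
        omega
      · intro i hi
        rcases i with _ | i
        · exact hT
        · have := h3 i (by omega)
          rwa [show k + 1 + i = k + (i + 1) by omega] at this
      · intro h5
        rw [List.length_cons] at h5
        have := h4 (by omega)
        rwa [show k + 1 + j = k + (j + 1) by omega] at this
    · obtain ⟨j, h1, h2, h3, h4⟩ := ih k
      have hj : j = 0 := by
        by_contra hj
        exact hT (h3 0 (by omega))
      subst hj
      refine ⟨0, ?_, Nat.zero_le _, fun i hi => absurd hi (Nat.not_lt_zero i), fun _ => hT⟩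
      rw [List.foldl_cons, SLW_G_pr, if_neg hT, h1]

/-- BLOCK SLW -/
theorem p_SLW (hLIB : Stmt_LIB) (hTLS : Stmt_TLS) (hINT : Stmt_INT) : Stmt_SLW := by
  intro B f h hf hh
  obtain ⟨hf1, hf2⟩ := hf
  obtain ⟨M, hM⟩ := hh
  obtain ⟨R, hR, hR2⟩ := hINT.2.2 M
  have hL : Lib := hLIB
  obtain ⟨T1, T2, T3⟩ := hTLS {B}
  have hRB : FP {B} R := hR.mono (Set.subset_univ _)
  -- the test
  have hz : FP {B} (fun _ x => sn x) := hL.snd hL.idn
  have hc : FP {B} (fun _ x => fs x) := hL.fst hL.idn
  have ha : FP {B} (fun B x => R B (pr (sn x) (pr [] (pr [] (fs x))))) :=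
    hL.comp (hL.pair hz (hL.pair (hL.const []) (hL.pair (hL.const []) hc))) hRB
  have hfz : FP {B} (fun _ x => f (sn x)) := hL.comp hz hf1
  have h1 : FP {B} (fun B x => [decide (R B (pr (sn x) (pr [] (pr [] (fs x)))) = [])]) :=
    (T3 _ _ ha (hL.const [])).1
  obtain ⟨P1, hP1⟩ : ∃ P1 : Set Str → Str → Prop,
      P1 = fun B x => R B (pr (sn x) (pr [] (pr [] (fs x)))) = [] := ⟨_, rfl⟩
  obtain ⟨P2, hP2⟩ : ∃ P2 : Set Str → Str → Prop,
      P2 = fun B x => (R B (pr (sn x) (pr [] (pr [] (fs x))))).tail.length <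
        (f (sn x)).length := ⟨_, rfl⟩
  have h1' : FP {B} (fun B x => [decide (P1 B x)]) := h1.congr fun B' _ x => by
    have e : (R B' (pr (sn x) (pr [] (pr [] (fs x)))) = []) ↔ P1 B' x := by rw [hP1]
    exact congrArg (fun b => [b]) (decide_eq_decide.2 e)
  have h2 : FP {B} (fun B x => [decide (¬ P1 B x)]) := (T1 P1 P1 h1' h1').2.2
  have h3 : FP {B} (fun B x => [decide
      ((R B (pr (sn x) (pr [] (pr [] (fs x))))).tail.length < (f (sn x)).length)]) :=
    (T3 _ _ (hL.tail ha) hfz).2.1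
  have h3' : FP {B} (fun B x => [decide (P2 B x)]) := h3.congr fun B' _ x => by
    have e : ((R B' (pr (sn x) (pr [] (pr [] (fs x))))).tail.length < (f (sn x)).length) ↔
        P2 B' x := by rw [hP2]
    exact congrArg (fun b => [b]) (decide_eq_decide.2 e)
  obtain ⟨P3, hP3⟩ : ∃ P3 : Set Str → Str → Prop, P3 = fun B x => ¬ P1 B x := ⟨_, rfl⟩
  have h2' : FP {B} (fun B x => [decide (P3 B x)]) := h2.congr fun B' _ x => by
    have e : (¬ P1 B' x) ↔ P3 B' x := by rw [hP3]
    exact congrArg (fun b => [b]) (decide_eq_decide.2 e)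
  have hT : FP {B} (fun B x => [decide (SLW_T R f B x)]) :=
    (T1 P3 P2 h2' h3').1.congr fun B' _ x => by
      have e : (P3 B' x ∧ P2 B' x) ↔ SLW_T R f B' x := by rw [hP3, hP1, hP2]; rfl
      exact congrArg (fun b => [b]) (decide_eq_decide.2 e)
  have hG : FP {B} (fun B x => SLW_G R f B x) :=
    T2 (fun B x => SLW_T R f B x) _ _ hT (hL.pair (hL.cons true hc) hz) hL.idn
  -- the number of rounds
  obtain ⟨Q, hQ⟩ : ∃ Q : Set Str → Str → Str,
      Q = fun B z => z.foldl (fun a _ => SLW_G R f B a) (pr [] z) := ⟨_, rfl⟩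
  have hQfp : FP {B} Q := by
    rw [hQ]
    refine hL.fold (f := fun _ z => z) (h := fun _ z => pr [] z)
      (g := fun _ B x => SLW_G R f B x) hL.idn (hL.pair (hL.const []) hL.idn) (fun _ => hG)
      ⟨3 * Polynomial.X + 1, fun B' _ x l hl => ?_⟩
    obtain ⟨j, e1, e2, -, -⟩ := SLW_fold R f B' x l 0
    have e3 : l.foldl (fun a _ => SLW_G R f B' a) (pr [] x) = pr (un (0 + j)) x := e1
    have e4 := hl.length_le
    show (l.foldl (fun a _ => SLW_G R f B' a) (pr [] x)).length ≤ _
    rw [e3, length_pr, List.length_replicate]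
    simp only [Polynomial.eval_add, Polynomial.eval_mul, Polynomial.eval_X, Polynomial.eval_one,
      Polynomial.eval_ofNat]
    omega
  have hg : ∀ z, ∃ j, Q B z = pr (un j) z ∧ j ≤ z.length ∧
      (∀ i < j, SLW_T R f B (pr (un i) z)) ∧ (j < z.length → ¬ SLW_T R f B (pr (un j) z)) := by
    intro z
    obtain ⟨j, e1, e2, e3, e4⟩ := SLW_fold R f B z z 0
    refine ⟨j, ?_, e2, fun i hi => ?_, fun hj => ?_⟩
    · rw [hQ]
      have e5 : z.foldl (fun a _ => SLW_G R f B a) (pr [] z) = pr (un (0 + j)) z := e1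
      rw [Nat.zero_add] at e5
      exact e5
    · have := e3 i hi
      rwa [Nat.zero_add] at this
    · have := e4 hj
      rwa [Nat.zero_add] at this
  choose g hg1 hg2 hg3 hg4 using hg
  -- the meaning of the test
  have hTi : ∀ z i, SLW_T R f B (pr (un i) z) ↔
      ∃ v, out B M [] [] (un i) z.length = some v ∧ v.length < (f z).length := by
    intro z i
    unfold SLW_T
    rw [fs_pr, sn_pr, hR2]
    cases ho : out B M [] [] (un i) z.length with
    | none =>
      constructor
      · rintro ⟨h5, -⟩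
        exact absurd rfl h5
      · rintro ⟨v, hv, -⟩
        exact absurd hv (by simp)
    | some v =>
      constructor
      · rintro ⟨-, h5⟩
        exact ⟨v, rfl, h5⟩
      · rintro ⟨v', hv, h5⟩
        rw [Option.some.injEq] at hv
        subst hv
        exact ⟨by simp [opt], h5⟩
  obtain ⟨J, hJ⟩ : ∃ J : Str → Str, J = fun z => un ((g z - 3) / 2) := ⟨_, rfl⟩
  have hJlen : ∀ z, (J z).length = (g z - 3) / 2 := fun z => by
    rw [hJ]
    exact List.length_replicate
  have hJfp : FP {B} (fun _ => J) := by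
    have h5 : FP {B} (fun B z => fs (Q B z)) := hL.fst hQfp
    have h6 : FP {B} (fun B z => (fs (Q B z)).drop (un 3).length) :=
      (T3 _ _ h5 (hL.const (un 3))).2.2.1
    have h7 : FP {B} (fun B z => un (((fs (Q B z)).drop (un 3).length).length / 2)) :=
      (T3 _ _ h6 (hL.const [])).2.2.2.2.2.1
    refine h7.congr fun B' hB' z => ?_
    rw [Set.mem_singleton_iff.1 hB', hg1, fs_pr, hJ]
    simp
  refine ⟨J, ⟨hJfp, fun K => ?_⟩, fun z => ?_, fun z i h0 hi => ?_⟩
  · obtain ⟨r, hr⟩ := hf1.length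
    choose s hs using hM
    obtain ⟨N₀, hN₀⟩ : ∃ N₀, ∀ i ≤ 2 * K + 3, s i ≤ N₀ := by
      refine ⟨(Finset.range (2 * K + 4)).sup s, fun i hi => ?_⟩
      exact Finset.le_sup (f := s) (Finset.mem_range.2 (by omega))
    obtain ⟨V, hV⟩ : ∃ V, ∀ i ≤ 2 * K + 3, h i ≤ V := by
      refine ⟨(Finset.range (2 * K + 4)).sup h, fun i hi => ?_⟩
      exact Finset.le_sup (f := h) (Finset.mem_range.2 (by omega))
    obtain ⟨z, hz⟩ := hf2 (V + r.eval (N₀ + 2 * K + 4) + 1)
    have hzl : N₀ + 2 * K + 4 < z.length := by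
      by_contra hcon
      have h5 := hr B rfl z
      have h6 := eval_mono r (not_lt.1 hcon)
      omega
    have hTz : ∀ i ≤ 2 * K + 3, SLW_T R f B (pr (un i) z) := by
      intro i hi
      rw [hTi]
      refine ⟨un (h i), out_mono (hs i) ?_, ?_⟩
      · have := hN₀ i hi
        omega
      · have := hV i hi
        rw [List.length_replicate]
        omega
    have hgz : 2 * K + 4 ≤ g z := by
      by_contra hcon
      exact hg4 z (by omega) (hTz (g z) (by omega))
    refine ⟨z, ?_⟩
    rw [hJlen]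
    omega
  · rw [hJlen]
    have := hg2 z
    omega
  · rw [hJlen] at h0 hi
    have h5 := hg3 z i (by omega)
    rw [hTi] at h5
    obtain ⟨v, hv, hvl⟩ := h5
    obtain ⟨s, hs⟩ := hM i
    have h6 : v = un (h i) := out_det hv hs
    rw [h6, List.length_replicate] at hvl
    omega

end Pool.GL
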