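import Pool.Agent.Work.MP_af7a01_gl.InterfaceA

/-! # MP_af7a01_lc, GapLaw, block SND: the second component -/

open Classical Pool.IC

namespace Pool.GL

/-- the program -/
def SND_body : Cmd :=
  Cmd.branch 2 Cmd.skip (Cmd.seq (Cmd.pop 2) (mv 2 4))
    (Cmd.seq (Cmd.pop 2) (Cmd.branch 2 Cmd.skip (Cmd.pop 2) (Cmd.pop 2)))

theorem SND_pop (B : Set Str) (x e : Str) :
    ExecLe B (Cmd.pop 2) (st [] [] x [] e [] []) 1 (st [] [] x.tail [] e [] []) := by
  have h := pop_spec B 2 (st [] [] x [] e [] [])
  rw [upd2] at h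
  exact h

theorem SND_loop (B : Set Str) : ∀ x : Str,
    ExecLe B (Cmd.loop 2 SND_body) (st [] [] x [] [] [] []) (8 * x.length + 8)
      (st [] [] [] [] (sn x).reverse [] [])
  | [] => (ExecLe.loop_nil rfl).mono (by omega)
  | false :: l => by
    have h1 := SND_pop B (false :: l) []
    have h2 := mv_spec B (i := 2) (j := 4) (by norm_num) (st [] [] l [] [] [] [])
    rw [upd2, upd4] at h2
    have h3 : ExecLe B SND_body (st [] [] (false :: l) [] [] [] [])
        (1 + (5 * l.length + 1) + 1 + 1) (st [] [] [] [] (l.reverse ++ []) [] []) :=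
      ExecLe.branch_cons (b := false) (l := l) rfl (h1.seq h2)
    rw [List.append_nil] at h3
    have h4 : ExecLe B (Cmd.loop 2 SND_body) (st [] [] [] [] l.reverse [] []) 1
        (st [] [] [] [] l.reverse [] []) := ExecLe.loop_nil rfl
    have h5 := ExecLe.loop_step (i := 2) (s := st [] [] (false :: l) [] [] [] [])
      (by simp [st]) h3 h4
    exact h5.mono (by simp only [List.length_cons]; omega)
  | true :: [] => by
    have h1 := SND_pop B [true] []
    have h2 : ExecLe B (Cmd.branch 2 Cmd.skip (Cmd.pop 2) (Cmd.pop 2)) (st [] [] [] [] [] [] [])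
        (1 + 1) (st [] [] [] [] [] [] []) := ExecLe.branch_nil rfl (le_skip B _)
    have h3 : ExecLe B SND_body (st [] [] [true] [] [] [] []) (1 + (1 + 1) + 1 + 1)
        (st [] [] [] [] [] [] []) :=
      ExecLe.branch_cons (b := true) (l := []) rfl (h1.seq h2)
    have h4 : ExecLe B (Cmd.loop 2 SND_body) (st [] [] [] [] [] [] []) 1
        (st [] [] [] [] [] [] []) := ExecLe.loop_nil rfl
    have h5 := ExecLe.loop_step (i := 2) (s := st [] [] [true] [] [] [] []) (by simp [st]) h3 h4
    exact h5.mono (by simp only [List.length_cons]; omega)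
  | true :: y :: l => by
    have h1 := SND_pop B (true :: y :: l) []
    have h2 : ExecLe B (Cmd.branch 2 Cmd.skip (Cmd.pop 2) (Cmd.pop 2))
        (st [] [] (y :: l) [] [] [] []) (1 + 1) (st [] [] l [] [] [] []) := by
      refine ExecLe.branch_cons (b := y) (l := l) rfl ?_
      have h := SND_pop B (y :: l) []
      cases y
      · exact h
      · exact h
    have h3 : ExecLe B SND_body (st [] [] (true :: y :: l) [] [] [] []) (1 + (1 + 1) + 1 + 1)
        (st [] [] l [] [] [] []) :=
      ExecLe.branch_cons (b := true) (l := y :: l) rfl (h1.seq h2)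
    have h5 := ExecLe.loop_step (i := 2) (s := st [] [] (true :: y :: l) [] [] [] [])
      (by simp [st]) h3 (SND_loop B l)
    exact h5.mono (by simp only [List.length_cons]; omega)

theorem p_SND : Stmt_SND := by
  intro S
  refine ⟨Cmd.seq (Cmd.loop 2 SND_body) (mv 4 3),
    Polynomial.C 13 * Polynomial.X + Polynomial.C 13, ?_⟩
  intro B _ x
  have h1 := SND_loop B x
  have h2 := mv_spec B (i := 4) (j := 3) (by norm_num) (st [] [] [] [] (sn x).reverse [] [])
  rw [upd4, upd3] at h2
  have h3 : st [] [] [] [] (sn x).reverse [] [] 4 = (sn x).reverse := rfl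
  have h4 : st [] [] [] [] (sn x).reverse [] [] 3 = [] := rfl
  rw [h3, h4, List.reverse_reverse, List.append_nil, List.length_reverse] at h2
  obtain ⟨n, hn, hex⟩ := h1.seq h2
  rw [← init_eq] at hex
  have h5 := length_sn x
  rw [out_of_exec hex]
  · rfl
  · refine hn.trans ?_
    simp only [Polynomial.eval_add, Polynomial.eval_mul, Polynomial.eval_C, Polynomial.eval_X]
    omega

end Pool.GL
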