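import Pool.Agent.Work.MP_af7a01_gl.InterfaceA

/-! # MP_af7a01_lc, GapLaw, block STF: the step on codes as a function in FP -/

open Classical Pool.IC

namespace Pool.GL

/-- the code which is executed -/
def STF_c (x : Str) : Str := hdl (fs x)

/-- the rest of the code which is executed -/
def STF_r (x : Str) : Str := (hdl (fs x)).tail.tail.tail

/-- skip -/
def STF_sk (x : Str) : Str := pr (tll (fs x)) (sn x)

/-- push -/
def STF_pu (GET SET : Set Str → Str → Str) (B : Set Str) (x : Str) : Str :=
  pr (tll (fs x)) (SET B (pr (fs (STF_r x)) (pr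
    (cas (sn (STF_r x)) (false :: GET B (pr (fs (STF_r x)) (sn x)))
      (false :: GET B (pr (fs (STF_r x)) (sn x))) (true :: GET B (pr (fs (STF_r x)) (sn x))))
    (sn x))))

/-- pop -/
def STF_po (GET SET : Set Str → Str → Str) (B : Set Str) (x : Str) : Str :=
  pr (tll (fs x)) (SET B (pr (STF_r x) (pr (GET B (pr (STF_r x) (sn x))).tail (sn x))))

/-- sequence -/
def STF_se (x : Str) : Str :=
  pr (true :: pr (fs (STF_r x)) (true :: pr (sn (STF_r x)) (tll (fs x)))) (sn x)

/-- branch -/
def STF_br (GET : Set Str → Str → Str) (B : Set Str) (x : Str) : Str :=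
  pr (true :: pr (cas (GET B (pr (fs (STF_r x)) (sn x))) (fs (sn (STF_r x)))
    (fs (sn (sn (STF_r x)))) (sn (sn (sn (STF_r x))))) (tll (fs x))) (sn x)

/-- ask -/
noncomputable def STF_as (GET : Set Str → Str → Str) (B : Set Str) (x : Str) : Str :=
  pr (true :: pr (cas [decide (GET B (pr (fs (STF_r x)) (sn x)) ∈ B)] [] (sn (sn (STF_r x)))
    (fs (sn (STF_r x)))) (tll (fs x))) (sn x)

/-- loop -/
def STF_lo (GET : Set Str → Str → Str) (B : Set Str) (x : Str) : Str :=
  cas (GET B (pr (fs (STF_r x)) (sn x))) (STF_sk x)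
    (pr (true :: pr (sn (STF_r x)) (true :: pr (STF_c x) (tll (fs x)))) (sn x))
    (pr (true :: pr (sn (STF_r x)) (true :: pr (STF_c x) (tll (fs x)))) (sn x))

/-- the step -/
noncomputable def STF_F (GET SET : Set Str → Str → Str) (B : Set Str) (x : Str) : Str :=
  cas (fs x) x
    (cas (STF_c x) (STF_sk x)
      (cas (STF_c x).tail (STF_sk x)
        (cas (STF_c x).tail.tail (STF_sk x) (STF_sk x) (STF_pu GET SET B x))
        (cas (STF_c x).tail.tail (STF_sk x) (STF_po GET SET B x) (STF_se x)))
      (cas (STF_c x).tail (STF_sk x)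
        (cas (STF_c x).tail.tail (STF_sk x) (STF_br GET B x) (STF_as GET B x))
        (cas (STF_c x).tail.tail (STF_sk x) (STF_lo GET B x) (STF_sk x))))
    (cas (STF_c x) (STF_sk x)
      (cas (STF_c x).tail (STF_sk x)
        (cas (STF_c x).tail.tail (STF_sk x) (STF_sk x) (STF_pu GET SET B x))
        (cas (STF_c x).tail.tail (STF_sk x) (STF_po GET SET B x) (STF_se x)))
      (cas (STF_c x).tail (STF_sk x)
        (cas (STF_c x).tail.tail (STF_sk x) (STF_br GET B x) (STF_as GET B x))
        (cas (STF_c x).tail.tail (STF_sk x) (STF_lo GET B x) (STF_sk x))))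

theorem STF_fp (hL : Lib) (GET SET : Set Str → Str → Str) (hG : FP Set.univ GET)
    (hS : FP Set.univ SET) : FP Set.univ (STF_F GET SET) := by
  have hx : FP Set.univ (fun _ x => x) := hL.idn
  have hk : FP Set.univ (fun _ x => fs x) := hL.fst hx
  have hl : FP Set.univ (fun _ x => sn x) := hL.snd hx
  have hc : FP Set.univ (fun _ x => STF_c x) := hL.fst (hL.tail hk)
  have hkk : FP Set.univ (fun _ x => tll (fs x)) := hL.snd (hL.tail hk)
  have hc1 : FP Set.univ (fun _ x => (STF_c x).tail) := hL.tail hc
  have hc2 : FP Set.univ (fun _ x => (STF_c x).tail.tail) := hL.tail hc1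
  have hr : FP Set.univ (fun _ x => STF_r x) := hL.tail hc2
  have hfr : FP Set.univ (fun _ x => fs (STF_r x)) := hL.fst hr
  have hsr : FP Set.univ (fun _ x => sn (STF_r x)) := hL.snd hr
  have hg : FP Set.univ (fun B x => GET B (pr (fs (STF_r x)) (sn x))) :=
    hL.comp (hL.pair hfr hl) hG
  have hg' : FP Set.univ (fun B x => GET B (pr (STF_r x) (sn x))) :=
    hL.comp (hL.pair hr hl) hG
  have hsk : FP Set.univ (fun _ x => STF_sk x) := hL.pair hkk hl
  have hpu : FP Set.univ (fun B x => STF_pu GET SET B x) :=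
    hL.pair hkk (hL.comp (hL.pair hfr (hL.pair
      (hL.cas hsr (hL.cons false hg) (hL.cons false hg) (hL.cons true hg)) hl)) hS)
  have hpo : FP Set.univ (fun B x => STF_po GET SET B x) :=
    hL.pair hkk (hL.comp (hL.pair hr (hL.pair (hL.tail hg') hl)) hS)
  have hse : FP Set.univ (fun _ x => STF_se x) :=
    hL.pair (hL.cons true (hL.pair hfr (hL.cons true (hL.pair hsr hkk)))) hl
  have hbr : FP Set.univ (fun B x => STF_br GET B x) :=
    hL.pair (hL.cons true (hL.pair (hL.cas hg (hL.fst hsr) (hL.fst (hL.snd hsr))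
      (hL.snd (hL.snd hsr))) hkk)) hl
  have has : FP Set.univ (fun B x => STF_as GET B x) :=
    hL.pair (hL.cons true (hL.pair (hL.cas (hL.ask hg) (hL.const []) (hL.snd hsr)
      (hL.fst hsr)) hkk)) hl
  have hlo' : FP Set.univ (fun _ x =>
      pr (true :: pr (sn (STF_r x)) (true :: pr (STF_c x) (tll (fs x)))) (sn x)) :=
    hL.pair (hL.cons true (hL.pair hsr (hL.cons true (hL.pair hc hkk)))) hl
  have hlo : FP Set.univ (fun B x => STF_lo GET B x) := hL.cas hg hsk hlo' hlo'
  have hA := hL.cas hc hsk
    (hL.cas hc1 hsk (hL.cas hc2 hsk hsk hpu) (hL.cas hc2 hsk hpo hse))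
    (hL.cas hc1 hsk (hL.cas hc2 hsk hbr has) (hL.cas hc2 hsk hlo hsk))
  exact hL.cas hk hx hA hA

theorem p_STF (hLIB : Stmt_LIB) (_hTLS : Stmt_TLS) (hLST : Stmt_LST) : Stmt_STF := by
  obtain ⟨⟨GET, hG, hG'⟩, SET, hS, hS'⟩ := hLST
  refine ⟨STF_F GET SET, STF_fp hLIB GET SET hG hS, ?_⟩
  intro B K L
  cases K with
  | nil =>
    unfold STF_F
    rw [fs_pr]
    rfl
  | cons c K =>
    have h1 : fs (pr (el (c :: K)) (el L)) = el (c :: K) := fs_pr _ _
    have h2 : sn (pr (el (c :: K)) (el L)) = el L := sn_pr _ _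
    have h3 : el (c :: K) = true :: pr c (el K) := rfl
    have h4 : ∀ e f t : Str, cas (el (c :: K)) e f t = t := fun e f t => rfl
    have h5 : STF_c (pr (el (c :: K)) (el L)) = c := by
      unfold STF_c
      rw [h1, hdl_cons]
    have h6 : STF_r (pr (el (c :: K)) (el L)) = c.tail.tail.tail := by
      unfold STF_r
      rw [h1, hdl_cons]
    have h7 : tll (el (c :: K)) = el K := tll_cons c K
    unfold STF_F
    rw [h1, h4, h5]
    have hsk : STF_sk (pr (el (c :: K)) (el L)) = pr (el K) (el L) := by
      unfold STF_sk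
      rw [h1, h2, h7]
    rcases c with _ | ⟨a, _ | ⟨b, _ | ⟨d, r⟩⟩⟩
    · rw [hsk]
      rfl
    · rw [hsk]
      cases a <;> rfl
    · rw [hsk]
      cases a <;> cases b <;> rfl
    · cases a <;> cases b <;> cases d
      · show STF_sk _ = _
        rw [hsk]
        rfl
      · show STF_pu _ _ _ _ = _
        unfold STF_pu
        rw [h1, h2, h6, h7]
        simp only [List.tail_cons, hG']
        have h8 : cas (sn r) (false :: L.getD (fs r).length []) (false :: L.getD (fs r).length [])
            (true :: L.getD (fs r).length []) = hdb (sn r) :: L.getD (fs r).length [] := by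
          rcases sn r with _ | ⟨z, l⟩
          · rfl
          · cases z <;> rfl
        rw [h8, hS']
        rfl
      · show STF_po _ _ _ _ = _
        unfold STF_po
        rw [h1, h2, h6, h7]
        simp only [List.tail_cons, hG', hS']
        rfl
      · show STF_se _ = _
        unfold STF_se
        rw [h1, h2, h6, h7]
        rfl
      · show STF_br _ _ _ = _
        unfold STF_br
        rw [h1, h2, h6, h7]
        simp only [List.tail_cons, hG', stepL]
        rcases L.getD (fs r).length [] with _ | ⟨z, l⟩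
        · rfl
        · cases z <;> rfl
      · show STF_as _ _ _ = _
        unfold STF_as
        rw [h1, h2, h6, h7]
        simp only [List.tail_cons, hG', stepL]
        by_cases h9 : L.getD (fs r).length [] ∈ B
        · rw [if_pos h9, decide_eq_true h9]
          rfl
        · rw [if_neg h9, decide_eq_false h9]
          rfl
      · show STF_lo _ _ _ = _
        unfold STF_lo
        rw [h1, h2, h5, h6, h7, hsk]
        simp only [List.tail_cons, hG', stepL]
        rcases hz : L.getD (fs r).length [] with _ | ⟨z, l⟩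
        · rw [if_pos rfl]
          rfl
        · rw [if_neg (by simp)]
          cases z <;> rfl
      · show STF_sk _ = _
        rw [hsk]
        rfl

end Pool.GL
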