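import Pool.Agent.Work.MP_af7a01_gl.InterfaceA

/-! # MP_af7a01_lc, GapLaw, block STO: stores and lists -/

open Classical Pool.IC

namespace Pool.GL

theorem STO_get (v : Str) (i : ℕ) : ∀ (L : List Str) (j : ℕ),
    (setL v i L).getD j [] = if j = i then v else L.getD j [] := by
  induction i with
  | zero =>
    intro L j
    cases L with
    | nil => cases j <;> simp [setL]
    | cons a l => cases j <;> simp [setL]
  | succ i ih =>
    intro L j
    cases L with
    | nil =>
      cases j with
      | zero => simp [setL]
      | succ j =>
        have h := ih [] j
        simp only [setL, List.getD_cons_succ, h, Nat.succ_eq_add_one, Nat.add_right_cancel_iff]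
        simp
    | cons a l =>
      cases j with
      | zero => simp [setL]
      | succ j =>
        have h := ih l j
        simp only [setL, List.getD_cons_succ, h, Nat.succ_eq_add_one, Nat.add_right_cancel_iff]

theorem p_STO : Stmt_STO := by
  refine ⟨?_, ?_⟩
  · intro v i L
    funext j
    unfold sto
    rw [STO_get, Function.update_apply]
  · intro p y z
    funext i
    match i with
    | 0 => rfl
    | 1 => rfl
    | 2 => rfl
    | n + 3 =>
      unfold sto init
      rw [if_neg (by omega), if_neg (by omega), if_neg (by omega)]
      simp

end Pool.GL
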