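import Pool.Agent.Work.MP_af7a01_gl.InterfaceA

/-! # MP_af7a01_lc, GapLaw, block STP: the step on codes is the step on programs -/

open Classical Pool.IC

namespace Pool.GL

theorem p_STP (hSTO : Stmt_STO) : Stmt_STP := by
  obtain ⟨hS, -⟩ := hSTO
  intro B K L
  cases K with
  | nil => simp [step, stepL]
  | cons c K =>
    rcases c with _ | ⟨a, _ | ⟨b, _ | ⟨d, r⟩⟩⟩
    · simp [step, stepL, dec]
    · cases a <;> simp [step, stepL, dec]
    · cases a <;> cases b <;> simp [step, stepL, dec]
    · cases a <;> cases b <;> cases d
      · simp [step, stepL, dec]
      · simp only [List.map_cons, dec, step, stepL, hS]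
        rfl
      · simp only [List.map_cons, dec, step, stepL, hS]
        rfl
      · simp only [List.map_cons, dec, step, stepL]
      · simp only [List.map_cons, dec, step, stepL]
        have h : sto L (fs r).length = L.getD (fs r).length [] := rfl
        rw [h]
        rcases L.getD (fs r).length [] with _ | ⟨x, l⟩
        · rfl
        · cases x <;> rfl
      · simp only [List.map_cons, dec, step, stepL]
        have h : sto L (fs r).length = L.getD (fs r).length [] := rfl
        rw [h]
        by_cases h1 : L.getD (fs r).length [] ∈ B
        · rw [if_pos h1, if_pos h1]
        · rw [if_neg h1, if_neg h1]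
      · simp only [List.map_cons, dec, step, stepL]
        have h : sto L (fs r).length = L.getD (fs r).length [] := rfl
        rw [h]
        by_cases h1 : L.getD (fs r).length [] = []
        · rw [if_pos h1, if_pos h1]
        · rw [if_neg h1, if_neg h1]
          simp only [List.map_cons, dec]
      · simp [step, stepL, dec]

end Pool.GL
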