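import Pool.Agent.Work.MP_af7a01_gl.InterfaceA

/-! # MP_af7a01_lc, GapLaw, block TLS: tools for conditions and lengths -/

open Classical Pool.IC

namespace Pool.GL

/-- bounded recursion with a step which does not use the oracle and a linear bound -/
theorem TLS_fold (L : Lib) {S : Set (Set Str)} {f h : Set Str → Str → Str}
    (st : Bool → Str → Str) (hf : FP S f) (hh : FP S h) (hs : ∀ b, FP S (fun _ a => st b a))
    (c : ℕ) (hb : ∀ B ∈ S, ∀ x l : Str, l <+: f B x →
      (l.foldl (fun a b => st b a) (h B x)).length ≤ c * (l.length + (h B x).length) + c) :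
    FP S (fun B x => (f B x).foldl (fun a b => st b a) (h B x)) := by
  obtain ⟨rf, hrf⟩ := hf.length
  obtain ⟨rh, hrh⟩ := hh.length
  refine L.fold (g := fun b _ a => st b a) hf hh hs
    ⟨Polynomial.C c * (rf + rh) + Polynomial.C c, fun B hB x l hl => ?_⟩
  have h1 := hb B hB x l hl
  have h2 := hl.length_le
  have h3 := hrf B hB x
  have h4 := hrh B hB x
  rw [Polynomial.eval_add, Polynomial.eval_mul, Polynomial.eval_C, Polynomial.eval_add]
  refine h1.trans (Nat.add_le_add_right (Nat.mul_le_mul_left _ ?_) _)
  omega

theorem TLS_tail (l s : Str) : l.foldl (fun a _ => a.tail) s = s.drop l.length := by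
  induction l generalizing s with
  | nil => simp
  | cons b l ih =>
    rw [List.foldl_cons, ih, List.length_cons, ← List.drop_one, List.drop_drop]
    congr 1
    omega

theorem TLS_rev (l s : Str) : l.foldl (fun a b => b :: a) s = l.reverse ++ s := by
  induction l generalizing s with
  | nil => simp
  | cons b l ih => rw [List.foldl_cons, ih]; simp

theorem TLS_cst (c : Bool) (l s : Str) :
    l.foldl (fun a _ => c :: a) s = List.replicate l.length c ++ s := by
  induction l generalizing s with
  | nil => simp
  | cons b l ih =>
    rw [List.foldl_cons, ih, List.length_cons, List.replicate_succ']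
    simp

/-- the step for the comparison of two strings -/
def TLS_eqs (b : Bool) (a : Str) : Str :=
  cas (fs a) (pr [] [false])
    (pr (fs a).tail (if b = false then sn a else [false]))
    (pr (fs a).tail (if b = true then sn a else [false]))

theorem TLS_eqs_spec (l : Str) : ∀ (r : Str) (c : Bool), ∃ (r' : Str) (c' : Bool),
    l.foldl (fun a b => TLS_eqs b a) (pr r [c]) = pr r' [c'] ∧ r'.length ≤ r.length ∧
    ((r' = [] ∧ c' = true) ↔ (c = true ∧ l = r)) := by
  induction l with
  | nil =>
    intro r c
    refine ⟨r, c, rfl, le_rfl, ?_⟩
    constructor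
    · rintro ⟨h1, h2⟩; exact ⟨h2, h1.symm⟩
    · rintro ⟨h1, h2⟩; exact ⟨h2.symm, h1⟩
  | cons b l ih =>
    intro r c
    rw [List.foldl_cons]
    cases r with
    | nil =>
      have h1 : TLS_eqs b (pr [] [c]) = pr [] [false] := by
        unfold TLS_eqs
        rw [fs_pr]
        rfl
      rw [h1]
      obtain ⟨r', c', h2, h3, h4⟩ := ih [] false
      refine ⟨r', c', h2, h3, ?_⟩
      rw [h4]
      simp
    | cons e r =>
      have h1 : TLS_eqs b (pr (e :: r) [c]) = pr r [if b = e then c else false] := by
        unfold TLS_eqs
        rw [fs_pr, sn_pr]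
        cases e <;> cases b <;> simp [cas]
      rw [h1]
      obtain ⟨r', c', h2, h3, h4⟩ := ih r (if b = e then c else false)
      refine ⟨r', c', h2, h3.trans (by simp), ?_⟩
      rw [h4]
      by_cases hbe : b = e
      · subst hbe
        simp
      · simp [hbe]

/-- the step for halving -/
def TLS_hs (a : Str) : Str := cas a [] (true :: a.tail) (false :: true :: a.tail)

theorem TLS_hs_spec (l : Str) : ∀ (c : Bool) (k : ℕ),
    l.foldl (fun a _ => TLS_hs a) (c :: un k) =
      decide ((l.length + c.toNat) % 2 = 1) :: un (k + (l.length + c.toNat) / 2) := by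
  induction l with
  | nil => intro c k; cases c <;> simp
  | cons b l ih =>
    intro c k
    rw [List.foldl_cons]
    cases c with
    | false =>
      have h1 : TLS_hs (false :: un k) = true :: un k := rfl
      rw [h1, ih]
      simp only [List.length_cons, Bool.toNat_true, Bool.toNat_false, Nat.add_zero]
    | true =>
      have h1 : TLS_hs (true :: un k) = false :: un (k + 1) := by
        unfold TLS_hs un
        rw [List.replicate_succ]
        rfl
      rw [h1, ih]
      simp only [List.length_cons, Bool.toNat_true, Bool.toNat_false, Nat.add_zero]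
      have h2 : (l.length + 1 + 1) % 2 = l.length % 2 := by omega
      have h3 : k + (l.length + 1 + 1) / 2 = k + 1 + l.length / 2 := by omega
      have h4 : decide (l.length % 2 = 1) = decide ((l.length + 1 + 1) % 2 = 1) :=
        decide_eq_decide.2 (by rw [h2])
      rw [h3, h4]

theorem p_TLS (hLIB : Stmt_LIB) : Stmt_TLS := by
  intro S
  have L : Lib := hLIB
  -- the connectives
  have hconn : ∀ F G : Set Str → Str → Prop, FP S (fun B x => [decide (F B x)]) →
      FP S (fun B x => [decide (G B x)]) →
      FP S (fun B x => [decide (F B x ∧ G B x)]) ∧ FP S (fun B x => [decide (F B x ∨ G B x)]) ∧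
      FP S (fun B x => [decide (¬ F B x)]) := by
    intro F G hF hG
    refine ⟨?_, ?_, ?_⟩
    · refine (L.cas hF (L.const []) (L.const [false]) hG).congr fun B _ x => ?_
      by_cases h : F B x <;> simp [cas, h]
    · refine (L.cas hF (L.const []) hG (L.const [true])).congr fun B _ x => ?_
      by_cases h : F B x <;> simp [cas, h]
    · refine (L.cas hF (L.const []) (L.const [true]) (L.const [false])).congr fun B _ x => ?_
      by_cases h : F B x <;> simp [cas, h]
  have hite : ∀ (F : Set Str → Str → Prop) (G H : Set Str → Str → Str),
      FP S (fun B x => [decide (F B x)]) → FP S G → FP S H →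
      FP S (fun B x => if F B x then G B x else H B x) := by
    intro F G H hF hG hH
    refine (L.cas hF (L.const []) hH hG).congr fun B _ x => ?_
    by_cases h : F B x <;> simp [cas, h]
  refine ⟨hconn, hite, fun F G hF hG => ?_⟩
  -- drop
  have hdrop : ∀ F G : Set Str → Str → Str, FP S F → FP S G →
      FP S (fun B x => (F B x).drop (G B x).length) := by
    intro F G hF hG
    refine (TLS_fold L (fun _ a => a.tail) hG hF (fun _ => L.tail L.idn) 1
      (fun B _ x l _ => ?_)).congr fun B _ x => ?_
    · rw [TLS_tail, List.length_drop]; omega
    · exact TLS_tail _ _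
  -- reverse
  have hrevs : ∀ F G : Set Str → Str → Str, FP S F → FP S G →
      FP S (fun B x => (F B x).reverse ++ G B x) := by
    intro F G hF hG
    refine (TLS_fold L (fun b a => b :: a) hF hG (fun b => L.cons b L.idn) 1
      (fun B _ x l _ => ?_)).congr fun B _ x => ?_
    · rw [TLS_rev, List.length_append, List.length_reverse]; omega
    · exact TLS_rev _ _
  have hrev : FP S (fun B x => (F B x).reverse) := by
    refine (hrevs F (fun _ _ => []) hF (L.const [])).congr fun B _ x => ?_
    rw [List.append_nil]
  have happ : FP S (fun B x => F B x ++ G B x) := by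
    refine (hrevs (fun B x => (F B x).reverse) G hrev hG).congr fun B _ x => ?_
    rw [List.reverse_reverse]
  -- constant bits
  have hcst : ∀ (c : Bool) (F G : Set Str → Str → Str), FP S F → FP S G →
      FP S (fun B x => List.replicate (F B x).length c ++ G B x) := by
    intro c F G hF hG
    refine (TLS_fold L (fun _ a => c :: a) hF hG (fun _ => L.cons c L.idn) 1
      (fun B _ x l _ => ?_)).congr fun B _ x => ?_
    · rw [TLS_cst, List.length_append, List.length_replicate]; omega
    · exact TLS_cst c _ _
  refine ⟨?_, ?_, hdrop F G hF hG, happ, hrev, ?_, ?_, hcst false F G hF hG⟩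
  · -- equality
    have hstep : ∀ b, FP S (fun _ a => TLS_eqs b a) := by
      intro b
      have hft : FP S (fun _ a => (fs a).tail) := L.tail (L.fst L.idn)
      refine L.cas (L.fst L.idn) (L.const (pr [] [false])) (L.pair hft ?_) (L.pair hft ?_)
      · cases b
        · simpa using L.snd (S := S) L.idn
        · simpa using L.const (S := S) [false]
      · cases b
        · simpa using L.const (S := S) [false]
        · simpa using L.snd (S := S) L.idn
    have hfold : FP S (fun B x => (F B x).foldl (fun a b => TLS_eqs b a) (pr (G B x) [true])) := by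
      refine TLS_fold L TLS_eqs hF (L.pair hG (L.const [true])) hstep 1 (fun B _ x l _ => ?_)
      obtain ⟨r', c', h1, h2, -⟩ := TLS_eqs_spec l (G B x) true
      rw [h1, length_pr, length_pr]
      simp only [List.length_cons, List.length_nil]
      omega
    refine (L.cas (L.fst hfold) (L.cas (L.snd hfold) (L.const [false]) (L.const [false])
      (L.const [true])) (L.const [false]) (L.const [false])).congr fun B _ x => ?_
    obtain ⟨r', c', h1, -, h3⟩ := TLS_eqs_spec (F B x) (G B x) true
    simp only [h1, fs_pr, sn_pr]
    have h4 : (F B x = G B x) ↔ (r' = [] ∧ c' = true) := by rw [h3]; simp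
    rw [show decide (F B x = G B x) = decide (r' = [] ∧ c' = true) from
      decide_eq_decide.2 h4]
    cases r' with
    | nil => cases c' <;> simp [cas]
    | cons e r' => cases e <;> simp [cas]
  · -- comparison of the lengths
    refine (L.cas (hdrop G F hG hF) (L.const [false]) (L.const [true])
      (L.const [true])).congr fun B _ x => ?_
    by_cases h : (F B x).length < (G B x).length
    · have h1 : (G B x).drop (F B x).length ≠ [] := by
        intro h2
        have h3 := congrArg List.length h2
        rw [List.length_drop, List.length_nil] at h3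
        omega
      obtain ⟨e, r, h2⟩ := List.exists_cons_of_ne_nil h1
      simp only [h2]
      cases e <;> simp [cas, h]
    · have h1 : (G B x).drop (F B x).length = [] := List.drop_eq_nil_of_le (by omega)
      simp [h1, cas, h]
  · -- half
    have hfold : FP S (fun B x => (F B x).foldl (fun a _ => TLS_hs a) [false]) := by
      refine TLS_fold L (fun _ a => TLS_hs a) hF (L.const [false])
        (fun _ => L.cas L.idn (L.const []) (L.cons true (L.tail L.idn))
          (L.cons false (L.cons true (L.tail L.idn)))) 1 (fun B _ x l _ => ?_)
      have h1 := TLS_hs_spec l false 0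
      rw [show ([false] : Str) = false :: un 0 from rfl, h1]
      simp only [List.length_cons, List.length_replicate, Bool.toNat_false]
      omega
    refine (L.tail hfold).congr fun B _ x => ?_
    have h1 := TLS_hs_spec (F B x) false 0
    rw [show ([false] : Str) = false :: un 0 from rfl, h1]
    simp
  · -- unary length
    refine (hcst true F (fun _ _ => []) hF (L.const [])).congr fun B _ x => ?_
    rw [List.append_nil]

end Pool.GL
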