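import Pool.Agent.Work.MP_af7a01_gl.InterfaceA

open Classical Pool.IC

namespace Pool.GL

theorem TOC_time (q : Polynomial ℕ) (N X a b : ℕ) (ha : a ≤ q.eval X)
    (hb : b ≤ X + q.eval X) :
    (5 * X + 1) + ((5 * X + 1) + (a + ((10 * b + 3) +
      ((2 * (X + q.eval X) + 2) * N + 1) + 1) + 1) + 1) + 1 ≤
    (Polynomial.C 10 * Polynomial.X + q + Polynomial.C 10 * (Polynomial.X + q) +
      (Polynomial.C 2 * (Polynomial.X + q) + Polynomial.C 2) * Polynomial.C N +
      Polynomial.C 20).eval X := by
  simp only [Polynomial.eval_add, Polynomial.eval_mul, Polynomial.eval_C, Polynomial.eval_X]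
  generalize (2 * (X + q.eval X) + 2) * N = Z
  omega

theorem p_TOC (hHLT : Stmt_HLT) (hSHF : Stmt_SHF) : Stmt_TOC := by
  intro S F hF
  obtain ⟨M, q, hM⟩ := hF
  obtain ⟨N0, hN0⟩ := exists_uses M
  obtain ⟨N', hN4, hMU⟩ : ∃ N' : ℕ, 4 ≤ N' ∧ Uses N' M :=
    ⟨max N0 4, le_max_right _ _, hN0.mono (le_max_left _ _)⟩
  refine ⟨N' + 2, Polynomial.C 10 * Polynomial.X + q + Polynomial.C 10 * (Polynomial.X + q) +
      (Polynomial.C 2 * (Polynomial.X + q) + Polynomial.C 2) * Polynomial.C N' +
      Polynomial.C 20, by omega, fun d => ?_⟩
  refine ⟨Cmd.seq (mv d (d + 1)) (Cmd.seq (mv (d + 1) (d + 4)) (Cmd.seq (sh (d + 2) M)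
    (Cmd.seq (mvo (d + 5) d (d + 1)) (clrs (d + 2) N')))), ?_⟩
  intro B hB s hs
  have hout := hM B hB (s d)
  obtain ⟨s', hs'⟩ : ∃ s' : Store,
      s' = ((step B)^[q.eval (s d).length] ([M], init [] [] (s d))).2 := ⟨_, rfl⟩
  have hlen : ∀ i, (s' i).length ≤ (s d).length + q.eval (s d).length := by
    intro i
    rw [hs']
    exact length_iterate (B := B) (c := ([M], init [] [] (s d))) (L := (s d).length)
      (fun i => (length_init [] [] (s d) i).trans (by simp)) _ i
  obtain ⟨m, hm, hE, h3⟩ : ∃ m ≤ q.eval (s d).length, Exec B M (init [] [] (s d)) m s' ∧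
      s' 3 = F B (s d) := by
    unfold out at hout
    split_ifs at hout with h0
    obtain ⟨m, hm, hE⟩ := hHLT B M (init [] [] (s d)) (q.eval (s d).length) h0
    rw [Option.some.injEq] at hout
    rw [← hs'] at hE hout
    exact ⟨m, hm, hE, hout⟩
  -- step 1
  have h1 := mv_spec B (i := d) (j := d + 1) (by omega) s
  -- step 2
  set s1 : Store := Function.update (Function.update s d []) (d + 1)
    ((s d).reverse ++ s (d + 1)) with hs1
  have hs11 : s1 (d + 1) = (s d).reverse := by
    rw [hs1, Function.update_self, hs (d + 1) (by omega) (by omega), List.append_nil]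
  have hs14 : s1 (d + 4) = [] := by
    rw [hs1, Function.update_of_ne (by omega), Function.update_of_ne (by omega)]
    exact hs (d + 4) (by omega) (by omega)
  have h2 := mv_spec B (i := d + 1) (j := d + 4) (by omega) s1
  rw [hs11, hs14, List.reverse_reverse, List.append_nil, List.length_reverse] at h2
  have e2 : Function.update (Function.update s1 (d + 1) []) (d + 4) (s d) =
      (fun j => if j = d then [] else if j = d + 4 then s d else s j) := by
    funext j
    by_cases hj : j = d + 4
    · subst hj
      rw [Function.update_self, if_neg (by omega), if_pos rfl]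
    · rw [Function.update_of_ne hj]
      by_cases hj' : j = d + 1
      · subst hj'
        rw [Function.update_self, if_neg (by omega), if_neg hj]
        exact (hs (d + 1) (by omega) (by omega)).symm
      · rw [Function.update_of_ne hj', hs1, Function.update_of_ne hj']
        by_cases hj'' : j = d
        · subst hj''
          rw [Function.update_self, if_pos rfl]
        · rw [Function.update_of_ne hj'', if_neg hj'', if_neg hj]
  rw [e2] at h2
  -- step 3
  have h3' := hSHF B M N' (d + 2) m (init [] [] (s d))
    (fun j => if j = d then [] else if j = d + 4 then s d else s j) s' hMU (by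
      intro i hi
      rw [if_neg (by omega), init_apply]
      by_cases h : i = 2
      · subst h
        rw [if_pos (by omega), if_neg (by omega), if_neg (by omega), if_pos rfl]
      · rw [if_neg (by omega), if_neg h, hs _ (by omega) (by omega)]
        simp) hE
  obtain ⟨s3, hs3⟩ : ∃ s3 : Store, s3 = (fun j => if d + 2 ≤ j ∧ j < d + 2 + N' then
      s' (j - (d + 2)) else (if j = d then [] else if j = d + 4 then s d else s j)) := ⟨_, rfl⟩
  have h3'' : ExecLe B (sh (d + 2) M)
      (fun j => if j = d then [] else if j = d + 4 then s d else s j) m s3 := by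
    rw [hs3]
    exact ⟨m, le_rfl, h3'⟩
  have h3d : s3 d = [] := by
    rw [hs3]
    beta_reduce
    rw [if_neg (by omega), if_pos rfl]
  have h3d1 : s3 (d + 1) = [] := by
    rw [hs3]
    beta_reduce
    rw [if_neg (by omega), if_neg (by omega), if_neg (by omega)]
    exact hs (d + 1) (by omega) (by omega)
  have h3d5 : s3 (d + 5) = F B (s d) := by
    rw [hs3]
    beta_reduce
    rw [if_pos (by omega), show d + 5 - (d + 2) = 3 by omega, h3]
  have h4 := mvo_spec B (i := d + 5) (t := d) (j := d + 1) (by omega) (by omega) (by omega) s3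
    h3d h3d1
  have h5 := clrs_spec B (d + 2) N' ((s d).length + q.eval (s d).length)
    (Function.update (Function.update s3 (d + 5) []) (d + 1) (s3 (d + 5))) (by
      intro j hj1 hj2
      rw [Function.update_of_ne (by omega)]
      by_cases h : j = d + 5
      · rw [h, Function.update_self]
        simp
      · rw [Function.update_of_ne h, hs3]
        beta_reduce
        rw [if_pos ⟨hj1, hj2⟩]
        exact hlen _)
  have e5 : (fun j => if d + 2 ≤ j ∧ j < d + 2 + N' then [] else
      Function.update (Function.update s3 (d + 5) []) (d + 1) (s3 (d + 5)) j) =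
      Function.update (Function.update s d []) (d + 1) (F B (s d)) := by
    funext j
    by_cases hj : d + 2 ≤ j ∧ j < d + 2 + N'
    · rw [if_pos hj, Function.update_of_ne (by omega), Function.update_of_ne (by omega),
        hs j (by omega) (by omega)]
    · rw [if_neg hj]
      by_cases hj1 : j = d + 1
      · subst hj1
        rw [Function.update_self, Function.update_self, h3d5]
      · rw [Function.update_of_ne hj1, Function.update_of_ne hj1,
          Function.update_of_ne (by omega), hs3]
        beta_reduce
        rw [if_neg hj]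
        by_cases hjd : j = d
        · subst hjd
          rw [if_pos rfl, Function.update_self]
        · rw [if_neg hjd, if_neg (by omega), Function.update_of_ne hjd]
  rw [e5] at h5
  have hb : (s3 (d + 5)).length ≤ (s d).length + q.eval (s d).length := by
    rw [h3d5, ← h3]
    exact hlen 3
  exact (h1.seq (h2.seq (h3''.seq (h4.seq h5)))).mono (TOC_time q N' _ m _ hm hb)

end Pool.GL
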