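import Pool.Agent.Work.MP_af7a01_gl.InterfaceA

/-! Block UNA of MP_af7a01_lc (GapLaw), helper56. -/

set_option autoImplicit false

open Classical Pool.IC

namespace Pool.GL

/-- the function `f` of lengths is in `FP` (in unary) -/
def UNA_P (S : Set (Set Str)) (f : ℕ → ℕ) : Prop :=
  ∀ F : Set Str → Str → Str, FP S F → FP S (fun B x => un (f (F B x).length))

/-- one step of the multiplication -/
def UNA_g (_b : Bool) (_B : Set Str) (s : Str) : Str := pr (fs s) (fs s ++ sn s)

theorem UNA_fold (B : Set Str) (l : Str) : ∀ (u : ℕ) (k : ℕ),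
    l.foldl (fun a b => UNA_g b B a) (pr (un u) (un k)) = pr (un u) (un (l.length * u + k)) := by
  induction l with
  | nil => intro u k; simp
  | cons x l ih =>
    intro u k
    rw [List.foldl_cons]
    have h1 : UNA_g x B (pr (un u) (un k)) = pr (un u) (un (u + k)) := by
      unfold UNA_g
      rw [fs_pr, sn_pr, List.replicate_append_replicate]
    rw [h1, ih u (u + k), List.length_cons]
    congr 2
    ring

theorem UNA_add (hT : Stmt_TLS) (S : Set (Set Str)) (f g : ℕ → ℕ) (hf : UNA_P S f)
    (hg : UNA_P S g) : UNA_P S (fun n => f n + g n) := by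
  intro F hF
  have h1 := ((hT S).2.2 _ _ (hf F hF) (hg F hF)).2.2.2.1
  refine h1.congr ?_
  intro B _ x
  show un _ ++ un _ = un _
  rw [List.replicate_append_replicate]

theorem UNA_mul (hL : Lib) (hT : Stmt_TLS) (S : Set (Set Str)) (f g : ℕ → ℕ) (hf : UNA_P S f)
    (hg : UNA_P S g) : UNA_P S (fun n => f n * g n) := by
  intro F hF
  have hstep : ∀ b, FP S (UNA_g b) := by
    intro b
    exact hL.pair (hL.fst hL.idn) (((hT S).2.2 _ _ (hL.fst hL.idn) (hL.snd hL.idn)).2.2.2.1)
  obtain ⟨r, hr⟩ := (hf F hF).length
  obtain ⟨r', hr'⟩ := (hg F hF).length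
  have hfold := hL.fold (f := fun B x => un (f (F B x).length))
    (h := fun B x => pr (un (g (F B x).length)) (un 0)) (g := UNA_g) (hf F hF)
    (hL.pair (hg F hF) (hL.const (un 0))) hstep
    ⟨2 * r' + r * r' + 1, fun B hB x l hl => by
      have h2 := hl.length_le
      have h3 := hr B hB x
      have h4 := hr' B hB x
      rw [UNA_fold, length_pr]
      rw [List.length_replicate] at h2 h3 h4
      rw [List.length_replicate, List.length_replicate]
      rw [Polynomial.eval_add, Polynomial.eval_add, Polynomial.eval_mul, Polynomial.eval_mul,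
        Polynomial.eval_one, Polynomial.eval_ofNat]
      have h5 : l.length * g (F B x).length ≤ r.eval x.length * r'.eval x.length :=
        Nat.mul_le_mul (le_trans h2 h3) h4
      omega⟩
  refine (hL.snd hfold).congr ?_
  intro B _ x
  show sn _ = _
  rw [UNA_fold, sn_pr, List.length_replicate, add_zero]

theorem UNA_id (hT : Stmt_TLS) (S : Set (Set Str)) : UNA_P S (fun n => n) := by
  intro F hF
  exact ((hT S).2.2 F F hF hF).2.2.2.2.2.2.1

theorem UNA_pow (hL : Lib) (hT : Stmt_TLS) (S : Set (Set Str)) (a k : ℕ) :
    UNA_P S (fun n => a * n ^ k) := by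
  induction k with
  | zero =>
    intro F _
    refine (hL.const (un a)).congr ?_
    intro B _ x
    simp
  | succ k ih =>
    have h1 := UNA_mul hL hT S _ _ ih (UNA_id hT S)
    intro F hF
    refine (h1 F hF).congr ?_
    intro B _ x
    show un _ = un _
    congr 1
    ring

theorem p_UNA (hL : Stmt_LIB) (hT : Stmt_TLS) : Stmt_UNA := by
  intro S t
  change UNA_P S (fun n => t.eval n)
  induction t using Polynomial.induction_on' with
  | add p q hp hq =>
    have h1 := UNA_add hT S _ _ hp hq
    intro F hF
    refine (h1 F hF).congr ?_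
    intro B _ x
    show un _ = un _
    simp only [Polynomial.eval_add]
  | monomial n a =>
    have h1 := UNA_pow hL hT S a n
    intro F hF
    refine (h1 F hF).congr ?_
    intro B _ x
    show un _ = un _
    simp only [Polynomial.eval_monomial]

end Pool.GL
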