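import Pool.Agent.Work.MP_af7a01_gl.B_AEX
import Pool.Agent.Work.MP_af7a01_gl.B_ANP
import Pool.Agent.Work.MP_af7a01_gl.B_BAS
import Pool.Agent.Work.MP_af7a01_gl.B_BND
import Pool.Agent.Work.MP_af7a01_gl.B_BTD
import Pool.Agent.Work.MP_af7a01_gl.B_CAB
import Pool.Agent.Work.MP_af7a01_gl.B_CAS
import Pool.Agent.Work.MP_af7a01_gl.B_CMP
import Pool.Agent.Work.MP_af7a01_gl.B_CNB
import Pool.Agent.Work.MP_af7a01_gl.B_COD
import Pool.Agent.Work.MP_af7a01_gl.B_CVP
import Pool.Agent.Work.MP_af7a01_gl.B_DAD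
import Pool.Agent.Work.MP_af7a01_gl.B_DGF
import Pool.Agent.Work.MP_af7a01_gl.B_DTC
import Pool.Agent.Work.MP_af7a01_gl.B_EXP
import Pool.Agent.Work.MP_af7a01_gl.B_FIN
import Pool.Agent.Work.MP_af7a01_gl.B_FLD
import Pool.Agent.Work.MP_af7a01_gl.B_FSC
import Pool.Agent.Work.MP_af7a01_gl.B_FST
import Pool.Agent.Work.MP_af7a01_gl.B_GAP
import Pool.Agent.Work.MP_af7a01_gl.B_GFN
import Pool.Agent.Work.MP_af7a01_gl.B_GLE
import Pool.Agent.Work.MP_af7a01_gl.B_GUB
import Pool.Agent.Work.MP_af7a01_gl.B_HLT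
import Pool.Agent.Work.MP_af7a01_gl.B_ICU
import Pool.Agent.Work.MP_af7a01_gl.B_IDX
import Pool.Agent.Work.MP_af7a01_gl.B_INC
import Pool.Agent.Work.MP_af7a01_gl.B_INT
import Pool.Agent.Work.MP_af7a01_gl.B_LIB
import Pool.Agent.Work.MP_af7a01_gl.B_LST
import Pool.Agent.Work.MP_af7a01_gl.B_LTC
import Pool.Agent.Work.MP_af7a01_gl.B_NPR
import Pool.Agent.Work.MP_af7a01_gl.B_PAI
import Pool.Agent.Work.MP_af7a01_gl.B_REC
import Pool.Agent.Work.MP_af7a01_gl.B_REF
import Pool.Agent.Work.MP_af7a01_gl.B_RUN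
import Pool.Agent.Work.MP_af7a01_gl.B_SHF
import Pool.Agent.Work.MP_af7a01_gl.B_SLW
import Pool.Agent.Work.MP_af7a01_gl.B_SND
import Pool.Agent.Work.MP_af7a01_gl.B_STF
import Pool.Agent.Work.MP_af7a01_gl.B_STO
import Pool.Agent.Work.MP_af7a01_gl.B_STP
import Pool.Agent.Work.MP_af7a01_gl.B_TLS
import Pool.Agent.Work.MP_af7a01_gl.B_TOC
import Pool.Agent.Work.MP_af7a01_gl.B_UNA

/-!
# The gap law (MP_af7a01_lc): composition of all blocks
-/

open Classical Pool.IC

namespace Pool.GL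

theorem toc : Stmt_TOC := p_TOC p_HLT p_SHF
theorem lib : Stmt_LIB :=
  p_LIB (p_CMP toc) (p_PAI toc) p_FST p_SND p_BAS (p_CAS toc) (p_FLD toc)
theorem tls : Stmt_TLS := p_TLS lib
theorem inc' : Stmt_INC := p_INC lib tls
theorem una : Stmt_UNA := p_UNA lib tls
theorem ltc : Stmt_LTC := p_LTC lib tls p_IDX
theorem fin : Stmt_FIN := p_FIN lib tls
theorem lst : Stmt_LST := p_LST lib tls
theorem run : Stmt_RUN := p_RUN lib tls lst p_STO (p_STP p_STO) (p_STF lib tls lst) p_BND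
theorem int : Stmt_INT := p_INT lib p_COD run
theorem exp' : Stmt_EXP := p_EXP toc
theorem ref : Stmt_REF := p_REF lib tls una p_IDX inc' int
theorem gfn : Stmt_GFN := p_GFN lib tls una p_IDX inc' ref
theorem gub : Stmt_GUB := p_GUB lib tls una p_IDX gfn fin
theorem slw : Stmt_SLW := p_SLW lib tls int
theorem dgf : Stmt_DGF := p_DGF lib tls p_IDX inc'
theorem aex : Stmt_AEX := p_AEX exp' dgf
theorem dad : Stmt_DAD := p_DAD p_REC p_IDX
theorem anp : Stmt_ANP := p_ANP p_REC p_IDX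
theorem icu : Stmt_ICU := p_ICU (p_NPR toc)
theorem btd : Stmt_BTD := p_BTD slw aex dad anp icu
theorem dtc : Stmt_DTC := p_DTC gfn (p_GLE p_IDX) gub slw
theorem cab : Stmt_CAB := p_CAB lib tls
theorem gap : Stmt_GAP := p_GAP btd dtc cab
theorem cnb : Stmt_CNB := p_CNB lib tls p_IDX ltc (p_CVP toc)

/-- The gap law. -/
theorem gapLaw :
    (∃ U : Interpreter, Effective U) ∧
    (∀ (C : Cmd) (hC : ∀ M : Cmd, ∃ (e : Str) (q : Polynomial ℕ), ∀ (B : Set Str) (p y z : Str)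
      (n : ℕ) (o : Str), out B M p y z n = some o → out B C (e ++ p) y z (q.eval n) = some o),
      Effective (ofCmd C hC)) ∧
    ∀ U : Interpreter, Effective U → ∀ B : Set Str,
      (let D := fun t : Polynomial ℕ => CD U B (fun n => t.eval n)
       [Q1for U B D, Weakest U B D, Strongest U B D, NoBound B D].TFAE) ∧
      (let D := fun t : Polynomial ℕ => CK U B (fun n => t.eval n)
       [Q1for U B D, Weakest U B D, Strongest U B D, NoBound B D].TFAE) ∧
      ∀ (ι : Type) (D : ι → Str → ℕ∞), FinSub D →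
        [Q1for U B D, Weakest U B D, Strongest U B D, NoBound B D].TFAE :=
  ⟨int.1, int.2.1, fun U hU B => ⟨gap U hU B _ _ (p_FSC U B).1, gap U hU B _ _ (p_FSC U B).2.1,
    fun ι D hD => gap U hU B ι D hD⟩⟩

/-- The co-nondeterministic complexity. -/
theorem coNondeterministic :
    (∃ U : Interpreter, Effective U) ∧
    ∀ U : Interpreter, Effective U → ∀ B A : Set Str, DecidableIn B A → ¬ InP B A →
      ∀ (h : ℕ → ℕ), Computes B h → ∀ t : Polynomial ℕ, ∃ t' : Polynomial ℕ,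
        {x | ∃ k : ℕ, coCD U B (fun n => t'.eval n) x = k ∧
          (h k : ℕ∞) ≤ ic U B (fun n => t.eval n) x A}.Infinite := by
  refine ⟨int.1, fun U hU B A hA hP h hh t => ?_⟩
  have hT := gap U hU B _ (fun t : Polynomial ℕ => coCD U B (fun n => t.eval n)) (p_FSC U B).2.2
  have hS : Strongest U B (fun t : Polynomial ℕ => coCD U B (fun n => t.eval n)) :=
    (hT.out 3 2).1 (cnb U B)
  exact hS h hh A hA hP t

end Pool.GL
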