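import Pool.Agent.Work.MP_af7a01_gl.InterfaceB

/-! # MP_af7a01_lc, GapLaw, block AEX: the diagonal set is in E -/

open Classical Pool.IC

namespace Pool.GL

theorem p_AEX (hEXP : Stmt_EXP) (hDGF : Stmt_DGF) : Stmt_AEX := by
  intro U hU B J hJ hJl
  refine hEXP B _ (dA U B J) (hDGF U hU B J hJ hJl) ?_
  intro z
  simp only [fs_pr, sn_pr, List.length_replicate]
  unfold chi dA
  congr 1
  exact decide_eq_decide.2 Iff.rfl

end Pool.GL
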