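import Pool.Agent.Work.MP_af7a01_gl.InterfaceB

/-! # MP_af7a01_lc, GapLaw, block DAD: the diagonal set depends only on the length -/

open Classical Pool.IC

namespace Pool.GL

theorem p_DAD (hREC : Stmt_REC) (hIDX : Stmt_IDX) : Stmt_DAD := by
  obtain ⟨hi1, hi2, -, hi4, -, -⟩ := hIDX
  intro U B J hJl hJu
  have h0 : jj J 0 = 0 := by
    unfold jj
    have h := hJl (str 0)
    have h' : (str 0).length = 0 := rfl
    omega
  have hu : ∀ K, ∃ n, K ≤ jj J n := by
    intro K
    obtain ⟨z, hz⟩ := hJu K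
    exact ⟨idx z, by unfold jj; rw [hi2]; exact hz⟩
  obtain ⟨h1, -, -⟩ := hREC (jj J) h0 hu
  have key : ∀ z z' : Str, (J z).length = (J z').length → z ∈ dA U B J → z' ∈ dA U B J := by
    intro z z' hzz hz
    have e1 : jj J (idx z) = (J z).length := by unfold jj; rw [hi2]
    have e2 : jj J (idx z') = (J z).length := by unfold jj; rw [hi2, hzz]
    have l1 : idx z ≤ 2 ^ (z.length + 1) := by have := (hi4 z).2; omega
    have l2 : idx z' ≤ 2 ^ (z'.length + 1) := by have := (hi4 z').2; omega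
    obtain ⟨a1, a2⟩ := h1 (J z).length (idx z) (2 ^ (z.length + 1))
      (max (2 ^ (z.length + 1)) (2 ^ (z'.length + 1))) e1 l1 (le_trans l1 (le_max_left _ _))
    obtain ⟨b1, b2⟩ := h1 (J z).length (idx z') (2 ^ (z'.length + 1))
      (max (2 ^ (z.length + 1)) (2 ^ (z'.length + 1))) e2 l2 (le_trans l2 (le_max_right _ _))
    unfold dA at hz ⊢
    rw [Set.mem_setOf_eq] at hz ⊢
    rw [a1, a2] at hz
    rw [← hzz, b1, b2]
    exact hz
  refine ⟨fun m => decide (∃ z, (J z).length = m ∧ z ∈ dA U B J), ?_⟩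
  intro z
  rw [decide_eq_true_iff]
  constructor
  · intro h
    exact ⟨z, rfl, h⟩
  · rintro ⟨z', h2, h3⟩
    exact key z' z h2 h3

end Pool.GL
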