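import Pool.Agent.Work.MP_af7a01_gl.InterfaceA

open Classical Pool.IC

namespace Pool.GL

theorem HLT_step (B : Set Str) (K k : List Cmd) (s : Store) (hK : K ≠ []) :
    step B (K ++ k, s) = ((step B (K, s)).1 ++ k, (step B (K, s)).2) := by
  cases K with
  | nil => exact absurd rfl hK
  | cons a K =>
    cases a with
    | skip => rfl
    | push i b => rfl
    | pop i => rfl
    | seq c d => rfl
    | branch i e f t =>
      simp only [List.cons_append, step]
    | ask i y n =>
      simp only [List.cons_append, step]
    | loop i c =>
      simp only [List.cons_append, step]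
      split_ifs <;> rfl

theorem p_HLT : Stmt_HLT := by
  intro B c s n hn
  have hex : ∃ m, ((step B)^[m] ([c], s)).1 = [] := ⟨n, hn⟩
  set m := Nat.find hex with hm
  have hmn : m ≤ n := Nat.find_min' hex hn
  have hm0 : ((step B)^[m] ([c], s)).1 = [] := Nat.find_spec hex
  have hmin : ∀ i < m, ((step B)^[i] ([c], s)).1 ≠ [] := fun i hi => Nat.find_min hex hi
  refine ⟨m, hmn, fun k => ?_⟩
  have key : ∀ i ≤ m, (step B)^[i] (c :: k, s) =
      (((step B)^[i] ([c], s)).1 ++ k, ((step B)^[i] ([c], s)).2) := by
    intro i
    induction i with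
    | zero => intro _; rfl
    | succ i ih =>
      intro hi
      rw [Function.iterate_succ_apply', Function.iterate_succ_apply', ih (by omega)]
      exact HLT_step B _ k _ (hmin i (by omega))
  rw [key m le_rfl, hm0, halted_mono hm0 hmn]
  rfl

end Pool.GL
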