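import Pool.Agent.Work.MP_af7a01_gl.InterfaceA

set_option autoImplicit false
set_option linter.unusedVariables false

/-! # GapLaw, block RUN (helper68): clocked universal simulation -/

open Classical Pool.IC

namespace Pool.GL

theorem RUN_iter (hSTP : Stmt_STP) (B : Set Str) (n : ℕ) : ∀ K L : List Str,
    (step B)^[n] (K.map dec, sto L) =
      (((stepL B)^[n] (K, L)).1.map dec, sto ((stepL B)^[n] (K, L)).2) := by
  induction n with
  | zero => intro K L; rfl
  | succ n ih =>
    intro K L
    rw [Function.iterate_succ_apply, Function.iterate_succ_apply, hSTP B K L, ih]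

theorem RUN_fold {F : Set Str → Str → Str}
    (hF : ∀ B K L, F B (pr (el K) (el L)) = pr (el (stepL B (K, L)).1) (el (stepL B (K, L)).2))
    (B : Set Str) (l : Str) : ∀ K L : List Str,
    l.foldl (fun a _ => F B a) (pr (el K) (el L)) =
      pr (el ((stepL B)^[l.length] (K, L)).1) (el ((stepL B)^[l.length] (K, L)).2) := by
  induction l with
  | nil => intro K L; rfl
  | cons b l ih =>
    intro K L
    rw [List.foldl_cons, hF, ih, List.length_cons, Function.iterate_succ_apply]

/-- the first list at the start -/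
def RUN_K (x : Str) : List Str := [fs (sn x)]

/-- the stacks at the start -/
def RUN_L (x : Str) : List Str :=
  [fs (sn (sn x)), fs (sn (sn (sn x))), sn (sn (sn (sn x)))]

theorem RUN_len (x : Str) : (el (RUN_K x)).length + (el (RUN_L x)).length ≤ 8 * x.length + 8 := by
  unfold RUN_K RUN_L
  rw [length_el_cons, length_el_cons, length_el_cons, length_el_cons]
  have h0 : (el []).length = 0 := rfl
  rw [h0]
  have h1 := length_sn x
  have h2 := length_fs (sn x)
  have h3 := length_sn (sn x)
  have h4 := length_fs (sn (sn x))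
  have h5 := length_sn (sn (sn x))
  have h6 := length_fs (sn (sn (sn x)))
  have h7 := length_sn (sn (sn (sn x)))
  omega

theorem p_RUN (hLIB : Stmt_LIB) (hTLS : Stmt_TLS) (hLST : Stmt_LST) (hSTO : Stmt_STO)
    (hSTP : Stmt_STP) (hSTF : Stmt_STF) (hBND : Stmt_BND) : Stmt_RUN := by
  have hL : Lib := hLIB
  obtain ⟨F, hF, hF2⟩ := hSTF
  obtain ⟨⟨GET, hGET, hGET2⟩, -⟩ := hLST
  have h1 : FP Set.univ (fun _ x => sn x) := hL.snd hL.idn
  have h2 : FP Set.univ (fun _ x => sn (sn x)) := hL.snd h1
  have h3 : FP Set.univ (fun _ x => sn (sn (sn x))) := hL.snd h2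
  have h4 : FP Set.univ (fun _ x => sn (sn (sn (sn x)))) := hL.snd h3
  have hstart : FP Set.univ (fun _ x => pr (el (RUN_K x)) (el (RUN_L x))) :=
    hL.pair (hL.cons true (hL.pair (hL.fst h1) (hL.const [])))
      (hL.cons true (hL.pair (hL.fst h2) (hL.cons true (hL.pair (hL.fst h3)
        (hL.cons true (hL.pair h4 (hL.const [])))))))
  have hfold : FP Set.univ (fun B x => (fs x).foldl (fun a _ => F B a)
      (pr (el (RUN_K x)) (el (RUN_L x)))) := by
    refine hL.fold (f := fun _ x => fs x) (h := fun _ x => pr (el (RUN_K x)) (el (RUN_L x)))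
      (g := fun _ B a => F B a) (hL.fst hL.idn) hstart (fun _ => hF) ?_
    refine ⟨2 * ((Polynomial.X + 1) * (4 * (8 * Polynomial.X + 8) + 8)) + 1, ?_⟩
    intro B _ x l hl
    show (l.foldl (fun a _ => F B a) (pr (el (RUN_K x)) (el (RUN_L x)))).length ≤ _
    rw [RUN_fold hF2, length_pr]
    have h5 := hBND B (RUN_K x) (RUN_L x) l.length
    have h6 := RUN_len x
    have h7 : l.length ≤ x.length := hl.length_le.trans (length_fs x)
    have h8 : (l.length + 1) * (4 * ((el (RUN_K x)).length + (el (RUN_L x)).length) + 8) ≤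
        (x.length + 1) * (4 * (8 * x.length + 8) + 8) :=
      Nat.mul_le_mul (by omega) (by omega)
    have h9 : (2 * ((Polynomial.X + 1) * (4 * (8 * Polynomial.X + 8) + 8)) + 1 :
        Polynomial ℕ).eval x.length = 2 * ((x.length + 1) * (4 * (8 * x.length + 8) + 8)) + 1 := by
      simp
    rw [h9]
    omega
  have hfin := hL.cas (hL.fst hfold)
    (hL.cons true (hL.comp (hL.pair (hL.const [true, true, true]) (hL.snd hfold)) hGET))
    (hL.const []) (hL.const [])
  refine ⟨_, hfin, ?_⟩
  intro B w c p y z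
  obtain ⟨x, hx⟩ : ∃ x, x = pr w (pr c (pr p (pr y z))) := ⟨_, rfl⟩
  have e1 : fs x = w := by rw [hx, fs_pr]
  have e2 : sn x = pr c (pr p (pr y z)) := by rw [hx, sn_pr]
  have eK : RUN_K x = [c] := by
    unfold RUN_K
    rw [e2, fs_pr]
  have eL : RUN_L x = [p, y, z] := by
    unfold RUN_L
    rw [e2, sn_pr, sn_pr, sn_pr, fs_pr, fs_pr]
  rw [← hx]
  simp only [e1, eK, eL, RUN_fold hF2, fs_pr, sn_pr, hGET2]
  have h5 := RUN_iter hSTP B w.length [c] [p, y, z]
  rw [hSTO.2] at h5
  unfold out
  have h6 : ([c] : List Str).map dec = [dec c] := rfl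
  rw [h6] at h5
  rw [h5]
  generalize ((stepL B)^[w.length] ([c], [p, y, z])) = r
  obtain ⟨K', L'⟩ := r
  cases K' with
  | nil => rfl
  | cons a K' => rfl

end Pool.GL
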