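import Pool.Agent.Work.MP_af7a01_gl.Defs

/-! Base lemmas: moving, copying, clearing stacks. -/

open Classical Pool.IC

namespace Pool.GL

theorem eval_mono (q : Polynomial ℕ) {m n : ℕ} (h : m ≤ n) : q.eval m ≤ q.eval n := by
  rw [Polynomial.eval_eq_sum, Polynomial.eval_eq_sum]
  exact Finset.sum_le_sum fun i _ => Nat.mul_le_mul_left _ (Nat.pow_le_pow_left h i)

theorem push_spec (B : Set Str) (i : ℕ) (b : Bool) (s : Store) :
    ExecLe B (Cmd.push i b) s 1 (Function.update s i (b :: s i)) := ⟨1, le_rfl, exec_push B i b s⟩

theorem pop_spec (B : Set Str) (i : ℕ) (s : Store) :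
    ExecLe B (Cmd.pop i) s 1 (Function.update s i (s i).tail) := ⟨1, le_rfl, exec_pop B i s⟩

theorem ask_spec {B : Set Str} {i : ℕ} {y n : Cmd} {s s' : Store} {m : ℕ}
    (h : ExecLe B (if s i ∈ B then y else n) s m s') : ExecLe B (Cmd.ask i y n) s (m + 1) s' := by
  by_cases hi : s i ∈ B
  · rw [if_pos hi] at h; exact ExecLe.ask_yes hi h
  · rw [if_neg hi] at h; exact ExecLe.ask_no hi h

/-- Clear stack `i`. -/
def clr (i : ℕ) : Cmd := Cmd.loop i (Cmd.pop i)

theorem clr_spec (B : Set Str) (i : ℕ) (s : Store) :
    ExecLe B (clr i) s (2 * (s i).length + 1) (Function.update s i []) := by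
  unfold clr
  generalize hl : s i = l
  induction l generalizing s with
  | nil =>
    have : Function.update s i [] = s := by rw [← hl, Function.update_eq_self]
    rw [this]
    exact ExecLe.loop_nil hl
  | cons b l ih =>
    have h1 := pop_spec B i s
    have h2 := ih (Function.update s i (s i).tail) (by rw [Function.update_self, hl]; rfl)
    rw [Function.update_idem] at h2
    exact (ExecLe.loop_step (by rw [hl]; simp) h1 h2).mono (by simp only [List.length_cons]; omega)

/-- `mv i j` moves stack `i` onto stack `j` (reversed). -/
theorem mv_spec (B : Set Str) {i j : ℕ} (hij : i ≠ j) (s : Store) :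
    ExecLe B (mv i j) s (5 * (s i).length + 1)
      (Function.update (Function.update s i []) j ((s i).reverse ++ s j)) := by
  unfold mv
  generalize hl : s i = l
  induction l generalizing s with
  | nil =>
    have : Function.update (Function.update s i []) j (([] : Str).reverse ++ s j) = s := by
      funext m
      by_cases hm : m = j
      · subst hm; simp
      · by_cases hm' : m = i
        · subst hm'; simp [Function.update_of_ne hm, hl]
        · simp [Function.update_of_ne hm, Function.update_of_ne hm']
    rw [this]
    exact ExecLe.loop_nil hl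
  | cons b l ih =>
    set s1 : Store := Function.update s i l with hs1
    set s2 : Store := Function.update s1 j (b :: s j) with hs2
    have h1 : ExecLe B (Cmd.branch i Cmd.skip (Cmd.seq (Cmd.pop i) (Cmd.push j false))
        (Cmd.seq (Cmd.pop i) (Cmd.push j true))) s 4 s2 := by
      refine ExecLe.branch_cons (b := b) (l := l) hl ?_
      have hp := pop_spec B i s
      rw [hl, List.tail_cons, ← hs1] at hp
      have hj : s1 j = s j := by rw [hs1, Function.update_of_ne hij.symm]
      cases b
      · have hq := push_spec B j false s1
        rw [hj] at hq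
        exact hp.seq hq
      · have hq := push_spec B j true s1
        rw [hj] at hq
        exact hp.seq hq
    have h2i : s2 i = l := by rw [hs2, Function.update_of_ne hij, hs1, Function.update_self]
    have h2j : s2 j = b :: s j := by rw [hs2, Function.update_self]
    have h2 := ih s2 h2i
    rw [h2j] at h2
    have h3 := (ExecLe.loop_step (by rw [hl]; simp) h1 h2).mono
      (n := 5 * (b :: l).length + 1) (by simp only [List.length_cons]; omega)
    have h4 : Function.update (Function.update s2 i []) j (l.reverse ++ b :: s j) =
        Function.update (Function.update s i []) j ((b :: l).reverse ++ s j) := by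
      funext k
      by_cases hk : k = j
      · subst hk; simp
      · by_cases hk' : k = i
        · subst hk'; simp [Function.update_of_ne hk]
        · simp [hs2, hs1, Function.update_of_ne hk, Function.update_of_ne hk']
    rw [h4] at h3
    exact h3

/-- Move stack `i` onto the stacks `j` and `k` (reversed). -/
def mvv (i j k : ℕ) : Cmd :=
  Cmd.loop i (Cmd.branch i Cmd.skip
    (Cmd.seq (Cmd.pop i) (Cmd.seq (Cmd.push j false) (Cmd.push k false)))
    (Cmd.seq (Cmd.pop i) (Cmd.seq (Cmd.push j true) (Cmd.push k true))))

theorem mvv_spec (B : Set Str) {i j k : ℕ} (hij : i ≠ j) (hik : i ≠ k) (hjk : j ≠ k) (s : Store) :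
    ExecLe B (mvv i j k) s (7 * (s i).length + 1)
      (Function.update (Function.update (Function.update s i []) j ((s i).reverse ++ s j)) k
        ((s i).reverse ++ s k)) := by
  unfold mvv
  generalize hl : s i = l
  induction l generalizing s with
  | nil =>
    have : Function.update (Function.update (Function.update s i []) j
        (([] : Str).reverse ++ s j)) k (([] : Str).reverse ++ s k) = s := by
      funext m
      by_cases hm : m = k
      · subst hm; simp
      · by_cases hm' : m = j
        · subst hm'; simp [Function.update_of_ne hm]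
        · by_cases hm'' : m = i
          · subst hm''; simp [Function.update_of_ne hm, Function.update_of_ne hm', hl]
          · simp [Function.update_of_ne hm, Function.update_of_ne hm', Function.update_of_ne hm'']
    rw [this]
    exact ExecLe.loop_nil hl
  | cons b l ih =>
    set s1 : Store := Function.update s i l with hs1
    set s2 : Store := Function.update s1 j (b :: s j) with hs2
    set s3 : Store := Function.update s2 k (b :: s k) with hs3
    have h1 : ExecLe B (Cmd.branch i Cmd.skip
        (Cmd.seq (Cmd.pop i) (Cmd.seq (Cmd.push j false) (Cmd.push k false)))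
        (Cmd.seq (Cmd.pop i) (Cmd.seq (Cmd.push j true) (Cmd.push k true)))) s 6 s3 := by
      refine ExecLe.branch_cons (b := b) (l := l) hl ?_
      have hp := pop_spec B i s
      rw [hl, List.tail_cons, ← hs1] at hp
      have hj : s1 j = s j := by rw [hs1, Function.update_of_ne hij.symm]
      have hk : s2 k = s k := by
        rw [hs2, Function.update_of_ne hjk.symm, hs1, Function.update_of_ne hik.symm]
      cases b
      · have hq := push_spec B j false s1
        have hr := push_spec B k false s2
        rw [hj] at hq
        rw [hk] at hr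
        exact hp.seq (hq.seq hr)
      · have hq := push_spec B j true s1
        have hr := push_spec B k true s2
        rw [hj] at hq
        rw [hk] at hr
        exact hp.seq (hq.seq hr)
    have h2i : s3 i = l := by
      rw [hs3, Function.update_of_ne hik, hs2, Function.update_of_ne hij, hs1,
        Function.update_self]
    have h2j : s3 j = b :: s j := by
      rw [hs3, Function.update_of_ne hjk, hs2, Function.update_self]
    have h2k : s3 k = b :: s k := by rw [hs3, Function.update_self]
    have h2 := ih s3 h2i
    rw [h2j, h2k] at h2
    have h3 := (ExecLe.loop_step (by rw [hl]; simp) h1 h2).mono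
      (n := 7 * (b :: l).length + 1) (by simp only [List.length_cons]; omega)
    have h4 : Function.update (Function.update (Function.update s3 i []) j
          (l.reverse ++ b :: s j)) k (l.reverse ++ b :: s k) =
        Function.update (Function.update (Function.update s i []) j
          ((b :: l).reverse ++ s j)) k ((b :: l).reverse ++ s k) := by
      funext m
      by_cases hm : m = k
      · subst hm; simp
      · by_cases hm' : m = j
        · subst hm'; simp [Function.update_of_ne hm]
        · by_cases hm'' : m = i
          · subst hm''; simp [Function.update_of_ne hm, Function.update_of_ne hm']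
          · simp [hs3, hs2, hs1, Function.update_of_ne hm, Function.update_of_ne hm',
              Function.update_of_ne hm'']
    rw [h4] at h3
    exact h3

/-- Move stack `i` to the empty stack `j` with the temporary stack `t`, keeping the order. -/
def mvo (i t j : ℕ) : Cmd := Cmd.seq (mv i t) (mv t j)

theorem mvo_spec (B : Set Str) {i t j : ℕ} (hit : i ≠ t) (hij : i ≠ j) (htj : t ≠ j) (s : Store)
    (ht : s t = []) (hj : s j = []) :
    ExecLe B (mvo i t j) s (10 * (s i).length + 3)
      (Function.update (Function.update s i []) j (s i)) := by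
  have h1 := mv_spec B hit s
  rw [ht, List.append_nil] at h1
  set s1 : Store := Function.update (Function.update s i []) t (s i).reverse with hs1
  have h2 := mv_spec B htj s1
  have h2t : s1 t = (s i).reverse := by rw [hs1, Function.update_self]
  have h2j : s1 j = [] := by
    rw [hs1, Function.update_of_ne htj.symm, Function.update_of_ne hij.symm, hj]
  rw [h2t, h2j, List.reverse_reverse, List.append_nil, List.length_reverse] at h2
  have h4 : Function.update (Function.update s1 t []) j (s i) =
      Function.update (Function.update s i []) j (s i) := by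
    funext m
    by_cases hm : m = j
    · subst hm; simp
    · by_cases hm' : m = t
      · subst hm'; simp [Function.update_of_ne hm, Function.update_of_ne hit.symm, ht]
      · simp [hs1, Function.update_of_ne hm, Function.update_of_ne hm']
  rw [h4] at h2
  exact (h1.seq h2).mono (by omega)

/-- Copy stack `i` to the empty stack `j` with the temporary stack `t`, keeping the order. -/
def cpo (i t j : ℕ) : Cmd := Cmd.seq (mv i t) (mvv t i j)

theorem cpo_spec (B : Set Str) {i t j : ℕ} (hit : i ≠ t) (hij : i ≠ j) (htj : t ≠ j) (s : Store)
    (ht : s t = []) (hj : s j = []) :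
    ExecLe B (cpo i t j) s (12 * (s i).length + 3) (Function.update s j (s i)) := by
  have h1 := mv_spec B hit s
  rw [ht, List.append_nil] at h1
  set s1 : Store := Function.update (Function.update s i []) t (s i).reverse with hs1
  have h2 := mvv_spec B hit.symm htj hij s1
  have h2t : s1 t = (s i).reverse := by rw [hs1, Function.update_self]
  have h2j : s1 j = [] := by
    rw [hs1, Function.update_of_ne htj.symm, Function.update_of_ne hij.symm, hj]
  have h2i : s1 i = [] := by
    rw [hs1, Function.update_of_ne hit, Function.update_self]
  rw [h2t, h2j, h2i, List.reverse_reverse, List.append_nil, List.length_reverse] at h2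
  have h4 : Function.update (Function.update (Function.update s1 t []) i (s i)) j (s i) =
      Function.update s j (s i) := by
    funext m
    by_cases hm : m = j
    · subst hm; simp
    · by_cases hm' : m = i
      · subst hm'; simp [Function.update_of_ne hm]
      · by_cases hm'' : m = t
        · subst hm''; simp [Function.update_of_ne hm, Function.update_of_ne hm', ht]
        · simp [hs1, Function.update_of_ne hm, Function.update_of_ne hm', Function.update_of_ne hm'']
  rw [h4] at h2
  exact (h1.seq h2).mono (by omega)

/-- Clear the stacks `a, .., a + N - 1`. -/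
def clrs (a : ℕ) : ℕ → Cmd
  | 0 => Cmd.skip
  | N + 1 => Cmd.seq (clrs a N) (clr (a + N))

theorem clrs_spec (B : Set Str) (a N L : ℕ) (s : Store)
    (h : ∀ j, a ≤ j → j < a + N → (s j).length ≤ L) :
    ExecLe B (clrs a N) s ((2 * L + 2) * N + 1)
      (fun j => if a ≤ j ∧ j < a + N then [] else s j) := by
  induction N with
  | zero =>
    have : (fun j => if a ≤ j ∧ j < a + 0 then ([] : Str) else s j) = s := by
      funext j
      rw [if_neg (by omega)]
    rw [this]
    exact le_skip B s
  | succ N ih =>
    have h1 := ih (fun j h2 h3 => h j h2 (by omega))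
    have h2 := clr_spec B (a + N) (fun j => if a ≤ j ∧ j < a + N then ([] : Str) else s j)
    have h3 : (2 * ((fun j => if a ≤ j ∧ j < a + N then ([] : Str) else s j) (a + N)).length + 1) ≤
        2 * L + 1 := by
      have h4 := h (a + N) (by omega) (by omega)
      simp only [show ¬ (a ≤ a + N ∧ a + N < a + N) by omega, if_false]
      omega
    have h5 : Function.update (fun j => if a ≤ j ∧ j < a + N then ([] : Str) else s j) (a + N) [] =
        (fun j => if a ≤ j ∧ j < a + (N + 1) then ([] : Str) else s j) := by
      funext j
      by_cases hj : j = a + N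
      · subst hj
        rw [Function.update_self, if_pos (by omega)]
      · rw [Function.update_of_ne hj]
        by_cases h6 : a ≤ j ∧ j < a + N
        · rw [if_pos h6, if_pos (by omega)]
        · rw [if_neg h6, if_neg (by omega)]
    rw [h5] at h2
    refine (h1.seq (h2.mono h3)).mono ?_
    rw [Nat.mul_succ]
    omega

theorem Uses.mono {N N' : ℕ} (h : N ≤ N') (c : Cmd) (hc : Uses N c) : Uses N' c := by
  induction c with
  | skip => trivial
  | push i b => exact lt_of_lt_of_le hc h
  | pop i => exact lt_of_lt_of_le hc h
  | seq c d hc' hd' => exact ⟨hc' hc.1, hd' hc.2⟩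
  | branch i e f t he hf ht =>
    exact ⟨lt_of_lt_of_le hc.1 h, he hc.2.1, hf hc.2.2.1, ht hc.2.2.2⟩
  | ask i y n hy hn => exact ⟨lt_of_lt_of_le hc.1 h, hy hc.2.1, hn hc.2.2⟩
  | loop i c hc' => exact ⟨lt_of_lt_of_le hc.1 h, hc' hc.2⟩

theorem exists_uses (c : Cmd) : ∃ N, Uses N c := by
  induction c with
  | skip => exact ⟨0, trivial⟩
  | push i b => exact ⟨i + 1, Nat.lt_succ_self i⟩
  | pop i => exact ⟨i + 1, Nat.lt_succ_self i⟩
  | seq c d hc hd =>
    obtain ⟨N, hN⟩ := hc
    obtain ⟨N', hN'⟩ := hd
    exact ⟨max N N', hN.mono (le_max_left _ _), hN'.mono (le_max_right _ _)⟩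
  | branch i e f t he hf ht =>
    obtain ⟨N, hN⟩ := he
    obtain ⟨N', hN'⟩ := hf
    obtain ⟨N'', hN''⟩ := ht
    refine ⟨max (i + 1) (max N (max N' N'')), ?_, hN.mono ?_, hN'.mono ?_, hN''.mono ?_⟩
    · exact lt_of_lt_of_le (Nat.lt_succ_self i) (le_max_left _ _)
    · exact le_max_of_le_right (le_max_left _ _)
    · exact le_max_of_le_right (le_max_of_le_right (le_max_left _ _))
    · exact le_max_of_le_right (le_max_of_le_right (le_max_right _ _))
  | ask i y n hy hn =>
    obtain ⟨N, hN⟩ := hy
    obtain ⟨N', hN'⟩ := hn
    refine ⟨max (i + 1) (max N N'), ?_, hN.mono ?_, hN'.mono ?_⟩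
    · exact lt_of_lt_of_le (Nat.lt_succ_self i) (le_max_left _ _)
    · exact le_max_of_le_right (le_max_left _ _)
    · exact le_max_of_le_right (le_max_right _ _)
  | loop i c hc =>
    obtain ⟨N, hN⟩ := hc
    refine ⟨max (i + 1) N, ?_, hN.mono (le_max_right _ _)⟩
    exact lt_of_lt_of_le (Nat.lt_succ_self i) (le_max_left _ _)

/-- `Clean` with a larger work area. -/
theorem clean_area {S : Set (Set Str)} {F : Set Str → Str → Str} (h : Clean S F) :
    ∃ (N₀ : ℕ) (q : Polynomial ℕ), 2 ≤ N₀ ∧ ∀ d : ℕ, ∃ c : Cmd, ∀ B ∈ S, ∀ s : Store,
      (∀ j, d < j → s j = []) →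
      ExecLe B c s (q.eval (s d).length)
        (Function.update (Function.update s d []) (d + 1) (F B (s d))) := by
  obtain ⟨N₀, q, h1, h2⟩ := h
  refine ⟨N₀, q, h1, fun d => ?_⟩
  obtain ⟨c, hc⟩ := h2 d
  exact ⟨c, fun B hB s hs => hc B hB s fun j hj _ => hs j (by omega)⟩

/-- A clean program with base 2 computes the function in the sense of `FP`. -/
theorem Clean.fp {S : Set (Set Str)} {F : Set Str → Str → Str} (h : Clean S F) : FP S F := by
  obtain ⟨N₀, q, h1, h2⟩ := h
  obtain ⟨c, hc⟩ := h2 2
  refine ⟨c, q, fun B hB z => ?_⟩
  obtain ⟨m, hm, hc⟩ := hc B hB (init [] [] z) (fun j hj _ => by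
    unfold init
    rw [if_neg (by omega), if_neg (by omega), if_neg (by omega)])
  have h3 : (init [] [] z) 2 = z := rfl
  rw [h3] at hm
  rw [out_of_exec hc hm, Function.update_self, h3]

/-- Values of functions in `FP` have polynomially bounded length. -/
theorem FP.length {S : Set (Set Str)} {F : Set Str → Str → Str} (h : FP S F) :
    ∃ r : Polynomial ℕ, ∀ B ∈ S, ∀ x, (F B x).length ≤ r.eval x.length := by
  obtain ⟨M, q, hq⟩ := h
  refine ⟨Polynomial.X + q, fun B hB x => ?_⟩
  have h1 := hq B hB x
  have h2 := length_iterate (B := B) (c := ([M], init [] [] x)) (L := x.length)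
    (fun i => (length_init [] [] x i).trans (by simp)) (q.eval x.length) 3
  unfold out at h1
  split_ifs at h1 with h0
  rw [Option.some.injEq] at h1
  rw [h1] at h2
  simpa using h2

theorem FP.mono {S S' : Set (Set Str)} {F : Set Str → Str → Str} (h : FP S F) (hS : S' ⊆ S) :
    FP S' F := by
  obtain ⟨M, q, hq⟩ := h
  exact ⟨M, q, fun B hB z => hq B (hS hB) z⟩

theorem FP.congr {S : Set (Set Str)} {F G : Set Str → Str → Str} (h : FP S F)
    (hFG : ∀ B ∈ S, ∀ x, F B x = G B x) : FP S G := by
  obtain ⟨M, q, hq⟩ := h
  exact ⟨M, q, fun B hB z => by rw [hq B hB z, hFG B hB z]⟩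

/-- Program which uses only stacks `0, 1, 2, 3` in the start: the output of `out`. -/
theorem init_apply (p y z : Str) (i : ℕ) : init p y z i =
    if i = 0 then p else if i = 1 then y else if i = 2 then z else [] := rfl

end Pool.GL
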