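import Pool.Agent.Work.OracleCmd_h91.Progs
import Pool.Agent.Work.OracleCmd_h91.Strings
import Pool.Agent.Work.MP_af7a01_h91.Inst
import Pool.Agent.Work.MP_af7a01_sep.Cpx

/-!
# Polynomial time functions of the stack program model (MP_af7a01_lc, GapLaw)

Model of computation: `Pool/Agent/Work/OracleCmd_h91/Cmd.lean` (programs `Cmd` on stacks of bits).
-/

open Classical Pool.IC

namespace Pool.GL

/-- `F` is computed in polynomial time by one program for all oracles in the set `S`:
input on stack 2, all other stacks empty, output on stack 3. -/
def FP (S : Set (Set Str)) (F : Set Str → Str → Str) : Prop :=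
  ∃ (M : Cmd) (q : Polynomial ℕ), ∀ B ∈ S, ∀ z : Str,
    out B M [] [] z (q.eval z.length) = some (F B z)

/-- Clean form: for every base `d` there is a program with input on stack `d` (consumed), output
on stack `d + 1`, work stacks `d + 1, .., d + N - 1` empty before, and after except for the
output; all other stacks are arbitrary and do not change. -/
def Clean (S : Set (Set Str)) (F : Set Str → Str → Str) : Prop :=
  ∃ (N : ℕ) (q : Polynomial ℕ), 2 ≤ N ∧ ∀ d : ℕ, ∃ c : Cmd, ∀ B ∈ S, ∀ s : Store,
    (∀ j, d + 1 ≤ j → j < d + N → s j = []) →
    ExecLe B c s (q.eval (s d).length)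
      (Function.update (Function.update s d []) (d + 1) (F B (s d)))

/-- All stacks mentioned in the program have numbers `< N`. -/
def Uses (N : ℕ) : Cmd → Prop
  | Cmd.skip => True
  | Cmd.push i _ => i < N
  | Cmd.pop i => i < N
  | Cmd.seq c d => Uses N c ∧ Uses N d
  | Cmd.branch i e f t => i < N ∧ Uses N e ∧ Uses N f ∧ Uses N t
  | Cmd.ask i y n => i < N ∧ Uses N y ∧ Uses N n
  | Cmd.loop i c => i < N ∧ Uses N c

/-- Shift all stack numbers by `d`. -/
def sh (d : ℕ) : Cmd → Cmd
  | Cmd.skip => Cmd.skip
  | Cmd.push i b => Cmd.push (i + d) b
  | Cmd.pop i => Cmd.pop (i + d)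
  | Cmd.seq c e => Cmd.seq (sh d c) (sh d e)
  | Cmd.branch i e f t => Cmd.branch (i + d) (sh d e) (sh d f) (sh d t)
  | Cmd.ask i y n => Cmd.ask (i + d) (sh d y) (sh d n)
  | Cmd.loop i c => Cmd.loop (i + d) (sh d c)

/-- Pairs of strings (self-delimiting first component; `mark w` has a `true` before every bit). -/
def pr (a b : Str) : Str := mark a ++ false :: b

/-- First component (defined on all strings). -/
def fs : Str → Str
  | [] => []
  | false :: _ => []
  | true :: [] => []
  | true :: x :: l => x :: fs l

/-- Second component (defined on all strings). -/
def sn : Str → Str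
  | [] => []
  | false :: l => l
  | true :: [] => []
  | true :: _ :: l => sn l

theorem fs_pr (a b : Str) : fs (pr a b) = a := by
  unfold pr
  induction a with
  | nil => simp [mark, fs]
  | cons x a ih => rw [mark_cons]; simp only [List.cons_append, fs, ih]

theorem sn_pr (a b : Str) : sn (pr a b) = b := by
  unfold pr
  induction a with
  | nil => simp [mark, sn]
  | cons x a ih => rw [mark_cons]; simp only [List.cons_append, sn, ih]

theorem length_pr (a b : Str) : (pr a b).length = 2 * a.length + b.length + 1 := by
  simp [pr, length_mark]; omega

theorem length_fs : ∀ x : Str, (fs x).length ≤ x.length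
  | [] => by simp [fs]
  | false :: _ => by simp [fs]
  | true :: [] => by simp [fs]
  | true :: x :: l => by simp only [fs, List.length_cons]; have := length_fs l; omega

theorem length_sn : ∀ x : Str, (sn x).length ≤ x.length
  | [] => by simp [sn]
  | false :: _ => by simp [sn]
  | true :: [] => by simp [sn]
  | true :: x :: l => by simp only [sn, List.length_cons]; have := length_sn l; omega

theorem length_fs_lt : ∀ x : Str, x ≠ [] → (fs x).length < x.length
  | [], h => absurd rfl h
  | false :: _, _ => by simp [fs]
  | true :: [], _ => by simp [fs]
  | true :: x :: l, _ => by simp only [fs, List.length_cons]; have := length_fs l; omega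

theorem length_sn_lt : ∀ x : Str, x ≠ [] → (sn x).length < x.length
  | [], h => absurd rfl h
  | false :: _, _ => by simp [sn]
  | true :: [], _ => by simp [sn]
  | true :: x :: l, _ => by simp only [sn, List.length_cons]; have := length_sn l; omega

/-- Case distinction on a string. -/
def cas (x e f t : Str) : Str :=
  match x with
  | [] => e
  | false :: _ => f
  | true :: _ => t

/-- Lists of strings as strings. -/
def el : List Str → Str
  | [] => []
  | a :: l => true :: pr a (el l)

/-- First entry of an encoded list (empty string if there is none). -/
def hdl (x : Str) : Str := fs x.tail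

/-- The remaining entries of an encoded list. -/
def tll (x : Str) : Str := sn x.tail

theorem hdl_cons (a : Str) (l : List Str) : hdl (el (a :: l)) = a := fs_pr a (el l)
theorem tll_cons (a : Str) (l : List Str) : tll (el (a :: l)) = el l := sn_pr a (el l)
theorem hdl_nil : hdl (el []) = [] := rfl
theorem tll_nil : tll (el []) = [] := rfl
theorem hdl_el (l : List Str) : hdl (el l) = l.headD [] := by
  cases l with
  | nil => rfl
  | cons a l => exact hdl_cons a l
theorem tll_el (l : List Str) : tll (el l) = el l.tail := by
  cases l with
  | nil => rfl
  | cons a l => exact tll_cons a l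
theorem length_el_cons (a : Str) (l : List Str) :
    (el (a :: l)).length = 2 * a.length + 2 + (el l).length := by
  rw [el, List.length_cons, length_pr]; omega

/-- The store given by a list of stacks. -/
def sto (L : List Str) : Store := fun i => L.getD i []

/-- Replace entry `i` of a list by `v` (the list is extended by empty entries if necessary). -/
def setL (v : Str) : ℕ → List Str → List Str
  | 0, [] => [v]
  | 0, _ :: l => v :: l
  | i + 1, [] => [] :: setL v i []
  | i + 1, a :: l => a :: setL v i l

/-- Optional strings as strings. -/
def opt : Option Str → Str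
  | none => []
  | some o => true :: o

/-- First bit (`false` for the empty string). -/
def hdb : Str → Bool
  | [] => false
  | b :: _ => b

/-- Every string is the code of a program. -/
def dec : Str → Cmd
  | false :: false :: true :: r => Cmd.push (fs r).length (hdb (sn r))
  | false :: true :: false :: r => Cmd.pop r.length
  | false :: true :: true :: r => Cmd.seq (dec (fs r)) (dec (sn r))
  | true :: false :: false :: r =>
      Cmd.branch (fs r).length (dec (fs (sn r))) (dec (fs (sn (sn r)))) (dec (sn (sn (sn r))))
  | true :: false :: true :: r => Cmd.ask (fs r).length (dec (fs (sn r))) (dec (sn (sn r)))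
  | true :: true :: false :: r => Cmd.loop (fs r).length (dec (sn r))
  | _ => Cmd.skip
termination_by x => x.length
decreasing_by
  all_goals simp only [List.length_cons]
  · have := length_fs r; omega
  · have := length_sn r; omega
  · have := length_fs (sn r); have := length_sn r; omega
  · have := length_fs (sn (sn r)); have := length_sn (sn r); have := length_sn r; omega
  · have := length_sn (sn (sn r)); have := length_sn (sn r); have := length_sn r; omega
  · have := length_fs (sn r); have := length_sn r; omega
  · have := length_sn (sn r); have := length_sn r; omega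
  · have := length_sn r; omega

/-- A code of a program. -/
def code : Cmd → Str
  | Cmd.skip => []
  | Cmd.push i b => false :: false :: true :: pr (List.replicate i true) [b]
  | Cmd.pop i => false :: true :: false :: List.replicate i true
  | Cmd.seq c d => false :: true :: true :: pr (code c) (code d)
  | Cmd.branch i e f t => true :: false :: false ::
      pr (List.replicate i true) (pr (code e) (pr (code f) (code t)))
  | Cmd.ask i y n => true :: false :: true :: pr (List.replicate i true) (pr (code y) (code n))
  | Cmd.loop i c => true :: true :: false :: pr (List.replicate i true) (code c)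

/-- One step of the computation on lists of codes and lists of stacks. -/
noncomputable def stepL (B : Set Str) : List Str × List Str → List Str × List Str
  | ([], L) => ([], L)
  | ((false :: false :: true :: r) :: K, L) =>
      (K, setL (hdb (sn r) :: L.getD (fs r).length []) (fs r).length L)
  | ((false :: true :: false :: r) :: K, L) => (K, setL (L.getD r.length []).tail r.length L)
  | ((false :: true :: true :: r) :: K, L) => (fs r :: sn r :: K, L)
  | ((true :: false :: false :: r) :: K, L) =>
      ((match L.getD (fs r).length [] with
        | [] => fs (sn r)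
        | false :: _ => fs (sn (sn r))
        | true :: _ => sn (sn (sn r))) :: K, L)
  | ((true :: false :: true :: r) :: K, L) =>
      ((if L.getD (fs r).length [] ∈ B then fs (sn r) else sn (sn r)) :: K, L)
  | ((true :: true :: false :: r) :: K, L) =>
      if L.getD (fs r).length [] = [] then (K, L)
      else (sn r :: (true :: true :: false :: r) :: K, L)
  | (_ :: K, L) => (K, L)

/-- The enumeration of all strings, least significant bit first. -/
def idx : Str → ℕ
  | [] => 0
  | false :: l => 2 * idx l + 1
  | true :: l => 2 * idx l + 2

/-- The next string. -/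
def inc : Str → Str
  | [] => [false]
  | false :: l => true :: l
  | true :: l => false :: inc l

/-- The `n`-th string. -/
def str (n : ℕ) : Str := inc^[n] []

/-- The unary string of length `n`. -/
abbrev un (n : ℕ) : Str := List.replicate n true

/-- The program number `i` is refuted at stage `n`: on one of the first `n` strings it halts in
time `t` with a nonempty output different from the output of `M`, or does not halt in time `t`,
where `M` halts within `n` steps. -/
def Ref (U : Interpreter) (B : Set Str) (M : Cmd) (t : Polynomial ℕ) (n i : ℕ) : Prop :=
  ∃ l < n, ∃ o, out B M [] [] (str l) n = some o ∧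
    U.run B (str i) [] (str l) (t.eval (str l).length) ≠ some o ∧
    U.run B (str i) [] (str l) (t.eval (str l).length) ≠ some []

/-- Number of the first program which is not refuted at stage `|z|` and whose run on `z` is not
an empty output (`|z|` if there is none below `|z|`). -/
noncomputable def gg (U : Interpreter) (B : Set Str) (M : Cmd) (t : Polynomial ℕ) (z : Str) : ℕ :=
  Nat.find (⟨z.length, Or.inl rfl⟩ : ∃ i, i = z.length ∨
    (¬ Ref U B M t z.length i ∧ U.run B (str i) [] z (t.eval z.length) ≠ some []))

/-- The record process of the sequence `j` below the bound `m`: (largest value so far, number of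
records so far, position of the last record, stopped?), after the entries `0, .., n`. -/
def rp (j : ℕ → ℕ) (m : ℕ) : ℕ → ℕ × ℕ × ℕ × Bool
  | 0 => (0, 0, 0, false)
  | n + 1 =>
    if (rp j m n).2.2.2 = true then rp j m n
    else if m < j (n + 1) then ((rp j m n).1, (rp j m n).2.1, (rp j m n).2.2.1, true)
    else if (rp j m n).1 < j (n + 1) then (j (n + 1), (rp j m n).2.1 + 1, n + 1, false)
    else rp j m n

/-- The values of `|J|` along the enumeration of the strings. -/
def jj (J : Str → Str) (n : ℕ) : ℕ := (J (str n)).length

/-- The diagonal set of `J`. -/
def dA (U : Interpreter) (B : Set Str) (J : Str → Str) : Set Str :=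
  {z | U.run B (str (rp (jj J) (J z).length (2 ^ (z.length + 1))).2.1) []
      (str (rp (jj J) (J z).length (2 ^ (z.length + 1))).2.2.1)
      ((rp (jj J) (J z).length (2 ^ (z.length + 1))).2.2.1 + 1) ≠ some [true]}

/-! ### The statements -/

/-- An interpreter is effective if its runs can be simulated in polynomial time: one polynomial
time program computes, for every oracle `B`, from a string `w` (of length `n`), the program `p`
and the inputs `y`, `z` the output of the first `n` steps of the run of `p` on `y, z`. -/
def Effective (U : Interpreter) : Prop :=
  ∃ R : Set Str → Str → Str, FP Set.univ R ∧ ∀ (B : Set Str) (p y z w : Str),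
    R B (pr w (pr p (pr y z))) = opt (U.run B p y z w.length)

/-- `h` is computable relative to `B` (in unary notation). -/
def Computes (B : Set Str) (h : ℕ → ℕ) : Prop :=
  ∃ M : Cmd, ∀ n, ∃ s, out B M [] [] (un n) s = some (un (h n))

/-- `A` is decidable in time `2 ^ O(n)` relative to `B`. -/
def InE (B A : Set Str) : Prop := ∃ c : ℕ, InTime B (fun n => 2 ^ (c * n + c)) A

/-- `f` is a polynomial time computable function relative to `B` whose values have unbounded
length. -/
def UnbFP (B : Set Str) (f : Str → Str) : Prop :=
  FP {B} (fun _ => f) ∧ ∀ K : ℕ, ∃ z, K ≤ (f z).length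

/-- Q1 with the family `D` in place of the complexities `CD^{t'}`. -/
def Q1for (U : Interpreter) (B : Set Str) {ι : Type} (D : ι → Str → ℕ∞) : Prop :=
  ∀ A : Set Str, DecidableIn B A → ¬ InP B A → ∀ t : Polynomial ℕ, ∃ (i : ι) (c : ℕ),
    {x | D i x ≤ ic U B (fun n => t.eval n) x A + c}.Infinite

/-- Weakest form: some computable function of the instance complexity bounds `D` from above,
infinitely often, for the sets in E. -/
def Weakest (U : Interpreter) (B : Set Str) {ι : Type} (D : ι → Str → ℕ∞) : Prop :=
  ∃ h : ℕ → ℕ, Computes B h ∧ ∀ A : Set Str, InE B A → ¬ InP B A → ∀ t : Polynomial ℕ,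
    ∃ i : ι, {x | ∀ k : ℕ, ic U B (fun n => t.eval n) x A = k → D i x ≤ h k}.Infinite

/-- Strongest form: the instance complexity is larger than every computable function of `D`,
infinitely often, for all decidable sets. -/
def Strongest (U : Interpreter) (B : Set Str) {ι : Type} (D : ι → Str → ℕ∞) : Prop :=
  ∀ h : ℕ → ℕ, Computes B h → ∀ A : Set Str, DecidableIn B A → ¬ InP B A →
    ∀ t : Polynomial ℕ, ∃ i : ι,
      {x | ∃ k : ℕ, D i x = k ∧ (h k : ℕ∞) ≤ ic U B (fun n => t.eval n) x A}.Infinite

/-- No unbounded polynomial time computable function is almost everywhere a lower bound of all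
`D i`. -/
def NoBound (B : Set Str) {ι : Type} (D : ι → Str → ℕ∞) : Prop :=
  ∀ f : Str → Str, UnbFP B f → ∃ i : ι, {x | D i x < ((f x).length : ℕ∞)}.Infinite

/-- Finite sublevel sets. -/
def FinSub {ι : Type} (D : ι → Str → ℕ∞) : Prop := ∀ (i : ι) (K : ℕ), {x | D i x ≤ (K : ℕ∞)}.Finite

/-- Co-nondeterministic distinguishing complexity: least length of a program `p` such that for
every `z` all runs of `U` on `p`, witness `w` and input `z`, `|w| ≤ t |z|`, halt within `t |z|`
steps, and `z = x` iff all of them accept. -/
noncomputable def coCD (U : Interpreter) (B : Set Str) (t : ℕ → ℕ) (x : Str) : ℕ∞ :=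
  ⨅ p ∈ {p : Str | ∀ z : Str,
      (∀ w : Str, w.length ≤ t z.length → ∃ o, U.run B p w z (t z.length) = some o) ∧
      (z = x ↔ ∀ w : Str, w.length ≤ t z.length → U.run B p w z (t z.length) = some [true])},
    (p.length : ℕ∞)

end Pool.GL
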