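import Pool.Agent.Work.MP_af7a01_gl.Base

/-!
# MP_af7a01_lc, GapLaw, PART A: the class FP, clocked universal simulation

Block `X`: file `Pool/Agent/Work/MP_af7a01_gl/B_X.lean`, `import ...MP_af7a01_gl.InterfaceA`,
`open Classical Pool.IC`, `namespace Pool.GL`, `theorem p_X (hY : Stmt_Y) .. : Stmt_X` with exactly
the blocks of the column `uses` (in this order) as hypotheses; auxiliary lemmas with prefix `X_`.
Useful: `Base.lean` (`mv_spec`, `mvv_spec`, `mvo_spec` = move keeping the order, `cpo_spec` = copy,
`clr_spec`, `clrs_spec`, `eval_mono`, `FP.length`, `FP.congr`, `FP.mono`, `clean_area`,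
`Clean.fp`), `OracleCmd_h91/Exec.lean` (`out_of_exec`, `out_mono`, `out_det`, `length_iterate`),
`OracleCmd_h91/Progs.lean` (`ExecLe.seq`, `ExecLe.branch_nil`, `ExecLe.branch_cons`,
`ExecLe.loop_nil`, `ExecLe.loop_step`, `ExecLe.mono`), `push_spec`, `pop_spec`, `ask_spec`.
-/

open Classical Pool.IC

namespace Pool.GL

/-- HLT (80). If the program started alone halts within `n` steps, it is an execution in the sense
of `Exec` (with every continuation `k`) of length `m ≤ n`.
Proof. (i) `step B (K ++ k, s) = ((step B (K, s)).1 ++ k, (step B (K, s)).2)` for `K ≠ []` (cases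
on the head of `K`). (ii) Let `m` be least with `((step B)^[m] ([c], s)).1 = []` (`Nat.find`,
`m ≤ n`). For `i ≤ m`, by induction, `(step B)^[i] (c :: k, s)` is
`((step B)^[i] ([c], s)).1 ++ k` with the same store (for `i < m` the first component is not `[]`,
use (i)). (iii) `(step B)^[n] ([c], s) = (step B)^[m] ([c], s)` by `halted_mono`. -/
def Stmt_HLT : Prop := ∀ (B : Set Str) (c : Cmd) (s : Store) (n : ℕ),
  ((step B)^[n] ([c], s)).1 = [] → ∃ m ≤ n, Exec B c s m ((step B)^[n] ([c], s)).2

/-- SHF (120). Shifting and locality: a program which mentions only stacks `< N`, shifted by `d`,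
run on a store `S` whose stacks `d, .., d + N - 1` are the stacks `0, .., N - 1` of `s`.
Proof. Let `m` be least with `((step B)^[m] ([c], s)).1 = []` (exists, `m ≤ n`, by the hypothesis
`Exec` with `k = []`). `m = n`: by (i), (ii) of HLT with `k = [Cmd.skip]`,
`(step B)^[m] (c :: [skip], s) = ([skip], _)`, and if `m < n` then
`(step B)^[n] (c :: [skip], s)` would be `([], _)`, contradicting `Exec` with `k = [skip]`.
Simulation: if `K` is a nonempty list of programs with `Uses N`, and `T` is a store with
`T (i + d) = s₁ i` for `i < N` and `T j = S j` for `j` outside `[d, d + N)`, then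
`step B (K.map (sh d) ++ k, T) = (K'.map (sh d) ++ k, T')` where `(K', s₁') = step B (K, s₁)`, all
members of `K'` satisfy `Uses N`, and `T'` is related to `s₁'` in the same way (cases on the head
of `K`). Induct on `i ≤ n`. -/
def Stmt_SHF : Prop := ∀ (B : Set Str) (c : Cmd) (N d n : ℕ) (s S s' : Store), Uses N c →
  (∀ i < N, S (i + d) = s i) → Exec B c s n s' →
  Exec B (sh d c) S n (fun j => if d ≤ j ∧ j < d + N then s' (j - d) else S j)

/-- TOC (150), uses HLT, SHF. From `FP` to `Clean`.
Proof. `M, q` from `FP`; `exists_uses M`, enlarge to `N' ≥ 4` (`Uses.mono`). Take `N = N' + 2` and,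
for the base `d`, the program `mv d (d+1); mv (d+1) (d+4); sh (d+2) M; mvo (d+5) d (d+1);
clrs (d+2) N'`. Start: stack `d` is `x`, the stacks `d+1, .., d+N-1` are empty. After the two moves
stack `d+4 = 2 + (d+2)` is `x` (moved twice, so in the right order), stack `d` is `[]`. So the
stacks `i + (d+2)`, `i < N'`, agree with `init [] [] x` and HLT (for `out B M [] [] x (q |x|)`,
unfold `out`) and SHF apply: stack `d+5 = 3 + (d+2)` becomes `F B x`, stacks `d`, `d+1` are empty
(outside of the shifted area). Then `mvo (d+5) d (d+1)` (temporary stack `d`) puts `F B x` on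
`d+1`, and the area `d+2, .., d+N'+1` is cleared. The result is
`update (update s d []) (d+1) (F B x)` (the area was empty in `s`). Time: all contents have length
`≤ |x| + q |x|` (`length_iterate`), so `10 |x| + 10 + q|x| + 10 (|x| + q|x|) + 10 +
(2 (|x| + q|x|) + 2) N' + 10` suffices, a polynomial in `|x|` (build it with `Polynomial.X`, `C`). -/
def Stmt_TOC : Prop := ∀ (S : Set (Set Str)) (F : Set Str → Str → Str), FP S F → Clean S F

/-- CMP (80), uses TOC. Composition. Proof. `Clean S F` with base 2, `Clean S G` with base 3 (the
output stack 3 of the first is the input stack of the second; all stacks `> 3` are empty), then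
`mvo 4 5 3`, `out_of_exec`. Time `q_F |x| + q_G (|F B x|) + 10 |G B (F B x)| + 10`, with
`FP.length` and `eval_mono` a polynomial in `|x|` (`Polynomial.comp`). -/
def Stmt_CMP : Prop := ∀ (S : Set (Set Str)) (F G : Set Str → Str → Str), FP S F → FP S G →
  FP S (fun B x => G B (F B x))

/-- PAI (150), uses TOC. Pairs. Proof. Start: `z` on stack 2. `cpo 2 3 0` (copy `z` to stack 0);
`F` with base 2 (stack 2 empty, stack 3 = `F B z`); `mv 3 1` (stack 1 = reverse of `F B z`);
`mvo 0 3 2` (`z` back on stack 2); `G` with base 2 (stack 3 = `G B z`); `push 3 false`; then the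
loop `loop 1 (branch 1 skip (pop 1; push 3 false; push 3 true) (pop 1; push 3 true; push 3 true))`
which puts `mark (F B z)` in front: after popping `l` from stack 1, stack 3 is
`mark l.reverse ++ ...` (compare `mvMark_spec`). Stacks 0 and 1 are never in the work areas. -/
def Stmt_PAI : Prop := ∀ (S : Set (Set Str)) (F G : Set Str → Str → Str), FP S F → FP S G →
  FP S (fun B x => pr (F B x) (G B x))

/-- FST (80). Proof. Program: `loop 2 (branch 2 skip (clr 2) (pop 2; branch 2 skip (pop 2; push 4
false) (pop 2; push 4 true)))`, then `mv 4 3`. Invariant: stack 2 is `l`, stack 4 is `a`; at the end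
stack 4 is `(fs l).reverse ++ a` (induction along the definition of `fs`). -/
def Stmt_FST : Prop := ∀ S : Set (Set Str), FP S (fun _ x => fs x)

/-- SND (80). Proof. Program: `loop 2 (branch 2 skip (pop 2; mv 2 4) (pop 2; branch 2 skip (pop 2)
(pop 2)))`, then `mv 4 3`. -/
def Stmt_SND : Prop := ∀ S : Set (Set Str), FP S (fun _ x => sn x)

/-- BAS (80). Identity, constants, adding a bit, tail, oracle questions. Proof. Direct programs:
`mvo 2 4 3`; pushing the bits of `w` on stack 3 (recursion on `w`); `mvo 2 4 3; push 3 b`;
`pop 2; mvo 2 4 3`; `ask 2 (push 3 true) (push 3 false)`. -/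
def Stmt_BAS : Prop := ∀ S : Set (Set Str), FP S (fun _ x => x) ∧ (∀ w : Str, FP S (fun _ _ => w)) ∧
  (∀ b : Bool, FP S (fun _ x => b :: x)) ∧ FP S (fun _ x => x.tail) ∧
  FP S (fun B x => [decide (x ∈ B)])

/-- CAS (120), uses TOC. Case distinction. Proof. `cpo 2 3 0`; `f` with base 2 (stack 3 = `f B z`);
`branch 3` on its top: in each case `clr 3; mvo 0 3 2;` and then `g₀`, `g₁` or `g₂` with base 2. -/
def Stmt_CAS : Prop := ∀ (S : Set (Set Str)) (f g₀ g₁ g₂ : Set Str → Str → Str), FP S f →
  FP S g₀ → FP S g₁ → FP S g₂ → FP S (fun B x => cas (f B x) (g₀ B x) (g₁ B x) (g₂ B x))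

/-- FLD (250), uses TOC. Bounded recursion: `foldl` along the bits of `f B x`, start `h B x`, step
`g b`, if all intermediate values have polynomially bounded length.
Proof. `cpo 2 3 0` (copy `x` to stack 0); `f` with base 2; `mvo 3 4 1` (stack 1 = `f B x`);
`mvo 0 3 2`; `h` with base 2 (stack 3 = accumulator `a`); then
`loop 1 (branch 1 skip (pop 1; G0; mvo 4 5 3) (pop 1; G1; mvo 4 5 3))` with `Gb` the clean program
of `g b` with base 3. Invariant before each round: stack 1 = remaining bits `l'` with
`f B x = l ++ l'`, stack 3 = `foldl .. (h B x) l`, all other stacks empty. Time of a round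
`≤ q_b (r |x|) + 10 r' |x| + 20`, number of rounds `|f B x|`, bounded by a polynomial (`FP.length`). -/
def Stmt_FLD : Prop := ∀ (S : Set (Set Str)) (f h : Set Str → Str → Str)
  (g : Bool → Set Str → Str → Str), FP S f → FP S h → (∀ b, FP S (g b)) →
  (∃ r : Polynomial ℕ, ∀ B ∈ S, ∀ x l : Str, l <+: f B x →
    (l.foldl (fun a b => g b B a) (h B x)).length ≤ r.eval x.length) →
  FP S (fun B x => (f B x).foldl (fun a b => g b B a) (h B x))

/-- The closure properties of `FP` in one structure. -/
structure Lib : Prop where
  comp : ∀ {S : Set (Set Str)} {F G : Set Str → Str → Str}, FP S F → FP S G →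
    FP S (fun B x => G B (F B x))
  pair : ∀ {S : Set (Set Str)} {F G : Set Str → Str → Str}, FP S F → FP S G →
    FP S (fun B x => pr (F B x) (G B x))
  fst : ∀ {S : Set (Set Str)} {F : Set Str → Str → Str}, FP S F → FP S (fun B x => fs (F B x))
  snd : ∀ {S : Set (Set Str)} {F : Set Str → Str → Str}, FP S F → FP S (fun B x => sn (F B x))
  idn : ∀ {S : Set (Set Str)}, FP S (fun _ x => x)
  const : ∀ {S : Set (Set Str)} (w : Str), FP S (fun _ _ => w)
  cons : ∀ {S : Set (Set Str)} {F : Set Str → Str → Str} (b : Bool), FP S F →
    FP S (fun B x => b :: F B x)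
  tail : ∀ {S : Set (Set Str)} {F : Set Str → Str → Str}, FP S F → FP S (fun B x => (F B x).tail)
  ask : ∀ {S : Set (Set Str)} {F : Set Str → Str → Str}, FP S F →
    FP S (fun B x => [decide (F B x ∈ B)])
  cas : ∀ {S : Set (Set Str)} {f g₀ g₁ g₂ : Set Str → Str → Str}, FP S f →
    FP S g₀ → FP S g₁ → FP S g₂ → FP S (fun B x => cas (f B x) (g₀ B x) (g₁ B x) (g₂ B x))
  fold : ∀ {S : Set (Set Str)} {f h : Set Str → Str → Str} {g : Bool → Set Str → Str → Str},
    FP S f → FP S h → (∀ b, FP S (g b)) →
    (∃ r : Polynomial ℕ, ∀ B ∈ S, ∀ x l : Str, l <+: f B x →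
      (l.foldl (fun a b => g b B a) (h B x)).length ≤ r.eval x.length) →
    FP S (fun B x => (f B x).foldl (fun a b => g b B a) (h B x))

/-- LIB (30), uses CMP, PAI, FST, SND, BAS, CAS, FLD. Assembly (`CMP` composes `fs` etc. with `F`). -/
def Stmt_LIB : Prop := Lib

/-- TLS (150), uses LIB. Tools for conditions and lengths.
(1) Boolean connectives on one-bit strings; if-then-else on a one-bit string: use `Lib.cas`.
(2) equality of strings: `foldl` over the bits of `a` with state `pr rest flag` (rest of `b`, flag
`[true]` while equal): step `b`: if the head of rest is the bit then pop, else flag := `[false]`;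
at the end: flag and rest empty. (3) `|a| < |b|`: `foldl` over `a` with `tail` starting from `b`,
then test nonempty. (4) `drop`: the same. (5) reverse, append: `foldl` with `cons`. (6) half:
`un (x.length / 2)`: `foldl` with state `c :: acc`, toggling `c` and adding a bit every second
time. (7) `un x.length`. (8) `replicate |a| false ++ b`. All length bounds for `Lib.fold` are
linear: `|state| ≤ 4 |x| + 4` or so. -/
def Stmt_TLS : Prop := ∀ S : Set (Set Str),
  (∀ F G : Set Str → Str → Prop, FP S (fun B x => [decide (F B x)]) →
    FP S (fun B x => [decide (G B x)]) →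
    FP S (fun B x => [decide (F B x ∧ G B x)]) ∧ FP S (fun B x => [decide (F B x ∨ G B x)]) ∧
    FP S (fun B x => [decide (¬ F B x)])) ∧
  (∀ (F : Set Str → Str → Prop) (G H : Set Str → Str → Str), FP S (fun B x => [decide (F B x)]) →
    FP S G → FP S H → FP S (fun B x => if F B x then G B x else H B x)) ∧
  (∀ F G : Set Str → Str → Str, FP S F → FP S G →
    FP S (fun B x => [decide (F B x = G B x)]) ∧
    FP S (fun B x => [decide ((F B x).length < (G B x).length)]) ∧
    FP S (fun B x => (F B x).drop (G B x).length) ∧
    FP S (fun B x => F B x ++ G B x) ∧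
    FP S (fun B x => (F B x).reverse) ∧
    FP S (fun B x => un ((F B x).length / 2)) ∧
    FP S (fun B x => un (F B x).length) ∧
    FP S (fun B x => List.replicate (F B x).length false ++ G B x))

/-- UNA (120), uses LIB, TLS. Polynomials in unary. Proof. The set of `f : ℕ → ℕ` such that
`FP S (fun B x => un (f (F B x).length))` for all `F` in `FP S` contains constants and the identity,
and is closed under sums (append) and products (`foldl` over `un (f n)` with step
`acc ↦ un (g n) ++ acc`; the string `un (g n)` is carried along in the state as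
`pr (un (g n)) acc`). `Polynomial.induction_on'` (sums and monomials `a X^k`, induction on `k`). -/
def Stmt_UNA : Prop := ∀ (S : Set (Set Str)) (t : Polynomial ℕ) (F : Set Str → Str → Str),
  FP S F → FP S (fun B x => un (t.eval (F B x).length))

/-- IDX (80). The enumeration of strings. Proof. `idx (inc x) = idx x + 1` by recursion on `x`;
`idx` is injective (parity), so `str (idx x) = x`; `2 ^ |x| ≤ idx x + 1 < 2 ^ (|x| + 1)` by
induction; monotonicity of the length from these two inequalities. -/
def Stmt_IDX : Prop := (∀ n, idx (str n) = n) ∧ (∀ x, str (idx x) = x) ∧ (∀ n, str (n + 1) = inc (str n)) ∧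
  (∀ x : Str, 2 ^ x.length ≤ idx x + 1 ∧ idx x + 1 < 2 ^ (x.length + 1)) ∧
  (∀ x y : Str, idx x ≤ idx y → x.length ≤ y.length) ∧ (∀ n, (str n).length ≤ n)

/-- INC (80), uses LIB, TLS. The next string. Proof. `foldl` over the bits of `x` with state
`c :: acc` (`c` the carry, start `[true]`): if `c` is `true` and the bit is `true`: new state
`true :: false :: acc`; `c = true`, bit `false`: `false :: true :: acc`; `c = false`:
`false :: bit :: acc`. `acc` is the reversed output; at the end, if `c = true` add a last (most
significant) bit `false`: `inc x = (if c then false :: acc else acc).reverse`. -/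
def Stmt_INC : Prop := ∀ (S : Set (Set Str)) (F : Set Str → Str → Str), FP S F →
  FP S (fun B x => inc (F B x))

/-- LTC (120), uses LIB, TLS, IDX. Comparison of numbers of strings: if the lengths differ, compare
the lengths (`IDX`), otherwise the last differing bit decides (least significant bit first): `foldl`
over the bits of `a` with state `pr rest res`, `rest` the rest of `b`: if the bit differs from the
head of `rest` then `res := [head of rest]` (`true` iff the bit of `a` is `false`), pop `rest`. -/
def Stmt_LTC : Prop := ∀ (S : Set (Set Str)) (F G : Set Str → Str → Str), FP S F → FP S G →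
  FP S (fun B x => [decide (idx (F B x) < idx (G B x))])

/-- FIN (80), uses LIB, TLS. Finitely many changes. Proof. Induction on the finite set: change the
value at one string `w` to `v`: `if x = w then v else f x` (TLS equality with the constant `w`). -/
def Stmt_FIN : Prop := ∀ (B : Set Str) (f g : Str → Str), FP {B} (fun _ => f) →
  {x | f x ≠ g x}.Finite → FP {B} (fun _ => g)

/-- LST (180), uses LIB, TLS. Access to encoded lists. The index is the length of a string `w`.
Proof. GET: `hdl` after `foldl` over `w` with step `tll` starting with the list (`hdl_el`, `tll_el`: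
`tll (el l) = el l.tail`; iterate: `el (l.drop i)`, `(l.drop i).headD [] = l.getD i []`).
SET: phase 1: `foldl` over `w` with state `pr rev rest` (encoded lists):
`pr (true :: pr (hdl rest) rev) (tll rest)`; phase 2: start `pr rev (true :: pr v (tll rest))`,
`foldl` over `w`: `pr (tll rev) (true :: pr (hdl rev) acc)`; result: second component. Lemma: this
is `setL v i L` (induction on `i`; generalize `rev`). Length bounds: in phase 1
`|rev| + |rest| ≤ |input| + 2 |w|`, in phase 2 the same plus `2 |v| + 2`. The functions must be in
`FP` on all strings: for arbitrary `x` use `w = fs x`, `v = fs (sn x)`, list `sn (sn x)`; the bound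
holds for all strings: prove first `2 * (fs a).length + (sn a).length ≤ a.length` for all `a`,
hence `2 * (hdl y).length + (tll y).length ≤ y.length`. -/
def Stmt_LST : Prop := (∃ GET : Set Str → Str → Str, FP Set.univ GET ∧
    ∀ B w L, GET B (pr w (el L)) = L.getD w.length []) ∧
  ∃ SET : Set Str → Str → Str, FP Set.univ SET ∧
    ∀ B w v L, SET B (pr w (pr v (el L))) = el (setL v w.length L)

/-- COD (60). Every program has a code. Proof. Induction on the program, `fs_pr`, `sn_pr`, `dec`
(well-founded recursion: `rw [dec]` or `simp [dec]`). -/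
def Stmt_COD : Prop := ∀ M : Cmd, dec (code M) = M

/-- STO (60). Stores and lists. Proof. Cases / induction on `i` and `L`. -/
def Stmt_STO : Prop := (∀ (v : Str) (i : ℕ) (L : List Str),
    sto (setL v i L) = Function.update (sto L) i v) ∧
  ∀ p y z : Str, sto [p, y, z] = init p y z

/-- STP (120), uses STO. The step on codes is the step on programs. Proof. Cases on `K` and the
first three bits of the head (follow the definition of `stepL`; `dec` of the head unfolds). -/
def Stmt_STP : Prop := ∀ (B : Set Str) (K L : List Str),
  step B (K.map dec, sto L) = ((stepL B (K, L)).1.map dec, sto (stepL B (K, L)).2)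

/-- STF (200), uses LIB, TLS, LST. The step on codes as a function in `FP`. Proof. For
`x = pr (el K) (el L)`: if the first component is empty return `x`; otherwise `c = hdl (fs x)`,
`k = tll (fs x)`, and case distinctions (`Lib.cas`, nested three times; an empty string at any of
the three positions gives the last case of `stepL`) on the bits of `c`, `r = c.tail.tail.tail`;
`L.getD i []` and `setL` by GET and SET; the oracle question by `Lib.ask`; the loop pushes
`sn r` and `c`. -/
def Stmt_STF : Prop := ∃ F : Set Str → Str → Str, FP Set.univ F ∧ ∀ B K L,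
  F B (pr (el K) (el L)) = pr (el (stepL B (K, L)).1) (el (stepL B (K, L)).2)

/-- BND (150). Growth of the configurations. Proof. Let `W = |el K| + |el L|`. Invariants after
`n` steps: every member of the first list has length `≤ W` (initially `2 |c| + 2 ≤ |el K|`; new
members are `fs r`, `sn r` or nested parts of `r`, or `c` itself); `|el K| + |el L|` grows by at
most `4 W + 8` in every step: at most two new codes (`2 (2 W + 2)`; if the member is removed the
length decreases), or `setL v i L` with `i ≤ W` and `|v| ≤ |old| + 1`: `|el (setL v i L)| ≤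
|el L| + 2 (i + 1) + 2` (lemma by induction: within the list the block grows by at most 2, beyond
the list at most `i + 1` new blocks, the empty ones of length 2, the last one of length `≤ 4`). -/
def Stmt_BND : Prop := ∀ (B : Set Str) (K L : List Str) (n : ℕ),
  (el ((stepL B)^[n] (K, L)).1).length + (el ((stepL B)^[n] (K, L)).2).length ≤
    (n + 1) * (4 * ((el K).length + (el L).length) + 8)

/-- RUN (180), uses LIB, TLS, LST, STO, STP, STF, BND. Clocked universal simulation. Proof. For a
string `x` put `w = fs x`, `c = fs (sn x)`, `p = fs (sn (sn x))`, `y = fs (sn (sn (sn x)))`,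
`z = sn (sn (sn (sn x)))`; start `pr (el [c]) (el [p, y, z])`; `foldl` over the bits of `w` with the
function of STF (bit ignored): the result is the encoded `(stepL B)^[|w|] ([c], [p, y, z])`, which
by STP, STO represents `(step B)^[|w|] ([dec c], init p y z)`. If its first component is empty
output `true :: (entry 3 of the second)` (GET with a constant index), otherwise `[]`. Bound for
`Lib.fold`: BND with `W ≤ 2 |c| + 2 |p| + 2 |y| + 2 |z| + 8 ≤ 8 |x| + 8` and `|l| ≤ |w| ≤ |x|`. -/
def Stmt_RUN : Prop := ∃ R : Set Str → Str → Str, FP Set.univ R ∧ ∀ (B : Set Str) (w c p y z : Str),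
  R B (pr w (pr c (pr p (pr y z)))) = opt (out B (dec c) p y z w.length)

/-- INT (120), uses LIB, COD, RUN. Effective interpreters. Proof. (1) `U.run B x y z n =
out B (dec (fs x)) (sn x) y z n`: `mono` is `out_mono`; `asks`: `queries` as in `ofCmd`, with
`|sn x| ≤ |x|`; `sim`: `e = mark (code M) ++ [false]`, `q = X`, `e ++ p = pr (code M) p`
(`fs_pr`, `sn_pr`, COD). Effective: compose RUN with
`x ↦ pr w (pr (fs p) (pr (sn p) (pr y z)))`, `w = fs x`, `p = fs (sn x)`, `y = fs (sn (sn x))`,
`z = sn (sn (sn x))`. (2) for a universal program `C`: RUN with the constant `code C` in place of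
`c`. (3) the same for every program `M`. -/
def Stmt_INT : Prop := (∃ U : Interpreter, Effective U) ∧
  (∀ (C : Cmd) (hC : ∀ M : Cmd, ∃ (e : Str) (q : Polynomial ℕ), ∀ (B : Set Str) (p y z : Str)
    (n : ℕ) (o : Str), out B M p y z n = some o → out B C (e ++ p) y z (q.eval n) = some o),
    Effective (ofCmd C hC)) ∧
  ∀ M : Cmd, ∃ R : Set Str → Str → Str, FP Set.univ R ∧ ∀ (B : Set Str) (p y z w : Str),
    R B (pr w (pr p (pr y z))) = opt (out B M p y z w.length)

/-- EXP (250), uses TOC. Exponential time. Proof. Program: `z` on stack 2. Clean program of `R` with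
base 2, but first build its input. (1) `mv 2 0` (stack 0 = reversed `z`); `push 4 true` twice
(stack 4 = `un 2`). (2) `loop 0 (branch 0 skip (pop 0; push 1 false; D) (pop 0; push 1 true; D))`
with `D = mvv 4 5 6; mv 5 4; mv 6 4` doubling stack 4. Then stack 1 = `z`, stack 4 =
`un (2 ^ (|z| + 1))`. (3) `mvo 1 5 2; push 2 false`; `loop 4 (pop 4; push 2 true; push 2 true)`:
stack 2 = `pr (un (2 ^ (|z| + 1))) z` (`mark (un n) = un (2 n)`). (4) the clean program: output
`chi A z` on stack 3. Time: rounds of (2): round `i` costs `≤ 40 * 2 ^ (i + 2)`, total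
`≤ 100 * 2 ^ (|z| + 3)`; `|pr ..| ≤ 2 ^ (|z| + 4)`; so the total is `≤ Q.eval (2 ^ (|z| + 4))` for a
polynomial `Q`, which is `≤ 2 ^ (c |z| + c)` for some `c` (`Q.eval m ≤ C m ^ k + C`). -/
def Stmt_EXP : Prop := ∀ (B : Set Str) (R : Str → Str) (A : Set Str), FP {B} (fun _ => R) →
  (∀ z : Str, R (pr (un (2 ^ (z.length + 1))) z) = chi A z) → InE B A

end Pool.GL
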