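import Pool.Agent.Work.MP_af7a01_gl.InterfaceA

/-!
# MP_af7a01_lc, GapLaw, PART B: the mathematics

Block `X`: file `Pool/Agent/Work/MP_af7a01_gl/B_X.lean`, `import ...MP_af7a01_gl.InterfaceB`,
`open Classical Pool.IC`, `namespace Pool.GL`, `theorem p_X (hY : Stmt_Y) .. : Stmt_X` with exactly
the blocks of the column `uses` (in this order) as hypotheses; auxiliary lemmas with prefix `X_`.
Definitions: `Ref`, `gg`, `rp`, `jj`, `dA`, `UnbFP`, `Weakest`, .. in `Defs.lean`; `ic`, `CD`,
`Consistent` in `MP_af7a01_h91/Model.lean`; `CK` in `MP_af7a01_sep/Cpx.lean`. `FP {B} (fun _ => f)`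
is obtained from `FP Set.univ F` by `FP.mono` (`Set.subset_univ`) and `FP.congr` (`B' ∈ {B}` means
`B' = B`).
-/

open Classical Pool.IC

namespace Pool.GL

/-- REF (180), uses LIB, TLS, UNA, IDX, INC, INT. Refutation is polynomial time. Input `x`,
`w = fs x`, `n = |w|`, `p = sn x` (`str (idx p) = p`).
Proof. `foldl` over the bits of `w` (bits ignored) with state `pr cur (pr flag (pr w p))`, start
`cur = []`, `flag = [false]`; step: `flag := flag ∨ test`, `cur := inc cur`. After `l` rounds
`cur = str l`, `flag = [decide (∃ l' < l, test (str l'))]`. The test for `cur`: let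
`a = R_M (pr w (pr [] (pr [] cur))) = opt (out B M [] [] cur n)` (INT (3)) and
`b = R_U (pr (un (t |cur|)) (pr p (pr [] cur))) = opt (U.run B p [] cur (t |cur|))` (`Effective`,
UNA): `a ≠ [] ∧ b ≠ a ∧ b ≠ [true]` (`opt` is injective, `opt none = []`,
`opt (some []) = [true]`). Length bound: `|cur| ≤ |w|` (IDX), so `|state| ≤ 10 |x| + 10`; for
prefixes `l` of `w` the state only depends on `|l|`. -/
def Stmt_REF : Prop := ∀ U : Interpreter, Effective U → ∀ (M : Cmd) (t : Polynomial ℕ),
  FP Set.univ (fun B x => [decide (Ref U B M t (fs x).length (idx (sn x)))])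

/-- GFN (150), uses LIB, TLS, UNA, IDX, INC, REF. The function `z ↦ str (gg z)` is polynomial time.
Proof. `foldl` over the bits of `z` with state `pr done (pr p z)`, start `done = [false]`,
`p = []`; step: if `done = [true]` keep; else if `Ref |z| (idx p)` (REF on `pr z p`) or
`R_U (pr (un (t |z|)) (pr p (pr [] z))) = [true]` (that is `U.run B p [] z (t |z|) = some []`) then
`p := inc p`, else `done := [true]`. After `i` rounds: if no `i' < i` satisfies the condition in
`gg`, then `done = [false]`, `p = str i`; otherwise `done = [true]`, `p = str i'` with the least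
such `i'`. After `|z|` rounds `p = str (gg z)` (`Nat.find`). -/
def Stmt_GFN : Prop := ∀ U : Interpreter, Effective U → ∀ (M : Cmd) (t : Polynomial ℕ),
  FP Set.univ (fun B z => str (gg U B M t z))

/-- GLE (80), uses IDX. Lower bound of the instance complexity. Proof. `le_iInf₂`: let `p` be
`A`-consistent with `U.run B p [] z (t |z|) = some (chi A z)`, `i = idx p`, `str i = p`. Then
`¬ Ref |z| i`: if `out B M [] [] (str l) n = some o` then `o = chi A (str l)` (`out_det`), and
consistency at `str l` contradicts the two inequalities. The run on `z` is not `some []`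
(`chi A z = [_]`). So `gg z ≤ i` (`Nat.find_min'`) and `|str (gg z)| ≤ |p|` (IDX (5), (1)). -/
def Stmt_GLE : Prop := ∀ (U : Interpreter) (B : Set Str) (M : Cmd) (t : Polynomial ℕ) (A : Set Str),
  (∀ z, ∃ n, out B M [] [] z n = some (chi A z)) →
  ∀ z, ((str (gg U B M t z)).length : ℕ∞) ≤ ic U B (fun n => t.eval n) z A

/-- GUB (180), uses LIB, TLS, UNA, IDX, GFN, FIN. `str (gg z)` has unbounded length if `A` is not
in P. Proof. Suppose `|str (gg z)| < K` for all `z`, so `gg z < G := 2 ^ K` (IDX (4)). For every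
`i < G` with `str i` not consistent there is `z_i` where the run is neither `some (chi A z_i)` nor
`some []`, and `M` halts on `z_i` within `m_i` steps; so `Ref n i` for all
`n ≥ max (idx z_i + 1) m_i` (`out_mono`). Let `n₀` be the maximum of these bounds over `i < G`. For
`|z| ≥ max n₀ (G + 1)`: `i = gg z < G < |z|`, so by `Nat.find_spec` `¬ Ref |z| i` and the run on `z`
is not `some []`; hence `str i` is consistent and the run is `some (chi A z)`. Therefore
`f z := (R_U (pr (un (t |z|)) (pr (str (gg z)) (pr [] z)))).tail`, which is in `FP {B}`, equals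
`chi A z` for all but finitely many `z` (finitely many strings have length `< N`, `mem_short`), and
FIN gives `FP {B} (fun _ => chi A)`, which is `InP B A`. -/
def Stmt_GUB : Prop := ∀ U : Interpreter, Effective U → ∀ (B : Set Str) (M : Cmd)
  (t : Polynomial ℕ) (A : Set Str), (∀ z, ∃ n, out B M [] [] z n = some (chi A z)) →
  ¬ InP B A → ∀ K : ℕ, ∃ z, K ≤ (str (gg U B M t z)).length

/-- SLW (200), uses LIB, TLS, INT. Slow inverse. Proof. Let `M` compute `h` and `R_M` from INT (3).
`g z` = number of consecutive `i = 0, 1, .. < |z|` such that `out B M [] [] (un i) |z| = some v`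
with `|v| < |f z|`: `foldl` over the bits of `z` with state `pr done (pr cnt z)`, start
`done = [false]`, `cnt = []`; step: if not done: `a = R_M (pr z (pr [] (pr [] cnt)))`; if `a ≠ []`
and `|a.tail| < |f z|` then `cnt := true :: cnt`, else `done := [true]`. At the end `cnt = un (g z)`.
`J z = un ((g z - 3) / 2)` (TLS: `drop` by the constant string `un 3`, half). If `0 < |J z|` then
`g z ≥ 5` and `i ≤ 2 |J z| + 2` implies `i < g z`, so `h i < |f z|` (`out` is `un (h i)` by
`out_det`). `|J z| ≤ g z ≤ |z|`. Unbounded: given `K`, let `N₀` bound the running times of `M` on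
`un i`, `i ≤ 2 K + 3`, and `V` the values `h i + 1`; let `z` be such that `|f z|` is larger than `V`
and than all `|f w|`, `|w| ≤ N₀ + 2 K + 4` (finitely many); then `|z| > N₀ + 2 K + 4`, all
`i ≤ 2 K + 3` succeed, `g z ≥ 2 K + 4`, `|J z| ≥ K`. -/
def Stmt_SLW : Prop := ∀ (B : Set Str) (f : Str → Str) (h : ℕ → ℕ), UnbFP B f → Computes B h →
  ∃ J : Str → Str, UnbFP B J ∧ (∀ z, (J z).length ≤ z.length) ∧
    ∀ z i, 0 < (J z).length → i ≤ 2 * (J z).length + 2 → h i + 1 ≤ (f z).length

/-- REC (150). The record process (pure). Proof. Invariant of `rp j m N = (r, k, v, b)`: if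
`b = false` then `j i ≤ m` for all `i ≤ N`, `r = max_{i ≤ N} j i = j v`; if `b = true` there is
`i ≤ N` with `j i > m`; always `k ≤ v ≤ N`. (1) Let `j n = m`, `N ≥ n`: show that the components
`k, v` of `rp j m N` are those of `rp j m n`, by induction on `N`: if not stopped at `N ≥ n`, then
`r ≥ j n = m`, so a later entry is either `> m` (stops, `k, v` unchanged) or `≤ m = r` (no change).
(2) Induction on `k`: `n_0 = 0` (`j 0 = 0`); `n_{k+1}` = least `n` with `j n > j n_k` (exists). For
`m = j n_{k+1}` all entries up to `n_{k+1}` are `≤ m`, and the process up to `n_k` with bound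
`j n_k` and with bound `m` agree (no entry `≤ n_k` exceeds `j n_k`; lemma: `rp j m N = rp j m' N`
if all `j i`, `i ≤ N`, are `≤ m` and `≤ m'`), between `n_k` and `n_{k+1}` nothing changes. -/
def Stmt_REC : Prop := ∀ j : ℕ → ℕ, j 0 = 0 → (∀ K, ∃ n, K ≤ j n) →
  (∀ m n N N' : ℕ, j n = m → n ≤ N → n ≤ N' → (rp j m N).2.1 = (rp j m N').2.1 ∧
    (rp j m N).2.2.1 = (rp j m N').2.2.1) ∧
  (∀ k : ℕ, ∃ n, (rp j (j n) n).2.1 = k ∧ (rp j (j n) n).2.2.1 = n) ∧
  ∀ m N : ℕ, (rp j m N).2.1 ≤ (rp j m N).2.2.1 ∧ (rp j m N).2.2.1 ≤ N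

/-- DGF (250), uses LIB, TLS, IDX, INC. The diagonal set with a given number of rounds is
polynomial time. Input `x`, `w = fs x`, `z = sn x`. Proof. `foldl` over the bits of `w` (ignored)
with a state consisting of nested pairs of: `c` (current string, `str l` after `l` rounds), `u`
(`un l`), `R` (a string of length `r`), `P` (`str k`), `V` (`str v`), `cv` (`un (v + 1)`), `s`
(`[stopped]`), `m` (the string `J z`). Start: `c = [], u = [], R = [], P = [], V = [], cv = [true],
s = [false], m = J z`. Step: if `s = [true]` only `c := inc c`, `u := true :: u`; otherwise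
`c' = inc c`, `u' = true :: u`; if `|m| < |J c'|` then `s := [true]`; else if `|R| < |J c'|` then
`R := J c'`, `P := inc P`, `V := c'`, `cv := true :: u'`; else nothing. By induction the state after
`l` rounds represents `rp (jj J) |J z| l`. Output: from `R_U (pr cv (pr P (pr [] V))) =
opt (U.run B P [] V (v + 1))` the bit `decide (· ≠ [true, true])`. Length bound: `|c| ≤ |w|`
(IDX (6)), `|J c| ≤ |c|`, `|P| ≤ k ≤ l`, .. so `|state| ≤ C (|x| + 1)`. -/
def Stmt_DGF : Prop := ∀ U : Interpreter, Effective U → ∀ (B : Set Str) (J : Str → Str),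
  FP {B} (fun _ => J) → (∀ z, (J z).length ≤ z.length) →
  FP {B} (fun _ x => [decide (U.run B (str (rp (jj J) (J (sn x)).length (fs x).length).2.1) []
      (str (rp (jj J) (J (sn x)).length (fs x).length).2.2.1)
      ((rp (jj J) (J (sn x)).length (fs x).length).2.2.1 + 1) ≠ some [true])])

/-- AEX (30), uses EXP, DGF. The diagonal set is in E. Proof. EXP with the function of DGF:
`fs_pr`, `sn_pr`, `List.length_replicate`, definition of `dA` and `chi`. -/
def Stmt_AEX : Prop := ∀ U : Interpreter, Effective U → ∀ (B : Set Str) (J : Str → Str),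
  FP {B} (fun _ => J) → (∀ z, (J z).length ≤ z.length) → InE B (dA U B J)

/-- DAD (80), uses REC, IDX. Membership in the diagonal set depends only on `|J z|`. Proof. For
`|J z| = |J z'| = m`: `jj J (idx z) = m = jj J (idx z')` (`str (idx z) = z`),
`idx z ≤ 2 ^ (|z| + 1)` (IDX (4)), the same for `z'`; REC (1) twice with
`N'' = max (2 ^ (|z| + 1)) (2 ^ (|z'| + 1))`. `jj J 0 = |J []| ≤ 0`; `jj J` is unbounded since `J`
is. Then `a m := decide (∃ z, |J z| = m ∧ z ∈ dA U B J)`. -/
def Stmt_DAD : Prop := ∀ (U : Interpreter) (B : Set Str) (J : Str → Str),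
  (∀ z, (J z).length ≤ z.length) → (∀ K : ℕ, ∃ z, K ≤ (J z).length) →
  ∃ a : ℕ → Bool, ∀ z, z ∈ dA U B J ↔ a (J z).length = true

/-- ANP (180), uses REC, IDX. The diagonal set is not in P. Proof. Suppose `M`, `q` decide it. Let
`M' = Cmd.seq (clr 0) M`, `e`, `q'` from `U.sim M'`. For every `w, z`: `out B M' w [] z
(2 |w| + 2 + q |z|) = some (chi A z)` (execution of `clr 0`, then the store is `init [] [] z`;
work with `step^[n]`: `exec_seq` and `halted_mono`, or directly: `Function.iterate_add_apply`), so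
`U.run B (e ++ w) [] z (q' (2 |w| + 2 + q |z|)) = some (chi A z)`. Take `w = un L` with `L` large,
`k = idx (e ++ w)`, `n` from REC (2) for `k`, `z = str n`. `k ≤ n` (REC (3)), so
`|w| ≤ |e ++ w| ≤ |z|` (IDX (5)), and `|z| ≥ L`. For `L` large `q' (2 |z| + 2 + q |z|) ≤ 2 ^ |z| - 1
≤ n` (a polynomial is eventually below `2 ^ n`; IDX (4)), so by `U.mono`
`U.run B (str k) [] (str n) (n + 1) = some (chi A z)`. By REC (1), with `m = jj J n = |J z|`,
`N = 2 ^ (|z| + 1) ≥ n`, the components of `rp` in the definition of `dA` at `z` are `k` and `n`. So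
`z ∈ A ↔ some (chi A z) ≠ some [true] ↔ z ∉ A`. -/
def Stmt_ANP : Prop := ∀ (U : Interpreter) (B : Set Str) (J : Str → Str),
  (∀ z, (J z).length ≤ z.length) → (∀ K : ℕ, ∃ z, K ≤ (J z).length) → ¬ InP B (dA U B J)

/-- NPR (100), uses TOC. Look up a bit of the program string, in time polynomial in `|z|` only.
Proof. Clean program of `J` with base 2 (in `init w y z` the stacks `≥ 3` are empty): stack 3 =
`J z`, stack 2 empty. Then `loop 3 (pop 3; pop 0)`: stack 0 = `w.drop |J z|`, stack 3 = `[]` (time
`≤ 4 |J z| + 1`). Then `branch 0 skip (push 3 false) (push 3 true)`: stack 3 =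
`(w.drop |J z|).take 1`. -/
def Stmt_NPR : Prop := ∀ (B : Set Str) (J : Str → Str), FP {B} (fun _ => J) →
  ∃ (N : Cmd) (r : Polynomial ℕ), ∀ w y z : Str,
    out B N w y z (r.eval z.length) = some ((w.drop (J z).length).take 1)

/-- ICU (100), uses NPR. Upper bound of the instance complexity. Proof. `N`, `r` from NPR, `e`, `q`
from `U.sim N`, `t = q.comp r`, `c = |e|`. For `z` let `w = (List.range (|J z| + 1)).map a`,
`p = e ++ w`. For every `z'`, with `m = |J z'|`: the run is `some ((w.drop m).take 1)`, which is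
`some [a m] = some (chi A z')` if `m ≤ |J z|` and `some []` otherwise. So `p` is consistent and
decides `z`; `|p| = c + |J z| + 1`. `iInf₂_le`. -/
def Stmt_ICU : Prop := ∀ (U : Interpreter) (B : Set Str) (J : Str → Str) (a : ℕ → Bool)
  (A : Set Str), FP {B} (fun _ => J) → (∀ z, z ∈ A ↔ a (J z).length = true) →
  ∃ (t : Polynomial ℕ) (c : ℕ), ∀ z,
    ic U B (fun n => t.eval n) z A ≤ ((c + (J z).length + 1 : ℕ) : ℕ∞)

/-- BTD (150), uses SLW, AEX, DAD, ANP, ICU. Weakest form implies no lower bounds. Proof. By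
contradiction: `f` with `UnbFP B f` and `{x | D i x < |f x|}` finite for all `i`. `h` from
`Weakest`; SLW gives `J`; `A = dA U B J`; AEX, ANP, DAD, ICU give `t`, `c`. `Weakest` for `A`, `t`
gives `i` with `S = {x | ∀ k, ic x = k → D i x ≤ h k}` infinite. For `x ∈ S`: `ic x = k` for some
natural number `k ≤ c + |J x| + 1` (`ENat` finite). If `|J x| ≥ c + 1` then `k ≤ 2 |J x| + 2`, so
`D i x ≤ h k < |f x|`. Otherwise `k ≤ 2 c + 2` and `D i x ≤ K := ∑ k ≤ 2 c + 2, h k`. So `S` is
contained in the union of two finite sets (`FinSub`). -/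
def Stmt_BTD : Prop := ∀ U : Interpreter, Effective U → ∀ (B : Set Str) (ι : Type)
  (D : ι → Str → ℕ∞), FinSub D → Weakest U B D → NoBound B D

/-- DTC (100), uses GFN, GLE, GUB, SLW. No lower bounds implies the strongest form. Proof. `A`
decidable by `M`, not in P, `t`, `h`. `f z = str (gg U B M t z)`: `UnbFP B f` by GFN, GUB. SLW gives
`J`. `NoBound` for `J` gives `i` with `{x | D i x < |J x|}` infinite. For such `x`, `D i x = k` is a
natural number `< |J x|`, so `0 < |J x|` and `h k + 1 ≤ |f x| ≤ ic x` (GLE). -/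
def Stmt_DTC : Prop := ∀ U : Interpreter, Effective U → ∀ (B : Set Str) (ι : Type)
  (D : ι → Str → ℕ∞), NoBound B D → Strongest U B D

/-- CAB (100), uses LIB, TLS. Strongest ⟹ Q1 ⟹ weakest. Proof. (1) `h = id`: `Computes B id` from
`Lib.idn`; the set for `Strongest` is contained in the set for `Q1for` with `c = 0`. (2)
`h n = 2 n`: `Computes` from TLS (append `x ++ x`; `un n ++ un n = un (2 n)`). `InE B A` implies
`DecidableIn B A`. `Q1for` gives `i, c` with `S = {x | D i x ≤ ic x + c}` infinite; remove the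
finite set `{x | D i x ≤ 2 c}`: for the other `x ∈ S`, if `ic x = k` then `D i x ≤ k + c`,
`D i x > 2 c`, so `k ≥ c` and `D i x ≤ 2 k`. -/
def Stmt_CAB : Prop := ∀ (U : Interpreter) (B : Set Str) (ι : Type) (D : ι → Str → ℕ∞),
  (Strongest U B D → Q1for U B D) ∧ (FinSub D → Q1for U B D → Weakest U B D)

/-- GAP (30), uses BTD, DTC, CAB. The equivalence: Q1 ⟹ weakest ⟹ no bound ⟹ strongest ⟹ Q1. -/
def Stmt_GAP : Prop := ∀ U : Interpreter, Effective U → ∀ (B : Set Str) (ι : Type)
  (D : ι → Str → ℕ∞), FinSub D →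
  [Q1for U B D, Weakest U B D, Strongest U B D, NoBound B D].TFAE

/-- FSC (120). Finite sublevel sets. Proof. If `D t x ≤ K` then some program `p` with `|p| ≤ K`
belongs to the set in the definition (the infimum in `ℕ∞` of a set of naturals is attained:
otherwise every member is `≥ K + 1`, `le_iInf₂`). A program determines `x`: for `CD` and `x ≠ x'`
the run on `z = x` would be `some [true]` and `some [false]`; for `CK`: the outputs at the times
`t |x|` and `t |x'|` agree (`U.mono`); for `coCD`: the right-hand side of the equivalence does not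
depend on `x`. Finitely many `p` have length `≤ K` (`mem_short`). -/
def Stmt_FSC : Prop := ∀ (U : Interpreter) (B : Set Str),
  FinSub (fun t : Polynomial ℕ => CD U B (fun n => t.eval n)) ∧
  FinSub (fun t : Polynomial ℕ => CK U B (fun n => t.eval n)) ∧
  FinSub (fun t : Polynomial ℕ => coCD U B (fun n => t.eval n))

/-- CVP (180), uses TOC. Look up a bit of a table, position twice the length of the program, in time
polynomial in `|z|` only (`y` is cut to `|z| + 1` bits). Proof. Start: stacks 0, 1, 2 = `p, y, z`.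
(1) `cpo 2 3 4` (stack 4 = `z`); `push 4 true` (length `|z| + 1`);
`loop 4 (pop 4; branch 1 skip (pop 1; push 5 false) (pop 1; push 5 true))`: stack 5 =
`(y.take (|z| + 1)).reverse`. (2) `clr 1`? No: do not touch stack 1 any more (it may be long).
`push 2 false`; `loop 5 (branch 5 skip (pop 5; push 2 false; push 2 true) (pop 5; push 2 true;
push 2 true))`: stack 2 = `pr (y.take (|z| + 1)) z`. (3) clean program of `T` with base 2: stack 3 =
`T ..`, all other stacks `≥ 2` empty. (4) `loop 3 (branch 0 E (pop 0; pop 3; pop 3) (pop 0; pop 3;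
pop 3))` with `E = branch 3 skip (push 4 false; clr 3) (push 4 true; clr 3)` (stack 0 empty: record
the top bit of stack 3 and stop). At the end stack 4 is `[b]` with `b` the bit at position
`2 |p|`, or empty if the table is shorter. (5) `branch 4 (push 3 false) (push 3 false)
(push 3 true)`: stack 3 = `[hdb (T.drop (2 |p|))]`. Invariant of (4): stack 0 = `p'`, stack 3 =
`T'` with `hdb (T'.drop (2 |p'|))` constant; time `≤ 8 |T| + 8`. -/
def Stmt_CVP : Prop := ∀ (B : Set Str) (T : Str → Str), FP {B} (fun _ => T) →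
  ∃ (N : Cmd) (r : Polynomial ℕ), ∀ p y z : Str, out B N p y z (r.eval z.length) =
    some [hdb ((T (pr (y.take (z.length + 1)) z)).drop (2 * p.length))]

/-- CNB (200), uses LIB, TLS, IDX, LTC, CVP. No unbounded polynomial time lower bounds for the
co-nondeterministic complexity. Proof. Let `UnbFP B f`. Put `G x = f (fs x)` if
`idx (fs x) < idx (sn x)`, else `[]`; `T x = List.replicate |G x| false ++ (un |f (sn x)|).drop
|G x|`, in `FP {B}` (LTC, TLS). With `θ₁ = |f z|`, `θ₂ = |f y|` if `idx y < idx z`, else `0`: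
`hdb ((T (pr y z)).drop i) = true ↔ θ₂ ≤ i ∧ i < θ₁`. `N, r` from CVP, `e, q` from `U.sim N`,
`t' = q.comp r + X`. For `l : ℕ` let `n_l` be least with `2 l < |f (str n_l)|`, `x_l = str n_l`,
`p = e ++ un l`. By `U.mono` all runs of `p` on `w, z` halt within `t' |z|` steps with output
`[b]`, `b = true ↔ θ₂ ≤ 2 l < θ₁` for `y = w.take (|z| + 1)`. Claim: `z = x_l` iff all `w` with
`|w| ≤ t' |z|` accept. (⟹) `θ₁ > 2 l`; if `idx y < idx z = n_l` then `|f y| ≤ 2 l` by minimality.
(⟸) `w = []` gives `2 l < |f z|`, so `n_l ≤ idx z`; if `z ≠ x_l` then `n_l < idx z` and `w = x_l`,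
`|w| ≤ |z| ≤ t' |z|` (IDX (5)), `w.take (|z| + 1) = w`, has `θ₂ = |f x_l| > 2 l`, rejected. So
`coCD ≤ |e| + l < 2 l < |f x_l|` for `l > |e|`. The set of these `x_l` is infinite since
`|f x_l| > 2 l`. -/
def Stmt_CNB : Prop := ∀ (U : Interpreter) (B : Set Str),
  NoBound B (fun t : Polynomial ℕ => coCD U B (fun n => t.eval n))

end Pool.GL
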