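import Mathlib

/-!
# A finite set without isolated elements (nondeterministic programs with small certificates)
-/

open Classical

namespace Pool.GL

/-- Independent sets in digraphs with outdegree at most `T`. -/
theorem ND_indep (T : ℕ) (R : ℕ → ℕ → Prop) : ∀ (r : ℕ) (I : Finset ℕ),
    (∀ a ∈ I, ∀ F : Finset ℕ, F ⊆ I → (∀ b ∈ F, b ≠ a ∧ R a b) → F.card ≤ T) →
    r * (2 * T + 1) ≤ I.card →
    ∃ J ⊆ I, J.card = r ∧ ∀ a ∈ J, ∀ b ∈ J, a ≠ b → ¬ R a b := by
  intro r
  induction r with
  | zero => intro I _ _; exact ⟨∅, Finset.empty_subset _, rfl, by simp⟩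
  | succ r ih =>
    intro I hI' hc
    have hI : ∀ a ∈ I, (I.filter fun b => b ≠ a ∧ R a b).card ≤ T := fun a ha =>
      hI' a ha _ (Finset.filter_subset _ _) fun b hb => (Finset.mem_filter.1 hb).2
    have hne : I.Nonempty := by
      rw [← Finset.card_pos]
      have : 0 < (r + 1) * (2 * T + 1) := by positivity
      omega
    -- an element of small indegree
    obtain ⟨a, ha, hin⟩ : ∃ a ∈ I, (I.filter fun b => b ≠ a ∧ R b a).card ≤ T := by
      by_contra hcon
      push Not at hcon
      have h1 : ∑ a ∈ I, (T + 1) ≤ ∑ a ∈ I, (I.filter fun b => b ≠ a ∧ R b a).card :=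
        Finset.sum_le_sum fun a ha => hcon a ha
      have h2 : ∑ a ∈ I, (I.filter fun b => b ≠ a ∧ R b a).card =
          ∑ a ∈ I, (I.filter fun b => b ≠ a ∧ R a b).card := by
        simp only [Finset.card_filter]
        rw [Finset.sum_comm]
        refine Finset.sum_congr rfl fun a _ => Finset.sum_congr rfl fun b _ => ?_
        by_cases h : a = b
        · subst h; rfl
        · have h' : b ≠ a := fun h1 => h h1.symm
          simp only [ne_eq, h, h', not_false_eq_true, true_and]
      have h3 : ∑ a ∈ I, (I.filter fun b => b ≠ a ∧ R a b).card ≤ ∑ a ∈ I, T :=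
        Finset.sum_le_sum fun a ha => hI a ha
      have h4 : ∑ a ∈ I, (T + 1) ≤ ∑ a ∈ I, T := h1.trans (h2.le.trans h3)
      rw [Finset.sum_const, Finset.sum_const, smul_eq_mul, smul_eq_mul] at h4
      have h5 : 0 < I.card := Finset.card_pos.2 hne
      nlinarith
    set N : Finset ℕ := insert a ((I.filter fun b => b ≠ a ∧ R a b) ∪
      (I.filter fun b => b ≠ a ∧ R b a)) with hN
    have hNc : N.card ≤ 2 * T + 1 := by
      refine (Finset.card_insert_le _ _).trans ?_
      have h1 := Finset.card_union_le (I.filter fun b => b ≠ a ∧ R a b)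
        (I.filter fun b => b ≠ a ∧ R b a)
      have h2 := hI a ha
      omega
    have hsub : I \ N ⊆ I := Finset.sdiff_subset
    obtain ⟨J, hJ, hJc, hJR⟩ := ih (I \ N) (fun b hb F hF => hI' b (hsub hb) F
        (hF.trans hsub)) (by
        have h1 := Finset.le_card_sdiff N I
        have h2 : (r + 1) * (2 * T + 1) = r * (2 * T + 1) + (2 * T + 1) := by ring
        omega)
    have haJ : a ∉ J := fun h => (Finset.mem_sdiff.1 (hJ h)).2 (Finset.mem_insert_self _ _)
    refine ⟨insert a J, Finset.insert_subset ha (hJ.trans hsub), ?_, ?_⟩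
    · rw [Finset.card_insert_of_notMem haJ, hJc]
    · intro b hb c hc hbc hR
      rcases Finset.mem_insert.1 hb with h1 | h1
      · rcases Finset.mem_insert.1 hc with h2 | h2
        · exact hbc (h1.trans h2.symm)
        · refine (Finset.mem_sdiff.1 (hJ h2)).2 ?_
          rw [hN, Finset.mem_insert, Finset.mem_union, Finset.mem_filter, Finset.mem_filter]
          rw [h1] at hR
          exact Or.inr (Or.inl ⟨hsub (hJ h2), fun h => hbc (h1.trans h.symm), hR⟩)
      · rcases Finset.mem_insert.1 hc with h2 | h2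
        · refine (Finset.mem_sdiff.1 (hJ h1)).2 ?_
          rw [hN, Finset.mem_insert, Finset.mem_union, Finset.mem_filter, Finset.mem_filter]
          rw [h2] at hR
          exact Or.inr (Or.inr ⟨hsub (hJ h1), fun h => hbc (h.trans h2.symm), hR⟩)
        · exact hJR b h1 c h2 hbc hR

/-- The union of the blocks with index in `G`. -/
noncomputable def ND_U {α : Type} (b : ℕ → Finset α) (G : Finset ℕ) : Finset α := G.biUnion b

theorem ND_mem_U {α : Type} {b : ℕ → Finset α} {G : Finset ℕ} {x : α} :
    x ∈ ND_U b G ↔ ∃ i ∈ G, x ∈ b i := by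
  unfold ND_U; exact Finset.mem_biUnion

/-- The induction: all programs outside `P` are defeated by every nonempty union of blocks. -/
theorem ND_main {α ι : Type} (acc : ι → Set α → Set α) (B0 : Set α) (X : Set α) (T m : ℕ)
    (J : Finset ι) (hJm : J.card ≤ m)
    (cert : ∀ j ∈ J, ∀ (B : Set α) (z : α), z ∈ X → z ∈ acc j B →
      ∃ Q : Finset α, Q.card ≤ T ∧ ∀ B' : Set α, (∀ s ∈ Q, (s ∈ B ↔ s ∈ B')) → z ∈ acc j B') :
    ∀ (r : ℕ) (P : Finset ι) (b : ℕ → Finset α), P ⊆ J → P.card = r →
      (∀ i < (2 * m * (2 * T + 1)) ^ r, (b i).Nonempty ∧ ↑(b i) ⊆ X) →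
      (∀ i < (2 * m * (2 * T + 1)) ^ r, ∀ i' < (2 * m * (2 * T + 1)) ^ r, i ≠ i' →
        Disjoint (b i) (b i')) →
      (∀ j ∈ J, j ∉ P → ∀ G ⊆ Finset.range ((2 * m * (2 * T + 1)) ^ r), G.Nonempty →
        ∃ z ∈ ND_U b G, ∃ z' ∈ ND_U b G, z ≠ z' ∧ z ∈ acc j (B0 ∪ ↑(ND_U b G)) ∧
          z' ∈ acc j (B0 ∪ ↑(ND_U b G))) →
      ∃ S : Finset α, S.Nonempty ∧ ↑S ⊆ X ∧ ∀ j ∈ J, ∀ x ∈ S, x ∈ acc j (B0 ∪ ↑S) →
        ∃ z ∈ S, z ≠ x ∧ z ∈ acc j (B0 ∪ ↑S) := by
  intro r
  induction r with
  | zero =>
    intro P b hPJ hP hb hd hdef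
    have hP0 : P = ∅ := Finset.card_eq_zero.1 hP
    have h0 : (0 : ℕ) < (2 * m * (2 * T + 1)) ^ 0 := by rw [pow_zero]; exact Nat.one_pos
    refine ⟨b 0, (hb 0 h0).1, (hb 0 h0).2, fun j hj x hx hxa => ?_⟩
    have hU : ND_U b {0} = b 0 := by unfold ND_U; exact Finset.singleton_biUnion
    obtain ⟨z, hz, z', hz', hne, h1, h2⟩ := hdef j hj (by rw [hP0]; exact Finset.notMem_empty _)
      {0} (by intro i hi; rw [Finset.mem_singleton.1 hi]; exact Finset.mem_range.2 h0)
      (Finset.singleton_nonempty _)
    rw [hU] at hz hz' h1 h2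
    by_cases hzx : z = x
    · exact ⟨z', hz', fun h => hne (hzx.trans h.symm), h2⟩
    · exact ⟨z, hz, hzx, h1⟩
  | succ r ih =>
    intro P b hPJ hP hb hd hdef
    set K := 2 * m * (2 * T + 1) with hK
    by_cases hgood : ∃ i < K ^ (r + 1), ∀ j ∈ J, ∀ x ∈ b i, x ∈ acc j (B0 ∪ ↑(b i)) →
        ∃ z ∈ b i, z ≠ x ∧ z ∈ acc j (B0 ∪ ↑(b i))
    · obtain ⟨i, hi, h⟩ := hgood
      exact ⟨b i, (hb i hi).1, (hb i hi).2, h⟩
    · push Not at hgood
      have hPpos : 0 < P.card := by omega
      obtain ⟨j00, hj00⟩ := Finset.card_pos.1 hPpos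
      have hmpos : 0 < m := by
        have := (Finset.card_le_card hPJ).trans hJm
        omega
      have hKpos : 0 < K ^ (r + 1) := by
        rw [hK]
        positivity
      obtain ⟨a00, ha00⟩ := (hb 0 hKpos).1
      haveI : Nonempty ι := ⟨j00⟩
      haveI : Nonempty α := ⟨a00⟩
      choose! jf hjJ xf hxb hxa hxu using hgood
      have hjP : ∀ i < K ^ (r + 1), jf i ∈ P := by
        intro i hi
        by_contra hcon
        have hU : ND_U b {i} = b i := by unfold ND_U; exact Finset.singleton_biUnion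
        obtain ⟨z, hz, z', hz', hne, h1, h2⟩ := hdef (jf i) (hjJ i hi) hcon {i}
          (by intro i' hi'; rw [Finset.mem_singleton.1 hi']; exact Finset.mem_range.2 hi)
          (Finset.singleton_nonempty _)
        rw [hU] at hz hz' h1 h2
        by_cases hzx : z = xf i
        · exact hxu i hi z' hz' (fun h => hne (hzx.trans h.symm)) h2
        · exact hxu i hi z hz hzx h1
      have hPm : P.card ≤ m := (Finset.card_le_card hPJ).trans hJm
      -- the popular program
      obtain ⟨j0, hj0, hfib⟩ := Finset.exists_le_card_fiber_of_mul_le_card_of_maps_to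
        (s := Finset.range (K ^ (r + 1))) (t := P) (f := jf) (n := 2 * (2 * T + 1) * K ^ r)
        (fun i hi => hjP i (Finset.mem_range.1 hi)) (Finset.card_pos.1 hPpos) (by
          rw [Finset.card_range, pow_succ]
          calc P.card * (2 * (2 * T + 1) * K ^ r) ≤ m * (2 * (2 * T + 1) * K ^ r) :=
                Nat.mul_le_mul_right _ hPm
            _ = K ^ r * K := by rw [hK]; ring)
      set I : Finset ℕ := (Finset.range (K ^ (r + 1))).filter (fun i => jf i = j0) with hI
      have hIlt : ∀ i ∈ I, i < K ^ (r + 1) := fun i hi =>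
        Finset.mem_range.1 (Finset.mem_filter.1 hi).1
      have hIj : ∀ i ∈ I, jf i = j0 := fun i hi => (Finset.mem_filter.1 hi).2
      -- certificates
      have hcert : ∀ i ∈ I, ∃ Q : Finset α, Q.card ≤ T ∧
          ∀ B' : Set α, (∀ s ∈ Q, (s ∈ B0 ∪ ↑(b i) ↔ s ∈ B')) → xf i ∈ acc j0 B' := by
        intro i hi
        have hlt := hIlt i hi
        have h1 := hxa i hlt
        rw [hIj i hi] at h1
        exact cert j0 (hPJ hj0) _ _ ((hb i hlt).2 (hxb i hlt)) h1
      choose! Q hQT hQ using hcert
      obtain ⟨L, hL, hLc, hLR⟩ := ND_indep T (fun i i' => ∃ s ∈ Q i, s ∈ b i') (2 * K ^ r) I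
        (by
          intro i hi F hFI hF
          refine le_trans ?_ (hQT i hi)
          have hch : ∀ i' ∈ F, ∃ s, s ∈ Q i ∧ s ∈ b i' := by
            intro i' hi'
            obtain ⟨s, hs, hs'⟩ := (hF i' hi').2
            exact ⟨s, hs, hs'⟩
          choose! g hg hg' using hch
          refine Finset.card_le_card_of_injOn g (fun i' hi' => hg i' (Finset.mem_coe.1 hi')) ?_
          intro i1 h1 i2 h2 he
          have h1 := Finset.mem_coe.1 h1
          have h2 := Finset.mem_coe.1 h2
          by_contra hne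
          have h1I := hIlt i1 (hFI h1)
          have h2I := hIlt i2 (hFI h2)
          have hdis := hd i1 h1I i2 h2I hne
          rw [Finset.disjoint_left] at hdis
          exact hdis (hg' i1 h1) (by rw [he]; exact hg' i2 h2))
        (by rw [hI]; refine le_trans (le_of_eq ?_) hfib; ring)
      -- enumeration
      set e : ℕ → ℕ := fun i => if h : i < 2 * K ^ r then (L.orderEmbOfFin hLc ⟨i, h⟩) else 0
        with he
      have heL : ∀ i < 2 * K ^ r, e i ∈ L := by
        intro i hi
        rw [he]
        simp only [hi, dif_pos]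
        exact Finset.orderEmbOfFin_mem _ _ _
      have heinj : ∀ i < 2 * K ^ r, ∀ i' < 2 * K ^ r, e i = e i' → i = i' := by
        intro i hi i' hi' h
        rw [he] at h
        simp only [hi, hi', dif_pos] at h
        have := (L.orderEmbOfFin hLc).injective h
        exact Fin.mk.inj_iff.1 this
      have heI : ∀ i < 2 * K ^ r, e i ∈ I := fun i hi => hL (heL i hi)
      have helt : ∀ i < 2 * K ^ r, e i < K ^ (r + 1) := fun i hi => hIlt _ (heI i hi)
      set b' : ℕ → Finset α := fun i => b (e (2 * i)) ∪ b (e (2 * i + 1)) with hb'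
      have hU' : ∀ G : Finset ℕ, ND_U b' G =
          ND_U b (G.image (fun i => e (2 * i)) ∪ G.image (fun i => e (2 * i + 1))) := by
        intro G
        ext x
        rw [ND_mem_U, ND_mem_U]
        constructor
        · rintro ⟨i, hi, hx⟩
          rcases Finset.mem_union.1 hx with hx | hx
          · exact ⟨e (2 * i), Finset.mem_union_left _ (Finset.mem_image_of_mem _ hi), hx⟩
          · exact ⟨e (2 * i + 1), Finset.mem_union_right _
              (Finset.mem_image.2 ⟨i, hi, rfl⟩), hx⟩
        · rintro ⟨c, hc, hx⟩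
          rcases Finset.mem_union.1 hc with hc | hc
          · obtain ⟨i, hi, rfl⟩ := Finset.mem_image.1 hc
            exact ⟨i, hi, Finset.mem_union_left _ hx⟩
          · obtain ⟨i, hi, rfl⟩ := Finset.mem_image.1 hc
            exact ⟨i, hi, Finset.mem_union_right _ hx⟩
      refine ih (P.erase j0) b' ((Finset.erase_subset _ _).trans hPJ)
        (by rw [Finset.card_erase_of_mem hj0, hP]; rfl) ?_ ?_ ?_
      · intro i hi
        have h1 := helt (2 * i) (by omega)
        have h2 := helt (2 * i + 1) (by omega)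
        refine ⟨(hb _ h1).1.mono Finset.subset_union_left, ?_⟩
        intro x hx
        rcases Finset.mem_union.1 (Finset.mem_coe.1 hx) with hx | hx
        · exact (hb _ h1).2 hx
        · exact (hb _ h2).2 hx
      · intro i hi i' hi' hne
        have h1 := helt (2 * i) (by omega)
        have h2 := helt (2 * i + 1) (by omega)
        have h3 := helt (2 * i') (by omega)
        have h4 := helt (2 * i' + 1) (by omega)
        rw [hb', Finset.disjoint_union_left, Finset.disjoint_union_right,
          Finset.disjoint_union_right]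
        refine ⟨⟨hd _ h1 _ h3 ?_, hd _ h1 _ h4 ?_⟩, hd _ h2 _ h3 ?_, hd _ h2 _ h4 ?_⟩
        · intro h; have := heinj _ (by omega) _ (by omega) h; omega
        · intro h; have := heinj _ (by omega) _ (by omega) h; omega
        · intro h; have := heinj _ (by omega) _ (by omega) h; omega
        · intro h; have := heinj _ (by omega) _ (by omega) h; omega
      · intro j hj hjP' G hG hGne
        rw [hU' G]
        set G2 := G.image (fun i => e (2 * i)) ∪ G.image (fun i => e (2 * i + 1)) with hG2
        have hG2L : ∀ c ∈ G2, c ∈ L := by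
          intro c hc
          rcases Finset.mem_union.1 hc with hc | hc
          · obtain ⟨i, hi, rfl⟩ := Finset.mem_image.1 hc
            have := Finset.mem_range.1 (hG hi)
            exact heL _ (by omega)
          · obtain ⟨i, hi, rfl⟩ := Finset.mem_image.1 hc
            have := Finset.mem_range.1 (hG hi)
            exact heL _ (by omega)
        obtain ⟨i0, hi0⟩ := hGne
        have hi0r := Finset.mem_range.1 (hG hi0)
        have ha : e (2 * i0) ∈ G2 :=
          Finset.mem_union_left _ (Finset.mem_image.2 ⟨i0, hi0, rfl⟩)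
        have hb2 : e (2 * i0 + 1) ∈ G2 :=
          Finset.mem_union_right _ (Finset.mem_image.2 ⟨i0, hi0, rfl⟩)
        by_cases hjj : j = j0
        · -- the new program
          have key : ∀ c ∈ G2, xf c ∈ acc j0 (B0 ∪ ↑(ND_U b G2)) := by
            intro c hc
            have hcL := hG2L c hc
            refine hQ c (hL hcL) _ fun s hs => ?_
            constructor
            · rintro (h | h)
              · exact Or.inl h
              · exact Or.inr (Finset.mem_coe.2 (ND_mem_U.2 ⟨c, hc, h⟩))
            · rintro (h | h)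
              · exact Or.inl h
              · obtain ⟨c', hc', hs'⟩ := ND_mem_U.1 (Finset.mem_coe.1 h)
                by_cases hcc : c = c'
                · rw [hcc]; exact Or.inr hs'
                · exact absurd ⟨s, hs, hs'⟩ (hLR c hcL c' (hG2L c' hc') hcc)
          have hne : e (2 * i0) ≠ e (2 * i0 + 1) := by
            intro h; have := heinj _ (by omega) _ (by omega) h; omega
          have h1 := helt (2 * i0) (by omega)
          have h2 := helt (2 * i0 + 1) (by omega)
          refine ⟨xf (e (2 * i0)), ND_mem_U.2 ⟨_, ha, hxb _ h1⟩, xf (e (2 * i0 + 1)),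
            ND_mem_U.2 ⟨_, hb2, hxb _ h2⟩, ?_, ?_, ?_⟩
          · intro h
            have hdis := hd _ h1 _ h2 hne
            rw [Finset.disjoint_left] at hdis
            exact hdis (hxb _ h1) (by rw [h]; exact hxb _ h2)
          · rw [hjj]; exact key _ ha
          · rw [hjj]; exact key _ hb2
        · exact hdef j hj (fun h => hjP' (Finset.mem_erase.2 ⟨hjj, h⟩)) G2
            (fun c hc => Finset.mem_range.2 (hIlt c (hL (hG2L c hc)))) ⟨_, ha⟩

/-- A large set of candidates contains a nonempty finite set without isolated elements. -/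
theorem ND_comb {α ι : Type} (acc : ι → Set α → Set α) (B0 : Set α) (X : Finset α) (T m : ℕ)
    (J : Finset ι) (hJm : J.card ≤ m) (hX : (2 * m * (2 * T + 1)) ^ m ≤ X.card)
    (hm : 0 < m)
    (cert : ∀ j ∈ J, ∀ (B : Set α) (z : α), z ∈ X → z ∈ acc j B →
      ∃ Q : Finset α, Q.card ≤ T ∧ ∀ B' : Set α, (∀ s ∈ Q, (s ∈ B ↔ s ∈ B')) → z ∈ acc j B') :
    ∃ S : Finset α, S.Nonempty ∧ S ⊆ X ∧ ∀ j ∈ J, ∀ x ∈ S, x ∈ acc j (B0 ∪ ↑S) →
        ∃ z ∈ S, z ≠ x ∧ z ∈ acc j (B0 ∪ ↑S) := by
  have hK : 0 < 2 * m * (2 * T + 1) := by positivity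
  have hle : (2 * m * (2 * T + 1)) ^ J.card ≤ X.card :=
    (Nat.pow_le_pow_right hK hJm).trans hX
  have hXpos : 0 < X.card := lt_of_lt_of_le (pow_pos hK _) hX
  set en := X.equivFin with hen
  set b : ℕ → Finset α := fun i => if h : i < X.card then {((en.symm ⟨i, h⟩ : X) : α)} else ∅
    with hb
  obtain ⟨S, h1, h2, h3⟩ := ND_main acc B0 (↑X) T m J hJm
    (fun j hj B z hz hza => cert j hj B z (Finset.mem_coe.1 hz) hza) J.card J b
    (Finset.Subset.refl _) rfl (by
      intro i hi
      have hi' := lt_of_lt_of_le hi hle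
      rw [hb]
      simp only [hi', dif_pos]
      refine ⟨Finset.singleton_nonempty _, ?_⟩
      intro x hx
      rw [Finset.coe_singleton, Set.mem_singleton_iff] at hx
      rw [hx]
      exact Finset.mem_coe.2 (en.symm ⟨i, hi'⟩).2) (by
      intro i hi i' hi' hne
      have h1 := lt_of_lt_of_le hi hle
      have h2 := lt_of_lt_of_le hi' hle
      rw [hb]
      simp only [h1, h2, dif_pos]
      rw [Finset.disjoint_singleton]
      intro h
      have h3 := en.symm.injective (Subtype.ext h)
      exact hne (Fin.mk.inj_iff.1 h3)) (fun j hj hjn => absurd hj hjn)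
  exact ⟨S, h1, fun x hx => Finset.mem_coe.1 (h2 (Finset.mem_coe.2 hx)), h3⟩

end Pool.GL
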