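import Pool.Agent.Work.MP_af7a01_gl.All
import Pool.Agent.Work.MP_af7a01_gl.NdComb

/-!
# Q1 with nondeterministic distinguishing programs fails relative to an oracle
-/

open Classical Pool.IC

namespace Pool.GL

/-- Nondeterministic distinguishing complexity: least length of a program `p` such that for every
`z`: `z = x` iff some run of `U` on `p`, a witness `w`, `|w| ≤ t |z|`, and input `z` accepts within
`t |z|` steps. -/
noncomputable def ndCD (U : Interpreter) (B : Set Str) (t : ℕ → ℕ) (x : Str) : ℕ∞ :=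
  ⨅ p ∈ {p : Str | ∀ z : Str,
      (z = x ↔ ∃ w : Str, w.length ≤ t z.length ∧ U.run B p w z (t z.length) = some [true])},
    (p.length : ℕ∞)

/-- Strings accepted by `p`. -/
def ND_acc (U : Interpreter) (t : ℕ → ℕ) (p : Str) (B : Set Str) : Set Str :=
  {z | ∃ w : Str, w.length ≤ t z.length ∧ U.run B p w z (t z.length) = some [true]}

theorem ND_cert (U : Interpreter) (t : ℕ → ℕ) (p : Str) (B : Set Str) (z : Str)
    (h : z ∈ ND_acc U t p B) :
    ∃ Q : Finset Str, Q.card ≤ t z.length ∧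
      (∀ s ∈ Q, s.length ≤ p.length + z.length + 2 * t z.length) ∧
      ∀ B' : Set Str, (∀ s ∈ Q, (s ∈ B ↔ s ∈ B')) → z ∈ ND_acc U t p B' := by
  obtain ⟨w, hw, hr⟩ := h
  obtain ⟨Q, hQ1, hQ2, hQ3⟩ := U.asks B p w z (t z.length)
  refine ⟨Q, hQ1, fun s hs => (hQ2 s hs).trans (by omega), fun B' hB' => ⟨w, hw, ?_⟩⟩
  rw [← hQ3 B' hB']
  exact hr

theorem ND_congr (U : Interpreter) (t : ℕ → ℕ) (p : Str) (B B' : Set Str) (z : Str)
    (hB : ∀ s : Str, s.length ≤ p.length + z.length + 2 * t z.length → (s ∈ B ↔ s ∈ B')) :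
    z ∈ ND_acc U t p B ↔ z ∈ ND_acc U t p B' := by
  constructor
  · intro h
    obtain ⟨Q, -, hQ2, hQ3⟩ := ND_cert U t p B z h
    exact hQ3 B' fun s hs => hB s (hQ2 s hs)
  · intro h
    obtain ⟨Q, -, hQ2, hQ3⟩ := ND_cert U t p B' z h
    exact hQ3 B fun s hs => (hB s (hQ2 s hs)).symm

theorem ND_growth (Θ : Polynomial ℕ) (m a R : ℕ) :
    ∃ n : ℕ, R < n ∧ (2 * m * (2 * Θ.eval (a + n) + 1)) ^ m ≤ 2 ^ n := by
  set q : Polynomial ℕ := (Polynomial.C (2 * m) * (Polynomial.C 2 *
    Θ.comp (Polynomial.C a + Polynomial.X) + 1)) ^ m with hq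
  obtain ⟨m0, hm0⟩ := Filter.eventually_atTop.1 (poly_growth q 1)
  refine ⟨max m0 (R + 1), by have := le_max_right m0 (R + 1); omega, ?_⟩
  have h1 := hm0 (max m0 (R + 1)) (le_max_left _ _)
  set n := max m0 (R + 1)
  have h2 : q.eval n ≤ q.eval (16 * n) := eval_mono q (by omega)
  have h3 : q.eval n = (2 * m * (2 * Θ.eval (a + n) + 1)) ^ m := by
    rw [hq]
    simp only [Polynomial.eval_pow, Polynomial.eval_mul, Polynomial.eval_C, Polynomial.eval_add,
      Polynomial.eval_comp, Polynomial.eval_X, Polynomial.eval_one]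
  rw [← h3]
  omega

theorem ND_stage (U : Interpreter) (τ : ℕ → Polynomial ℕ) (k R0 : ℕ) (B0 : Finset Str) :
    ∃ (S : Finset Str) (R1 : ℕ), S.Nonempty ∧ R0 ≤ R1 ∧
      (∀ x ∈ S, fs x = un k ∧ R0 < x.length ∧ x.length ≤ R1) ∧
      ∀ B : Set Str, (∀ s : Str, s.length ≤ R1 → (s ∈ B ↔ s ∈ B0 ∨ s ∈ S)) →
        ∀ p : Str, p.length < k → ∀ i < k, ∀ x ∈ S,
          x ∈ ND_acc U (fun n => (τ i).eval n) p B →
          ∃ z ∈ S, z ≠ x ∧ z ∈ ND_acc U (fun n => (τ i).eval n) p B := by
  set J : Finset (Str × ℕ) := short k ×ˢ Finset.range k with hJ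
  set m := J.card + 1 with hm
  set Θ : Polynomial ℕ := ∑ i ∈ Finset.range k, τ i with hΘ
  have hΘle : ∀ i < k, ∀ n, (τ i).eval n ≤ Θ.eval n := by
    intro i hi n
    rw [hΘ, Polynomial.eval_finsetSum]
    exact Finset.single_le_sum (f := fun i => (τ i).eval n) (fun _ _ => Nat.zero_le _)
      (Finset.mem_range.2 hi)
  obtain ⟨n, hRn, hn⟩ := ND_growth Θ m (2 * k + 1) R0
  set N := 2 * k + 1 + n with hN
  set X : Finset Str := (strs n).image (fun u => pr (un k) u) with hX
  have hXc : X.card = 2 ^ n := by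
    rw [hX, Finset.card_image_of_injective, card_strs]
    intro u v huv
    have := congrArg sn huv
    simpa only [sn_pr] using this
  have hXlen : ∀ z ∈ X, z.length = N := by
    intro z hz
    obtain ⟨u, hu, rfl⟩ := Finset.mem_image.1 hz
    rw [mem_strs] at hu
    rw [length_pr, hu, List.length_replicate]
    omega
  have hXfs : ∀ z ∈ X, fs z = un k := by
    intro z hz
    obtain ⟨u, hu, rfl⟩ := Finset.mem_image.1 hz
    exact fs_pr _ _
  obtain ⟨S, hSne, hSX, hS⟩ := ND_comb
    (fun (j : Str × ℕ) (B : Set Str) => ND_acc U (fun n => (τ j.2).eval n) j.1 B) (↑B0) X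
    (Θ.eval N) m J (by omega) (by rw [hXc]; exact hn) (by omega) (by
      intro j hj B z hz hza
      obtain ⟨Q, h1, -, h3⟩ := ND_cert U _ _ B z hza
      refine ⟨Q, h1.trans ?_, h3⟩
      rw [hXlen z hz]
      exact hΘle _ (Finset.mem_range.1 (Finset.mem_product.1 hj).2) _)
  refine ⟨S, R0 + k + N + 2 * Θ.eval N, hSne, by omega, fun x hx => ?_, ?_⟩
  · rw [hXlen x (hSX hx)]
    exact ⟨hXfs x (hSX hx), by omega, by omega⟩
  · intro B hB p hp i hi x hx hxa
    have hcon : ∀ z ∈ S, (z ∈ ND_acc U (fun n => (τ i).eval n) p B ↔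
        z ∈ ND_acc U (fun n => (τ i).eval n) p (↑B0 ∪ ↑S)) := by
      intro z hz
      refine ND_congr U _ p B _ z fun s hs => ?_
      have h1 : z.length = N := hXlen z (hSX hz)
      have h2 : (τ i).eval N ≤ Θ.eval N := hΘle i hi N
      have h3 : s.length ≤ R0 + k + N + 2 * Θ.eval N := by
        rw [h1] at hs
        have h4 : s.length ≤ p.length + N + 2 * (τ i).eval N := hs
        omega
      rw [hB s h3, Set.mem_union, Finset.mem_coe, Finset.mem_coe]
    obtain ⟨z, hz, hzx, hza⟩ := hS (p, i)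
      (Finset.mem_product.2 ⟨mem_short.2 hp, Finset.mem_range.2 hi⟩) x hx ((hcon x hx).1 hxa)
    exact ⟨z, hz, hzx, (hcon z hz).2 hza⟩

/-- The oracle. -/
theorem ND_oracle (U : Interpreter) (τ : ℕ → Polynomial ℕ) :
    ∃ (B : Set Str) (S : ℕ → Finset Str), (∀ k, (S k).Nonempty) ∧ (∀ x, x ∈ B ↔ ∃ k, x ∈ S k) ∧
      (∀ k, ∀ x ∈ S k, fs x = un k) ∧
      ∀ k, ∀ p : Str, p.length < k → ∀ i < k, ∀ x ∈ S k,
          x ∈ ND_acc U (fun n => (τ i).eval n) p B →
          ∃ z ∈ S k, z ≠ x ∧ z ∈ ND_acc U (fun n => (τ i).eval n) p B := by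
  choose Sf Rf h1 h2 h3 h4 using ND_stage U τ
  let st : ℕ → Finset Str × ℕ := fun n => Nat.rec ((∅ : Finset Str), (0 : ℕ))
    (fun k s => (s.1 ∪ Sf k s.2 s.1, Rf k s.2 s.1)) n
  have st0 : st 0 = (∅, 0) := rfl
  have stS : ∀ k, st (k + 1) = ((st k).1 ∪ Sf k (st k).2 (st k).1, Rf k (st k).2 (st k).1) :=
    fun k => rfl
  set S : ℕ → Finset Str := fun k => Sf k (st k).2 (st k).1 with hS
  have hsub : ∀ k, (st (k + 1)).1 = (st k).1 ∪ S k := fun k => by rw [stS k]
  have hR : ∀ k, (st (k + 1)).2 = Rf k (st k).2 (st k).1 := fun k => by rw [stS k]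
  have hRmono : Monotone (fun k => (st k).2) :=
    monotone_nat_of_le_succ fun k => by
      show (st k).2 ≤ (st (k + 1)).2
      rw [hR k]; exact h2 k _ _
  have hBmono : Monotone (fun k => (st k).1) :=
    monotone_nat_of_le_succ fun k => by
      show (st k).1 ≤ (st (k + 1)).1
      rw [hsub k]; exact Finset.subset_union_left
  have hlow : ∀ k d, ∀ x ∈ (st (k + d)).1, x.length ≤ (st k).2 → x ∈ (st k).1 := by
    intro k d
    induction d with
    | zero => intro x hx _; exact hx
    | succ d ih =>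
      intro x hx hl
      rw [← Nat.add_assoc, hsub (k + d)] at hx
      rcases Finset.mem_union.1 hx with hx | hx
      · exact ih x hx hl
      · have h5 := (h3 (k + d) (st (k + d)).2 (st (k + d)).1 x hx).2.1
        have h6 : (st k).2 ≤ (st (k + d)).2 := hRmono (Nat.le_add_right k d)
        omega
  refine ⟨{x | ∃ k, x ∈ S k}, S, fun k => h1 k _ _, fun x => Iff.rfl,
    fun k x hx => (h3 k _ _ x hx).1, ?_⟩
  intro k
  refine h4 k (st k).2 (st k).1 {x | ∃ k, x ∈ S k} ?_
  intro s hs
  rw [← hR k] at hs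
  constructor
  · rintro ⟨l, hl⟩
    have h5 : s ∈ (st (k + 1)).1 := by
      rcases Nat.lt_or_ge l (k + 1) with hlk | hlk
      · have : s ∈ (st (l + 1)).1 := by rw [hsub l]; exact Finset.mem_union_right _ hl
        exact hBmono (Nat.succ_le_of_lt hlk) this
      · obtain ⟨d, hd⟩ := Nat.exists_eq_add_of_le hlk
        have : s ∈ (st (k + 1 + (d + 1))).1 := by
          rw [← Nat.add_assoc, hsub (k + 1 + d), ← hd]
          exact Finset.mem_union_right _ hl
        exact hlow (k + 1) (d + 1) s this hs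
    rw [hsub k] at h5
    rcases Finset.mem_union.1 h5 with h5 | h5
    · exact Or.inl h5
    · exact Or.inr h5
  · have hst : ∀ k, ∀ s ∈ (st k).1, ∃ l, s ∈ S l := by
      intro k
      induction k with
      | zero => intro s hs; rw [st0] at hs; exact absurd hs (Finset.notMem_empty _)
      | succ k ih =>
        intro s hs
        rw [hsub k] at hs
        rcases Finset.mem_union.1 hs with hs | hs
        · exact ih s hs
        · exact ⟨k, hs⟩
    rintro (h | h)
    · exact hst k s h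
    · exact ⟨k, h⟩

theorem ND_FP_congr {S : Set (Set Str)} {F G : Set Str → Str → Str}
    (h : ∀ B ∈ S, ∀ z, F B z = G B z) (hF : FP S F) : FP S G := by
  obtain ⟨M, q, hM⟩ := hF
  exact ⟨M, q, fun B hB z => by rw [hM B hB z, h B hB z]⟩

theorem ND_countable : Countable (Polynomial ℕ) := by
  have h : Function.Injective
      (fun p : Polynomial ℕ => (List.range (p.natDegree + 1)).map p.coeff) := by
    intro p q hpq
    have hpq : (List.range (p.natDegree + 1)).map p.coeff =
        (List.range (q.natDegree + 1)).map q.coeff := hpq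
    have hl : p.natDegree = q.natDegree := by
      have := congrArg List.length hpq
      simpa using this
    ext n
    by_cases hn : n ≤ p.natDegree
    · have h1 : ((List.range (p.natDegree + 1)).map p.coeff)[n]? = some (p.coeff n) := by
        rw [List.getElem?_map, List.getElem?_range (by omega)]
        rfl
      have h2 : ((List.range (q.natDegree + 1)).map q.coeff)[n]? = some (q.coeff n) := by
        rw [List.getElem?_map, List.getElem?_range (by omega)]
        rfl
      rw [hpq, h2] at h1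
      exact (Option.some.inj h1).symm
    · rw [Polynomial.coeff_eq_zero_of_natDegree_lt (by omega),
        Polynomial.coeff_eq_zero_of_natDegree_lt (by omega)]
  exact h.countable

theorem ND_noBound (U : Interpreter) :
    ∃ B : Set Str, ¬ NoBound B (fun t : Polynomial ℕ => ndCD U B (fun n => t.eval n)) := by
  have := ND_countable
  obtain ⟨τ, hτ⟩ := exists_surjective_nat (Polynomial ℕ)
  obtain ⟨B, S, hne, hB, hfs, hS⟩ := ND_oracle U τ
  refine ⟨B, fun hNB => ?_⟩
  set f : Str → Str := fun x => if x ∈ B then fs x else [] with hf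
  have hfB : ∀ x ∈ B, f x = fs x := fun x hx => if_pos hx
  have hFP : FP {B} (fun _ => f) := by
    have L : Lib := lib
    have h1 := (tls {B}).2.1 (fun B' x => x ∈ B') (fun _ x => fs x) (fun _ _ => [])
      (L.ask L.idn) (L.fst L.idn) (L.const [])
    refine ND_FP_congr ?_ h1
    intro B' hB' z
    rw [Set.mem_singleton_iff.1 hB']
  have hunb : UnbFP B f := by
    refine ⟨hFP, fun K => ?_⟩
    obtain ⟨z, hz⟩ := hne K
    refine ⟨z, ?_⟩
    rw [hfB z ((hB z).2 ⟨K, hz⟩), hfs K z hz, List.length_replicate]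
  obtain ⟨t, ht⟩ := hNB f hunb
  obtain ⟨i, rfl⟩ := hτ t
  refine ht ?_
  refine ((Finset.range (i + 1)).biUnion S).finite_toSet.subset ?_
  intro x hx
  have hx' : ndCD U B (fun n => (τ i).eval n) x < ((f x).length : ℕ∞) := hx
  have hxB : x ∈ B := by
    by_contra hcon
    rw [hf] at hx'
    simp only [hcon, if_false, List.length_nil, Nat.cast_zero, not_lt_zero] at hx'
  obtain ⟨k, hk⟩ := (hB x).1 hxB
  rw [hfB x hxB, hfs k x hk, List.length_replicate] at hx'
  rw [Finset.mem_coe, Finset.mem_biUnion]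
  refine ⟨k, ?_, hk⟩
  rw [Finset.mem_range]
  by_contra hki
  have hik : i < k := by omega
  have hp : ∃ p : Str, p.length < k ∧ ∀ z : Str, (z = x ↔ ∃ w : Str,
      w.length ≤ (τ i).eval z.length ∧ U.run B p w z ((τ i).eval z.length) = some [true]) := by
    by_contra hcon
    push Not at hcon
    refine absurd hx' (not_lt.2 ?_)
    refine le_iInf₂ fun p hp => ?_
    by_contra hlt
    have hlt' : p.length < k := by
      rw [not_le] at hlt
      exact_mod_cast hlt
    obtain ⟨z, hz⟩ := hcon p hlt'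
    have hpz := hp z
    rcases hz with ⟨h1, h2⟩ | ⟨h1, h2⟩
    · obtain ⟨w, hw, hr⟩ := hpz.1 h1
      exact h2 w hw hr
    · exact h1 (hpz.2 h2)
  obtain ⟨p, hpk, hp⟩ := hp
  obtain ⟨z, hz, hzx, hza⟩ := hS k p hpk i hik x hk ((hp x).1 rfl)
  exact hzx ((hp z).2 hza)

theorem ND_finSub (U : Interpreter) (B : Set Str) :
    FinSub (fun t : Polynomial ℕ => ndCD U B (fun n => t.eval n)) := by
  intro t K
  refine FSC_gen (fun x => {p : Str | ∀ z : Str,
      (z = x ↔ ∃ w : Str, w.length ≤ t.eval z.length ∧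
        U.run B p w z (t.eval z.length) = some [true])}) ?_ K
  intro p x x' h h'
  exact (h' x).2 ((h x).1 rfl)

/-- Relative to some oracle, Q1 for nondeterministic distinguishing programs fails by every
computable margin. -/
theorem ndFails (U : Interpreter) (hU : Effective U) :
    ∃ B : Set Str, ∀ h : ℕ → ℕ, Computes B h → ∃ A : Set Str, InE B A ∧ ¬ InP B A ∧
      ∃ t : Polynomial ℕ, ∀ t' : Polynomial ℕ, ∀ᶠ x in Filter.cofinite, ∃ k : ℕ,
        ic U B (fun n => t.eval n) x A = k ∧ (h k : ℕ∞) < ndCD U B (fun n => t'.eval n) x := by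
  obtain ⟨B, hB⟩ := ND_noBound U
  refine ⟨B, fun h hh => ?_⟩
  have hT := gap U hU B _ (fun t : Polynomial ℕ => ndCD U B (fun n => t.eval n))
    (ND_finSub U B)
  have hW : ¬ Weakest U B (fun t : Polynomial ℕ => ndCD U B (fun n => t.eval n)) :=
    fun hw => hB ((hT.out 1 3).1 hw)
  by_contra hcon
  refine hW ⟨h, hh, fun A hA hP t => ?_⟩
  by_contra hcon2
  refine hcon ⟨A, hA, hP, t, fun t' => ?_⟩
  have h1 : {x | ∀ k : ℕ, ic U B (fun n => t.eval n) x A = k →
      ndCD U B (fun n => t'.eval n) x ≤ h k}.Finite := by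
    by_contra h3
    exact hcon2 ⟨t', h3⟩
  have h2 := h1.eventually_cofinite_notMem
  filter_upwards [h2] with x hx
  by_contra h4
  refine hx fun k hk => ?_
  by_contra h5
  exact h4 ⟨k, hk, not_le.1 h5⟩

end Pool.GL
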